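import Pool.Agent.Run7.h749.Defs

/-!
# Adjacency in the graph of an arrangement
-/

namespace Run7.h749

namespace Arr

variable {A : Arr} {g : ℕ}

/-- Adjacency. -/
def Aj (A : Arr) (g : ℕ) (u v : Vx) : Prop := A.Ed g u v ∨ A.Ed g v u

theorem Aj.symm {u v : Vx} (h : A.Aj g u v) : A.Aj g v u := Or.symm h

theorem aj_comm {u v : Vx} : A.Aj g u v ↔ A.Aj g v u := ⟨Or.symm, Or.symm⟩

theorem Ok.cr_comm (hA : A.Ok) (a b : Ln) : A.cr a b = A.cr b a := by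
  unfold cr
  by_cases h : a.1 = b.1
  · rw [if_pos h, if_pos h.symm, h, hA.xsymm]
  · rw [if_neg h, if_neg (Ne.symm h)]

theorem Ok.sl_lt (hA : A.Ok) {a b : Ln} (ha : A.IsL a) (hb : A.IsL b) (hc : A.cr a b = true) :
    A.sl a b < A.S := by
  unfold cr at hc
  unfold sl
  by_cases h : a.1 = b.1
  · rw [if_pos h] at hc ⊢
    exact hA.sslt _ _ _ hc
  · rw [if_neg h]
    refine hA.sdlt _ _ _ ha ?_
    have : (!a.1) = b.1 := by
      cases h1 : a.1 <;> cases h2 : b.1 <;> simp_all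
    rw [this]
    exact hb

theorem pos_le {s r : ℕ} (hs : s < A.S) (hr : r ≤ 2) : pos g s r + g ≤ A.N g := by
  unfold pos N
  calc g * (3 * s + r + 1) + g = g * (3 * s + r + 1 + 1) := by ring
    _ ≤ g * (3 * A.S + 1) := Nat.mul_le_mul_left _ (by omega)

theorem le_pos (s r : ℕ) : g ≤ pos g s r := by
  unfold pos
  exact Nat.le_mul_of_pos_right _ (by omega)

theorem pos_lt {s s' r r' : ℕ} (h : s < s') (hr : r ≤ 2) : pos g s r + g ≤ pos g s' r' := by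
  unfold pos
  calc g * (3 * s + r + 1) + g = g * (3 * s + r + 1 + 1) := by ring
    _ ≤ g * (3 * s' + r' + 1) := Nat.mul_le_mul_left _ (by omega)

theorem pos_succ (s r : ℕ) : pos g s (r + 1) = pos g s r + g := by
  unfold pos; ring

theorem pos_mono {s r r' : ℕ} (h : r ≤ r') : pos g s r ≤ pos g s r' := by
  unfold pos
  exact Nat.mul_le_mul_left _ (by omega)

/-- The position on `a` of the strand `r` of `b`, as a position number. -/
theorem zp_eq (a b : Ln) (r : ℕ) : ∃ r' , A.zp g a b r = pos g (A.sl a b) r' ∧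
    (r < 3 → r' < 3) := by
  unfold zp
  split_ifs
  · exact ⟨0, rfl, fun _ => by omega⟩
  · exact ⟨2 - r, rfl, fun _ => by omega⟩
  · exact ⟨r, rfl, id⟩

theorem aj_st_st (hA : A.Ok) {c a e i c' a' e' i'} (h : A.Aj g (.st c a e i) (.st c' a' e' i')) :
    (c = c' ∧ a = a' ∧ e = e' ∧ (i' = i + 1 ∨ i = i' + 1)) ∨
    (((c, a) : Ln) ≠ (c', a') ∧ A.IsL (c, a) ∧ A.IsL (c', a') ∧ A.cr (c, a) (c', a') = true ∧
      e < 3 ∧ e' < 3 ∧
      i = ix e (A.zp g (c, a) (c', a') e') ∧ i' = ix e' (A.zp g (c', a') (c, a) e)) := by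
  rcases h with h | h
  · cases h with
    | str _ _ _ _ h1 h2 h3 => exact Or.inl ⟨rfl, rfl, rfl, Or.inl rfl⟩
    | crs a b e f h1 h2 h3 h4 h5 h6 h7 =>
      exact Or.inr ⟨h3, h1, h2, h4, h6, h7, rfl, rfl⟩
  · cases h with
    | str _ _ _ _ h1 h2 h3 => exact Or.inl ⟨rfl, rfl, rfl, Or.inr rfl⟩
    | crs a b e f h1 h2 h3 h4 h5 h6 h7 =>
      refine Or.inr ⟨Ne.symm h3, h2, h1, ?_, h7, h6, rfl, rfl⟩
      rw [hA.cr_comm]; exact h4

theorem aj_st_ti {c a e i c' a' e' j d k} (h : A.Aj g (.st c a e i) (.ti c' a' e' j d k)) :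
    c = c' ∧ a = a' ∧ j < A.N g ∧ d < 2 ∧ (e' = 0 ∨ e' = 2) ∧
      ((e = 1 ∧ k = 0 ∧ i = 4 * j + 1 + 2 * d) ∨ (e = e' ∧ k = g - 1 ∧ i = j + 1 - d)) := by
  rcases h with h | h
  · cases h
  · cases h with
    | ti0 _ _ _ _ _ h1 h2 h3 h4 => exact ⟨rfl, rfl, h3, h4, h2, Or.inl ⟨rfl, rfl, rfl⟩⟩
    | ti1 _ _ _ _ _ h1 h2 h3 h4 => exact ⟨rfl, rfl, h3, h4, h2, Or.inr ⟨rfl, rfl, rfl⟩⟩

theorem aj_ti_ti {c a e i d k c' a' e' i' d' k'}
    (h : A.Aj g (.ti c a e i d k) (.ti c' a' e' i' d' k')) :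
    c = c' ∧ a = a' ∧ e = e' ∧ i = i' ∧ d = d' ∧ (k' = k + 1 ∨ k = k' + 1) := by
  rcases h with h | h
  · cases h with
    | tim _ _ _ _ _ _ h1 h2 h3 h4 h5 => exact ⟨rfl, rfl, rfl, rfl, rfl, Or.inl rfl⟩
  · cases h with
    | tim _ _ _ _ _ _ h1 h2 h3 h4 h5 => exact ⟨rfl, rfl, rfl, rfl, rfl, Or.inr rfl⟩

theorem aj_st_rg {c a e i b j} (h : A.Aj g (.st c a e i) (.rg b j)) :
    b = false ∧ e < 3 ∧ ((i = 0 ∧ j = g * A.kS (c, a) e) ∨
      (i = ix e (A.N g) ∧ j = g * A.kE (c, a) e)) := by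
  rcases h with h | h
  · cases h with
    | ends a e h1 h2 => exact ⟨rfl, h2, Or.inl ⟨rfl, rfl⟩⟩
    | ende a e h1 h2 => exact ⟨rfl, h2, Or.inr ⟨rfl, rfl⟩⟩
  · cases h

theorem not_aj_ti_rg {c a e i d k b j} : ¬ A.Aj g (.ti c a e i d k) (.rg b j) := by
  rintro (h | h) <;> cases h

theorem not_aj_ti_sp {c a e i d k b j} : ¬ A.Aj g (.ti c a e i d k) (.sp b j) := by
  rintro (h | h) <;> cases h

theorem not_aj_st_sp {c a e i b j} : ¬ A.Aj g (.st c a e i) (.sp b j) := by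
  rintro (h | h) <;> cases h

theorem aj_rg_rg {b j b' j'} (h : A.Aj g (.rg b j) (.rg b' j')) :
    b = b' ∧ (j' = (j + 1) % A.M g ∨ j = (j' + 1) % A.M g) := by
  rcases h with h | h
  · cases h with
    | rng _ _ h1 => exact ⟨rfl, Or.inl rfl⟩
  · cases h with
    | rng _ _ h1 => exact ⟨rfl, Or.inr rfl⟩

theorem aj_rg_sp {b j k i} (h : A.Aj g (.rg b j) (.sp k i)) :
    j = g * k + 1 ∧ ((b = false ∧ i = 0) ∨ (b = true ∧ i = g - 1)) := by
  rcases h with h | h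
  · cases h
  · cases h with
    | spi _ h1 => exact ⟨rfl, Or.inl ⟨rfl, rfl⟩⟩
    | spo _ h1 => exact ⟨rfl, Or.inr ⟨rfl, rfl⟩⟩

theorem aj_sp_sp {k j k' j'} (h : A.Aj g (.sp k j) (.sp k' j')) : k = k' := by
  rcases h with h | h
  · cases h with
    | spm _ _ h1 => rfl
  · cases h with
    | spm _ _ h1 => rfl

end Arr

end Run7.h749
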