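import Pool.Agent.Run7.h749.Stm

/-!
# The arrangement of a program can be computed in polynomial time
-/

namespace Pool.Agent.NPC.H749

open Run7.h749 Pool.Agent.NPC.ER Pool.Agent.NPC.ER.Oslp Pool.Agent.NPC.ER.Sgn

set_option maxHeartbeats 400000

section

variable {α : Type} [TEnc α] {P : α → List Ins} {i j r k z z' a b : α → ℕ}
  {c : α → ℕ × ℕ × ℕ × ℕ} {B : α → Bool}

theorem poly_len (hP : Poly P) : Poly (fun x => (P x).length) := Poly.length hP

theorem poly_G (hP : Poly P) : Poly (fun x => G (P x)) := by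
  unfold G
  exact Poly.add (poly_len hP) (Poly.const _)

theorem poly_T (hP : Poly P) : Poly (fun x => Run7.h749.T (P x)) := by
  unfold Run7.h749.T
  exact Poly.mul (Poly.const _) (poly_G hP)

theorem poly_sp (hP : Poly P) (ha : Poly a) : Poly (fun x => sp (P x) (a x)) := by
  unfold sp
  have := poly_len hP
  repeat' with_reducible first
    | assumption
    | exact Poly.const _
    | refine Poly.ite ?_ ?_ ?_
    | refine Poly.decide_eq ?_ ?_
    | refine Poly.add ?_ ?_
    | refine Poly.sub ?_ ?_
    | refine Poly.mul ?_ ?_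

theorem poly_qq (hB : Poly B) (hz : Poly z) (hz' : Poly z') :
    Poly (fun x => qq (B x) (z x) (z' x)) := by
  unfold qq
  repeat' with_reducible first
    | assumption
    | exact Poly.const _
    | refine Poly.ite ?_ ?_ ?_
    | refine Poly.decide_eq ?_ ?_

theorem poly_vl (hc : Poly c) (hk : Poly k) (hz : Poly z) :
    Poly (fun x => vl (c x) (k x) (z x)) := by
  unfold vl
  repeat' with_reducible first
    | assumption
    | exact Poly.const _
    | refine Poly.ite ?_ ?_ ?_
    | refine Poly.decide_eq ?_ ?_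
    | refine Poly.fst ?_
    | refine Poly.snd ?_

theorem poly_hs (hP : Poly P) (hc : Poly c) (hk : Poly k) (hb : Poly b) (hz : Poly z) :
    Poly (fun x => hs (P x) (c x) (k x) (b x) (z x)) := by
  unfold hs
  have := poly_vl hc hk hz
  repeat' with_reducible first
    | assumption
    | exact Poly.const _
    | refine Poly.ite ?_ ?_ ?_
    | refine Poly.decide_or ?_ ?_
    | refine Poly.decide_and ?_ ?_
    | refine Poly.decide_not ?_
    | refine Poly.decide_eq ?_ ?_
    | refine Poly.add ?_ ?_
    | refine Poly.mul ?_ ?_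
    | refine poly_sp ?_ ?_

theorem poly_blk (hj : Poly j) : Poly (fun x => blk (j x)) := by
  unfold blk
  exact Poly.div (Poly.sub hj (Poly.const _)) (Poly.const _)

theorem poly_bpo (hj : Poly j) : Poly (fun x => bpo (j x)) := by
  unfold bpo
  exact Poly.mod (Poly.sub hj (Poly.const _)) (Poly.const _)

theorem poly_kof (hP : Poly P) (hj : Poly j) : Poly (fun x => kof (P x) (j x)) := by
  unfold kof
  exact Poly.sub (Poly.sub (poly_G hP) (Poly.const _)) (poly_blk hj)

theorem poly_opd (hP : Poly P) (hk : Poly k) : Poly (fun x => opd (P x) (k x)) := by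
  unfold opd
  refine Poly.ite (Poly.decide_lt hk (Poly.const _)) (Poly.const _) ?_
  refine (Poly.optCases (h := fun _ b => b) (Poly.getElem? hP (Poly.sub hk (Poly.const 2)))
    (Poly.const (none : Ins)) (Poly.snd Poly.id)).congr fun x => ?_
  cases (P x)[k x - 2]? <;> rfl

theorem poly_opc (hP : Poly P) (hj : Poly j) : Poly (fun x => opc (P x) (j x)) := by
  unfold opc
  exact poly_opd hP (poly_kof hP hj)

theorem poly_inS (hP : Poly P) (hj : Poly j) : Poly (fun x => inS (P x) (j x)) := by
  unfold inS
  have h1 := poly_bpo hj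
  have h2 := poly_G hP
  have h3 : Poly (fun x => (opc (P x) (j x)).isSome) := by
    refine (Poly.optCases (h := fun _ _ => true) (poly_opc hP hj)
      (Poly.const false) (Poly.const true)).congr fun x => ?_
    cases opc (P x) (j x) <;> rfl
  repeat' with_reducible first
    | assumption
    | exact Poly.const _
    | refine Poly.and ?_ ?_
    | refine Poly.not ?_
    | refine Poly.decide_eq ?_ ?_
    | refine Poly.decide_le ?_ ?_
    | refine Poly.decide_lt ?_ ?_
    | refine Poly.add ?_ ?_
    | refine Poly.mul ?_ ?_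
    | refine Poly.mod ?_ ?_

theorem poly_same (hi : Poly i) (hj : Poly j) : Poly (fun x => same (i x) (j x)) := by
  unfold same
  have h1 := poly_bpo hj
  have h2 := poly_bpo hi
  have h3 := poly_blk hj
  have h4 := poly_blk hi
  repeat' with_reducible first
    | assumption
    | exact Poly.const _
    | refine Poly.and ?_ ?_
    | refine Poly.decide_eq ?_ ?_
    | refine Poly.div ?_ ?_

theorem poly_cs (hP : Poly P) (hj : Poly j) (hz : Poly z) (hz' : Poly z') :
    Poly (fun x => cs (P x) (j x) (z x) (z' x)) := by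
  have hk := poly_kof hP hj
  have hb := poly_bpo hj
  have f1 : Poly (fun p : α × (ℕ × ℕ × ℕ × ℕ) => P p.1) := hP.comp (Poly.fst Poly.id)
  have f2 : Poly (fun p : α × (ℕ × ℕ × ℕ × ℕ) => kof (P p.1) (j p.1)) := hk.comp (Poly.fst Poly.id)
  have f3 : Poly (fun p : α × (ℕ × ℕ × ℕ × ℕ) => bpo (j p.1) / 5) :=
    Poly.div (hb.comp (Poly.fst Poly.id)) (Poly.const _)
  have f4 : Poly (fun p : α × (ℕ × ℕ × ℕ × ℕ) => z p.1) := hz.comp (Poly.fst Poly.id)
  have f5 : Poly (fun p : α × (ℕ × ℕ × ℕ × ℕ) => z' p.1) := hz'.comp (Poly.fst Poly.id)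
  have f6 : Poly (fun p : α × (ℕ × ℕ × ℕ × ℕ) => decide (p.2.1 = 0)) :=
    Poly.decide_eq (Poly.fst (Poly.snd Poly.id)) (Poly.const _)
  refine (Poly.optCases (h := fun x c => hs (P x) c (kof (P x) (j x)) (bpo (j x) / 5)
    (qq (decide (c.1 = 0)) (z x) (z' x))) (poly_opc hP hj) (Poly.const 0)
    (poly_hs f1 (Poly.snd Poly.id) f2 f3 (poly_qq f6 f4 f5))).congr fun x => ?_
  unfold cs
  cases opc (P x) (j x) <;> rfl

theorem poly_posz (hP : Poly P) (hr : Poly r) (hj : Poly j) :
    Poly (fun x => posz (P x) (r x) (j x)) := by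
  unfold posz
  have hb := poly_bpo hj
  repeat' with_reducible first
    | assumption
    | exact Poly.const _
    | refine Poly.ite ?_ ?_ ?_
    | refine Poly.decide_or ?_ ?_
    | refine Poly.decide_and ?_ ?_
    | refine Poly.decide_lt ?_ ?_
    | refine Poly.add ?_ ?_
    | refine Poly.mul ?_ ?_
    | refine Poly.mod ?_ ?_
    | refine poly_cs ?_ ?_ ?_ ?_

theorem poly_mr (hP : Poly P) : Poly (fun x => mr (P x)) := by
  unfold mr
  exact Poly.add (Poly.mul (Poly.const _) (poly_T hP)) (Poly.const _)

theorem poly_mc (hP : Poly P) : Poly (fun x => mc (P x)) := by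
  unfold mc
  exact Poly.add (Poly.mul (Poly.const _) (poly_G hP)) (Poly.const _)

theorem poly_isR (hP : Poly P) (hi : Poly i) : Poly (fun x => isR (P x) (i x)) := by
  unfold isR
  have := poly_T hP
  repeat' with_reducible first
    | assumption
    | exact Poly.const _
    | refine Poly.and ?_ ?_
    | refine Poly.decide_lt ?_ ?_
    | refine Poly.decide_le ?_ ?_
    | refine Poly.add ?_ ?_
    | refine Poly.mul ?_ ?_

theorem poly_xr (hP : Poly P) (hi : Poly i) (hj : Poly j) :
    Poly (fun x => xr (P x) (i x) (j x)) := by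
  unfold xr
  have h1 := poly_isR hP hi
  have h2 := poly_isR hP hj
  repeat' with_reducible first
    | assumption
    | exact Poly.const _
    | refine Poly.and ?_ ?_
    | refine Poly.or ?_ ?_
    | refine Poly.decide_lt ?_ ?_
    | refine Poly.decide_eq ?_ ?_
    | refine Poly.mod ?_ ?_

theorem poly_xc (hP : Poly P) (hi : Poly i) (hj : Poly j) :
    Poly (fun x => xc (P x) (i x) (j x)) := by
  unfold xc
  exact Poly.and (Poly.and (Poly.and (poly_inS hP hi) (poly_inS hP hj)) (poly_same hi hj))
    (Poly.not (Poly.decide_eq hi hj))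

theorem poly_str (hP : Poly P) (hi : Poly i) : Poly (fun x => str (P x) (i x)) := by
  unfold str
  have h1 := poly_isR hP hi
  have h2 := poly_T hP
  repeat' with_reducible first
    | assumption
    | exact Poly.const _
    | refine Poly.ite ?_ ?_ ?_
    | refine Poly.decide_eq ?_ ?_
    | refine Poly.add ?_ ?_
    | refine Poly.sub ?_ ?_
    | refine Poly.div ?_ ?_
    | refine Poly.mod ?_ ?_

theorem poly_stc (hP : Poly P) (hj : Poly j) : Poly (fun x => stc (P x) (j x)) := by
  unfold stc
  have h1 := poly_inS hP hj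
  have h2 := poly_bpo hj
  repeat' with_reducible first
    | assumption
    | exact Poly.const _
    | refine Poly.ite ?_ ?_ ?_
    | refine Poly.decide_eq ?_ ?_
    | refine Poly.add ?_ ?_
    | refine Poly.sub ?_ ?_
    | refine Poly.mul ?_ ?_
    | refine Poly.mod ?_ ?_

theorem poly_ssr (hP : Poly P) (hi : Poly i) (hj : Poly j) :
    Poly (fun x => ssr (P x) (i x) (j x)) := by
  unfold ssr
  have h2 := poly_T hP
  repeat' with_reducible first
    | assumption
    | exact Poly.const _
    | refine Poly.ite ?_ ?_ ?_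
    | refine Poly.decide_eq ?_ ?_
    | refine Poly.add ?_ ?_
    | refine Poly.sub ?_ ?_
    | refine Poly.div ?_ ?_
    | refine Poly.mod ?_ ?_

theorem poly_ssc (hP : Poly P) (hi : Poly i) (hj : Poly j) :
    Poly (fun x => ssc (P x) (i x) (j x)) := by
  unfold ssc
  have h1 := poly_bpo hi
  have h2 := poly_bpo hj
  repeat' with_reducible first
    | assumption
    | exact Poly.const _
    | refine Poly.ite ?_ ?_ ?_
    | refine Poly.decide_lt ?_ ?_
    | refine Poly.mod ?_ ?_
    | refine poly_cs ?_ ?_ ?_ ?_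

theorem poly_sdr (hP : Poly P) (hi : Poly i) (hj : Poly j) :
    Poly (fun x => sdr (P x) (i x) (j x)) := by
  unfold sdr
  have h1 := poly_inS hP hj
  have h2 := poly_bpo hj
  have h3 := poly_T hP
  have h4 := poly_posz hP hi hj
  repeat' with_reducible first
    | assumption
    | exact Poly.const _
    | refine Poly.ite ?_ ?_ ?_
    | refine Poly.decide_lt ?_ ?_
    | refine Poly.decide_eq ?_ ?_
    | refine Poly.add ?_ ?_
    | refine Poly.sub ?_ ?_
    | refine Poly.mod ?_ ?_

theorem poly_sdc (hP : Poly P) (hi : Poly i) (hj : Poly j) :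
    Poly (fun x => sdc (P x) (i x) (j x)) := by
  unfold sdc
  have h3 := poly_str hP hj
  repeat' with_reducible first
    | assumption
    | exact Poly.const _
    | refine Poly.ite ?_ ?_ ?_
    | refine Poly.decide_lt ?_ ?_
    | refine Poly.add ?_ ?_
    | refine Poly.mul ?_ ?_

end

section

variable {α : Type} [TEnc α] {P : α → List Ins} {i j r k e : α → ℕ} {c : α → Bool} {x y : α → Ln}

theorem poly_m (hP : Poly P) (hc : Poly c) : Poly (fun q => (arrOf (P q)).m (c q)) := by
  show Poly (fun q => if c q = true then mc (P q) else mr (P q))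
  exact Poly.ite (Poly.decide_eq hc (Poly.const _)) (poly_mc hP) (poly_mr hP)

theorem poly_S (hP : Poly P) : Poly (fun q => (arrOf (P q)).S) := by
  show Poly (fun q => mc (P q) + Run7.h749.T (P q) + 2 * mr (P q))
  exact Poly.add (Poly.add (poly_mc hP) (poly_T hP)) (Poly.mul (Poly.const _) (poly_mr hP))

theorem poly_x (hP : Poly P) (hc : Poly c) (hi : Poly i) (hj : Poly j) :
    Poly (fun q => (arrOf (P q)).x (c q) (i q) (j q)) := by
  show Poly (fun q => if c q = true then xc (P q) (i q) (j q) else xr (P q) (i q) (j q))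
  exact Poly.ite (Poly.decide_eq hc (Poly.const _)) (poly_xc hP hi hj) (poly_xr hP hi hj)

theorem poly_ss (hP : Poly P) (hc : Poly c) (hi : Poly i) (hj : Poly j) :
    Poly (fun q => (arrOf (P q)).ss (c q) (i q) (j q)) := by
  show Poly (fun q => if c q = true then ssc (P q) (i q) (j q) else ssr (P q) (i q) (j q))
  exact Poly.ite (Poly.decide_eq hc (Poly.const _)) (poly_ssc hP hi hj) (poly_ssr hP hi hj)

theorem poly_sd (hP : Poly P) (hc : Poly c) (hi : Poly i) (hj : Poly j) :
    Poly (fun q => (arrOf (P q)).sd (c q) (i q) (j q)) := by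
  show Poly (fun q => if c q = true then sdc (P q) (i q) (j q) else sdr (P q) (i q) (j q))
  exact Poly.ite (Poly.decide_eq hc (Poly.const _)) (poly_sdc hP hi hj) (poly_sdr hP hi hj)

theorem poly_st (hP : Poly P) (hc : Poly c) (hi : Poly i) :
    Poly (fun q => (arrOf (P q)).st (c q) (i q)) := by
  show Poly (fun q => if c q = true then stc (P q) (i q) else str (P q) (i q))
  exact Poly.ite (Poly.decide_eq hc (Poly.const _)) (poly_stc hP hi) (poly_str hP hi)

theorem poly_nn (hP : Poly P) : Poly (fun q => (arrOf (P q)).nn) := by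
  unfold Arr.nn
  exact Poly.add (poly_m hP (Poly.const _)) (poly_m hP (Poly.const _))

theorem poly_isL (hP : Poly P) (hx : Poly x) :
    Poly (fun q => decide ((arrOf (P q)).IsL (x q))) := by
  refine (Poly.decide_lt (Poly.snd hx) (poly_m hP (Poly.fst hx))).congr fun q => ?_
  rw [Bool.eq_iff_iff, decide_eq_true_iff, decide_eq_true_iff]
  exact Iff.rfl

theorem poly_re (hP : Poly P) (hx : Poly x) :
    Poly (fun q => decide ((arrOf (P q)).Re (x q))) := by
  refine (Poly.decide_and (Poly.decide_le (Poly.const 2) (Poly.snd hx)) (Poly.decide_lt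
    (Poly.add (Poly.snd hx) (Poly.const 2)) (poly_m hP (Poly.fst hx)))).congr fun q => ?_
  rw [Bool.eq_iff_iff, decide_eq_true_iff, decide_eq_true_iff]
  exact Iff.rfl

theorem poly_cr (hP : Poly P) (hx : Poly x) (hy : Poly y) :
    Poly (fun q => (arrOf (P q)).cr (x q) (y q)) := by
  unfold Arr.cr
  exact Poly.ite (Poly.decide_eq (Poly.fst hx) (Poly.fst hy))
    (poly_x hP (Poly.fst hx) (Poly.snd hx) (Poly.snd hy)) (Poly.const _)

theorem poly_sl (hP : Poly P) (hx : Poly x) (hy : Poly y) :
    Poly (fun q => (arrOf (P q)).sl (x q) (y q)) := by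
  unfold Arr.sl
  exact Poly.ite (Poly.decide_eq (Poly.fst hx) (Poly.fst hy))
    (poly_ss hP (Poly.fst hx) (Poly.snd hx) (Poly.snd hy))
    (poly_sd hP (Poly.fst hx) (Poly.snd hx) (Poly.snd hy))

theorem poly_rk (hP : Poly P) (hx : Poly x) : Poly (fun q => (arrOf (P q)).rk (x q)) := by
  unfold Arr.rk
  have h1 := poly_nn hP
  exact Poly.add (Poly.add (Poly.ite (poly_re hP hx) (Poly.const _) (Poly.mul (Poly.const _) h1))
    (Poly.ite (Poly.decide_eq (Poly.fst hx) (Poly.const _)) h1 (Poly.const _))) (Poly.snd hx)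

theorem poly_rv (hx : Poly x) (hy : Poly y) : Poly (fun q => rv (x q) (y q)) := by
  unfold rv
  exact Poly.decide_and (Poly.decide_eq (Poly.fst hx) (Poly.fst hy))
    (Poly.decide_lt (Poly.snd hx) (Poly.snd hy))

theorem poly_pos (g : ℕ) (hi : Poly i) (hr : Poly r) : Poly (fun q => Run7.h749.pos g (i q) (r q)) := by
  unfold Run7.h749.pos
  exact Poly.mul (Poly.const _) (Poly.add (Poly.add (Poly.mul (Poly.const _) hi) hr)
    (Poly.const _))

theorem poly_ix (he : Poly e) (hi : Poly i) : Poly (fun q => ix (e q) (i q)) := by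
  unfold ix
  exact Poly.ite (Poly.decide_eq he (Poly.const _)) (Poly.mul (Poly.const _) hi) hi

theorem poly_N (hP : Poly P) (g : ℕ) : Poly (fun q => (arrOf (P q)).N g) := by
  unfold Arr.N
  exact Poly.mul (Poly.const _) (Poly.add (Poly.mul (Poly.const _) (poly_S hP)) (Poly.const _))

theorem poly_M (hP : Poly P) (g : ℕ) : Poly (fun q => (arrOf (P q)).M g) := by
  unfold Arr.M
  exact Poly.mul (Poly.mul (Poly.const _) (poly_nn hP)) (Poly.const _)

theorem poly_zp (hP : Poly P) (g : ℕ) (hx : Poly x) (hy : Poly y) (hr : Poly r) :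
    Poly (fun q => (arrOf (P q)).zp g (x q) (y q) (r q)) := by
  unfold Arr.zp
  have h1 := poly_sl hP hx hy
  exact Poly.ite (Poly.decide_lt (poly_rk hP hx) (poly_rk hP hy)) (poly_pos g h1 (Poly.const _))
    (poly_pos g h1 (Poly.ite (Poly.decide_eq (poly_rv hx hy) (Poly.const _))
      (Poly.sub (Poly.const _) hr) hr))

theorem poly_kS (hP : Poly P) (hx : Poly x) (he : Poly e) :
    Poly (fun q => (arrOf (P q)).kS (x q) (e q)) := by
  unfold Arr.kS
  have h1 : Poly (fun q => (arrOf (P q)).m false) := poly_m hP (Poly.const _)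
  have h2 : Poly (fun q => (arrOf (P q)).m true) := poly_m hP (Poly.const _)
  have h3 : Poly (fun q => (arrOf (P q)).st false (x q).2) :=
    poly_st hP (Poly.const _) (Poly.snd hx)
  have h4 : Poly (fun q => (arrOf (P q)).st true (x q).2) :=
    poly_st hP (Poly.const _) (Poly.snd hx)
  have h5 : Poly (fun q => (x q).1) := Poly.fst hx
  repeat' with_reducible first
    | assumption
    | exact Poly.const _
    | refine Poly.ite ?_ ?_ ?_
    | refine Poly.decide_eq ?_ ?_
    | refine Poly.add ?_ ?_
    | refine Poly.sub ?_ ?_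
    | refine Poly.mul ?_ ?_

theorem poly_kE (hP : Poly P) (hx : Poly x) (he : Poly e) :
    Poly (fun q => (arrOf (P q)).kE (x q) (e q)) := by
  unfold Arr.kE
  have h1 : Poly (fun q => (arrOf (P q)).m false) := poly_m hP (Poly.const _)
  have h2 : Poly (fun q => (arrOf (P q)).m true) := poly_m hP (Poly.const _)
  have h5 : Poly (fun q => (x q).1) := Poly.fst hx
  have h6 : Poly (fun q => (x q).2) := Poly.snd hx
  repeat' with_reducible first
    | assumption
    | exact Poly.const _
    | refine Poly.ite ?_ ?_ ?_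
    | refine Poly.decide_eq ?_ ?_
    | refine Poly.add ?_ ?_
    | refine Poly.sub ?_ ?_
    | refine Poly.mul ?_ ?_

/-! ### Unary bounds -/

theorem upoly_G : UPoly (fun p : List Ins => G p) := by
  unfold G
  exact UPoly.add (UPoly.length Poly.id) (UPoly.const _)

theorem upoly_mc : UPoly (fun p : List Ins => mc p) := by
  unfold mc
  exact UPoly.add (UPoly.mul (UPoly.const _) upoly_G) (UPoly.const _)

theorem upoly_T : UPoly (fun p : List Ins => Run7.h749.T p) := by
  unfold Run7.h749.T
  exact UPoly.mul (UPoly.const _) upoly_G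

theorem upoly_mr : UPoly (fun p : List Ins => mr p) := by
  unfold mr
  exact UPoly.add (UPoly.mul (UPoly.const _) upoly_T) (UPoly.const _)

/-- A bound for all the indices. -/
def bnd (g : ℕ) (p : List Ins) : ℕ :=
  4 * (g * (3 * (mc p + Run7.h749.T p + 2 * mr p) + 1)) + 6 * (mr p + mc p) * g + 6 * (mr p + mc p) + g + 10

theorem upoly_bnd (g : ℕ) : UPoly (bnd g) := by
  have h1 := upoly_mc
  have h2 := upoly_mr
  have h3 := upoly_T
  show UPoly (fun p => 4 * (g * (3 * (mc p + Run7.h749.T p + 2 * mr p) + 1)) + 6 * (mr p + mc p) * g +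
    6 * (mr p + mc p) + g + 10)
  repeat' with_reducible first
    | assumption
    | exact UPoly.const _
    | refine UPoly.add ?_ ?_
    | refine UPoly.mul ?_ ?_

end

end Pool.Agent.NPC.H749
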