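import Pool.Agent.Run7.h749.OkA

/-!
# The axioms for the arrangement of a program
-/

namespace Run7.h749

open Pool.Agent.NPC.ER.Oslp Pool.Agent.NPC.ER.Sgn

variable {p : List Ins}

theorem isR_iff {i : ℕ} : isR p i = true ↔ 2 ≤ i ∧ i < 2 * T p + 2 := by
  unfold isR
  simp only [Bool.and_eq_true, decide_eq_true_eq]

theorem xr_iff {i j : ℕ} : xr p i j = true ↔ isR p i = true ∧ isR p j = true ∧
    ((i < j ∧ i % 2 = 1 ∧ j % 2 = 0) ∨ (j < i ∧ j % 2 = 1 ∧ i % 2 = 0)) := by
  unfold xr
  simp only [Bool.and_eq_true, Bool.or_eq_true, decide_eq_true_eq, and_assoc]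

theorem xc_iff {i j : ℕ} : xc p i j = true ↔ inS p i = true ∧ inS p j = true ∧
    (blk i = blk j ∧ bpo i / 5 = bpo j / 5) ∧ i ≠ j := by
  unfold xc same
  simp only [Bool.and_eq_true, Bool.not_eq_true', decide_eq_false_iff_not,
    decide_eq_true_eq, and_assoc, ne_eq]

theorem cs_same {i j : ℕ} (h : blk i = blk j) (h' : bpo i / 5 = bpo j / 5) :
    cs p i = cs p j := by
  unfold cs opc kof
  rw [h, h']

theorem posz_lt (hp : WF 2 p) {j : ℕ} (hj : inS p j = true) (r : ℕ) : posz p r j < 4 := by
  rw [posz_eq hp hj]; exact pz_lt _ _ _ _ _ _ _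

theorem posz_inj (hp : WF 2 p) {i j : ℕ} (hi : inS p i = true) (hj : inS p j = true)
    (h : blk i = blk j) (h' : bpo i / 5 = bpo j / 5) {r : ℕ} (he : posz p r i = posz p r j) :
    i = j := by
  obtain ⟨i1, i2, i3, -⟩ := inS_iff.1 hi
  obtain ⟨j1, j2, j3, -⟩ := inS_iff.1 hj
  rw [posz_eq hp hi, posz_eq hp hj, cs_same h h'] at he
  have := pz_inj _ _ _ _ _ _ (cons_of (cs_tri hp hj (x := 0) (y := 1) (z := 2) (by omega)
    (by omega) (by omega))) (cons_of (cs_tri hp hj (x := 0) (y := 1) (z := 3) (by omega)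
    (by omega) (by omega))) (cons_of (cs_tri hp hj (x := 0) (y := 2) (z := 3) (by omega)
    (by omega) (by omega))) (cons_of (cs_tri hp hj (x := 1) (y := 2) (z := 3) (by omega)
    (by omega) (by omega))) _ (by omega : bpo i % 5 < 4) _ (by omega : bpo j % 5 < 4) he
  unfold bpo blk at *
  omega

theorem posz_lo (hp : WF 2 p) {j : ℕ} (hj : inS p j = true) {r : ℕ} (hr : r < 2) :
    posz p r j = 3 - bpo j % 5 := by
  obtain ⟨j1, j2, j3, -⟩ := inS_iff.1 hj
  rw [posz_eq hp hj]
  have key : ∀ x y, x < y → y < 4 → decide (cs p j x y < 2 * r + 1) = false := by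
    intro x y hx hy
    have := cs_fac hp hj hx hy
    rw [decide_eq_false_iff_not]; omega
  rw [key 0 1 (by omega) (by omega), key 0 2 (by omega) (by omega), key 0 3 (by omega) (by omega),
    key 1 2 (by omega) (by omega), key 1 3 (by omega) (by omega), key 2 3 (by omega) (by omega)]
  have hz : bpo j % 5 < 4 := by omega
  generalize bpo j % 5 = z at hz
  have hcase : z = 0 ∨ z = 1 ∨ z = 2 ∨ z = 3 := by omega
  rcases hcase with rfl | rfl | rfl | rfl <;> rfl

theorem posz_hi (hp : WF 2 p) {j : ℕ} (hj : inS p j = true) {r : ℕ} (hr : 2 * T p + 2 ≤ r) :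
    posz p r j = bpo j % 5 := by
  obtain ⟨j1, j2, j3, -⟩ := inS_iff.1 hj
  rw [posz_eq hp hj]
  have key : ∀ x y, x < y → y < 4 → decide (cs p j x y < 2 * r + 1) = true := by
    intro x y hx hy
    have := cs_fac hp hj hx hy
    rw [decide_eq_true_eq]; omega
  rw [key 0 1 (by omega) (by omega), key 0 2 (by omega) (by omega), key 0 3 (by omega) (by omega),
    key 1 2 (by omega) (by omega), key 1 3 (by omega) (by omega), key 2 3 (by omega) (by omega)]
  have hz : bpo j % 5 < 4 := by omega
  generalize bpo j % 5 = z at hz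
  have hcase : z = 0 ∨ z = 1 ∨ z = 2 ∨ z = 3 := by omega
  rcases hcase with rfl | rfl | rfl | rfl <;> rfl

/-- Left ranks of rows. -/
theorem str_fac {i : ℕ} (hi : i < mr p) : str p i < mr p ∧ (i < 2 → str p i = i) ∧
    (2 ≤ i → 2 ≤ str p i) ∧ (2 * T p + 2 ≤ i → str p i = i) ∧
    (i < 2 * T p + 2 → str p i < 2 * T p + 2) := by
  unfold str mr at *
  by_cases h : isR p i = true
  · rw [if_pos h]
    have := isR_iff.1 h
    split_ifs <;> omega
  · rw [if_neg h]
    rw [isR_iff] at h
    omega

theorem str_inj {i j : ℕ} (h : str p i = str p j) : i = j := by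
  unfold str at h
  by_cases hi : isR p i = true <;> by_cases hj : isR p j = true
  · rw [if_pos hi, if_pos hj] at h
    have := isR_iff.1 hi
    have := isR_iff.1 hj
    split_ifs at h <;> omega
  · rw [if_pos hi, if_neg hj] at h
    have := isR_iff.1 hi
    rw [isR_iff] at hj
    split_ifs at h <;> omega
  · rw [if_neg hi, if_pos hj] at h
    have := isR_iff.1 hj
    rw [isR_iff] at hi
    split_ifs at h <;> omega
  · rw [if_neg hi, if_neg hj] at h
    exact h

/-- Bottom ranks of columns. -/
theorem stc_fac (p : List Ins) (j : ℕ) : (stc p j = j ∧ inS p j = false) ∨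
    (3 ≤ j ∧ j < 3 + 10 * G p ∧ bpo j % 5 < 4 ∧ stc p j = j + 3 - 2 * (bpo j % 5) ∧
      inS p j = true) := by
  unfold stc
  by_cases h : inS p j = true
  · right
    rw [if_pos h]
    obtain ⟨h1, h2, h3, -⟩ := inS_iff.1 h
    exact ⟨h1, h2, by omega, rfl, h⟩
  · left
    rw [if_neg h]
    exact ⟨rfl, by simpa using h⟩

/-- Membership of a slab is the same for all columns of the slab. -/
theorem inS_blk {i j : ℕ} (hj : inS p j = true) (hb : blk i = blk j) (hi : 3 ≤ i)
    (h5 : bpo i % 5 ≠ 4) : inS p i = true := by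
  obtain ⟨h1, h2, h3, c, hc⟩ := inS_iff.1 hj
  refine inS_iff.2 ⟨hi, ?_, h5, c, ?_⟩
  · unfold blk at hb; omega
  · unfold opc kof at hc ⊢
    rw [hb]; exact hc

theorem stc_inj {i j : ℕ} (h : stc p i = stc p j) : i = j := by
  rcases stc_fac p i with hi | hi <;> rcases stc_fac p j with hj | hj
  · omega
  · exfalso
    by_cases h3 : 3 ≤ i ∧ bpo i % 5 ≠ 4
    · have hb : blk i = blk j := by
        unfold blk bpo at *; omega
      have := inS_blk hj.2.2.2.2 hb h3.1 h3.2
      rw [hi.2] at this
      exact absurd this (by simp)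
    · unfold bpo at *
      omega
  · exfalso
    by_cases h3 : 3 ≤ j ∧ bpo j % 5 ≠ 4
    · have hb : blk j = blk i := by
        unfold blk bpo at *; omega
      have := inS_blk hi.2.2.2.2 hb h3.1 h3.2
      rw [hj.2] at this
      exact absurd this (by simp)
    · unfold bpo at *
      omega
  · unfold bpo at *
    omega

theorem stc_lt {j : ℕ} (hj : j < mc p) : stc p j < mc p := by
  unfold mc at *
  rcases stc_fac p j with h | h
  · omega
  · unfold bpo at h; omega

theorem xc_st {i j : ℕ} (hij : i < j) : xc p i j = true ↔ stc p j < stc p i := by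
  rw [xc_iff]
  constructor
  · rintro ⟨hi, hj, ⟨h1, h2⟩, -⟩
    rcases stc_fac p i with h3 | h3
    · rw [hi] at h3; exact absurd h3.2 (by simp)
    rcases stc_fac p j with h4 | h4
    · rw [hj] at h4; exact absurd h4.2 (by simp)
    unfold blk bpo at *
    omega
  · intro h
    rcases stc_fac p i with h3 | h3 <;> rcases stc_fac p j with h4 | h4
    · omega
    · exfalso
      by_cases h5 : 3 ≤ i ∧ bpo i % 5 ≠ 4
      · have hb : blk i = blk j := by
          unfold blk bpo at *; omega
        have := inS_blk h4.2.2.2.2 hb h5.1 h5.2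
        rw [h3.2] at this
        exact absurd this (by simp)
      · unfold bpo at *
        omega
    · exfalso
      by_cases h5 : 3 ≤ j ∧ bpo j % 5 ≠ 4
      · have hb : blk j = blk i := by
          unfold blk bpo at *; omega
        have := inS_blk h3.2.2.2.2 hb h5.1 h5.2
        rw [h4.2] at this
        exact absurd this (by simp)
      · unfold bpo at *
        omega
    · refine ⟨h3.2.2.2.2, h4.2.2.2.2, ?_, by omega⟩
      unfold blk bpo at *
      omega

theorem xr_st {i j : ℕ} (hij : i < j) (hj : j < mr p) :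
    xr p i j = true ↔ str p j < str p i := by
  rw [xr_iff]
  constructor
  · rintro ⟨hi, hj, h⟩
    have h1 := isR_iff.1 hi
    have h2 := isR_iff.1 hj
    unfold str
    rw [if_pos hi, if_pos hj]
    split_ifs <;> omega
  · intro h
    have f1 := str_fac (p := p) (i := i) (by omega)
    have f2 := str_fac hj
    have hi : isR p i = true := by
      rw [isR_iff]
      omega
    have hj' : isR p j = true := by
      rw [isR_iff]
      omega
    refine ⟨hi, hj', ?_⟩
    have h1 := isR_iff.1 hi
    have h2 := isR_iff.1 hj'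
    unfold str at h
    rw [if_pos hi, if_pos hj'] at h
    split_ifs at h <;> omega

/-- The slot of a crossing of two columns. -/
theorem ssc_fac (hp : WF 2 p) {i j : ℕ} (h : xc p i j = true) :
    4 ≤ ssc p i j ∧ ssc p i j ≤ 4 * T p ∧ ssc p i j % 2 = 0 := by
  obtain ⟨hi, hj, ⟨h1, h2⟩, h3⟩ := xc_iff.1 h
  obtain ⟨i1, i2, i3, -⟩ := inS_iff.1 hi
  obtain ⟨j1, j2, j3, -⟩ := inS_iff.1 hj
  unfold ssc
  split_ifs
  · refine cs_fac hp hi ?_ (by omega)
    unfold blk bpo at *; omega
  · refine cs_fac hp hi ?_ (by omega)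
    unfold blk bpo at *; omega

theorem ssc_inj (hp : WF 2 p) {i j j' : ℕ} (h : xc p i j = true) (h' : xc p i j' = true)
    (he : ssc p i j = ssc p i j') : j = j' := by
  obtain ⟨hi, hj, ⟨h1, h2⟩, h3⟩ := xc_iff.1 h
  obtain ⟨-, hj', ⟨h1', h2'⟩, h3'⟩ := xc_iff.1 h'
  obtain ⟨i1, i2, i3, -⟩ := inS_iff.1 hi
  obtain ⟨j1, j2, j3, -⟩ := inS_iff.1 hj
  obtain ⟨k1, k2, k3, -⟩ := inS_iff.1 hj'
  by_contra hne
  have key : ∀ {j j' : ℕ}, inS p j = true → inS p j' = true → blk i = blk j → blk i = blk j' →
      bpo i / 5 = bpo j / 5 → bpo i / 5 = bpo j' / 5 → i ≠ j → i ≠ j' → j < j' →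
      ssc p i j = ssc p i j' → False := by
    intro j j' hj hj' h1 h1' h2 h2' h3 h3' hlt he
    obtain ⟨j1, j2, j3, -⟩ := inS_iff.1 hj
    obtain ⟨k1, k2, k3, -⟩ := inS_iff.1 hj'
    unfold ssc at he
    rcases lt_or_gt_of_ne h3 with h4 | h4
    · -- `i < j < j'`
      rw [if_pos h4, if_pos (by omega)] at he
      have := cs_tri hp hi (x := bpo i % 5) (y := bpo j % 5) (z := bpo j' % 5)
        (by unfold blk bpo at *; omega) (by unfold blk bpo at *; omega) (by omega)
      omega
    · rcases lt_or_gt_of_ne h3' with h5 | h5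
      · -- `j < i < j'`
        rw [if_neg (by omega), if_pos h5] at he
        have := cs_tri hp hi (x := bpo j % 5) (y := bpo i % 5) (z := bpo j' % 5)
          (by unfold blk bpo at *; omega) (by unfold blk bpo at *; omega) (by omega)
        omega
      · rw [if_neg (by omega), if_neg (by omega)] at he
        have := cs_tri hp hi (x := bpo j % 5) (y := bpo j' % 5) (z := bpo i % 5)
          (by unfold blk bpo at *; omega) (by unfold blk bpo at *; omega) (by omega)
        omega
  rcases lt_or_gt_of_ne hne with h6 | h6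
  · exact key hj hj' h1 h1' h2 h2' h3 h3' h6 he
  · exact key hj' hj h1' h1 h2' h2 h3' h3 h6 he.symm

/-- The slots of the crossings of a row with the columns. -/
theorem sdr_fac (hp : WF 2 p) (i j : ℕ) : (j < 2 ∧ sdr p i j = j) ∨
    (2 ≤ j ∧ inS p j = false ∧ sdr p i j = T p + j) ∨
    (3 ≤ j ∧ j < 3 + 10 * G p ∧ inS p j = true ∧ bpo j % 5 < 4 ∧
      sdr p i j = T p + j - bpo j % 5 + posz p i j ∧ posz p i j < 4) := by
  unfold sdr
  by_cases h : j < 2
  · left; exact ⟨h, if_pos h⟩
  · right
    rw [if_neg h]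
    by_cases h' : inS p j = true
    · right
      obtain ⟨h1, h2, h3, -⟩ := inS_iff.1 h'
      rw [if_pos h']
      exact ⟨h1, h2, h', by omega, rfl, posz_lt hp h' i⟩
    · left
      rw [if_neg h']
      exact ⟨by omega, by simpa using h', rfl⟩

/-- The slots on a row, as ranks of columns. -/
theorem sdr_inj (hp : WF 2 p) {i j j' : ℕ} (he : sdr p i j = sdr p i j') : j = j' := by
  rcases sdr_fac hp i j with ⟨h1, h2⟩ | ⟨h1, h2, h3⟩ | ⟨h1, h2, h3, h4, h5, h6⟩ <;>
    rcases sdr_fac hp i j' with ⟨k1, k2⟩ | ⟨k1, k2, k3⟩ | ⟨k1, k2, k3, k4, k5, k6⟩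
  · omega
  · omega
  · unfold bpo at *; omega
  · omega
  · omega
  · exfalso
    by_cases h3' : 3 ≤ j ∧ bpo j % 5 ≠ 4
    · have hb : blk j = blk j' := by
        unfold blk bpo at *; omega
      have := inS_blk k3 hb h3'.1 h3'.2
      rw [h2] at this
      exact absurd this (by simp)
    · unfold bpo at *
      omega
  · unfold bpo at *; omega
  · exfalso
    by_cases h3' : 3 ≤ j' ∧ bpo j' % 5 ≠ 4
    · have hb : blk j' = blk j := by
        unfold blk bpo at *; omega
      have := inS_blk h3 hb h3'.1 h3'.2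
      rw [k2] at this
      exact absurd this (by simp)
    · unfold bpo at *
      omega
  · by_cases hb : blk j = blk j' ∧ bpo j / 5 = bpo j' / 5
    · refine posz_inj hp h3 k3 hb.1 hb.2 (r := i) ?_
      unfold blk bpo at *
      omega
    · exfalso
      unfold blk bpo at *
      omega

/-- **The axioms hold.** -/
theorem ok_arrOf : ∀ p : List Ins, WF 2 p → (arrOf p).Ok := by
  intro p hp
  have hT : T p = 2 * (p.length + 2) := rfl
  have hG : G p = p.length + 2 := rfl
  have hmr : mr p = 2 * T p + 4 := rfl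
  have hmc : mc p = 10 * G p + 5 := rfl
  have rowRe : ∀ i, isR p i = true → (arrOf p).Re (false, i) := by
    intro i h
    have := isR_iff.1 h
    show 2 ≤ i ∧ i + 2 < mr p
    omega
  have colRe : ∀ i, inS p i = true → (arrOf p).Re (true, i) := by
    intro i h
    obtain ⟨h1, h2, -⟩ := inS_iff.1 h
    show 2 ≤ i ∧ i + 2 < mc p
    omega
  have hS : (arrOf p).S = mc p + T p + 2 * mr p := rfl
  have ssrb : ∀ i j, xr p i j = true → 2 ≤ ssr p i j ∧ ssr p i j ≤ T p + 1 := by
    intro i j h
    obtain ⟨h1, h2, h3⟩ := xr_iff.1 h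
    have := isR_iff.1 h1
    have := isR_iff.1 h2
    unfold ssr
    split_ifs <;> omega
  have sdrb : ∀ i j, j < mc p → sdr p i j < mc p + T p := by
    intro i j hj
    rcases sdr_fac hp i j with ⟨h1, h2⟩ | ⟨h1, h2, h3⟩ | ⟨h1, h2, h3, h4, h5, h6⟩
    · omega
    · omega
    · unfold bpo at *; omega
  refine ⟨?_, ?_, ?_, ?_, ?_, ?_, ?_, ?_, ?_, ?_, ?_, ?_, ?_, ?_, ?_, ?_, ?_, ?_, ?_⟩
  · -- five
    intro c
    cases c
    · show 5 ≤ mr p; omega
    · show 5 ≤ mc p; omega
  · -- xre
    intro c i j h
    cases c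
    · obtain ⟨h1, h2, h3⟩ := xr_iff.1 h
      exact ⟨rowRe i h1, rowRe j h2, by omega⟩
    · obtain ⟨h1, h2, h3, h4⟩ := xc_iff.1 h
      exact ⟨colRe i h1, colRe j h2, h4⟩
  · -- xsymm
    intro c i j
    cases c
    · show xr p i j = xr p j i
      rw [Bool.eq_iff_iff, xr_iff, xr_iff]
      tauto
    · show xc p i j = xc p j i
      rw [Bool.eq_iff_iff, xc_iff, xc_iff]
      constructor
      · rintro ⟨h1, h2, ⟨h3, h4⟩, h5⟩
        exact ⟨h2, h1, ⟨h3.symm, h4.symm⟩, h5.symm⟩
      · rintro ⟨h1, h2, ⟨h3, h4⟩, h5⟩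
        exact ⟨h2, h1, ⟨h3.symm, h4.symm⟩, h5.symm⟩
  · -- xst
    intro c i j hij hj
    cases c
    · exact xr_st hij hj
    · exact xc_st hij
  · -- stlt
    intro c i hi
    cases c
    · exact (str_fac hi).1
    · exact stc_lt hi
  · -- stinj
    intro c i j _ _ h
    cases c
    · exact str_inj h
    · exact stc_inj h
  · -- sslt
    intro c i j h
    rw [hS]
    cases c
    · have := ssrb i j h
      show ssr p i j < _
      omega
    · have := ssc_fac hp h
      show ssc p i j < _
      omega
  · -- sdlt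
    intro c i j hi hj
    rw [hS]
    cases c
    · have := sdrb i j hj
      show sdr p i j < _
      omega
    · show sdc p i j < _
      have hj' : j < mr p := hj
      have := (str_fac hj').1
      unfold sdc
      split_ifs <;> omega
  · -- ssinj
    intro c i j j' h h' he
    cases c
    · have he' : ssr p i j = ssr p i j' := he
      obtain ⟨h1, h2, h3⟩ := xr_iff.1 h
      obtain ⟨-, h2', h3'⟩ := xr_iff.1 h'
      have := isR_iff.1 h1
      have := isR_iff.1 h2
      have := isR_iff.1 h2'
      unfold ssr at he'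
      split_ifs at he' <;> omega
    · exact ssc_inj hp h h' he
  · -- sdinj
    intro c i j j' hi hj hj' he
    cases c
    · exact sdr_inj hp he
    · have he' : sdc p i j = sdc p i j' := he
      unfold sdc at he'
      split_ifs at he'
      · exact str_inj (p := p) (by omega)
      · omega
  · -- ssd
    intro c i j j' h hj'
    cases c
    · show ssr p i j ≠ sdr p i j'
      have := ssrb i j h
      rcases sdr_fac hp i j' with ⟨h1, h2⟩ | ⟨h1, h2, h3⟩ | ⟨h1, h2, h3, h4, h5, h6⟩
      · omega
      · omega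
      · unfold bpo at *; omega
    · show ssc p i j ≠ sdc p i j'
      have := ssc_fac hp h
      unfold sdc
      split_ifs <;> omega
  · -- lo0
    intro c i j hi hj hj'
    cases c
    · show sdr p i 0 < sdr p i j
      have e : sdr p i 0 = 0 := by unfold sdr; rw [if_pos (by omega)]
      rcases sdr_fac hp i j with ⟨h1, h2⟩ | ⟨h1, h2, h3⟩ | ⟨h1, h2, h3, h4, h5, h6⟩
      · omega
      · omega
      · unfold bpo at *; omega
    · show sdc p i 0 < sdc p i j
      have hj'' : j < mr p := hj'
      have f0 := str_fac (p := p) (i := 0) (by omega)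
      have f := str_fac hj''
      unfold sdc
      split_ifs
      · by_cases h : j < 2 <;> omega
      · omega
  · -- lo1
    intro c i j hi hj hj'
    cases c
    · show sdr p i 1 < sdr p i j
      have e : sdr p i 1 = 1 := by unfold sdr; rw [if_pos (by omega)]
      rcases sdr_fac hp i j with ⟨h1, h2⟩ | ⟨h1, h2, h3⟩ | ⟨h1, h2, h3, h4, h5, h6⟩
      · omega
      · omega
      · unfold bpo at *; omega
    · show sdc p i 1 < sdc p i j
      have hj'' : j < mr p := hj'
      have f0 := str_fac (p := p) (i := 1) (by omega)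
      have f := str_fac hj''
      unfold sdc
      split_ifs
      · omega
      · omega
  · -- hi0
    intro c i j hi hj
    cases c
    · show sdr p i j < sdr p i (mc p - 1)
      have hj' : j + 1 < mc p := hj
      rcases sdr_fac hp i j with ⟨h1, h2⟩ | ⟨h1, h2, h3⟩ | ⟨h1, h2, h3, h4, h5, h6⟩ <;>
        rcases sdr_fac hp i (mc p - 1) with ⟨k1, k2⟩ | ⟨k1, k2, k3⟩ | ⟨k1, k2, k3, k4, k5, k6⟩ <;>
        unfold bpo at * <;> omega
    · show sdc p i j < sdc p i (mr p - 1)
      have hj' : j + 1 < mr p := hj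
      have f := str_fac (p := p) (i := j) (by omega)
      have f' := str_fac (p := p) (i := mr p - 1) (by omega)
      have hne : str p j ≠ str p (mr p - 1) := fun h => by
        have := str_inj h
        omega
      unfold sdc
      split_ifs <;> omega
  · -- hi1
    intro c i j hi hj
    cases c
    · show sdr p i j < sdr p i (mc p - 2)
      have hj' : j + 2 < mc p := hj
      rcases sdr_fac hp i j with ⟨h1, h2⟩ | ⟨h1, h2, h3⟩ | ⟨h1, h2, h3, h4, h5, h6⟩ <;>
        rcases sdr_fac hp i (mc p - 2) with ⟨k1, k2⟩ | ⟨k1, k2, k3⟩ | ⟨k1, k2, k3, k4, k5, k6⟩ <;>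
        unfold bpo at * <;> omega
    · show sdc p i j < sdc p i (mr p - 2)
      have hj' : j + 2 < mr p := hj
      have f := str_fac (p := p) (i := j) (by omega)
      have f' := str_fac (p := p) (i := mr p - 2) (by omega)
      unfold sdc
      split_ifs <;> omega
  · -- slo
    intro c i j h
    cases c
    · show sdr p i 1 < ssr p i j
      have e : sdr p i 1 = 1 := by unfold sdr; rw [if_pos (by omega)]
      have := ssrb i j h
      omega
    · show sdc p i 1 < ssc p i j
      have f := str_fac (p := p) (i := 1) (by omega)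
      have := ssc_fac hp h
      unfold sdc
      split_ifs <;> omega
  · -- shi
    intro c i j h
    cases c
    · show ssr p i j < sdr p i (mc p - 2)
      have := ssrb i j h
      rcases sdr_fac hp i (mc p - 2) with ⟨k1, k2⟩ | ⟨k1, k2, k3⟩ | ⟨k1, k2, k3, k4, k5, k6⟩ <;>
        unfold bpo at * <;> omega
    · show ssc p i j < sdc p i (mr p - 2)
      have f := str_fac (p := p) (i := mr p - 2) (by omega)
      have := ssc_fac hp h
      unfold sdc
      split_ifs <;> omega
  · -- oS
    intro c i j j' hi hj hj' h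
    cases c
    · show sdr p i j < sdr p i j'
      have h' : stc p j < stc p j' := h
      have key : ∀ j, (j < 2 ∧ sdr p i j = j ∧ stc p j = j) ∨
          (2 ≤ j ∧ 2 ≤ stc p j ∧ sdr p i j = T p + stc p j) := by
        intro j
        rcases sdr_fac hp i j with ⟨h1, h2⟩ | ⟨h1, h2, h3⟩ | ⟨h1, h2, h3, h4, h5, h6⟩ <;>
          rcases stc_fac p j with ⟨k1, k2⟩ | ⟨k1, k2, k3, k4, k5⟩
        · left; exact ⟨h1, h2, k1⟩
        · omega
        · right; exact ⟨h1, by omega, by omega⟩
        · rw [h2] at k5; exact absurd k5 (by simp)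
        · rw [h3] at k2; exact absurd k2 (by simp)
        · right
          have := posz_lo hp h3 hi
          unfold bpo at *
          omega
      have := key j
      have := key j'
      omega
    · show sdc p i j < sdc p i j'
      have h' : str p j < str p j' := h
      unfold sdc
      rw [if_pos hi, if_pos hi]
      omega
  · -- oE
    intro c i j j' hi hi' hjj hj'
    cases c
    · show sdr p i j < sdr p i j'
      have hi'' : mr p ≤ i + 2 := hi'
      have key : ∀ j, (j < 2 ∧ sdr p i j = j) ∨ (2 ≤ j ∧ sdr p i j = T p + j) := by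
        intro j
        rcases sdr_fac hp i j with ⟨h1, h2⟩ | ⟨h1, h2, h3⟩ | ⟨h1, h2, h3, h4, h5, h6⟩
        · left; exact ⟨h1, h2⟩
        · right; exact ⟨h1, h3⟩
        · right
          have := posz_hi hp h3 (r := i) (by omega)
          unfold bpo at *
          omega
      have := key j
      have := key j'
      omega
    · show sdc p i j < sdc p i j'
      have hi'' : mc p ≤ i + 2 := hi'
      unfold sdc
      rw [if_neg (by omega), if_neg (by omega)]
      omega

end Run7.h749
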