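import Pool.Agent.Run7.h749.CodA
import Pool.Agent.Run7.h749.OkB

/-!
# The graph of a program can be computed in polynomial time
-/

namespace Pool.Agent.NPC.H749

open Run7.h749 Pool.Agent.NPC.ER Pool.Agent.NPC.ER.Oslp Pool.Agent.NPC.ER.Sgn

set_option maxHeartbeats 1000000

/-! ### Lists of tuples -/

/-- The product of two lists. -/
def prodL {β γ : Type} (l : List β) (l' : List γ) : List (β × γ) :=
  l.flatMap fun b => l'.map fun c => (b, c)

theorem mem_prodL {β γ : Type} {l : List β} {l' : List γ} {x : β × γ} :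
    x ∈ prodL l l' ↔ x.1 ∈ l ∧ x.2 ∈ l' := by
  unfold prodL
  simp only [List.mem_flatMap, List.mem_map]
  constructor
  · rintro ⟨b, hb, c, hc, rfl⟩
    exact ⟨hb, hc⟩
  · rintro ⟨h1, h2⟩
    exact ⟨x.1, h1, x.2, h2, rfl⟩

theorem poly_prodL {α β γ : Type} [TEnc α] [TEnc β] [TEnc γ] {l : α → List β} {l' : α → List γ}
    (hl : Poly l) (hl' : Poly l') : Poly (fun a => prodL (l a) (l' a)) := by
  have h1 : Poly (fun p : α × β => l' p.1) := hl'.comp (Poly.fst Poly.id)
  have h2 : Poly (fun q : (α × β) × γ => (q.1.2, q.2)) :=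
    Poly.pair (Poly.snd (Poly.fst Poly.id)) (Poly.snd Poly.id)
  have h3 : Poly (fun p : α × β => (l' p.1).map fun c => (p.2, c)) :=
    Poly.map (F := fun (p : α × β) c => (p.2, c)) h1 h2
  exact Poly.flatMap (F := fun a b => (l' a).map fun c => (b, c)) hl h3

/-- Tuples. -/
abbrev Tp := ℕ × ℕ × ℕ × ℕ × ℕ × ℕ × ℕ

/-- All tuples with entries below a bound. -/
def tups (B : ℕ) : List Tp :=
  prodL (List.range B) (prodL (List.range B) (prodL (List.range B) (prodL (List.range B)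
    (prodL (List.range B) (prodL (List.range B) (List.range B))))))

theorem mem_tups {B : ℕ} {t : Tp} : t ∈ tups B ↔ t.1 < B ∧ t.2.1 < B ∧ t.2.2.1 < B ∧
    t.2.2.2.1 < B ∧ t.2.2.2.2.1 < B ∧ t.2.2.2.2.2.1 < B ∧ t.2.2.2.2.2.2 < B := by
  unfold tups
  simp only [mem_prodL, List.mem_range]

theorem poly_tups {α : Type} [TEnc α] {B : α → ℕ} (hB : UPoly B) :
    Poly (fun a => tups (B a)) := by
  have h := hB.range
  exact poly_prodL h (poly_prodL h (poly_prodL h (poly_prodL h (poly_prodL h (poly_prodL h h)))))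

/-! ### Numbers of tuples -/

/-- A pairing function. -/
def pr (x y : ℕ) : ℕ := (x + y) * (x + y) + x

theorem pr_inj {x y x' y' : ℕ} (h : pr x y = pr x' y') : x = x' ∧ y = y' := by
  unfold pr at h
  have key : ∀ {x y x' y' : ℕ}, (x + y) * (x + y) + x = (x' + y') * (x' + y') + x' →
      ¬ x + y < x' + y' := by
    intro x y x' y' h hlt
    have h1 : (x + y + 1) * (x + y + 1) ≤ (x' + y') * (x' + y') := Nat.mul_le_mul hlt hlt
    nlinarith
  have h1 := key h
  have h2 := key h.symm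
  have h3 : x + y = x' + y' := by omega
  rw [h3] at h
  omega

/-- The number of a tuple. -/
def enT (t : Tp) : ℕ := pr t.1 (pr t.2.1 (pr t.2.2.1 (pr t.2.2.2.1 (pr t.2.2.2.2.1
  (pr t.2.2.2.2.2.1 t.2.2.2.2.2.2)))))

theorem enT_inj {t t' : Tp} (h : enT t = enT t') : t = t' := by
  unfold enT at h
  obtain ⟨h1, h⟩ := pr_inj h
  obtain ⟨h2, h⟩ := pr_inj h
  obtain ⟨h3, h⟩ := pr_inj h
  obtain ⟨h4, h⟩ := pr_inj h
  obtain ⟨h5, h⟩ := pr_inj h
  obtain ⟨h6, h7⟩ := pr_inj h
  exact Prod.ext h1 (Prod.ext h2 (Prod.ext h3 (Prod.ext h4 (Prod.ext h5 (Prod.ext h6 h7)))))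

theorem poly_pr {α : Type} [TEnc α] {x y : α → ℕ} (hx : Poly x) (hy : Poly y) :
    Poly (fun a => pr (x a) (y a)) := by
  unfold pr
  have := Poly.add hx hy
  exact Poly.add (Poly.mul this this) hx

theorem poly_enT {α : Type} [TEnc α] {t : α → Tp} (ht : Poly t) : Poly (fun a => enT (t a)) := by
  unfold enT
  repeat' with_reducible first
    | assumption
    | refine poly_pr ?_ ?_
    | refine Poly.fst ?_
    | refine Poly.snd ?_

/-! ### Vertices -/

/-- The number of a class. -/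
def cn (c : Bool) : ℕ := if c = true then 1 else 0

/-- The class of a number. -/
def bn (n : ℕ) : Bool := decide (n = 1)

@[simp] theorem bn_cn (c : Bool) : bn (cn c) = c := by cases c <;> rfl

theorem cn_inj {c c' : Bool} : cn c = cn c' ↔ c = c' := by
  cases c <;> cases c' <;> simp [cn]

theorem cn_lt (c : Bool) : cn c < 2 := by cases c <;> simp [cn]

theorem cn_bn {n : ℕ} (h : n < 2) : cn (bn n) = n := by
  have : n = 0 ∨ n = 1 := by omega
  rcases this with rfl | rfl <;> rfl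

/-- The tuple of a vertex. -/
def tp : Vx → Tp
  | .st c a e i => (0, cn c, a, e, i, 0, 0)
  | .ti c a e i d k => (1, cn c, a, e, i, d, k)
  | .rg b j => (2, cn b, j, 0, 0, 0, 0)
  | .sp k j => (3, k, j, 0, 0, 0, 0)

theorem tp_inj {u v : Vx} (h : tp u = tp v) : u = v := by
  cases u <;> cases v <;> simp_all [tp, cn_inj]

/-- Validity. -/
def vB (A : Arr) (g : ℕ) (t : Tp) : Bool :=
  (decide (t.1 = 0) && (decide (t.2.1 < 2) && (decide (t.2.2.1 < A.m (bn t.2.1)) &&
    (decide (t.2.2.2.1 < 3) && (decide (t.2.2.2.2.1 ≤ ix t.2.2.2.1 (A.N g)) &&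
      (decide (t.2.2.2.2.2.1 = 0) && decide (t.2.2.2.2.2.2 = 0))))))) ||
  ((decide (t.1 = 1) && (decide (t.2.1 < 2) && (decide (t.2.2.1 < A.m (bn t.2.1)) &&
    ((decide (t.2.2.2.1 = 0) || decide (t.2.2.2.1 = 2)) && (decide (t.2.2.2.2.1 < A.N g) &&
      (decide (t.2.2.2.2.2.1 < 2) && decide (t.2.2.2.2.2.2 < g))))))) ||
  ((decide (t.1 = 2) && (decide (t.2.1 < 2) && (decide (t.2.2.1 < A.M g) &&
    (decide (t.2.2.2.1 = 0) && (decide (t.2.2.2.2.1 = 0) &&
      (decide (t.2.2.2.2.2.1 = 0) && decide (t.2.2.2.2.2.2 = 0))))))) ||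
  (decide (t.1 = 3) && (decide (t.2.1 < 6 * A.nn) && (decide (t.2.2.1 < g) &&
    (decide (t.2.2.2.1 = 0) && (decide (t.2.2.2.2.1 = 0) &&
      (decide (t.2.2.2.2.2.1 = 0) && decide (t.2.2.2.2.2.2 = 0)))))))))

theorem vB_iff {A : Arr} {g : ℕ} {t : Tp} : vB A g t = true ↔ ∃ v, A.IsV g v ∧ tp v = t := by
  obtain ⟨t1, t2, t3, t4, t5, t6, t7⟩ := t
  simp only [vB, Bool.or_eq_true, Bool.and_eq_true, decide_eq_true_eq]
  constructor
  · rintro (⟨rfl, h2, h3, h4, h5, rfl, rfl⟩ | ⟨rfl, h2, h3, h4, h5, h6, h7⟩ |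
      ⟨rfl, h2, h3, rfl, rfl, rfl, rfl⟩ | ⟨rfl, h2, h3, rfl, rfl, rfl, rfl⟩)
    · exact ⟨.st (bn t2) t3 t4 t5, ⟨h3, h4, h5⟩, by simp only [tp, cn_bn h2]⟩
    · exact ⟨.ti (bn t2) t3 t4 t5 t6 t7, ⟨h3, h4, h5, h6, h7⟩, by simp only [tp, cn_bn h2]⟩
    · exact ⟨.rg (bn t2) t3, h3, by simp only [tp, cn_bn h2]⟩
    · exact ⟨.sp t2 t3, ⟨h2, h3⟩, rfl⟩
  · rintro ⟨v, hv, h⟩
    cases v with
    | st c a e i =>
      simp only [tp, Prod.mk.injEq] at h
      obtain ⟨rfl, rfl, rfl, rfl, rfl, rfl, rfl⟩ := h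
      left
      exact ⟨rfl, cn_lt c, by rw [bn_cn]; exact hv.1, hv.2.1, hv.2.2, rfl, rfl⟩
    | ti c a e i d k =>
      simp only [tp, Prod.mk.injEq] at h
      obtain ⟨rfl, rfl, rfl, rfl, rfl, rfl, rfl⟩ := h
      right; left
      exact ⟨rfl, cn_lt c, by rw [bn_cn]; exact hv.1, hv.2.1, hv.2.2.1, hv.2.2.2.1, hv.2.2.2.2⟩
    | rg b j =>
      simp only [tp, Prod.mk.injEq] at h
      obtain ⟨rfl, rfl, rfl, rfl, rfl, rfl, rfl⟩ := h
      right; right; left
      exact ⟨rfl, cn_lt b, hv, rfl, rfl, rfl, rfl⟩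
    | sp k j =>
      simp only [tp, Prod.mk.injEq] at h
      obtain ⟨rfl, rfl, rfl, rfl, rfl, rfl, rfl⟩ := h
      right; right; right
      exact ⟨rfl, hv.1, hv.2, rfl, rfl, rfl, rfl⟩

/-- The line of a tuple. -/
def ln (t : Tp) : Ln := (bn t.2.1, t.2.2.1)

/-- Edges. -/
def eB (A : Arr) (g : ℕ) (t t' : Tp) : Bool :=
  (decide (t.1 = 0) && (decide (t'.1 = 0) && (decide (t.2.1 = t'.2.1) &&
    (decide (t.2.2.1 = t'.2.2.1) && (decide (t.2.2.2.1 = t'.2.2.2.1) &&
      decide (t'.2.2.2.2.1 = t.2.2.2.2.1 + 1)))))) ||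
  ((decide (t.1 = 0) && (decide (t'.1 = 0) && ((!decide (ln t = ln t')) &&
    (A.cr (ln t) (ln t') && (decide (A.rk (ln t) < A.rk (ln t')) &&
      (decide (t.2.2.2.2.1 = ix t.2.2.2.1 (A.zp g (ln t) (ln t') t'.2.2.2.1)) &&
        decide (t'.2.2.2.2.1 = ix t'.2.2.2.1 (A.zp g (ln t') (ln t) t.2.2.2.1)))))))) ||
  ((decide (t.1 = 1) && (decide (t'.1 = 0) && (decide (t.2.1 = t'.2.1) &&
    (decide (t.2.2.1 = t'.2.2.1) && (decide (t'.2.2.2.1 = 1) && (decide (t.2.2.2.2.2.2 = 0) &&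
      decide (t'.2.2.2.2.1 = 4 * t.2.2.2.2.1 + 1 + 2 * t.2.2.2.2.2.1))))))) ||
  ((decide (t.1 = 1) && (decide (t'.1 = 1) && (decide (t.2.1 = t'.2.1) &&
    (decide (t.2.2.1 = t'.2.2.1) && (decide (t.2.2.2.1 = t'.2.2.2.1) &&
      (decide (t.2.2.2.2.1 = t'.2.2.2.2.1) && (decide (t.2.2.2.2.2.1 = t'.2.2.2.2.2.1) &&
        decide (t'.2.2.2.2.2.2 = t.2.2.2.2.2.2 + 1)))))))) ||
  ((decide (t.1 = 1) && (decide (t'.1 = 0) && (decide (t.2.1 = t'.2.1) &&
    (decide (t.2.2.1 = t'.2.2.1) && (decide (t.2.2.2.1 = t'.2.2.2.1) &&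
      (decide (t.2.2.2.2.2.2 = g - 1) &&
        decide (t'.2.2.2.2.1 = t.2.2.2.2.1 + 1 - t.2.2.2.2.2.1))))))) ||
  ((decide (t.1 = 0) && (decide (t'.1 = 2) && (decide (t'.2.1 = 0) &&
    (decide (t.2.2.2.2.1 = 0) && decide (t'.2.2.1 = g * A.kS (ln t) t.2.2.2.1))))) ||
  ((decide (t.1 = 0) && (decide (t'.1 = 2) && (decide (t'.2.1 = 0) &&
    (decide (t.2.2.2.2.1 = ix t.2.2.2.1 (A.N g)) &&
      decide (t'.2.2.1 = g * A.kE (ln t) t.2.2.2.1))))) ||
  ((decide (t.1 = 2) && (decide (t'.1 = 2) && (decide (t.2.1 = t'.2.1) &&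
    decide (t'.2.2.1 = (t.2.2.1 + 1) % A.M g)))) ||
  ((decide (t.1 = 3) && (decide (t'.1 = 2) && (decide (t'.2.1 = 0) &&
    (decide (t.2.2.1 = 0) && decide (t'.2.2.1 = g * t.2.1 + 1))))) ||
  ((decide (t.1 = 3) && (decide (t'.1 = 3) && (decide (t.2.1 = t'.2.1) &&
    decide (t'.2.2.1 = t.2.2.1 + 1)))) ||
  (decide (t.1 = 3) && (decide (t'.1 = 2) && (decide (t'.2.1 = 1) &&
    (decide (t.2.2.1 = g - 1) && decide (t'.2.2.1 = g * t.2.1 + 1)))))))))))))) 

theorem eB_iff {A : Arr} {g : ℕ} {u v : Vx} (hu : A.IsV g u) (hv : A.IsV g v) :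
    eB A g (tp u) (tp v) = true ↔ A.Ed g u v := by
  simp only [eB, Bool.or_eq_true, Bool.and_eq_true, decide_eq_true_eq, Bool.not_eq_true',
    decide_eq_false_iff_not]
  constructor
  · intro h
    cases u with
    | st c a e i =>
      cases v with
      | st c' a' e' i' =>
        simp only [tp, ln, bn_cn, cn_inj] at h
        rcases h with ⟨-, -, rfl, rfl, rfl, rfl⟩ | ⟨-, -, h1, h2, h3, h4, h5⟩ | h | h | h | h | h |
          h | h | h | h
        · exact .str c a e i hu.1 hu.2.1 (by have := hv.2.2; omega)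
        · have := Arr.Ed.crs (A := A) (g := g) (c, a) (c', a') e e' hu.1 hv.1 h1 h2 h3 hu.2.1 hv.2.1
          rw [← h4, ← h5] at this
          exact this
        all_goals (exfalso; omega)
      | ti => simp only [tp] at h; exfalso; omega
      | rg b j =>
        simp only [tp, ln, bn_cn] at h
        rcases h with h | h | h | h | h | ⟨-, -, h1, rfl, rfl⟩ | ⟨-, -, h1, rfl, rfl⟩ | h | h | h | h
        · exfalso; omega
        · exfalso; omega
        · exfalso; omega
        · exfalso; omega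
        · exfalso; omega
        · have hb : b = false := by cases b <;> simp_all [cn]
          subst hb
          exact .ends (c, a) e hu.1 hu.2.1
        · have hb : b = false := by cases b <;> simp_all [cn]
          subst hb
          exact .ende (c, a) e hu.1 hu.2.1
        all_goals (exfalso; omega)
      | sp => simp only [tp] at h; exfalso; omega
    | ti c a e i d k =>
      cases v with
      | st c' a' e' i' =>
        simp only [tp, cn_inj] at h
        rcases h with h | h | ⟨-, -, rfl, rfl, rfl, rfl, rfl⟩ | h | ⟨-, -, rfl, rfl, rfl, rfl, rfl⟩ |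
          h | h | h | h | h | h
        · exfalso; omega
        · exfalso; omega
        · exact .ti0 c a e i d hu.1 hu.2.1 hu.2.2.1 hu.2.2.2.1
        · exfalso; omega
        · exact .ti1 c a e i d hu.1 hu.2.1 hu.2.2.1 hu.2.2.2.1
        all_goals (exfalso; omega)
      | ti c' a' e' i' d' k' =>
        simp only [tp, cn_inj] at h
        rcases h with h | h | h | ⟨-, -, rfl, rfl, rfl, rfl, rfl, rfl⟩ | h | h | h | h | h | h | h
        · exfalso; omega
        · exfalso; omega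
        · exfalso; omega
        · exact .tim c a e i d k hu.1 hu.2.1 hu.2.2.1 hu.2.2.2.1 hv.2.2.2.2
        all_goals (exfalso; omega)
      | rg b j => simp only [tp] at h; exfalso; omega
      | sp => simp only [tp] at h; exfalso; omega
    | rg b j =>
      cases v with
      | st => simp only [tp] at h; exfalso; omega
      | ti => simp only [tp] at h; exfalso; omega
      | rg b' j' =>
        simp only [tp, cn_inj] at h
        rcases h with h | h | h | h | h | h | h | ⟨-, -, rfl, rfl⟩ | h | h | h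
        all_goals first
          | exact .rng b j hu
          | (exfalso; omega)
      | sp => simp only [tp] at h; exfalso; omega
    | sp k j =>
      cases v with
      | st => simp only [tp] at h; exfalso; omega
      | ti => simp only [tp] at h; exfalso; omega
      | rg b' j' =>
        simp only [tp] at h
        rcases h with h | h | h | h | h | h | h | h | ⟨-, -, h1, rfl, rfl⟩ | h |
          ⟨-, -, h1, rfl, rfl⟩
        · exfalso; omega
        · exfalso; omega
        · exfalso; omega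
        · exfalso; omega
        · exfalso; omega
        · exfalso; omega
        · exfalso; omega
        · exfalso; omega
        · have hb : b' = false := by cases b' <;> simp_all [cn]
          subst hb
          exact .spi k hu.1
        · exfalso; omega
        · have hb : b' = true := by cases b' <;> simp_all [cn]
          subst hb
          exact .spo k hu.1
      | sp k' j' =>
        simp only [tp] at h
        rcases h with h | h | h | h | h | h | h | h | h | ⟨-, -, rfl, rfl⟩ | h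
        all_goals first
          | exact .spm k j hu.1 hv.2
          | (exfalso; omega)
  · intro h
    cases h with
    | str c a e i h1 h2 h3 => exact Or.inl ⟨rfl, rfl, rfl, rfl, rfl, rfl⟩
    | crs a b e f h1 h2 h3 h4 h5 h6 h7 =>
      simp only [tp, ln, bn_cn, Prod.mk.eta]
      exact Or.inr (Or.inl ⟨trivial, trivial, h3, h4, h5, trivial, trivial⟩)
    | ti0 c a e i d h1 h2 h3 h4 =>
      exact Or.inr (Or.inr (Or.inl ⟨rfl, rfl, rfl, rfl, rfl, rfl, rfl⟩))
    | tim c a e i d k h1 h2 h3 h4 h5 =>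
      exact Or.inr (Or.inr (Or.inr (Or.inl ⟨rfl, rfl, rfl, rfl, rfl, rfl, rfl, rfl⟩)))
    | ti1 c a e i d h1 h2 h3 h4 =>
      exact Or.inr (Or.inr (Or.inr (Or.inr (Or.inl ⟨rfl, rfl, rfl, rfl, rfl, rfl, rfl⟩))))
    | ends a e h1 h2 =>
      simp only [tp, ln, bn_cn, Prod.mk.eta]
      exact Or.inr (Or.inr (Or.inr (Or.inr (Or.inr (Or.inl
        ⟨trivial, trivial, rfl, trivial, trivial⟩)))))
    | ende a e h1 h2 =>
      simp only [tp, ln, bn_cn, Prod.mk.eta]
      exact Or.inr (Or.inr (Or.inr (Or.inr (Or.inr (Or.inr (Or.inl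
        ⟨trivial, trivial, rfl, trivial, trivial⟩))))))
    | rng b j h1 =>
      exact Or.inr (Or.inr (Or.inr (Or.inr (Or.inr (Or.inr (Or.inr (Or.inl
        ⟨rfl, rfl, rfl, rfl⟩)))))))
    | spi k h1 =>
      exact Or.inr (Or.inr (Or.inr (Or.inr (Or.inr (Or.inr (Or.inr (Or.inr (Or.inl
        ⟨rfl, rfl, rfl, rfl, rfl⟩))))))))
    | spm k j h1 h2 =>
      exact Or.inr (Or.inr (Or.inr (Or.inr (Or.inr (Or.inr (Or.inr (Or.inr (Or.inr (Or.inl
        ⟨rfl, rfl, rfl, rfl⟩)))))))))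
    | spo k h1 =>
      exact Or.inr (Or.inr (Or.inr (Or.inr (Or.inr (Or.inr (Or.inr (Or.inr (Or.inr (Or.inr
        ⟨rfl, rfl, rfl, rfl, rfl⟩)))))))))

end Pool.Agent.NPC.H749
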