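import Pool.Agent.Run7.h749.CodB
import Pool.Agent.Run7.h749.OkB

/-!
# The code of the graph of a program
-/

namespace Pool.Agent.NPC.H749

open Run7.h749 Pool.Agent.NPC.ER Pool.Agent.NPC.ER.Oslp Pool.Agent.NPC.ER.Sgn

set_option maxHeartbeats 1000000

section

variable {α : Type} [TEnc α] {P : α → List Ins} {t t' : α → Tp}

theorem poly_bn {n : α → ℕ} (hn : Poly n) : Poly (fun a => bn (n a)) := by
  unfold bn
  exact Poly.decide_eq hn (Poly.const _)

theorem poly_ln (ht : Poly t) : Poly (fun a => ln (t a)) := by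
  unfold ln
  exact Poly.pair (poly_bn (Poly.fst (Poly.snd ht))) (Poly.fst (Poly.snd (Poly.snd ht)))

theorem poly_vB (g : ℕ) (hP : Poly P) (ht : Poly t) :
    Poly (fun a => vB (arrOf (P a)) g (t a)) := by
  have t1 : Poly (fun a => (t a).1) := Poly.fst ht
  have t2 : Poly (fun a => (t a).2.1) := Poly.fst (Poly.snd ht)
  have t3 : Poly (fun a => (t a).2.2.1) := Poly.fst (Poly.snd (Poly.snd ht))
  have t4 : Poly (fun a => (t a).2.2.2.1) := Poly.fst (Poly.snd (Poly.snd (Poly.snd ht)))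
  have t5 : Poly (fun a => (t a).2.2.2.2.1) :=
    Poly.fst (Poly.snd (Poly.snd (Poly.snd (Poly.snd ht))))
  have t6 : Poly (fun a => (t a).2.2.2.2.2.1) :=
    Poly.fst (Poly.snd (Poly.snd (Poly.snd (Poly.snd (Poly.snd ht)))))
  have t7 : Poly (fun a => (t a).2.2.2.2.2.2) :=
    Poly.snd (Poly.snd (Poly.snd (Poly.snd (Poly.snd (Poly.snd ht)))))
  have b2 := poly_bn t2
  have m1 : Poly (fun a => (arrOf (P a)).m (bn (t a).2.1)) := poly_m hP b2
  have n1 : Poly (fun a => (arrOf (P a)).N g) := poly_N hP g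
  have n2 : Poly (fun a => (arrOf (P a)).M g) := poly_M hP g
  have n3 : Poly (fun a => (arrOf (P a)).nn) := poly_nn hP
  have n4 : Poly (fun a => ix (t a).2.2.2.1 ((arrOf (P a)).N g)) := poly_ix t4 n1
  unfold vB
  repeat' with_reducible first
    | assumption
    | exact Poly.const _
    | refine Poly.or ?_ ?_
    | refine Poly.and ?_ ?_
    | refine Poly.decide_eq ?_ ?_
    | refine Poly.decide_lt ?_ ?_
    | refine Poly.decide_le ?_ ?_
    | refine Poly.mul ?_ ?_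

theorem poly_eB (g : ℕ) (hP : Poly P) (ht : Poly t) (ht' : Poly t') :
    Poly (fun a => eB (arrOf (P a)) g (t a) (t' a)) := by
  have t1 : Poly (fun a => (t a).1) := Poly.fst ht
  have t2 : Poly (fun a => (t a).2.1) := Poly.fst (Poly.snd ht)
  have t3 : Poly (fun a => (t a).2.2.1) := Poly.fst (Poly.snd (Poly.snd ht))
  have t4 : Poly (fun a => (t a).2.2.2.1) := Poly.fst (Poly.snd (Poly.snd (Poly.snd ht)))
  have t5 : Poly (fun a => (t a).2.2.2.2.1) :=
    Poly.fst (Poly.snd (Poly.snd (Poly.snd (Poly.snd ht))))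
  have t6 : Poly (fun a => (t a).2.2.2.2.2.1) :=
    Poly.fst (Poly.snd (Poly.snd (Poly.snd (Poly.snd (Poly.snd ht)))))
  have t7 : Poly (fun a => (t a).2.2.2.2.2.2) :=
    Poly.snd (Poly.snd (Poly.snd (Poly.snd (Poly.snd (Poly.snd ht)))))
  have s1 : Poly (fun a => (t' a).1) := Poly.fst ht'
  have s2 : Poly (fun a => (t' a).2.1) := Poly.fst (Poly.snd ht')
  have s3 : Poly (fun a => (t' a).2.2.1) := Poly.fst (Poly.snd (Poly.snd ht'))
  have s4 : Poly (fun a => (t' a).2.2.2.1) := Poly.fst (Poly.snd (Poly.snd (Poly.snd ht')))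
  have s5 : Poly (fun a => (t' a).2.2.2.2.1) :=
    Poly.fst (Poly.snd (Poly.snd (Poly.snd (Poly.snd ht'))))
  have s6 : Poly (fun a => (t' a).2.2.2.2.2.1) :=
    Poly.fst (Poly.snd (Poly.snd (Poly.snd (Poly.snd (Poly.snd ht')))))
  have s7 : Poly (fun a => (t' a).2.2.2.2.2.2) :=
    Poly.snd (Poly.snd (Poly.snd (Poly.snd (Poly.snd (Poly.snd ht')))))
  have l1 : Poly (fun a => ln (t a)) := poly_ln ht
  have l2 : Poly (fun a => ln (t' a)) := poly_ln ht'
  have n1 : Poly (fun a => (arrOf (P a)).N g) := poly_N hP g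
  have n2 : Poly (fun a => (arrOf (P a)).M g) := poly_M hP g
  have c1 : Poly (fun a => (arrOf (P a)).cr (ln (t a)) (ln (t' a))) := poly_cr hP l1 l2
  have r1 : Poly (fun a => (arrOf (P a)).rk (ln (t a))) := poly_rk hP l1
  have r2 : Poly (fun a => (arrOf (P a)).rk (ln (t' a))) := poly_rk hP l2
  have z1 : Poly (fun a => ix (t a).2.2.2.1
    ((arrOf (P a)).zp g (ln (t a)) (ln (t' a)) (t' a).2.2.2.1)) := poly_ix t4 (poly_zp hP g l1 l2 s4)
  have z2 : Poly (fun a => ix (t' a).2.2.2.1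
    ((arrOf (P a)).zp g (ln (t' a)) (ln (t a)) (t a).2.2.2.1)) := poly_ix s4 (poly_zp hP g l2 l1 t4)
  have k1 : Poly (fun a => (arrOf (P a)).kS (ln (t a)) (t a).2.2.2.1) := poly_kS hP l1 t4
  have k2 : Poly (fun a => (arrOf (P a)).kE (ln (t a)) (t a).2.2.2.1) := poly_kE hP l1 t4
  have z3 : Poly (fun a => ix (t a).2.2.2.1 ((arrOf (P a)).N g)) := poly_ix t4 n1
  unfold eB
  repeat' with_reducible first
    | assumption
    | exact Poly.const _
    | refine Poly.or ?_ ?_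
    | refine Poly.and ?_ ?_
    | refine Poly.not ?_
    | refine Poly.decide_eq ?_ ?_
    | refine Poly.decide_lt ?_ ?_
    | refine Poly.decide_le ?_ ?_
    | refine Poly.mul ?_ ?_
    | refine Poly.add ?_ ?_
    | refine Poly.sub ?_ ?_
    | refine Poly.mod ?_ ?_

end

/-- The valid tuples. -/
def vts (g : ℕ) (p : List Ins) : List Tp := (tups (bnd g p)).filter (vB (arrOf p) g)

/-- The code of the graph. -/
def cod (g : ℕ) (p : List Ins) : GCode :=
  ((vts g p).map enT,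
    ((prodL (vts g p) (vts g p)).filter fun x => eB (arrOf p) g x.1 x.2).map
      fun x => (enT x.1, enT x.2))

theorem poly_vts (g : ℕ) : Poly (vts g) := by
  have h1 : Poly (fun x : List Ins × Tp => vB (arrOf x.1) g x.2) :=
    poly_vB g (Poly.fst Poly.id) (Poly.snd Poly.id)
  exact Poly.filter (p := fun (p : List Ins) t => vB (arrOf p) g t) (poly_tups (upoly_bnd g)) h1

theorem poly_cod (g : ℕ) : Poly (cod g) := by
  have h1 := poly_vts g
  have h2 : Poly (fun x : List Ins × Tp => enT x.2) := poly_enT (Poly.snd Poly.id)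
  have h3 : Poly (fun x : List Ins × (Tp × Tp) => eB (arrOf x.1) g x.2.1 x.2.2) :=
    poly_eB g (Poly.fst Poly.id) (Poly.fst (Poly.snd Poly.id)) (Poly.snd (Poly.snd Poly.id))
  have h4 : Poly (fun x : List Ins × (Tp × Tp) => (enT x.2.1, enT x.2.2)) :=
    Poly.pair (poly_enT (Poly.fst (Poly.snd Poly.id))) (poly_enT (Poly.snd (Poly.snd Poly.id)))
  exact Poly.pair (Poly.map (F := fun (_ : List Ins) t => enT t) h1 h2)
    (Poly.map (F := fun (_ : List Ins) (x : Tp × Tp) => (enT x.1, enT x.2))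
      (Poly.filter (p := fun (p : List Ins) (x : Tp × Tp) => eB (arrOf p) g x.1 x.2)
        (poly_prodL h1 h1) h3) h4)

theorem tp_lt (g : ℕ) (p : List Ins) {v : Vx} (hv : (arrOf p).IsV g v) :
    tp v ∈ tups (bnd g p) := by
  rw [mem_tups]
  have mb : ∀ c, (arrOf p).m c ≤ mr p + mc p := by
    intro c
    show (if c = true then mc p else mr p) ≤ mr p + mc p
    split_ifs <;> omega
  have hN : (arrOf p).N g = g * (3 * (mc p + Run7.h749.T p + 2 * mr p) + 1) := rfl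
  have hnn : (arrOf p).nn = mr p + mc p := rfl
  have hM : (arrOf p).M g = 6 * (mr p + mc p) * g := rfl
  have hb : bnd g p = 4 * (arrOf p).N g + (arrOf p).M g + 6 * (arrOf p).nn + g + 10 := rfl
  cases v with
  | st c a e i =>
    obtain ⟨h1, h2, h3⟩ := hv
    have h4 := mb c
    have h5 := cn_lt c
    have h6 : ix e ((arrOf p).N g) ≤ 4 * (arrOf p).N g := by unfold ix; split_ifs <;> omega
    simp only [tp]
    refine ⟨?_, ?_, ?_, ?_, ?_, ?_, ?_⟩ <;> omega
  | ti c a e i d k =>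
    obtain ⟨h1, h2, h3, h4, h5⟩ := hv
    have h6 := mb c
    have h7 := cn_lt c
    simp only [tp]
    refine ⟨?_, ?_, ?_, ?_, ?_, ?_, ?_⟩ <;> omega
  | rg b j =>
    have h1 : j < (arrOf p).M g := hv
    have h7 := cn_lt b
    simp only [tp]
    refine ⟨?_, ?_, ?_, ?_, ?_, ?_, ?_⟩ <;> omega
  | sp k j =>
    obtain ⟨h1, h2⟩ := hv
    simp only [tp]
    refine ⟨?_, ?_, ?_, ?_, ?_, ?_, ?_⟩ <;> omega

theorem mem_vts {g : ℕ} {p : List Ins} {t : Tp} :
    t ∈ vts g p ↔ ∃ v, (arrOf p).IsV g v ∧ tp v = t := by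
  unfold vts
  rw [List.mem_filter, vB_iff]
  constructor
  · exact fun h => h.2
  · rintro ⟨v, hv, rfl⟩
    exact ⟨tp_lt g p hv, v, hv, rfl⟩

theorem mem_v {g : ℕ} {p : List Ins} {n : ℕ} :
    n ∈ (cod g p).1 ↔ ∃ v, (arrOf p).IsV g v ∧ enT (tp v) = n := by
  unfold cod
  simp only [List.mem_map, mem_vts]
  constructor
  · rintro ⟨t, ⟨v, hv, rfl⟩, h⟩
    exact ⟨v, hv, h⟩
  · rintro ⟨v, hv, h⟩
    exact ⟨_, ⟨v, hv, rfl⟩, h⟩

theorem mem_e {g : ℕ} {p : List Ins} {x : ℕ × ℕ} :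
    x ∈ (cod g p).2 ↔ ∃ u v, (arrOf p).IsV g u ∧ (arrOf p).IsV g v ∧ (arrOf p).Ed g u v ∧
      x = (enT (tp u), enT (tp v)) := by
  unfold cod
  simp only [List.mem_map, List.mem_filter, mem_prodL, mem_vts]
  constructor
  · rintro ⟨⟨t, t'⟩, ⟨⟨⟨u, hu, h1⟩, ⟨v, hv, h2⟩⟩, h3⟩, rfl⟩
    simp only at h1 h2 h3 ⊢
    subst h1 h2
    exact ⟨u, v, hu, hv, (eB_iff hu hv).1 h3, rfl⟩
  · rintro ⟨u, v, hu, hv, h, rfl⟩
    exact ⟨(tp u, tp v), ⟨⟨⟨u, hu, rfl⟩, ⟨v, hv, rfl⟩⟩, (eB_iff hu hv).2 h⟩, rfl⟩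

theorem M_two {g : ℕ} (hg : 4 ≤ g) {A : Arr} (hA : A.Ok) : 2 ≤ A.M g := by
  have := hA.five false
  unfold Arr.M Arr.nn
  nlinarith [Nat.zero_le (A.m true)]

/-- **S_COD** -/
theorem s_cod : S_COD := by
  intro g hg
  refine ⟨cod g, poly_cod g, fun p hp => ?_⟩
  have hA := ok_arrOf p hp
  have hM := M_two hg hA
  have inj : ∀ {u v : Vx}, enT (tp u) = enT (tp v) → u = v := fun h => tp_inj (enT_inj h)
  have wf : (cod g p).WF := by
    intro x hx
    rw [mem_e] at hx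
    obtain ⟨u, v, hu, hv, h, rfl⟩ := hx
    refine ⟨mem_v.2 ⟨u, hu, rfl⟩, mem_v.2 ⟨v, hv, rfl⟩, fun he => ?_⟩
    exact Arr.Ed.ne hM h (inj he)
  refine ⟨wf, ?_⟩
  let f : {v : Vx // (arrOf p).IsV g v} → (cod g p).V := fun v => ⟨enT (tp v.1), mem_v.2 ⟨v.1, v.2, rfl⟩⟩
  have hf : Function.Bijective f := by
    constructor
    · intro u v h
      exact Subtype.ext (inj (congrArg Subtype.val h))
    · rintro ⟨n, hn⟩
      obtain ⟨v, hv, h⟩ := mem_v.1 hn
      exact ⟨⟨v, hv⟩, Subtype.ext h⟩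
  refine ⟨RelIso.symm ⟨Equiv.ofBijective f hf, ?_⟩⟩
  intro u v
  show (cod g p).graph.Adj (f u) (f v) ↔ ((arrOf p).gr g).Adj u v
  rw [graph_adj wf]
  unfold Arr.gr
  rw [SimpleGraph.fromRel_adj]
  have key : ∀ u v : {v : Vx // (arrOf p).IsV g v}, ((f u).1, (f v).1) ∈ (cod g p).2 ↔
      (arrOf p).Ed g u.1 v.1 := by
    intro u v
    rw [mem_e]
    constructor
    · rintro ⟨u', v', hu', hv', h, he⟩
      rw [Prod.mk.injEq] at he
      have e1 := inj he.1
      have e2 := inj he.2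
      rw [e1, e2]
      exact h
    · intro h
      exact ⟨u.1, v.1, u.2, v.2, h, rfl⟩
  rw [key, key]
  constructor
  · intro h
    refine ⟨?_, h⟩
    rintro rfl
    rcases h with h | h <;> exact Arr.Ed.ne hM h rfl
  · exact fun h => h.2

end Pool.Agent.NPC.H749
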