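import Mathlib

/-!
# Convexity of locally supported open sets in the plane
-/

namespace Run7.h749.Cvx

open Set

/-- Every boundary point of `U` is an inner point of a segment in the complement. -/
def Supp (U : Set (ℝ × ℝ)) : Prop :=
  ∀ b ∈ frontier U, ∃ u v : ℝ × ℝ, u ≠ v ∧ b ∈ openSegment ℝ u v ∧ segment ℝ u v ⊆ Uᶜ

theorem two_sided {u v b : ℝ × ℝ} {K : Set (ℝ × ℝ)} (hb : b ∈ openSegment ℝ u v)
    (hK : segment ℝ u v ⊆ K) : ∃ δ > 0, ∀ η : ℝ, |η| < δ → b + η • (v - u) ∈ K := by
  obtain ⟨s, t, hs, ht, hst, rfl⟩ := hb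
  refine ⟨min s t, lt_min hs ht, fun η hη => hK ⟨s - η, t + η, ?_, ?_, by linarith, ?_⟩⟩
  · have := (abs_lt.1 hη).2
    have := min_le_left s t
    linarith
  · have := (abs_lt.1 hη).1
    have := min_le_right s t
    linarith
  · module

theorem triangle {U : Set (ℝ × ℝ)} (hU : IsOpen U) (hs : Supp U) {x y z : ℝ × ℝ}
    (hxy : segment ℝ x y ⊆ U) (hyz : segment ℝ y z ⊆ U) : segment ℝ x z ⊆ U := by
  by_contra hcon
  -- the bad parameters
  let φ : ℝ × ℝ → ℝ × ℝ := fun q => x + q.2 • (y + q.1 • (z - y) - x)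
  have hφ : Continuous φ := by fun_prop
  let B : Set (ℝ × ℝ) := (Icc 0 1 ×ˢ Icc 0 1) ∩ φ ⁻¹' Uᶜ
  have hBc : IsCompact B :=
    (isCompact_Icc.prod isCompact_Icc).inter_right (hU.isClosed_compl.preimage hφ)
  have hBne : B.Nonempty := by
    rw [Set.not_subset] at hcon
    obtain ⟨p, hp, hpU⟩ := hcon
    rw [segment_eq_image'] at hp
    obtain ⟨l, hl, rfl⟩ := hp
    refine ⟨(1, l), ⟨⟨by norm_num, by norm_num⟩, hl⟩, ?_⟩
    show φ (1, l) ∉ U
    have : φ (1, l) = x + l • (z - x) := by
      simp only [φ]; module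
    rwa [this]
  obtain ⟨⟨t0, l0⟩, ht0, hmin⟩ := hBc.exists_isMinOn hBne continuous_fst.continuousOn
  have hmin' : ∀ t l, t ∈ Icc (0 : ℝ) 1 → l ∈ Icc (0 : ℝ) 1 → t < t0 → φ (t, l) ∈ U := by
    intro t l ht hl htt
    by_contra hn
    have := hmin (show ((t, l) : ℝ × ℝ) ∈ B from ⟨⟨ht, hl⟩, hn⟩)
    simp only [mem_ofPred_eq] at this
    linarith
  -- the first bad point on the segment
  let Λ : Set ℝ := Icc 0 1 ∩ (fun l => φ (t0, l)) ⁻¹' Uᶜ
  have hΛc : IsCompact Λ := isCompact_Icc.inter_right
    (hU.isClosed_compl.preimage (hφ.comp (by fun_prop)))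
  have hΛne : Λ.Nonempty := ⟨l0, ht0.1.2, ht0.2⟩
  obtain ⟨l1, hl1⟩ := hΛc.exists_isLeast hΛne
  have hl1U : φ (t0, l1) ∉ U := hl1.1.2
  have hl1min : ∀ l ∈ Icc (0 : ℝ) 1, l < l1 → φ (t0, l) ∈ U := by
    intro l hl hll
    by_contra hn
    exact absurd (hl1.2 ⟨hl, hn⟩) (not_le.2 hll)
  have ht01 : t0 ∈ Icc (0 : ℝ) 1 := ht0.1.1
  have hl11 : l1 ∈ Icc (0 : ℝ) 1 := hl1.1.1
  have hx0 : φ (t0, 0) ∈ U := by
    have : φ (t0, 0) = x := by simp only [φ]; module
    rw [this]
    exact hxy (left_mem_segment ℝ x y)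
  have hx1 : φ (t0, 1) ∈ U := by
    have : φ (t0, 1) = y + t0 • (z - y) := by simp only [φ]; module
    rw [this]
    apply hyz
    rw [segment_eq_image']
    exact ⟨t0, ht01, rfl⟩
  have hl1pos : 0 < l1 := lt_of_le_of_ne hl11.1 fun h => hl1U (h ▸ hx0)
  have hl1lt : l1 < 1 := lt_of_le_of_ne hl11.2 fun h => hl1U (h ▸ hx1)
  have ht0pos : 0 < t0 := by
    refine lt_of_le_of_ne ht01.1 fun h => hl1U ?_
    have : φ (t0, l1) = x + l1 • (y - x) := by simp only [φ, ← h]; module
    rw [this]
    apply hxy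
    rw [segment_eq_image']
    exact ⟨l1, hl11, rfl⟩
  set b := φ (t0, l1) with hbdef
  set e1 := y + t0 • (z - y) - x with he1
  have hφe : ∀ t l, φ (t, l) = x + l • (e1 - (t0 - t) • (z - y)) := by
    intro t l
    simp only [φ, he1]; module
  have hbe : b = x + l1 • e1 := by rw [hbdef, hφe]; module
  -- the boundary point
  have hbf : b ∈ frontier U := by
    rw [hU.frontier_eq]
    refine ⟨?_, hl1U⟩
    have hcont : ContinuousWithinAt (fun l => φ (t0, l)) (Ioo 0 l1) l1 :=
      (hφ.comp (by fun_prop : Continuous fun l : ℝ => (t0, l))).continuousWithinAt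
    refine hcont.mem_closure ?_ ?_
    · rw [closure_Ioo hl1pos.ne]
      exact ⟨hl1pos.le, le_rfl⟩
    · intro l hl
      exact hl1min l ⟨hl.1.le, by linarith [hl.2]⟩ hl.2
  obtain ⟨u, v, huv, hbo, hsub⟩ := hs b hbf
  obtain ⟨δ, hδ, hδK⟩ := two_sided hbo hsub
  set d := v - u with hd
  have hd0 : d ≠ 0 := sub_ne_zero.2 (Ne.symm huv)
  set w := z - y with hw
  let c : ℝ := e1.1 * w.2 - e1.2 * w.1
  by_cases hc : c = 0
  · -- degenerate triangle
    have he10 : e1 ≠ 0 := by
      intro h0
      apply hl1U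
      rw [hbe, h0, smul_zero, add_zero]
      exact hxy (left_mem_segment ℝ x y)
    obtain ⟨μ, hμ⟩ : ∃ μ : ℝ, w = μ • e1 := by
      have hc' : e1.1 * w.2 - e1.2 * w.1 = 0 := hc
      by_cases h1 : e1.1 = 0
      · have h2 : e1.2 ≠ 0 := fun h2 => he10 (Prod.ext h1 h2)
        refine ⟨w.2 / e1.2, Prod.ext ?_ ?_⟩
        · simp only [Prod.smul_fst, smul_eq_mul, h1, mul_zero]
          rw [h1] at hc'
          have : e1.2 * w.1 = 0 := by linarith
          exact (mul_eq_zero.1 this).resolve_left h2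
        · simp only [Prod.smul_snd, smul_eq_mul]
          field_simp
      · refine ⟨w.1 / e1.1, Prod.ext ?_ ?_⟩
        · simp only [Prod.smul_fst, smul_eq_mul]
          field_simp
        · simp only [Prod.smul_snd, smul_eq_mul]
          field_simp
          linarith
    have hy : y = x + (1 - t0 * μ) • e1 := by
      have : y = x + e1 - t0 • w := by rw [he1]; module
      rw [this, hμ]; module
    apply hl1U
    rcases le_or_gt l1 (1 - t0 * μ) with h1 | h1
    · apply hxy
      rw [segment_eq_image']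
      refine ⟨l1 / (1 - t0 * μ), ⟨div_nonneg hl1pos.le (by linarith), ?_⟩, ?_⟩
      · rw [div_le_one (by linarith)]; exact h1
      · show x + (l1 / (1 - t0 * μ)) • (y - x) = b
        rw [hbe, hy]
        have : (1 - t0 * μ) ≠ 0 := by linarith
        have e : x + (1 - t0 * μ) • e1 - x = (1 - t0 * μ) • e1 := by module
        rw [e, smul_smul, div_mul_cancel₀ _ this]
    · have hpos : 0 < t0 * μ := by linarith
      have hμ0 : 0 < μ := by
        by_contra hn
        push Not at hn
        have := mul_nonpos_of_nonneg_of_nonpos ht0pos.le hn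
        linarith
      apply hyz
      rw [segment_eq_image']
      refine ⟨(l1 - (1 - t0 * μ)) / μ, ⟨div_nonneg (by linarith) hμ0.le, ?_⟩, ?_⟩
      · rw [div_le_one hμ0]
        have : t0 * μ ≤ μ := by nlinarith [ht01.2]
        linarith
      · show y + ((l1 - (1 - t0 * μ)) / μ) • (z - y) = b
        rw [← hw, hμ, hbe, smul_smul, div_mul_cancel₀ _ hμ0.ne']
        nth_rewrite 1 [hy]
        module
  · -- proper triangle
    let α : ℝ := (d.1 * w.2 - d.2 * w.1) / c
    let β : ℝ := (e1.1 * d.2 - e1.2 * d.1) / c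
    have hdec : d = α • e1 + β • w := by
      have hc' : e1.1 * w.2 - e1.2 * w.1 ≠ 0 := hc
      ext
      · simp only [α, β, c, Prod.fst_add, Prod.smul_fst, smul_eq_mul]
        rw [div_mul_eq_mul_div, div_mul_eq_mul_div, ← add_div, eq_div_iff hc']
        ring
      · simp only [α, β, c, Prod.snd_add, Prod.smul_snd, smul_eq_mul]
        rw [div_mul_eq_mul_div, div_mul_eq_mul_div, ← add_div, eq_div_iff hc']
        ring
    clear_value α β
    by_cases hβ : β = 0
    · have hα : α ≠ 0 := by
        rintro rfl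
        apply hd0
        rw [hdec, hβ]; simp
      -- move towards `x`
      set κ := min (δ / 2) (l1 / (2 * |α|)) with hκ
      have hαp : 0 < |α| := abs_pos.2 hα
      have hκ0 : 0 < κ := lt_min (by linarith) (by positivity)
      have hκδ : κ < δ := lt_of_le_of_lt (min_le_left _ _) (by linarith)
      have hκl : κ * |α| ≤ l1 / 2 := by
        have : κ ≤ l1 / (2 * |α|) := min_le_right _ _
        calc κ * |α| ≤ l1 / (2 * |α|) * |α| := mul_le_mul_of_nonneg_right this hαp.le
          _ = l1 / 2 := by field_simp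
      rcases lt_or_gt_of_ne hα with hneg | hpos
      · have h1 := hδK κ (by rw [abs_of_pos hκ0]; exact hκδ)
        apply h1
        rw [abs_of_neg hneg] at hκl
        have : b + κ • d = φ (t0, l1 + κ * α) := by
          rw [hφe, hbe, hdec, hβ]; module
        rw [this]
        exact hl1min _ ⟨by nlinarith, by nlinarith⟩ (by nlinarith)
      · have h1 := hδK (-κ) (by rw [abs_neg, abs_of_pos hκ0]; exact hκδ)
        apply h1
        rw [abs_of_pos hpos] at hκl
        have : b + (-κ) • d = φ (t0, l1 - κ * α) := by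
          rw [hφe, hbe, hdec, hβ]; module
        rw [this]
        exact hl1min _ ⟨by nlinarith, by nlinarith⟩ (by nlinarith)
    · -- move into the triangle
      have key : ∀ η : ℝ, η * β < 0 → 0 < l1 + η * α → l1 + η * α ≤ 1 →
          -(η * β) / (l1 + η * α) ≤ t0 → b + η • d ∈ U := by
        intro η h1 h2 h3 h4
        have h5 : 0 < -(η * β) / (l1 + η * α) := div_pos (by linarith) h2
        have : b + η • d = φ (t0 - -(η * β) / (l1 + η * α), l1 + η * α) := by
          rw [hφe, hbe, hdec]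
          have e : (l1 + η * α) • (e1 - (t0 - (t0 - -(η * β) / (l1 + η * α))) • w) =
              (l1 + η * α) • e1 - ((l1 + η * α) * (-(η * β) / (l1 + η * α))) • w := by module
          rw [e, mul_div_cancel₀ _ h2.ne']
          module
        rw [this]
        exact hmin' _ _ ⟨by linarith, by linarith [ht01.2]⟩ ⟨h2.le, h3⟩ (by linarith)
      obtain ⟨κ, hκ0, hκδ, hκa, hκb, hκc⟩ : ∃ κ : ℝ, 0 < κ ∧ κ < δ ∧ κ * |α| ≤ l1 / 2 ∧
          κ * |α| ≤ 1 - l1 ∧ κ * |β| ≤ t0 * l1 / 2 := by
        set m := min δ (min (l1 / 2) (min (1 - l1) (t0 * l1 / 2))) with hm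
        have hm0 : 0 < m := by
          have : 0 < t0 * l1 / 2 := by positivity
          refine lt_min hδ (lt_min (by linarith) (lt_min (by linarith) this))
        set D := |α| + |β| + 2 with hD
        have hDp : 2 ≤ D := by have := abs_nonneg α; have := abs_nonneg β; linarith
        have hD0 : 0 < D := by linarith
        have e1' : m / D * |α| ≤ m := by
          rw [div_mul_eq_mul_div, div_le_iff₀ hD0]
          have := abs_nonneg β
          nlinarith [abs_nonneg α]
        have e2' : m / D * |β| ≤ m := by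
          rw [div_mul_eq_mul_div, div_le_iff₀ hD0]
          have := abs_nonneg α
          nlinarith [abs_nonneg β]
        have m1 : m ≤ l1 / 2 := (min_le_right _ _).trans (min_le_left _ _)
        have m2 : m ≤ 1 - l1 := ((min_le_right _ _).trans (min_le_right _ _)).trans (min_le_left _ _)
        have m3 : m ≤ t0 * l1 / 2 :=
          ((min_le_right _ _).trans (min_le_right _ _)).trans (min_le_right _ _)
        refine ⟨m / D, by positivity, ?_, by linarith, by linarith, by linarith⟩
        have : m ≤ δ := min_le_left _ _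
        rw [div_lt_iff₀ hD0]
        nlinarith
      have habs := abs_le.1 (le_refl |κ * α|)
      rw [abs_mul, abs_of_pos hκ0] at habs
      rcases lt_or_gt_of_ne hβ with hneg | hpos
      · refine (hδK κ (by rw [abs_of_pos hκ0]; exact hκδ)) (key κ ?_ ?_ ?_ ?_)
        · exact mul_neg_of_pos_of_neg hκ0 hneg
        · linarith [habs.1]
        · linarith [habs.2]
        · rw [abs_of_neg hneg] at hκc
          rw [div_le_iff₀ (by linarith [habs.1])]
          nlinarith [habs.1]
      · refine (hδK (-κ) (by rw [abs_neg, abs_of_pos hκ0]; exact hκδ)) (key (-κ) ?_ ?_ ?_ ?_)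
        · nlinarith
        · linarith [habs.2]
        · linarith [habs.1]
        · rw [abs_of_pos hpos] at hκc
          rw [div_le_iff₀ (by linarith [habs.2])]
          nlinarith [habs.2]

/-- **Tietze, Nakajima**: an open connected set of the plane all of whose boundary points are
inner points of segments in the complement is convex. -/
theorem convex_of_supp {U : Set (ℝ × ℝ)} (hU : IsOpen U) (hc : IsPreconnected U) (hs : Supp U) :
    Convex ℝ U := by
  rw [convex_iff_segment_subset]
  intro x hx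
  -- the set of the points seen from `x`
  let V : Set (ℝ × ℝ) := {y | segment ℝ x y ⊆ U}
  have hball : ∀ y ∈ U, ∃ r > 0, Metric.ball y r ⊆ U := fun y hy => Metric.isOpen_iff.1 hU y hy
  have hst : ∀ y ∈ V, ∀ z, segment ℝ y z ⊆ U → z ∈ V := fun y hy z hz => triangle hU hs hy hz
  have hloc : ∀ y ∈ U, ∃ r > 0, ∀ z ∈ Metric.ball y r, ∀ z' ∈ Metric.ball y r,
      segment ℝ z z' ⊆ U := by
    intro y hy
    obtain ⟨r, hr, hrU⟩ := hball y hy
    exact ⟨r, hr, fun z hz z' hz' => ((convex_ball y r).segment_subset hz hz').trans hrU⟩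
  have hVU : V ⊆ U := fun y hy => hy (right_mem_segment ℝ x y)
  have hVo : IsOpen V := by
    rw [Metric.isOpen_iff]
    intro y hy
    obtain ⟨r, hr, h⟩ := hloc y (hVU hy)
    exact ⟨r, hr, fun z hz => hst y hy z (h y (Metric.mem_ball_self hr) z hz)⟩
  have hWo : IsOpen (U \ V) := by
    rw [Metric.isOpen_iff]
    intro y hy
    obtain ⟨r, hr, h⟩ := hloc y hy.1
    obtain ⟨r', hr', h'⟩ := hball y hy.1
    refine ⟨min r r', lt_min hr hr', fun z hz => ⟨h' (Metric.ball_subset_ball (min_le_right _ _) hz),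
      fun hzV => hy.2 (hst z hzV y (h z (Metric.ball_subset_ball (min_le_left _ _) hz) y
        (Metric.mem_ball_self hr)))⟩⟩
  have hsub : U ⊆ V := by
    have hxV : x ∈ V := by
      show segment ℝ x x ⊆ U
      rw [segment_same]
      exact singleton_subset_iff.2 hx
    by_contra hn
    rw [Set.not_subset] at hn
    obtain ⟨y, hy, hyV⟩ := hn
    obtain ⟨w, hw1, hw2, hw3⟩ := hc V (U \ V) hVo hWo
      (fun w hw => by
        by_cases h : w ∈ V
        · exact Or.inl h
        · exact Or.inr ⟨hw, h⟩) ⟨x, hx, hxV⟩ ⟨y, hy, hy, hyV⟩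
    exact hw3.2 hw2
  intro y hy
  exact hsub hy

end Run7.h749.Cvx
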