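import Mathlib

/-!
# Arrangements, their graphs of large girth, and representations by segments

Plan of the proof that recognising segment intersection graphs of girth at least `k` is
`∃ℝ`-hard. This file contains the combinatorial arrangements and their graphs.
-/

namespace Run7.h749

/-- Combinatorial data of an arrangement of lines in a square. There are two classes of lines:
the lines `(false, i)` run from the left side to the right side of the square, the lines
`(true, i)` from the bottom side to the top side. The index `i` of a line is its rank at its end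
(right side: counted from below, top side: counted from the left), and `st` is the rank at its
start. The plus side of a line is the side of the lines of larger index (above, to the right).
Every line has `S` slots for its crossings, numbered from its start to its end. -/
structure Arr where
  /-- the number of lines of a class -/
  m : Bool → ℕ
  /-- the number of slots -/
  S : ℕ
  /-- `x c i j`: the lines `(c, i)` and `(c, j)` cross -/
  x : Bool → ℕ → ℕ → Bool
  /-- `ss c i j`: the slot on the line `(c, i)` of its crossing with the line `(c, j)` -/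
  ss : Bool → ℕ → ℕ → ℕ
  /-- `sd c i j`: the slot on the line `(c, i)` of its crossing with the line `(!c, j)` -/
  sd : Bool → ℕ → ℕ → ℕ
  /-- the rank at the start -/
  st : Bool → ℕ → ℕ

/-- Names of lines. -/
abbrev Ln := Bool × ℕ

namespace Arr

variable (A : Arr)

/-- The lines of the arrangement. -/
def IsL (a : Ln) : Prop := a.2 < A.m a.1

/-- The proper lines: the lines of index `0`, `1`, `m - 2`, `m - 1` are auxiliary. -/
def Re (a : Ln) : Prop := 2 ≤ a.2 ∧ a.2 + 2 < A.m a.1

instance (a : Ln) : Decidable (A.IsL a) := by unfold IsL; infer_instance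
instance (a : Ln) : Decidable (A.Re a) := by unfold Re; infer_instance

/-- Two lines cross. -/
def cr (a b : Ln) : Bool := if a.1 = b.1 then A.x a.1 a.2 b.2 else true

/-- The slot on `a` of the crossing with `b`. -/
def sl (a b : Ln) : ℕ := if a.1 = b.1 then A.ss a.1 a.2 b.2 else A.sd a.1 a.2 b.2

/-- The number of lines. -/
def nn : ℕ := A.m false + A.m true

/-- The order of the lines according to their thickness: the line of smaller rank is thick at a
crossing. -/
def rk (a : Ln) : ℕ :=
  (if A.Re a then 0 else 2 * A.nn) + (if a.1 = true then A.nn else 0) + a.2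

end Arr

/-- The line `a` passes the line `b` from the plus side to the minus side. -/
def rv (a b : Ln) : Bool := decide (a.1 = b.1 ∧ a.2 < b.2)

/-- Positions on chains: the position number `r` (`r < 3`) of the slot `s`. -/
def pos (g s r : ℕ) : ℕ := g * (3 * s + r + 1)

/-- Positions on strands: the strand number `1` of a line has more vertices. -/
def ix (e i : ℕ) : ℕ := if e = 1 then 4 * i else i

/-- The vertices. -/
inductive Vx
  /-- the vertex number `i` of the strand number `e` (`0`: chain on the minus side, `1`: spine,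
  `2`: chain on the plus side) of the line `(c, a)` -/
  | st (c : Bool) (a e i : ℕ)
  /-- the vertex number `k` of the tie `d` (`0`: left tip, `1`: right tip) at the corner `i` of the
  chain `e` of the line `(c, a)` -/
  | ti (c : Bool) (a e i d k : ℕ)
  /-- the vertices of the inner (`false`) and the outer (`true`) ring -/
  | rg (b : Bool) (j : ℕ)
  /-- the vertices of the spokes -/
  | sp (k j : ℕ)
  deriving DecidableEq

namespace Arr

variable (A : Arr) (g : ℕ)

/-- The last index of the chains. -/
def N : ℕ := g * (3 * A.S + 1)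

/-- The length of the rings. -/
def M : ℕ := 6 * A.nn * g

/-- The chain index on the line `a` of the crossing with the strand `r` of the line `b`. -/
def zp (a b : Ln) (r : ℕ) : ℕ :=
  if A.rk a < A.rk b then pos g (A.sl a b) 0
  else pos g (A.sl a b) (if rv a b = true then 2 - r else r)

/-- The rank of the start of the strand `e` of the line `a` (clockwise, starting on the left
side). -/
def kS (a : Ln) (e : ℕ) : ℕ :=
  if a.1 = false then 3 * A.st false a.2 + e
  else 3 * (2 * A.m false + A.m true + (A.m true - 1 - A.st true a.2)) + (2 - e)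

/-- The rank of the end of the strand `e` of the line `a`. -/
def kE (a : Ln) (e : ℕ) : ℕ :=
  if a.1 = false then 3 * (A.m false + A.m true + (A.m false - 1 - a.2)) + (2 - e)
  else 3 * (A.m false + a.2) + e

/-- The vertices of the graph. -/
def IsV : Vx → Prop
  | .st c a e i => a < A.m c ∧ e < 3 ∧ i ≤ ix e (A.N g)
  | .ti c a e i d k => a < A.m c ∧ (e = 0 ∨ e = 2) ∧ i < A.N g ∧ d < 2 ∧ k < g
  | .rg _ j => j < A.M g
  | .sp k j => k < 6 * A.nn ∧ j < g

/-- The edges of the graph, each in one direction. -/
inductive Ed : Vx → Vx → Prop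
  /-- strands -/
  | str (c : Bool) (a e i : ℕ) : a < A.m c → e < 3 → i < ix e (A.N g) →
      Ed (.st c a e i) (.st c a e (i + 1))
  /-- crossings, `a` is thick -/
  | crs (a b : Ln) (e f : ℕ) : A.IsL a → A.IsL b → a ≠ b → A.cr a b = true → A.rk a < A.rk b →
      e < 3 → f < 3 →
      Ed (.st a.1 a.2 e (ix e (A.zp g a b f))) (.st b.1 b.2 f (ix f (A.zp g b a e)))
  /-- the end of a tie on the spine -/
  | ti0 (c : Bool) (a e i d : ℕ) : a < A.m c → (e = 0 ∨ e = 2) → i < A.N g → d < 2 →
      Ed (.ti c a e i d 0) (.st c a 1 (4 * i + 1 + 2 * d))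
  /-- ties -/
  | tim (c : Bool) (a e i d k : ℕ) : a < A.m c → (e = 0 ∨ e = 2) → i < A.N g → d < 2 →
      k + 1 < g → Ed (.ti c a e i d k) (.ti c a e i d (k + 1))
  /-- the end of a tie on the chain -/
  | ti1 (c : Bool) (a e i d : ℕ) : a < A.m c → (e = 0 ∨ e = 2) → i < A.N g → d < 2 →
      Ed (.ti c a e i d (g - 1)) (.st c a e (i + 1 - d))
  /-- the start of a strand -/
  | ends (a : Ln) (e : ℕ) : A.IsL a → e < 3 → Ed (.st a.1 a.2 e 0) (.rg false (g * A.kS a e))
  /-- the end of a strand -/
  | ende (a : Ln) (e : ℕ) : A.IsL a → e < 3 →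
      Ed (.st a.1 a.2 e (ix e (A.N g))) (.rg false (g * A.kE a e))
  /-- rings -/
  | rng (b : Bool) (j : ℕ) : j < A.M g → Ed (.rg b j) (.rg b ((j + 1) % A.M g))
  /-- the inner end of a spoke -/
  | spi (k : ℕ) : k < 6 * A.nn → Ed (.sp k 0) (.rg false (g * k + 1))
  /-- spokes -/
  | spm (k j : ℕ) : k < 6 * A.nn → j + 1 < g → Ed (.sp k j) (.sp k (j + 1))
  /-- the outer end of a spoke -/
  | spo (k : ℕ) : k < 6 * A.nn → Ed (.sp k (g - 1)) (.rg true (g * k + 1))

/-- A representation of the graph by segments. -/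
def Rep : Prop := ∃ P Q : Vx → ℝ × ℝ, (∀ v, A.IsV g v → P v ≠ Q v) ∧
  ∀ u v, A.IsV g u → A.IsV g v → u ≠ v →
    ((segment ℝ (P u) (Q u) ∩ segment ℝ (P v) (Q v)).Nonempty ↔ A.Ed g u v ∨ A.Ed g v u)

/-- The properties of the combinatorial data which are used. -/
structure Ok : Prop where
  five : ∀ c, 5 ≤ A.m c
  xre : ∀ c i j, A.x c i j = true → A.Re (c, i) ∧ A.Re (c, j) ∧ i ≠ j
  xsymm : ∀ c i j, A.x c i j = A.x c j i
  xst : ∀ c i j, i < j → j < A.m c → (A.x c i j = true ↔ A.st c j < A.st c i)
  stlt : ∀ c i, i < A.m c → A.st c i < A.m c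
  stinj : ∀ c i j, i < A.m c → j < A.m c → A.st c i = A.st c j → i = j
  sslt : ∀ c i j, A.x c i j = true → A.ss c i j < A.S
  sdlt : ∀ c i j, i < A.m c → j < A.m (!c) → A.sd c i j < A.S
  ssinj : ∀ c i j j', A.x c i j = true → A.x c i j' = true → A.ss c i j = A.ss c i j' → j = j'
  sdinj : ∀ c i j j', i < A.m c → j < A.m (!c) → j' < A.m (!c) → A.sd c i j = A.sd c i j' → j = j'
  ssd : ∀ c i j j', A.x c i j = true → j' < A.m (!c) → A.ss c i j ≠ A.sd c i j'
  lo0 : ∀ c i j, i < A.m c → 0 < j → j < A.m (!c) → A.sd c i 0 < A.sd c i j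
  lo1 : ∀ c i j, i < A.m c → 1 < j → j < A.m (!c) → A.sd c i 1 < A.sd c i j
  hi0 : ∀ c i j, i < A.m c → j + 1 < A.m (!c) → A.sd c i j < A.sd c i (A.m (!c) - 1)
  hi1 : ∀ c i j, i < A.m c → j + 2 < A.m (!c) → A.sd c i j < A.sd c i (A.m (!c) - 2)
  slo : ∀ c i j, A.x c i j = true → A.sd c i 1 < A.ss c i j
  shi : ∀ c i j, A.x c i j = true → A.ss c i j < A.sd c i (A.m (!c) - 2)
  oS : ∀ c i j j', i < 2 → j < A.m (!c) → j' < A.m (!c) → A.st (!c) j < A.st (!c) j' →
    A.sd c i j < A.sd c i j'
  oE : ∀ c i j j', i < A.m c → A.m c ≤ i + 2 → j < j' → j' < A.m (!c) →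
    A.sd c i j < A.sd c i j'

/-- The slot `k` of the line `b` is on the side `s` (`true`: plus) of the proper line `a` and
inside the square formed by the outermost lines. -/
def Reg (a : Ln) (s : Bool) (b : Ln) (k : ℕ) : Prop :=
  A.Re a ∧ b ≠ a ∧ 0 < b.2 ∧ b.2 + 1 < A.m b.1 ∧
    if a.1 = b.1 then
      A.sd b.1 b.2 0 < k ∧ k < A.sd b.1 b.2 (A.m (!b.1) - 1) ∧
        if A.x b.1 b.2 a.2 = true then
          (if decide (a.2 < b.2) = s then A.ss b.1 b.2 a.2 < k else k < A.ss b.1 b.2 a.2)
        else decide (a.2 < b.2) = s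
    else
      if s = true then A.sd b.1 b.2 a.2 < k ∧ k < A.sd b.1 b.2 (A.m a.1 - 1)
      else A.sd b.1 b.2 0 < k ∧ k < A.sd b.1 b.2 a.2

/-- The value of an affine function given by its coefficients. -/
def ev (c : ℝ × ℝ × ℝ) (z : ℝ × ℝ) : ℝ := c.1 * z.1 + c.2.1 * z.2 + c.2.2

/-- The sign of a side. -/
def sgn (s : Bool) : ℝ := if s = true then 1 else -1

/-- The arrangement is realised, as far as necessary, by straight lines: `f a` is an affine
function vanishing on the line `a` and positive on its plus side, `X a b` is the crossing of `a`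
and `b`, and `W b k` is a point on the slot `k` of the line `b`. -/
def Geo : Prop := ∃ (f : Ln → ℝ × ℝ × ℝ) (X : Ln → Ln → ℝ × ℝ) (W : Ln → ℕ → ℝ × ℝ),
  (∀ a b, A.Re a → A.Re b → a ≠ b → A.cr a b = true → ev (f a) (X a b) = 0 ∧
    ev (f b) (X a b) = 0 ∧ X a b = X b a ∧
    ∀ c s, c ≠ b → A.Reg c s a (A.sl a b) → 0 < sgn s * ev (f c) (X a b)) ∧
  ∀ b k, A.IsL b → k < A.S → ∀ c s, A.Reg c s b k → 0 < sgn s * ev (f c) (W b k)

/-- The parameter on the line `a` of its crossing with the line `b`, if the line `(false, i)` is the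
segment from `(0, u false i)` to `(1, v false i)`, and the line `(true, i)` is the segment from
`(u true i, 0)` to `(v true i, 1)`; the parameter on `(false, i)` is the first coordinate, the
parameter on `(true, i)` is the second coordinate. -/
noncomputable def tt (u v : Bool → ℕ → ℝ) (a b : Ln) : ℝ :=
  if a.1 = b.1 then
    (u a.1 a.2 - u b.1 b.2) / ((u a.1 a.2 - u b.1 b.2) - (v a.1 a.2 - v b.1 b.2))
  else
    (u b.1 b.2 + (v b.1 b.2 - u b.1 b.2) * u a.1 a.2) /
      (1 - (v b.1 b.2 - u b.1 b.2) * (v a.1 a.2 - u a.1 a.2))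

/-- The arrangement is realised by straight lines in the unit square. -/
def Lines : Prop := ∃ u v : Bool → ℕ → ℝ,
  (∀ c i, i < A.m c → 0 < u c i ∧ u c i < 1 ∧ 0 < v c i ∧ v c i < 1) ∧
  (∀ c i j, i < A.m c → j < A.m c → A.st c i < A.st c j → u c i < u c j) ∧
  (∀ c i j, i < j → j < A.m c → v c i < v c j) ∧
  ∀ a b b', A.IsL a → A.IsL b → A.IsL b' → b ≠ a → b' ≠ a → A.cr a b = true →
    A.cr a b' = true → A.sl a b < A.sl a b' → tt u v a b < tt u v a b'

end Arr

end Run7.h749
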