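import Pool.Agent.Run7.h749.Xl

/-!
# The corners of the chains and the crossings of the strands
-/

namespace Run7.h749

open Arr Set

variable {A : Arr} {g : ℕ} {P Q : Vx → ℝ × ℝ}

/-- The vertex before a vertex of a strand. -/
def pv (A : Arr) (g : ℕ) (a : Ln) (e i : ℕ) : Vx :=
  if i = 0 then .rg false (g * A.kS a e) else .st a.1 a.2 e (i - 1)

/-- The vertex after a vertex of a strand. -/
def nx (A : Arr) (g : ℕ) (a : Ln) (e i : ℕ) : Vx :=
  if i = ix e (A.N g) then .rg false (g * A.kE a e) else .st a.1 a.2 e (i + 1)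

/-- A common point of two segments, if there is one. -/
noncomputable def pt (P Q : Vx → ℝ × ℝ) (u v : Vx) : ℝ × ℝ := by
  classical
  exact if h : ∃ z, z ∈ segment ℝ (P u) (Q u) ∧ z ∈ segment ℝ (P v) (Q v) then h.choose else 0

/-- The segments of `u` and `v` have exactly one common point, `pt u v`. -/
def Un (P Q : Vx → ℝ × ℝ) (u v : Vx) : Prop :=
  pt P Q u v ∈ segment ℝ (P u) (Q u) ∧ pt P Q u v ∈ segment ℝ (P v) (Q v) ∧
    ∀ w, w ∈ segment ℝ (P u) (Q u) → w ∈ segment ℝ (P v) (Q v) → w = pt P Q u v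

theorem Un.of {u v : Vx} {z : ℝ × ℝ} (hz : z ∈ segment ℝ (P u) (Q u))
    (hz' : z ∈ segment ℝ (P v) (Q v))
    (h : ∀ w, w ∈ segment ℝ (P u) (Q u) → w ∈ segment ℝ (P v) (Q v) → w = z) :
    Un P Q u v ∧ pt P Q u v = z := by
  have hex : ∃ z, z ∈ segment ℝ (P u) (Q u) ∧ z ∈ segment ℝ (P v) (Q v) := ⟨z, hz, hz'⟩
  have h1 : pt P Q u v = z := by
    unfold pt
    rw [dif_pos hex]
    exact h _ hex.choose_spec.1 hex.choose_spec.2
  refine ⟨⟨?_, ?_, ?_⟩, h1⟩
  · rw [h1]; exact hz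
  · rw [h1]; exact hz'
  · rw [h1]; exact h

theorem Un.comm {u v : Vx} (h : Un P Q u v) : Un P Q v u ∧ pt P Q v u = pt P Q u v :=
  Un.of h.2.1 h.1 fun w h1 h2 => h.2.2 w h2 h1

/-! ### Ranks -/

theorem kS_f (i e : ℕ) : A.kS (false, i) e = 3 * A.st false i + e := rfl

theorem kS_t (i e : ℕ) : A.kS (true, i) e =
    3 * (2 * A.m false + A.m true + (A.m true - 1 - A.st true i)) + (2 - e) := rfl

theorem kE_f (i e : ℕ) : A.kE (false, i) e =
    3 * (A.m false + A.m true + (A.m false - 1 - i)) + (2 - e) := rfl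

theorem kE_t (i e : ℕ) : A.kE (true, i) e = 3 * (A.m false + i) + e := rfl

theorem kS_lt (hA : A.Ok) {a : Ln} (ha : A.IsL a) {e : ℕ} (he : e < 3) : A.kS a e < 6 * A.nn := by
  obtain ⟨c, i⟩ := a
  have h1 := hA.stlt c i ha
  unfold Arr.IsL at ha
  unfold Arr.nn
  cases c <;> simp only [kS_f, kS_t] at * <;> omega

theorem kE_lt (_hA : A.Ok) {a : Ln} (ha : A.IsL a) {e : ℕ} (he : e < 3) : A.kE a e < 6 * A.nn := by
  obtain ⟨c, i⟩ := a
  unfold Arr.IsL at ha
  unfold Arr.nn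
  cases c <;> simp only [kE_f, kE_t] at * <;> omega

theorem kS_ne_kE (hA : A.Ok) {a : Ln} (ha : A.IsL a) {e e' : ℕ} (he : e < 3) (he' : e' < 3) :
    A.kS a e ≠ A.kE a e' := by
  obtain ⟨c, i⟩ := a
  have h1 := hA.stlt c i ha
  unfold Arr.IsL at ha
  cases c <;> simp only [kE_f, kE_t, kS_f, kS_t] at * <;> omega

/-- Ends at a corner. -/
theorem itl_cor (hA : A.Ok) {a : Ln} (ha : A.IsL a) {e : ℕ} (he : e = 0 ∨ e = 2) :
    Itl (A.kS a e) (A.kE a 1) (A.kS a 1) (A.kE a e) := by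
  obtain ⟨c, i⟩ := a
  have h1 := hA.stlt c i ha
  unfold Arr.IsL at ha
  unfold Itl
  cases c <;> simp only [kE_f, kE_t, kS_f, kS_t] at * <;> rcases he with rfl | rfl <;> omega

/-- Ends at a crossing. -/
theorem itl_crs (hA : A.Ok) {a b : Ln} (ha : A.IsL a) (hb : A.IsL b) (hab : a ≠ b)
    (hc : A.cr a b = true) {e f : ℕ} (he : e < 3) (hf : f < 3) :
    Itl (A.kS a e) (A.kE a e) (A.kS b f) (A.kE b f) := by
  obtain ⟨c, i⟩ := a
  obtain ⟨d, j⟩ := b
  have h1 := hA.stlt c i ha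
  have h2 := hA.stlt d j hb
  unfold Arr.IsL at ha hb
  simp only at ha hb
  unfold Arr.cr at hc
  simp only at hc
  unfold Itl
  by_cases hcd : c = d
  · subst hcd
    rw [if_pos rfl] at hc
    have hij : i ≠ j := fun h => hab (by rw [h])
    have hst : (i < j ∧ A.st c j < A.st c i) ∨ (j < i ∧ A.st c i < A.st c j) := by
      rcases lt_or_gt_of_ne hij with h | h
      · exact Or.inl ⟨h, (hA.xst c i j h hb).1 hc⟩
      · rw [hA.xsymm] at hc
        exact Or.inr ⟨h, (hA.xst c j i h ha).1 hc⟩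
    cases c <;> simp only [kE_f, kE_t, kS_f, kS_t] at * <;> rcases hst with h | h <;> omega
  · cases c <;> cases d
    · exact absurd rfl hcd
    · simp only [kE_f, kE_t, kS_f, kS_t] at *
      omega
    · simp only [kE_f, kE_t, kS_f, kS_t] at *
      omega
    · exact absurd rfl hcd

/-- Ends for the order on a thick vertex (end of the thick line). -/
theorem itl_toe (hA : A.Ok) {a b : Ln} (ha : A.IsL a) (hb : A.IsL b) (hab : a.1 ≠ b.1)
    {e : ℕ} (he : e < 3) : Itl (A.kE a e) (A.kE b 1) (A.kS b 2) (A.kE b 2) := by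
  obtain ⟨c, i⟩ := a
  obtain ⟨d, j⟩ := b
  have h1 := hA.stlt c i ha
  have h2 := hA.stlt d j hb
  unfold Arr.IsL at ha hb
  simp only at ha hb
  unfold Itl
  cases c <;> cases d
  · exact absurd rfl hab
  · simp only [kE_f, kE_t, kS_f, kS_t] at *
    omega
  · simp only [kE_f, kE_t, kS_f, kS_t] at *
    omega
  · exact absurd rfl hab

/-- Ends for the order on a thick vertex (start of the thick line). -/
theorem itl_tos (hA : A.Ok) {a b : Ln} (ha : A.IsL a) (hb : A.IsL b) (hab : a.1 ≠ b.1)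
    {e : ℕ} (he : e < 3) : Itl (A.kS a e) (A.kE b 1) (A.kS b 0) (A.kE b 0) := by
  obtain ⟨c, i⟩ := a
  obtain ⟨d, j⟩ := b
  have h1 := hA.stlt c i ha
  have h2 := hA.stlt d j hb
  unfold Arr.IsL at ha hb
  simp only at ha hb
  unfold Itl
  cases c <;> cases d
  · exact absurd rfl hab
  · simp only [kE_f, kE_t, kS_f, kS_t] at *
    omega
  · simp only [kE_f, kE_t, kS_f, kS_t] at *
    omega
  · exact absurd rfl hab

namespace RS

theorem N_pos (_hR : RS A g P Q) : g ≤ A.N g := by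
  unfold Arr.N
  exact Nat.le_mul_of_pos_right _ (by omega)

theorem ix_pos {e n : ℕ} (h : 0 < n) : 0 < ix e n := by unfold ix; split_ifs <;> omega

theorem ix_inj {e i j : ℕ} (h : ix e i = ix e j) : i = j := by
  unfold ix at h; split_ifs at h <;> omega

theorem ix_lt {e i j : ℕ} : ix e i < ix e j ↔ i < j := by unfold ix; split_ifs <;> omega

theorem ix_le {e i j : ℕ} : ix e i ≤ ix e j ↔ i ≤ j := by unfold ix; split_ifs <;> omega

/-- The start of a strand can be reached. -/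
theorem rcLo' (hR : RS A g P Q) {a : Ln} (ha : A.IsL a) {e i : ℕ} (he : e < 3)
    (hi : i ≤ ix e (A.N g)) {W : Set Vx} (hW : ∀ t ≤ i, Vx.st a.1 a.2 e t ∈ W) {x : ℝ × ℝ}
    (hx : x ∈ segment ℝ (P (.st a.1 a.2 e i)) (Q (.st a.1 a.2 e i))) :
    Rc P Q g W (A.kS a e) x := by
  have hM := hR.k_lt_M (kS_lt hR.ok ha he)
  have hg := hR.hg
  obtain ⟨r, hr1, hr2⟩ := hR.mt (u := .st a.1 a.2 e 0) (v := .rg false (g * A.kS a e))
    ⟨ha, he, Nat.zero_le _⟩ (by show g * A.kS a e < A.M g; omega) (Or.inl (.ends a e ha he))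
  exact ⟨r, hr2, (hR.jst ha he (Nat.zero_le i) hi (fun t _ h => hW t h) r hr1 x hx).mono
    subset_union_left⟩

/-- The end of a strand can be reached. -/
theorem rcHi' (hR : RS A g P Q) {a : Ln} (ha : A.IsL a) {e i : ℕ} (he : e < 3)
    (hi : i ≤ ix e (A.N g)) {W : Set Vx}
    (hW : ∀ t, i ≤ t → t ≤ ix e (A.N g) → Vx.st a.1 a.2 e t ∈ W) {x : ℝ × ℝ}
    (hx : x ∈ segment ℝ (P (.st a.1 a.2 e i)) (Q (.st a.1 a.2 e i))) :
    Rc P Q g W (A.kE a e) x := by
  have hM := hR.k_lt_M (kE_lt hR.ok ha he)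
  have hg := hR.hg
  obtain ⟨r, hr1, hr2⟩ := hR.mt (u := .st a.1 a.2 e (ix e (A.N g)))
    (v := .rg false (g * A.kE a e))
    ⟨ha, he, le_rfl⟩ (by show g * A.kE a e < A.M g; omega) (Or.inl (.ende a e ha he))
  exact ⟨r, hr2, ((hR.jst ha he hi le_rfl (fun t h h' => hW t h h')).symm r hr1 x hx).mono
    subset_union_left⟩

theorem rcLo (hR : RS A g P Q) {a : Ln} (ha : A.IsL a) {e i : ℕ} (he : e < 3)
    (hi : i ≤ ix e (A.N g)) {W : Set Vx} (hW : ∀ t < i, Vx.st a.1 a.2 e t ∈ W) {x : ℝ × ℝ}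
    (hx : x ∈ segment ℝ (P (pv A g a e i)) (Q (pv A g a e i))) :
    Rc P Q g W (A.kS a e) x := by
  unfold pv at hx
  by_cases h0 : i = 0
  · rw [if_pos h0] at hx
    exact ⟨x, hx, JoinedIn.refl (Or.inr rfl)⟩
  · rw [if_neg h0] at hx
    exact hR.rcLo' ha he (i := i - 1) (by omega) (fun t ht => hW t (by omega)) hx

theorem rcHi (hR : RS A g P Q) {a : Ln} (ha : A.IsL a) {e i : ℕ} (he : e < 3)
    (hi : i ≤ ix e (A.N g)) {W : Set Vx}
    (hW : ∀ t, i < t → t ≤ ix e (A.N g) → Vx.st a.1 a.2 e t ∈ W) {x : ℝ × ℝ}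
    (hx : x ∈ segment ℝ (P (nx A g a e i)) (Q (nx A g a e i))) :
    Rc P Q g W (A.kE a e) x := by
  unfold nx at hx
  by_cases h0 : i = ix e (A.N g)
  · rw [if_pos h0] at hx
    exact ⟨x, hx, JoinedIn.refl (Or.inr rfl)⟩
  · rw [if_neg h0] at hx
    exact hR.rcHi' ha he (i := i + 1) (by omega) (fun t ht ht' => hW t (by omega) ht') hx

theorem pv_V (hR : RS A g P Q) {a : Ln} (ha : A.IsL a) {e i : ℕ} (he : e < 3)
    (hi : i ≤ ix e (A.N g)) : A.IsV g (pv A g a e i) := by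
  have hM := hR.k_lt_M (kS_lt hR.ok ha he)
  have hg := hR.hg
  unfold pv
  split_ifs
  · show g * A.kS a e < A.M g
    omega
  · exact ⟨ha, he, by omega⟩

theorem nx_V (hR : RS A g P Q) {a : Ln} (ha : A.IsL a) {e i : ℕ} (he : e < 3)
    (hi : i ≤ ix e (A.N g)) : A.IsV g (nx A g a e i) := by
  have hM := hR.k_lt_M (kE_lt hR.ok ha he)
  have hg := hR.hg
  unfold nx
  split_ifs
  · show g * A.kE a e < A.M g
    omega
  · exact ⟨ha, he, by omega⟩

theorem pv_aj {a : Ln} (ha : A.IsL a) {e i : ℕ} (he : e < 3)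
    (hi : i ≤ ix e (A.N g)) : A.Aj g (pv A g a e i) (.st a.1 a.2 e i) := by
  unfold pv
  split_ifs with h
  · subst h
    exact Or.inr (.ends a e ha he)
  · left
    have := Ed.str (A := A) (g := g) a.1 a.2 e (i - 1) ha he (by omega)
    rwa [show i - 1 + 1 = i by omega] at this

theorem nx_aj {a : Ln} (ha : A.IsL a) {e i : ℕ} (he : e < 3)
    (hi : i ≤ ix e (A.N g)) : A.Aj g (nx A g a e i) (.st a.1 a.2 e i) := by
  unfold nx
  split_ifs with h
  · subst h
    exact Or.inr (.ende a e ha he)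
  · exact Or.inr (.str a.1 a.2 e i ha he (by omega))

/-- The next vertex but one. -/
theorem pv_far (hR : RS A g P Q) {a : Ln} (ha : A.IsL a) {e i : ℕ} (he : e < 3)
    (hi : i + 1 ≤ ix e (A.N g)) : pv A g a e i ≠ .st a.1 a.2 e (i + 1) ∧
      ¬ A.Aj g (pv A g a e i) (.st a.1 a.2 e (i + 1)) := by
  have hg := hR.hg
  unfold pv
  split_ifs with h
  · refine ⟨by simp, fun hA => ?_⟩
    obtain ⟨-, -, h1 | h1⟩ := aj_st_rg hA.symm
    · omega
    · have h2 := Nat.eq_of_mul_eq_mul_left (by omega : 0 < g) h1.2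
      exact kS_ne_kE hR.ok ha he he h2
  · refine ⟨by simp, fun hA => ?_⟩
    rcases aj_st_st hR.ok hA with h1 | h1
    · omega
    · exact h1.1 rfl

theorem nx_far (hR : RS A g P Q) {a : Ln} (ha : A.IsL a) {e i : ℕ} (he : e < 3)
    (hi : i + 1 ≤ ix e (A.N g)) : nx A g a e (i + 1) ≠ .st a.1 a.2 e i ∧
      ¬ A.Aj g (nx A g a e (i + 1)) (.st a.1 a.2 e i) := by
  have hg := hR.hg
  unfold nx
  split_ifs with h
  · refine ⟨by simp, fun hA => ?_⟩
    obtain ⟨-, -, h1 | h1⟩ := aj_st_rg hA.symm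
    · have h2 := Nat.eq_of_mul_eq_mul_left (by omega : 0 < g) h1.2
      exact kS_ne_kE hR.ok ha he he h2.symm
    · omega
  · refine ⟨by simp; omega, fun hA => ?_⟩
    rcases aj_st_st hR.ok hA with h1 | h1
    · omega
    · exact h1.1 rfl

/-- A strand vertex is adjacent to the inner ring only at the ends of its strand. -/
theorem av_st {a : Ln} (ha : A.IsL a) {e i k k' : ℕ} (he : e < 3) (hi : i ≤ ix e (A.N g))
    (h0 : i = 0 → A.kS a e = k ∨ A.kS a e = k')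
    (h1 : i = ix e (A.N g) → A.kE a e = k ∨ A.kE a e = k') :
    Av A g k k' (.st a.1 a.2 e i) := ⟨⟨ha, he, hi⟩, h0, h1⟩

/-- **Corners.** The extreme segments of a corner of a chain. -/
theorem corner (hR : RS A g P Q) {a : Ln} (ha : A.IsL a) {e i : ℕ} (he : e = 0 ∨ e = 2)
    (hi : i < A.N g) :
    Un P Q (.st a.1 a.2 e i) (.st a.1 a.2 e (i + 1)) ∧
    (∀ x y, x ∈ segment ℝ (P (.st a.1 a.2 e i)) (Q (.st a.1 a.2 e i)) →
      x ∈ segment ℝ (P (pv A g a e i)) (Q (pv A g a e i)) →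
      y ∈ segment ℝ (P (.st a.1 a.2 e i)) (Q (.st a.1 a.2 e i)) →
      y ∈ segment ℝ (P (.ti a.1 a.2 e i 1 (g - 1))) (Q (.ti a.1 a.2 e i 1 (g - 1))) →
      pt P Q (.st a.1 a.2 e i) (.st a.1 a.2 e (i + 1)) ∈ segment ℝ x y) ∧
    (∀ x y, x ∈ segment ℝ (P (.st a.1 a.2 e (i + 1))) (Q (.st a.1 a.2 e (i + 1))) →
      x ∈ segment ℝ (P (.ti a.1 a.2 e i 0 (g - 1))) (Q (.ti a.1 a.2 e i 0 (g - 1))) →
      y ∈ segment ℝ (P (.st a.1 a.2 e (i + 1))) (Q (.st a.1 a.2 e (i + 1))) →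
      y ∈ segment ℝ (P (nx A g a e (i + 1))) (Q (nx A g a e (i + 1))) →
      pt P Q (.st a.1 a.2 e i) (.st a.1 a.2 e (i + 1)) ∈ segment ℝ x y) := by
  have hg := hR.hg
  have hN := hR.N_pos
  have he1 : e ≠ 1 := by omega
  have he3 : e < 3 := by omega
  have ixe : ix e (A.N g) = A.N g := by unfold ix; rw [if_neg he1]
  have ix1 : ix 1 (A.N g) = 4 * A.N g := by unfold ix; rw [if_pos rfl]
  set u : Vx := .st a.1 a.2 e i with hu
  set v : Vx := .st a.1 a.2 e (i + 1) with hv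
  have hVu : A.IsV g u := ⟨ha, he3, by rw [ixe]; omega⟩
  have hVv : A.IsV g v := ⟨ha, he3, by rw [ixe]; omega⟩
  have hVt : ∀ d < 2, ∀ k < g, A.IsV g (.ti a.1 a.2 e i d k) := fun d hd k hk =>
    ⟨ha, he, hi, hd, hk⟩
  let W : Set Vx := {w | (∃ t, t < i ∧ w = .st a.1 a.2 e t) ∨ (∃ k, k < g ∧ w = .ti a.1 a.2 e i 1 k) ∨
    ∃ t, 4 * i + 3 ≤ t ∧ t ≤ 4 * A.N g ∧ w = .st a.1 a.2 1 t}
  let W' : Set Vx := {w | (∃ t, i + 1 < t ∧ t ≤ A.N g ∧ w = .st a.1 a.2 e t) ∨
    (∃ k, k < g ∧ w = .ti a.1 a.2 e i 0 k) ∨ ∃ t, t ≤ 4 * i + 1 ∧ w = .st a.1 a.2 1 t}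
  -- the main crossing lemma
  have key : ∀ x y x' y',
      x ∈ segment ℝ (P u) (Q u) → x ∈ segment ℝ (P (pv A g a e i)) (Q (pv A g a e i)) →
      y ∈ segment ℝ (P u) (Q u) →
      y ∈ segment ℝ (P (.ti a.1 a.2 e i 1 (g - 1))) (Q (.ti a.1 a.2 e i 1 (g - 1))) →
      x' ∈ segment ℝ (P v) (Q v) →
      x' ∈ segment ℝ (P (.ti a.1 a.2 e i 0 (g - 1))) (Q (.ti a.1 a.2 e i 0 (g - 1))) →
      y' ∈ segment ℝ (P v) (Q v) →
      y' ∈ segment ℝ (P (nx A g a e (i + 1))) (Q (nx A g a e (i + 1))) →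
      ∃ z, z ∈ segment ℝ x y ∧ z ∈ segment ℝ x' y' := by
    intro x y x' y' hx hx1 hy hy1 hx' hx1' hy' hy1'
    refine hR.xl (W := W) (W' := W') (u := u) (v := v) (itl_cor hR.ok ha he)
      (kS_lt hR.ok ha he3) (kE_lt hR.ok ha (by omega)) (kS_lt hR.ok ha (by omega))
      (kE_lt hR.ok ha he3) hx hy hx' hy' ?_ ?_ ?_ ?_ ?_ ?_ ?_ ?_ ?_ ?_ ?_
    · exact hR.rcLo ha he3 (by rw [ixe]; omega) (fun t ht => Or.inl ⟨t, ht, rfl⟩) hx1
    · -- from the end of the spine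
      obtain ⟨s, hs1, hs2⟩ := hR.mt (u := .ti a.1 a.2 e i 1 0)
        (v := .st a.1 a.2 1 (4 * i + 1 + 2 * 1)) (hVt 1 (by omega) 0 (by omega))
        ⟨ha, by omega, by rw [ix1]; omega⟩ (Or.inl (.ti0 _ _ _ _ _ ha he hi (by omega)))
      obtain ⟨r, hr, hj⟩ := hR.rcHi' (i := 4 * i + 1 + 2 * 1) ha (e := 1) (by omega)
        (by rw [ix1]; omega) (W := W)
        (fun t h1 h2 => Or.inr (Or.inr ⟨t, by omega, by rw [ix1] at h2; omega, rfl⟩)) hs2
      refine ⟨r, hr, ?_⟩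
      have j2 : JoinedIn (UU P Q W) s y :=
        hR.jti ha he hi (d := 1) (by omega) (j := g - 1) (by omega)
          (fun t ht => Or.inr (Or.inl ⟨t, ht, rfl⟩)) s hs1 y hy1
      refine (hj.mono ?_).trans (j2.mono subset_union_left)
      refine union_subset subset_union_left ?_
      rw [singleton_subset_iff]
      exact Or.inl j2.source_mem
    · obtain ⟨s, hs1, hs2⟩ := hR.mt (u := .ti a.1 a.2 e i 0 0)
        (v := .st a.1 a.2 1 (4 * i + 1 + 2 * 0)) (hVt 0 (by omega) 0 (by omega))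
        ⟨ha, by omega, by rw [ix1]; omega⟩ (Or.inl (.ti0 _ _ _ _ _ ha he hi (by omega)))
      obtain ⟨r, hr, hj⟩ := hR.rcLo' (i := 4 * i + 1 + 2 * 0) ha (e := 1) (by omega)
        (by rw [ix1]; omega) (W := W')
        (fun t h1 => Or.inr (Or.inr ⟨t, by omega, rfl⟩)) hs2
      refine ⟨r, hr, ?_⟩
      have j2 : JoinedIn (UU P Q W') s x' :=
        hR.jti ha he hi (d := 0) (by omega) (j := g - 1) (by omega)
          (fun t ht => Or.inr (Or.inl ⟨t, ht, rfl⟩)) s hs1 x' hx1'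
      refine (hj.mono ?_).trans (j2.mono subset_union_left)
      refine union_subset subset_union_left ?_
      rw [singleton_subset_iff]
      exact Or.inl j2.source_mem
    · exact hR.rcHi ha he3 (by rw [ixe]; omega)
        (fun t ht ht' => Or.inl ⟨t, ht, by rw [ixe] at ht'; exact ht', rfl⟩) hy1'
    · rintro w (⟨t, ht, rfl⟩ | ⟨k, hk, rfl⟩ | ⟨t, ht, ht', rfl⟩)
      · exact av_st ha he3 (by rw [ixe]; omega) (fun _ => Or.inl rfl) (by rw [ixe]; omega)
      · exact ⟨hVt 1 (by omega) k hk, trivial⟩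
      · exact av_st ha (by omega) (by rw [ix1]; omega) (by omega) (fun _ => Or.inr rfl)
    · rintro w (⟨t, ht, ht', rfl⟩ | ⟨k, hk, rfl⟩ | ⟨t, ht, rfl⟩)
      · exact av_st ha he3 (by rw [ixe]; omega) (by omega) (fun _ => Or.inr rfl)
      · exact ⟨hVt 0 (by omega) k hk, trivial⟩
      · exact av_st ha (by omega) (by rw [ix1]; omega) (fun _ => Or.inl rfl) (by rw [ix1]; omega)
    · exact av_st ha he3 (by rw [ixe]; omega) (fun _ => Or.inl rfl) (by rw [ixe]; omega)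
    · exact av_st ha he3 (by rw [ixe]; omega) (by omega) (fun _ => Or.inr rfl)
    · rintro w (⟨t, ht, rfl⟩ | ⟨k, hk, rfl⟩ | ⟨t, ht, ht', rfl⟩) w'
        (⟨t2, ht2, ht2', rfl⟩ | ⟨k2, hk2, rfl⟩ | ⟨t2, ht2, rfl⟩)
      · refine ⟨by simp; omega, fun hA => ?_⟩
        rcases aj_st_st hR.ok hA with h1 | h1
        · omega
        · exact h1.1 rfl
      · refine ⟨by simp, fun hA => ?_⟩
        have := aj_st_ti hA
        omega
      · refine ⟨by simp; omega, fun hA => ?_⟩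
        rcases aj_st_st hR.ok hA with h1 | h1
        · omega
        · exact h1.1 rfl
      · refine ⟨by simp, fun hA => ?_⟩
        have := aj_st_ti hA.symm
        omega
      · refine ⟨by simp, fun hA => ?_⟩
        have := aj_ti_ti hA
        omega
      · refine ⟨by simp, fun hA => ?_⟩
        have := aj_st_ti hA.symm
        omega
      · refine ⟨by simp; omega, fun hA => ?_⟩
        rcases aj_st_st hR.ok hA with h1 | h1
        · omega
        · exact h1.1 rfl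
      · refine ⟨by simp, fun hA => ?_⟩
        have := aj_st_ti hA
        omega
      · refine ⟨by simp; omega, fun hA => ?_⟩
        rcases aj_st_st hR.ok hA with h1 | h1
        · omega
        · exact h1.1 rfl
    · rintro w (⟨t, ht, rfl⟩ | ⟨k, hk, rfl⟩ | ⟨t, ht, ht', rfl⟩)
      · refine ⟨by simp [hv]; omega, fun hA => ?_⟩
        rcases aj_st_st hR.ok hA with h1 | h1
        · omega
        · exact h1.1 rfl
      · refine ⟨by simp [hv], fun hA => ?_⟩
        have := aj_st_ti hA.symm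
        omega
      · refine ⟨by simp [hv]; omega, fun hA => ?_⟩
        rcases aj_st_st hR.ok hA with h1 | h1
        · omega
        · exact h1.1 rfl
    · rintro w' (⟨t2, ht2, ht2', rfl⟩ | ⟨k2, hk2, rfl⟩ | ⟨t2, ht2, rfl⟩)
      · refine ⟨by simp [hu]; omega, fun hA => ?_⟩
        rcases aj_st_st hR.ok hA with h1 | h1
        · omega
        · exact h1.1 rfl
      · refine ⟨by simp [hu], fun hA => ?_⟩
        have := aj_st_ti hA
        omega
      · refine ⟨by simp [hu]; omega, fun hA => ?_⟩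
        rcases aj_st_st hR.ok hA with h1 | h1
        · omega
        · exact h1.1 rfl
  -- points
  have ajR : A.Aj g u (.ti a.1 a.2 e i 1 (g - 1)) := by
    have := Ed.ti1 (A := A) (g := g) a.1 a.2 e i 1 ha he hi (by omega)
    rw [show i + 1 - 1 = i by omega] at this
    exact Or.inr this
  have ajL : A.Aj g v (.ti a.1 a.2 e i 0 (g - 1)) :=
    Or.inr (Ed.ti1 (A := A) (g := g) a.1 a.2 e i 0 ha he hi (by omega))
  obtain ⟨x, hx1, hx⟩ := hR.mt (hR.pv_V ha he3 (by rw [ixe]; omega)) hVu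
    (pv_aj ha he3 (by rw [ixe]; omega))
  obtain ⟨y, hy, hy1⟩ := hR.mt hVu (hVt 1 (by omega) (g - 1) (by omega)) ajR
  obtain ⟨x', hx', hx1'⟩ := hR.mt hVv (hVt 0 (by omega) (g - 1) (by omega)) ajL
  obtain ⟨y', hy1', hy'⟩ := hR.mt (hR.nx_V (i := i + 1) ha he3 (by rw [ixe]; omega)) hVv
    (nx_aj ha he3 (by rw [ixe]; omega))
  obtain ⟨z, hz, hz'⟩ := key x y x' y' hx hx1 hy hy1 hx' hx1' hy' hy1'
  have hzv : z ∈ segment ℝ (P v) (Q v) := (convex_segment _ _).segment_subset hx' hy' hz'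
  have hzu : z ∈ segment ℝ (P u) (Q u) := (convex_segment _ _).segment_subset hx hy hz
  have far1 := hR.pv_far ha he3 (i := i) (by rw [ixe]; omega)
  have hxv : x ∉ segment ℝ (P v) (Q v) :=
    hR.dj' (hR.pv_V ha he3 (by rw [ixe]; omega)) hVv far1.1 far1.2 hx1
  have hyv : y ∉ segment ℝ (P v) (Q v) := by
    refine hR.dj' (hVt 1 (by omega) (g - 1) (by omega)) hVv (by simp [hv]) (fun hA => ?_) hy1
    have := aj_st_ti hA.symm
    omega
  have hxu : x' ∉ segment ℝ (P u) (Q u) := by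
    refine hR.dj' (hVt 0 (by omega) (g - 1) (by omega)) hVu (by simp [hu]) (fun hA => ?_) hx1'
    have := aj_st_ti hA.symm
    omega
  have huniq := seg_uniq hx hy hxv hyv hz hzv hx' hxu
  obtain ⟨hUn, hpt⟩ := Un.of hzu hzv huniq
  refine ⟨hUn, ?_, ?_⟩
  · intro x2 y2 h1 h2 h3 h4
    obtain ⟨z2, hz2, hz2'⟩ := key x2 y2 x' y' h1 h2 h3 h4 hx' hx1' hy' hy1'
    have : z2 = pt P Q u v := hUn.2.2 _ ((convex_segment _ _).segment_subset h1 h3 hz2)
      ((convex_segment _ _).segment_subset hx' hy' hz2')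
    rw [← this]
    exact hz2
  · intro x2 y2 h1 h2 h3 h4
    obtain ⟨z2, hz2, hz2'⟩ := key x y x2 y2 hx hx1 hy hy1 h1 h2 h3 h4
    have : z2 = pt P Q u v := hUn.2.2 _ ((convex_segment _ _).segment_subset hx hy hz2)
      ((convex_segment _ _).segment_subset h1 h3 hz2')
    rw [← this]
    exact hz2'

end RS

end Run7.h749
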