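import Pool.Agent.Run7.h749.Fac

/-!
# Crossings of strands
-/

namespace Run7.h749

open Arr Set

variable {A : Arr} {g : ℕ} {P Q : Vx → ℝ × ℝ}

/-- The vertex of the strand `e` of `a` at the crossing with the strand `f` of `b`. -/
def cv (A : Arr) (g : ℕ) (a b : Ln) (e f : ℕ) : Vx := .st a.1 a.2 e (ix e (A.zp g a b f))

namespace RS

theorem zp_bd (hR : RS A g P Q) {a b : Ln} (ha : A.IsL a) (hb : A.IsL b)
    (hc : A.cr a b = true) {r : ℕ} (hr : r < 3) :
    g ≤ A.zp g a b r ∧ A.zp g a b r + g ≤ A.N g := by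
  obtain ⟨r', h1, h2⟩ := zp_eq (A := A) (g := g) a b r
  have h3 := h2 hr
  rw [h1]
  exact ⟨le_pos _ _, pos_le (hR.ok.sl_lt ha hb hc) (by omega)⟩

theorem cv_V (hR : RS A g P Q) {a b : Ln} (ha : A.IsL a) (hb : A.IsL b)
    (hc : A.cr a b = true) {e f : ℕ} (he : e < 3) (hf : f < 3) : A.IsV g (cv A g a b e f) := by
  have := hR.zp_bd ha hb hc hf
  exact ⟨ha, he, ix_le.2 (by omega)⟩

theorem rk_inj {a b : Ln} (ha : A.IsL a) (hb : A.IsL b) (h : A.rk a = A.rk b) : a = b := by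
  obtain ⟨c, i⟩ := a
  obtain ⟨d, j⟩ := b
  unfold Arr.IsL at ha hb
  unfold Arr.rk Arr.nn at h
  simp only at ha hb h
  cases c <;> cases d <;> split_ifs at h <;> simp_all <;> omega

theorem cv_aj (hR : RS A g P Q) {a b : Ln} (ha : A.IsL a) (hb : A.IsL b) (hab : a ≠ b)
    (hc : A.cr a b = true) {e f : ℕ} (he : e < 3) (hf : f < 3) :
    A.Aj g (cv A g a b e f) (cv A g b a f e) := by
  rcases Nat.lt_trichotomy (A.rk a) (A.rk b) with h | h | h
  · exact Or.inl (.crs a b e f ha hb hab hc h he hf)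
  · exact absurd (rk_inj ha hb h) hab
  · exact Or.inr (.crs b a f e hb ha hab.symm (by rw [hR.ok.cr_comm]; exact hc) h hf he)

/-- Adjacency of vertices of different lines. -/
theorem aj_ne (hR : RS A g P Q) {a b : Ln} (hab : a ≠ b) {e f i j : ℕ}
    (h : A.Aj g (.st a.1 a.2 e i) (.st b.1 b.2 f j)) :
    e < 3 ∧ f < 3 ∧ A.cr a b = true ∧ i = ix e (A.zp g a b f) ∧ j = ix f (A.zp g b a e) := by
  rcases aj_st_st hR.ok h with h1 | h1
  · exact absurd (Prod.ext h1.1 h1.2.1) hab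
  · exact ⟨h1.2.2.2.2.1, h1.2.2.2.2.2.1, h1.2.2.2.1, h1.2.2.2.2.2.2.1, h1.2.2.2.2.2.2.2⟩

/-- **Crossings.** -/
theorem cross (hR : RS A g P Q) {a b : Ln} (ha : A.IsL a) (hb : A.IsL b) (hab : a ≠ b)
    (hc : A.cr a b = true) {e f : ℕ} (he : e < 3) (hf : f < 3) :
    Un P Q (cv A g a b e f) (cv A g b a f e) ∧
    ∀ x y, x ∈ segment ℝ (P (cv A g a b e f)) (Q (cv A g a b e f)) →
      x ∈ segment ℝ (P (pv A g a e (ix e (A.zp g a b f)))) (Q (pv A g a e (ix e (A.zp g a b f)))) →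
      y ∈ segment ℝ (P (cv A g a b e f)) (Q (cv A g a b e f)) →
      y ∈ segment ℝ (P (nx A g a e (ix e (A.zp g a b f)))) (Q (nx A g a e (ix e (A.zp g a b f)))) →
      pt P Q (cv A g a b e f) (cv A g b a f e) ∈ segment ℝ x y := by
  have hg := hR.hg
  have hN := hR.N_pos
  set i := ix e (A.zp g a b f) with hi
  set j := ix f (A.zp g b a e) with hj
  set u := cv A g a b e f with hu
  set v := cv A g b a f e with hv
  have hc' : A.cr b a = true := by rw [hR.ok.cr_comm]; exact hc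
  have hVu : A.IsV g u := hR.cv_V ha hb hc he hf
  have hVv : A.IsV g v := hR.cv_V hb ha hc' hf he
  have bi := hR.zp_bd ha hb hc hf
  have bj := hR.zp_bd hb ha hc' he
  have i0 : 0 < i := ix_pos (by omega)
  have j0 : 0 < j := ix_pos (by omega)
  have iN : i < ix e (A.N g) := ix_lt.2 (by omega)
  have jN : j < ix f (A.N g) := ix_lt.2 (by omega)
  let W : Set Vx := {w | ∃ t, t ≤ ix e (A.N g) ∧ t ≠ i ∧ w = .st a.1 a.2 e t}
  let W' : Set Vx := {w | ∃ t, t ≤ ix f (A.N g) ∧ t ≠ j ∧ w = .st b.1 b.2 f t}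
  have hdf : ∀ t t', t ≠ i ∨ t' ≠ j → (Vx.st a.1 a.2 e t ≠ .st b.1 b.2 f t') ∧
      ¬ A.Aj g (.st a.1 a.2 e t) (.st b.1 b.2 f t') := by
    intro t t' h
    refine ⟨fun h1 => ?_, fun hA => ?_⟩
    · simp only [Vx.st.injEq] at h1
      exact hab (Prod.ext h1.1 h1.2.1)
    · have := hR.aj_ne hab hA
      rcases h with h | h
      · exact h this.2.2.2.1
      · exact h this.2.2.2.2
  have avW : ∀ w ∈ W ∪ {u}, Av A g (A.kS a e) (A.kE a e) w := by
    rintro w (⟨t, ht, -, rfl⟩ | rfl)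
    · exact av_st ha he ht (fun _ => Or.inl rfl) (fun _ => Or.inr rfl)
    · exact av_st ha he iN.le (fun _ => Or.inl rfl) (fun _ => Or.inr rfl)
  have avW' : ∀ w ∈ W' ∪ {v}, Av A g (A.kS b f) (A.kE b f) w := by
    rintro w (⟨t, ht, -, rfl⟩ | rfl)
    · exact av_st hb hf ht (fun _ => Or.inl rfl) (fun _ => Or.inr rfl)
    · exact av_st hb hf jN.le (fun _ => Or.inl rfl) (fun _ => Or.inr rfl)
  have key : ∀ x y x' y',
      x ∈ segment ℝ (P u) (Q u) → x ∈ segment ℝ (P (pv A g a e i)) (Q (pv A g a e i)) →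
      y ∈ segment ℝ (P u) (Q u) → y ∈ segment ℝ (P (nx A g a e i)) (Q (nx A g a e i)) →
      x' ∈ segment ℝ (P v) (Q v) → x' ∈ segment ℝ (P (pv A g b f j)) (Q (pv A g b f j)) →
      y' ∈ segment ℝ (P v) (Q v) → y' ∈ segment ℝ (P (nx A g b f j)) (Q (nx A g b f j)) →
      ∃ z, z ∈ segment ℝ x y ∧ z ∈ segment ℝ x' y' := by
    intro x y x' y' hx hx1 hy hy1 hx' hx1' hy' hy1'
    refine hR.xl (W := W) (W' := W') (u := u) (v := v) (itl_crs hR.ok ha hb hab hc he hf)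
      (kS_lt hR.ok ha he) (kE_lt hR.ok ha he) (kS_lt hR.ok hb hf)
      (kE_lt hR.ok hb hf) hx hy hx' hy' ?_ ?_ ?_ ?_ (fun w hw => avW w (Or.inl hw))
      (fun w hw => avW' w (Or.inl hw)) (avW u (Or.inr rfl)) (avW' v (Or.inr rfl)) ?_ ?_ ?_
    · exact hR.rcLo (W := W) ha he iN.le (fun t ht => ⟨t, by omega, by omega, rfl⟩) hx1
    · exact hR.rcHi (W := W) ha he iN.le (fun t ht ht' => ⟨t, by omega, by omega, rfl⟩) hy1
    · exact hR.rcLo (W := W') hb hf jN.le (fun t ht => ⟨t, by omega, by omega, rfl⟩) hx1'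
    · exact hR.rcHi (W := W') hb hf jN.le (fun t ht ht' => ⟨t, by omega, by omega, rfl⟩) hy1'
    · rintro w ⟨t, ht, h1, rfl⟩ w' ⟨t', ht', h1', rfl⟩
      exact hdf t t' (Or.inl h1)
    · rintro w ⟨t, ht, h1, rfl⟩
      exact hdf t j (Or.inl h1)
    · rintro w ⟨t, ht, h1, rfl⟩
      exact hdf i t (Or.inr h1)
  obtain ⟨x, hx1, hx⟩ := hR.mt (hR.pv_V ha he iN.le) hVu (pv_aj ha he iN.le)
  obtain ⟨y, hy1, hy⟩ := hR.mt (hR.nx_V ha he iN.le) hVu (nx_aj ha he iN.le)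
  obtain ⟨x', hx1', hx'⟩ := hR.mt (hR.pv_V hb hf jN.le) hVv (pv_aj hb hf jN.le)
  obtain ⟨y', hy1', hy'⟩ := hR.mt (hR.nx_V hb hf jN.le) hVv (nx_aj hb hf jN.le)
  obtain ⟨z, hz, hz'⟩ := key x y x' y' hx hx1 hy hy1 hx' hx1' hy' hy1'
  have hzv : z ∈ segment ℝ (P v) (Q v) := (convex_segment _ _).segment_subset hx' hy' hz'
  have hzu : z ∈ segment ℝ (P u) (Q u) := (convex_segment _ _).segment_subset hx hy hz
  have pe : pv A g a e i = .st a.1 a.2 e (i - 1) := by unfold pv; rw [if_neg (by omega)]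
  have ne' : nx A g a e i = .st a.1 a.2 e (i + 1) := by unfold nx; rw [if_neg (by omega)]
  have pe' : pv A g b f j = .st b.1 b.2 f (j - 1) := by unfold pv; rw [if_neg (by omega)]
  have hxv : x ∉ segment ℝ (P v) (Q v) := by
    have := hdf (i - 1) j (Or.inl (by omega))
    exact hR.dj' (hR.pv_V ha he iN.le) hVv (by rw [pe]; exact this.1) (by rw [pe]; exact this.2) hx1
  have hyv : y ∉ segment ℝ (P v) (Q v) := by
    have := hdf (i + 1) j (Or.inl (by omega))
    exact hR.dj' (hR.nx_V ha he iN.le) hVv (by rw [ne']; exact this.1)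
      (by rw [ne']; exact this.2) hy1
  have hxu : x' ∉ segment ℝ (P u) (Q u) := by
    have := hdf i (j - 1) (Or.inr (by omega))
    exact hR.dj' (hR.pv_V hb hf jN.le) hVu (by rw [pe']; exact this.1.symm)
      (by rw [pe']; exact fun h => this.2 h.symm) hx1'
  have huniq := seg_uniq hx hy hxv hyv hz hzv hx' hxu
  obtain ⟨hUn, hpt⟩ := Un.of hzu hzv huniq
  refine ⟨hUn, ?_⟩
  intro x2 y2 h1 h2 h3 h4
  obtain ⟨z2, hz2, hz2'⟩ := key x2 y2 x' y' h1 h2 h3 h4 hx' hx1' hy' hy1'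
  have : z2 = pt P Q u v := hUn.2.2 _ ((convex_segment _ _).segment_subset h1 h3 hz2)
    ((convex_segment _ _).segment_subset hx' hy' hz2')
  rw [← this]
  exact hz2

theorem zp_thick {a b : Ln} (h : A.rk a < A.rk b) (r : ℕ) : A.zp g a b r = pos g (A.sl a b) 0 := by
  unfold Arr.zp; rw [if_pos h]

/-- **The order on a thick vertex** (towards the end of the thick line). -/
theorem toe (hR : RS A g P Q) {a b : Ln} (ha : A.IsL a) (hb : A.IsL b) (hab : a.1 ≠ b.1)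
    (hr : A.rk a < A.rk b) {e : ℕ} (he : e < 3) {y : ℝ × ℝ}
    (hy : y ∈ segment ℝ (P (cv A g a b e 2)) (Q (cv A g a b e 2)))
    (hy1 : y ∈ segment ℝ (P (nx A g a e (ix e (A.zp g a b 2))))
      (Q (nx A g a e (ix e (A.zp g a b 2))))) :
    pt P Q (cv A g a b e 2) (cv A g b a 2 e) ∈
      segment ℝ (pt P Q (cv A g a b e 1) (cv A g b a 1 e)) y := by
  have hg := hR.hg
  have hN := hR.N_pos
  have hne : a ≠ b := fun h => hab (by rw [h])
  have hc : A.cr a b = true := by unfold Arr.cr; rw [if_neg hab]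
  have hc' : A.cr b a = true := by rw [hR.ok.cr_comm]; exact hc
  have ecv : cv A g a b e 1 = cv A g a b e 2 := by
    unfold cv; rw [zp_thick hr, zp_thick hr]
  obtain ⟨hU1, hB1⟩ := hR.cross ha hb hne hc he (f := 1) (by omega)
  obtain ⟨hU2, hB2⟩ := hR.cross ha hb hne hc he (f := 2) (by omega)
  rw [ecv] at hU1 hB1 ⊢
  set i := ix e (A.zp g a b 2) with hi
  set j := ix 2 (A.zp g b a e) with hj
  set j1 := ix 1 (A.zp g b a e) with hj1
  set u := cv A g a b e 2 with hu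
  set v := cv A g b a 2 e with hv
  set w1 := pt P Q u (cv A g b a 1 e) with hw1
  have hVu : A.IsV g u := hR.cv_V ha hb hc he (by omega)
  have hVv : A.IsV g v := hR.cv_V hb ha hc' (by omega) he
  have bi := hR.zp_bd ha hb hc (r := 2) (by omega)
  have bj := hR.zp_bd hb ha hc' he
  have i0 : 0 < i := ix_pos (by omega)
  have j0 : 0 < j := ix_pos (by omega)
  have iN : i < ix e (A.N g) := ix_lt.2 (by omega)
  have jN : j < ix 2 (A.N g) := ix_lt.2 (by omega)
  have j1N : j1 < ix 1 (A.N g) := ix_lt.2 (by omega)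
  have j10 : 0 < j1 := ix_pos (by omega)
  let W : Set Vx := {w | (∃ t, t ≤ ix e (A.N g) ∧ i < t ∧ w = .st a.1 a.2 e t) ∨
    ∃ t, t ≤ ix 1 (A.N g) ∧ j1 ≤ t ∧ w = .st b.1 b.2 1 t}
  let W' : Set Vx := {w | ∃ t, t ≤ ix 2 (A.N g) ∧ t ≠ j ∧ w = .st b.1 b.2 2 t}
  have hdf : ∀ t t', t ≠ i ∨ t' ≠ j → (Vx.st a.1 a.2 e t ≠ .st b.1 b.2 2 t') ∧
      ¬ A.Aj g (.st a.1 a.2 e t) (.st b.1 b.2 2 t') := by
    intro t t' h
    refine ⟨fun h1 => ?_, fun hA => ?_⟩
    · simp only [Vx.st.injEq] at h1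
      exact hne (Prod.ext h1.1 h1.2.1)
    · have := hR.aj_ne hne hA
      rcases h with h | h
      · exact h this.2.2.2.1
      · exact h this.2.2.2.2
  have hdd : ∀ t t', (Vx.st b.1 b.2 1 t ≠ .st b.1 b.2 2 t') ∧
      ¬ A.Aj g (.st b.1 b.2 1 t) (.st b.1 b.2 2 t') := by
    intro t t'
    refine ⟨by simp, fun hA => ?_⟩
    rcases aj_st_st hR.ok hA with h1 | h1
    · omega
    · exact h1.1 rfl
  obtain ⟨x', hx1', hx'⟩ := hR.mt (hR.pv_V hb (e := 2) (by omega) jN.le) hVv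
    (pv_aj hb (by omega) jN.le)
  obtain ⟨y', hy1', hy'⟩ := hR.mt (hR.nx_V hb (e := 2) (by omega) jN.le) hVv
    (nx_aj hb (by omega) jN.le)
  obtain ⟨z, hz, hz'⟩ := hR.xl (W := W) (W' := W') (u := u) (v := v) (a := y) (b := w1) (a' := x')
      (b' := y') (itl_toe hR.ok ha hb hab he)
      (kE_lt hR.ok ha he) (kE_lt hR.ok hb (by omega)) (kS_lt hR.ok hb (by omega))
      (kE_lt hR.ok hb (by omega)) hy hU1.1 hx' hy'
      (hR.rcHi ha he iN.le (fun t ht ht' => Or.inl ⟨t, ht', ht, rfl⟩) hy1)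
      (hR.rcHi' hb (by omega) j1N.le (fun t ht ht' => Or.inr ⟨t, ht', ht, rfl⟩) hU1.2.1)
      (hR.rcLo (W := W') hb (by omega) jN.le (fun t ht => ⟨t, by omega, by omega, rfl⟩) hx1')
      (hR.rcHi (W := W') hb (by omega) jN.le (fun t ht ht' => ⟨t, by omega, by omega, rfl⟩) hy1')
      (by
        rintro w (⟨t, ht, ht', rfl⟩ | ⟨t, ht, ht', rfl⟩)
        · exact av_st ha he ht (by omega) (fun _ => Or.inl rfl)
        · exact av_st hb (by omega) ht (by omega) (fun _ => Or.inr rfl))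
      (by
        rintro w ⟨t, ht, ht', rfl⟩
        exact av_st hb (by omega) ht (fun _ => Or.inl rfl) (fun _ => Or.inr rfl))
      (av_st ha he iN.le (by omega) (by omega))
      (av_st hb (by omega) jN.le (by omega) (by omega))
      (by
        rintro w (⟨t, ht, ht', rfl⟩ | ⟨t, ht, ht', rfl⟩) w' ⟨t', h1, h1', rfl⟩
        · exact hdf t t' (Or.inl (by omega))
        · exact hdd t t')
      (by
        rintro w (⟨t, ht, ht', rfl⟩ | ⟨t, ht, ht', rfl⟩)
        · exact hdf t j (Or.inl (by omega))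
        · exact hdd t j)
      (by
        rintro w ⟨t, ht, h1, rfl⟩
        exact hdf i t (Or.inr h1))
  have : z = pt P Q u v := hU2.2.2 _ ((convex_segment _ _).segment_subset hy hU1.1 hz)
    ((convex_segment _ _).segment_subset hx' hy' hz')
  rw [← this, segment_symm]
  exact hz

/-- **The order on a thick vertex** (towards the start of the thick line). -/
theorem tos (hR : RS A g P Q) {a b : Ln} (ha : A.IsL a) (hb : A.IsL b) (hab : a.1 ≠ b.1)
    (hr : A.rk a < A.rk b) {e : ℕ} (he : e < 3) {y : ℝ × ℝ}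
    (hy : y ∈ segment ℝ (P (cv A g a b e 0)) (Q (cv A g a b e 0)))
    (hy1 : y ∈ segment ℝ (P (pv A g a e (ix e (A.zp g a b 0))))
      (Q (pv A g a e (ix e (A.zp g a b 0))))) :
    pt P Q (cv A g a b e 0) (cv A g b a 0 e) ∈
      segment ℝ y (pt P Q (cv A g a b e 1) (cv A g b a 1 e)) := by
  have hg := hR.hg
  have hN := hR.N_pos
  have hne : a ≠ b := fun h => hab (by rw [h])
  have hc : A.cr a b = true := by unfold Arr.cr; rw [if_neg hab]
  have hc' : A.cr b a = true := by rw [hR.ok.cr_comm]; exact hc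
  have ecv : cv A g a b e 1 = cv A g a b e 0 := by
    unfold cv; rw [zp_thick hr, zp_thick hr]
  obtain ⟨hU1, hB1⟩ := hR.cross ha hb hne hc he (f := 1) (by omega)
  obtain ⟨hU2, hB2⟩ := hR.cross ha hb hne hc he (f := 0) (by omega)
  rw [ecv] at hU1 hB1 ⊢
  set i := ix e (A.zp g a b 0) with hi
  set j := ix 0 (A.zp g b a e) with hj
  set j1 := ix 1 (A.zp g b a e) with hj1
  set u := cv A g a b e 0 with hu
  set v := cv A g b a 0 e with hv
  set w1 := pt P Q u (cv A g b a 1 e) with hw1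
  have hVu : A.IsV g u := hR.cv_V ha hb hc he (by omega)
  have hVv : A.IsV g v := hR.cv_V hb ha hc' (by omega) he
  have bi := hR.zp_bd ha hb hc (r := 0) (by omega)
  have bj := hR.zp_bd hb ha hc' he
  have i0 : 0 < i := ix_pos (by omega)
  have j0 : 0 < j := ix_pos (by omega)
  have iN : i < ix e (A.N g) := ix_lt.2 (by omega)
  have jN : j < ix 0 (A.N g) := ix_lt.2 (by omega)
  have j1N : j1 < ix 1 (A.N g) := ix_lt.2 (by omega)
  have j10 : 0 < j1 := ix_pos (by omega)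
  let W : Set Vx := {w | (∃ t, t < i ∧ w = .st a.1 a.2 e t) ∨
    ∃ t, t ≤ ix 1 (A.N g) ∧ j1 ≤ t ∧ w = .st b.1 b.2 1 t}
  let W' : Set Vx := {w | ∃ t, t ≤ ix 0 (A.N g) ∧ t ≠ j ∧ w = .st b.1 b.2 0 t}
  have hdf : ∀ t t', t ≠ i ∨ t' ≠ j → (Vx.st a.1 a.2 e t ≠ .st b.1 b.2 0 t') ∧
      ¬ A.Aj g (.st a.1 a.2 e t) (.st b.1 b.2 0 t') := by
    intro t t' h
    refine ⟨fun h1 => ?_, fun hA => ?_⟩
    · simp only [Vx.st.injEq] at h1
      exact hne (Prod.ext h1.1 h1.2.1)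
    · have := hR.aj_ne hne hA
      rcases h with h | h
      · exact h this.2.2.2.1
      · exact h this.2.2.2.2
  have hdd : ∀ t t', (Vx.st b.1 b.2 1 t ≠ .st b.1 b.2 0 t') ∧
      ¬ A.Aj g (.st b.1 b.2 1 t) (.st b.1 b.2 0 t') := by
    intro t t'
    refine ⟨by simp, fun hA => ?_⟩
    rcases aj_st_st hR.ok hA with h1 | h1
    · omega
    · exact h1.1 rfl
  obtain ⟨x', hx1', hx'⟩ := hR.mt (hR.pv_V hb (e := 0) (by omega) jN.le) hVv
    (pv_aj hb (by omega) jN.le)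
  obtain ⟨y', hy1', hy'⟩ := hR.mt (hR.nx_V hb (e := 0) (by omega) jN.le) hVv
    (nx_aj hb (by omega) jN.le)
  obtain ⟨z, hz, hz'⟩ := hR.xl (W := W) (W' := W') (u := u) (v := v) (a := y) (b := w1) (a' := x')
      (b' := y') (itl_tos hR.ok ha hb hab he)
      (kS_lt hR.ok ha he) (kE_lt hR.ok hb (by omega)) (kS_lt hR.ok hb (by omega))
      (kE_lt hR.ok hb (by omega)) hy hU1.1 hx' hy'
      (hR.rcLo ha he iN.le (fun t ht => Or.inl ⟨t, ht, rfl⟩) hy1)
      (hR.rcHi' hb (by omega) j1N.le (fun t ht ht' => Or.inr ⟨t, ht', ht, rfl⟩) hU1.2.1)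
      (hR.rcLo (W := W') hb (by omega) jN.le (fun t ht => ⟨t, by omega, by omega, rfl⟩) hx1')
      (hR.rcHi (W := W') hb (by omega) jN.le (fun t ht ht' => ⟨t, by omega, by omega, rfl⟩) hy1')
      (by
        rintro w (⟨t, ht, rfl⟩ | ⟨t, ht, ht', rfl⟩)
        · exact av_st ha he (by omega) (fun _ => Or.inl rfl) (by omega)
        · exact av_st hb (by omega) ht (by omega) (fun _ => Or.inr rfl))
      (by
        rintro w ⟨t, ht, ht', rfl⟩
        exact av_st hb (by omega) ht (fun _ => Or.inl rfl) (fun _ => Or.inr rfl))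
      (av_st ha he iN.le (by omega) (by omega))
      (av_st hb (by omega) jN.le (by omega) (by omega))
      (by
        rintro w (⟨t, ht, rfl⟩ | ⟨t, ht, ht', rfl⟩) w' ⟨t', h1, h1', rfl⟩
        · exact hdf t t' (Or.inl (by omega))
        · exact hdd t t')
      (by
        rintro w (⟨t, ht, rfl⟩ | ⟨t, ht, ht', rfl⟩)
        · exact hdf t j (Or.inl (by omega))
        · exact hdd t j)
      (by
        rintro w ⟨t, ht, h1, rfl⟩
        exact hdf i t (Or.inr h1))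
  have : z = pt P Q u v := hU2.2.2 _ ((convex_segment _ _).segment_subset hy hU1.1 hz)
    ((convex_segment _ _).segment_subset hx' hy' hz')
  rw [← this]
  exact hz

end RS

end Run7.h749
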