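import Pool.Agent.Run7.h749.Snd
import Mathlib.Combinatorics.SimpleGraph.Girth
import Mathlib.Combinatorics.SimpleGraph.Connectivity.Subgraph

/-!
# The girth of the graph
-/

namespace Run7.h749

open Arr

variable {A : Arr} {g : ℕ}

section

/-- The facts which are used. -/
structure GF (A : Arr) (g : ℕ) (F : Vx → Prop) : Prop where
  ok : A.Ok
  hg : 4 ≤ g
  hV : ∀ x, F x → A.IsV g x
  two : ∀ x, F x → ∃ y z, y ≠ z ∧ F y ∧ F z ∧ A.Aj g x y ∧ A.Aj g x z
  nog : ∀ f : ℕ → Vx, (∀ i j, i < g → j < g → f i = f j → i = j) → ∃ t < g, ¬ F (f t)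

variable {F : Vx → Prop}

/-- The step of a set of numbers closed under going up and down. -/
theorem updown {S : ℕ → Prop} {n t : ℕ} (ht : t < n) (h : S t)
    (hup : ∀ s, S s → s + 1 < n → S (s + 1)) (hdn : ∀ s, S (s + 1) → s + 1 < n → S s) :
    ∀ s < n, S s := by
  have h0 : S 0 := by
    induction t with
    | zero => exact h
    | succ t ih => exact ih (by omega) (hdn t h ht)
  intro s hs
  induction s with
  | zero => exact h0
  | succ s ih => exact hup s (ih (by omega)) hs

theorem GF.ti (h : GF A g F) {c a e i d k} : ¬ F (.ti c a e i d k) := by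
  intro hF
  have hV := h.hV _ hF
  obtain ⟨v1, v2, v3, v4, v5⟩ := hV
  have hg := h.hg
  have nb : ∀ k y, A.Aj g (.ti c a e i d k) y → F y → y = .ti c a e i d (k + 1) ∨
      (0 < k ∧ y = .ti c a e i d (k - 1)) ∨ (k = 0 ∧ y = .st c a 1 (4 * i + 1 + 2 * d)) ∨
      (k = g - 1 ∧ y = .st c a e (i + 1 - d)) := by
    intro k y hA hy
    cases y with
    | st c' a' e' t =>
      obtain ⟨rfl, rfl, -, -, -, h6⟩ := aj_st_ti hA.symm
      rcases h6 with ⟨rfl, rfl, rfl⟩ | ⟨rfl, rfl, rfl⟩
      · right; right; left; exact ⟨rfl, rfl⟩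
      · right; right; right; exact ⟨rfl, rfl⟩
    | ti c' a' e' i' d' k' =>
      obtain ⟨rfl, rfl, rfl, rfl, rfl, h6⟩ := aj_ti_ti hA
      rcases h6 with rfl | rfl
      · left; rfl
      · right; left; exact ⟨by omega, by rw [Nat.add_sub_cancel]⟩
    | rg b j => exact absurd hA not_aj_ti_rg
    | sp b j => exact absurd hA not_aj_ti_sp
  have all : ∀ s < g, F (.ti c a e i d s) := by
    refine updown (S := fun s => F (.ti c a e i d s)) v5 hF ?_ ?_
    · intro s hs hs'
      obtain ⟨y, z, hyz, hy, hz, ay, az⟩ := h.two _ hs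
      by_contra hcon
      apply hyz
      rcases nb s y ay hy with h1 | h1 | h1 | h1 <;> rcases nb s z az hz with h2 | h2 | h2 | h2
      · rw [h1] at hy; exact absurd hy hcon
      · rw [h1] at hy; exact absurd hy hcon
      · rw [h1] at hy; exact absurd hy hcon
      · rw [h1] at hy; exact absurd hy hcon
      · rw [h2] at hz; exact absurd hz hcon
      · rw [h1.2, h2.2]
      · omega
      · omega
      · rw [h2] at hz; exact absurd hz hcon
      · omega
      · rw [h1.2, h2.2]
      · omega
      · rw [h2] at hz; exact absurd hz hcon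
      · omega
      · omega
      · omega
    · intro s hs hs'
      obtain ⟨y, z, hyz, hy, hz, ay, az⟩ := h.two _ hs
      by_contra hcon
      apply hyz
      have e1 : s + 1 - 1 = s := by omega
      have hy5 := h.hV _ hy
      have hz5 := h.hV _ hz
      rcases nb (s + 1) y ay hy with h1 | h1 | h1 | h1 <;>
        rcases nb (s + 1) z az hz with h2 | h2 | h2 | h2
      · rw [h1, h2]
      · rw [h2.2, e1] at hz; exact absurd hz hcon
      · omega
      · exfalso
        rw [h1] at hy5
        have := hy5.2.2.2.2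
        omega
      · rw [h1.2, e1] at hy; exact absurd hy hcon
      · rw [h1.2, e1] at hy; exact absurd hy hcon
      · rw [h1.2, e1] at hy; exact absurd hy hcon
      · rw [h1.2, e1] at hy; exact absurd hy hcon
      · omega
      · omega
      · omega
      · omega
      · exfalso
        rw [h2] at hz5
        have := hz5.2.2.2.2
        omega
      · rw [h2.2, e1] at hz; exact absurd hz hcon
      · omega
      · rw [h1.2, h2.2]
  obtain ⟨t, ht, hnt⟩ := h.nog (fun s => .ti c a e i d s) (by
    intro i j _ _ he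
    simp only [Vx.ti.injEq, true_and] at he
    exact he)
  exact hnt (all t ht)

theorem GF.sp (h : GF A g F) {k j} : ¬ F (.sp k j) := by
  intro hF
  obtain ⟨v1, v2⟩ := h.hV _ hF
  have hg := h.hg
  have nb : ∀ j y, A.Aj g (.sp k j) y → F y → y = .sp k (j + 1) ∨
      (0 < j ∧ y = .sp k (j - 1)) ∨ (j = 0 ∧ y = .rg false (g * k + 1)) ∨
      (j = g - 1 ∧ y = .rg true (g * k + 1)) := by
    intro j y hA hy
    cases y with
    | st c' a' e' t => exact absurd hA.symm not_aj_st_sp
    | ti c' a' e' i' d' k' => exact absurd hA.symm not_aj_ti_sp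
    | rg b i =>
      obtain ⟨rfl, h6⟩ := aj_rg_sp hA.symm
      rcases h6 with ⟨rfl, rfl⟩ | ⟨rfl, rfl⟩
      · right; right; left; exact ⟨rfl, rfl⟩
      · right; right; right; exact ⟨rfl, rfl⟩
    | sp b i =>
      obtain rfl := aj_sp_sp hA
      rcases hA with hA | hA
      · cases hA with
        | spm _ _ _ => left; rfl
      · cases hA with
        | spm _ _ _ => right; left; exact ⟨by omega, by rw [Nat.add_sub_cancel]⟩
  have all : ∀ s < g, F (.sp k s) := by
    refine updown (S := fun s => F (.sp k s)) v2 hF ?_ ?_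
    · intro s hs hs'
      obtain ⟨y, z, hyz, hy, hz, ay, az⟩ := h.two _ hs
      by_contra hcon
      apply hyz
      rcases nb s y ay hy with h1 | h1 | h1 | h1 <;> rcases nb s z az hz with h2 | h2 | h2 | h2
      · rw [h1] at hy; exact absurd hy hcon
      · rw [h1] at hy; exact absurd hy hcon
      · rw [h1] at hy; exact absurd hy hcon
      · rw [h1] at hy; exact absurd hy hcon
      · rw [h2] at hz; exact absurd hz hcon
      · rw [h1.2, h2.2]
      · omega
      · omega
      · rw [h2] at hz; exact absurd hz hcon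
      · omega
      · rw [h1.2, h2.2]
      · omega
      · rw [h2] at hz; exact absurd hz hcon
      · omega
      · omega
      · omega
    · intro s hs hs'
      obtain ⟨y, z, hyz, hy, hz, ay, az⟩ := h.two _ hs
      by_contra hcon
      apply hyz
      have e1 : s + 1 - 1 = s := by omega
      have hy5 := h.hV _ hy
      have hz5 := h.hV _ hz
      rcases nb (s + 1) y ay hy with h1 | h1 | h1 | h1 <;>
        rcases nb (s + 1) z az hz with h2 | h2 | h2 | h2
      · rw [h1, h2]
      · rw [h2.2, e1] at hz; exact absurd hz hcon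
      · omega
      · exfalso
        rw [h1] at hy5
        have := hy5.2
        omega
      · rw [h1.2, e1] at hy; exact absurd hy hcon
      · rw [h1.2, e1] at hy; exact absurd hy hcon
      · rw [h1.2, e1] at hy; exact absurd hy hcon
      · rw [h1.2, e1] at hy; exact absurd hy hcon
      · omega
      · omega
      · omega
      · omega
      · exfalso
        rw [h2] at hz5
        have := hz5.2
        omega
      · rw [h2.2, e1] at hz; exact absurd hz hcon
      · omega
      · rw [h1.2, h2.2]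
  obtain ⟨t, ht, hnt⟩ := h.nog (fun s => .sp k s) (by
    intro i j _ _ he
    simp only [Vx.sp.injEq, true_and] at he
    exact he)
  exact hnt (all t ht)

/-- The spacing of the junctions of a strand. -/
def gs (g e : ℕ) : ℕ := if e = 1 then 4 * g else g

theorem ix_gs (e s r : ℕ) : ix e (pos g s r) = gs g e * (3 * s + r + 1) := by
  unfold ix pos gs
  split_ifs <;> ring

theorem ixN (e : ℕ) : ix e (A.N g) = gs g e * (3 * A.S + 1) := by
  unfold ix Arr.N gs
  split_ifs <;> ring

theorem ix_zp (a b : Ln) (e r : ℕ) : ∃ n, ix e (A.zp g a b r) = gs g e * n := by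
  obtain ⟨r', h1, h2⟩ := zp_eq (A := A) (g := g) a b r
  exact ⟨_, by rw [h1, ix_gs]⟩

/-- The neighbours of a strand vertex. -/
theorem GF.nb (h : GF A g F) {c a e t y} (hF : F (.st c a e t)) (hy : F y)
    (hA : A.Aj g (.st c a e t) y) : y = .st c a e (t + 1) ∨ (0 < t ∧ y = .st c a e (t - 1)) ∨
      (t = 0 ∧ y = .rg false (g * A.kS (c, a) e)) ∨
      (t = ix e (A.N g) ∧ y = .rg false (g * A.kE (c, a) e)) ∨
      ∃ b : Ln, ∃ f < 3, A.IsL b ∧ ((c, a) : Ln) ≠ b ∧ A.cr (c, a) b = true ∧
        t = ix e (A.zp g (c, a) b f) ∧ y = .st b.1 b.2 f (ix f (A.zp g b (c, a) e)) := by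
  cases y with
  | st c' a' e' t' =>
    rcases aj_st_st h.ok hA with ⟨rfl, rfl, rfl, h4⟩ | ⟨h1, h2, h3, h4, h5, h6, h7, h8⟩
    · rcases h4 with rfl | rfl
      · left; rfl
      · right; left; exact ⟨by omega, by rw [Nat.add_sub_cancel]⟩
    · right; right; right; right
      exact ⟨(c', a'), e', h6, h3, h1, h4, h7, by rw [h8]⟩
  | ti c' a' e' i' d' k' => exact absurd hy h.ti
  | rg b j =>
    obtain ⟨rfl, -, h3 | h3⟩ := aj_st_rg hA
    · right; right; left; exact ⟨h3.1, by rw [h3.2]⟩
    · right; right; right; left; exact ⟨h3.1, by rw [h3.2]⟩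
  | sp b j => exact absurd hA not_aj_st_sp

theorem gs_pos (e : ℕ) : g ≤ gs g e := by
  unfold gs
  split_ifs <;> omega

theorem GF.st_mod (h : GF A g F) {c a e t} (hF : F (.st c a e t)) : t % gs g e = 0 := by
  have hg := h.hg
  have hG := gs_pos (g := g) e
  have hV := h.hV _ hF
  obtain ⟨v1, v2, v3⟩ := hV
  by_contra hne
  set n := gs g e with hn
  -- both neighbours are on the strand
  have step : ∀ s, F (.st c a e s) → s % n ≠ 0 → F (.st c a e (s + 1)) ∧ F (.st c a e (s - 1)) := by
    intro s hs hsn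
    obtain ⟨y, z, hyz, hy, hz, ay, az⟩ := h.two _ hs
    have key : ∀ y, F y → A.Aj g (.st c a e s) y → y = .st c a e (s + 1) ∨
        y = .st c a e (s - 1) := by
      intro y hy hA
      rcases h.nb hs hy hA with h1 | h1 | h1 | h1 | ⟨b, f, -, -, -, -, h1, -⟩
      · exact Or.inl h1
      · exact Or.inr h1.2
      · rw [h1.1] at hsn; simp at hsn
      · rw [h1.1, ixN, ← hn, Nat.mul_mod_right] at hsn; exact absurd rfl hsn
      · obtain ⟨m, hm⟩ := ix_zp (A := A) (g := g) (c, a) b e f
        rw [h1, hm, ← hn, Nat.mul_mod_right] at hsn; exact absurd rfl hsn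
    rcases key y hy ay with h1 | h1 <;> rcases key z hz az with h2 | h2
    · exact absurd (h1.trans h2.symm) hyz
    · exact ⟨h1 ▸ hy, h2 ▸ hz⟩
    · exact ⟨h2 ▸ hz, h1 ▸ hy⟩
    · exact absurd (h1.trans h2.symm) hyz
  have hlt : t % n < n := Nat.mod_lt _ (by omega)
  have hdm := Nat.div_add_mod t n
  -- all vertices between two junctions
  have all : ∀ s < n, F (.st c a e (n * (t / n) + s)) := by
    have hF' : F (.st c a e (n * (t / n) + t % n)) := by rw [hdm]; exact hF
    have modk : ∀ s, s < n → (n * (t / n) + s) % n = s := by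
      intro s hs
      rw [Nat.mul_add_mod, Nat.mod_eq_of_lt hs]
    -- going down
    have down : ∀ s, s < n → 0 < s → F (.st c a e (n * (t / n) + s)) → ∀ r ≤ s,
        F (.st c a e (n * (t / n) + r)) := by
      intro s
      induction s with
      | zero => intro _ h0; omega
      | succ s ih =>
        intro hs _ hFs r hr
        rcases Nat.eq_or_lt_of_le hr with h1 | h1
        · rw [h1]; exact hFs
        · have h2 := (step _ hFs (by rw [modk _ hs]; omega)).2
          rw [show n * (t / n) + (s + 1) - 1 = n * (t / n) + s by omega] at h2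
          rcases Nat.eq_zero_or_pos s with h3 | h3
          · have : r = s := by omega
            rw [this]; exact h2
          · exact ih (by omega) h3 h2 r (by omega)
    have up : ∀ s, t % n ≤ s → s < n → F (.st c a e (n * (t / n) + s)) := by
      intro s hs
      induction s, hs using Nat.le_induction with
      | base => intro _; exact hF'
      | succ s hs ih =>
        intro hs'
        have h1 := (step _ (ih (by omega)) (by rw [modk _ (by omega)]; omega)).1
        rwa [show n * (t / n) + s + 1 = n * (t / n) + (s + 1) by omega] at h1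
    intro s hs
    rcases le_total (t % n) s with h1 | h1
    · exact up s h1 hs
    · exact down (t % n) hlt (by omega) hF' s h1
  obtain ⟨s, hs, hns⟩ := h.nog (fun s => .st c a e (n * (t / n) + s)) (by
    intro i j _ _ he
    simp only [Vx.st.injEq, true_and] at he
    omega)
  exact hns (all s (by omega))

theorem GF.st_in (h : GF A g F) {c a e t} (hF : F (.st c a e t)) {y} (hy : F y)
    (hA : A.Aj g (.st c a e t) y) :
      (t = 0 ∧ y = .rg false (g * A.kS (c, a) e)) ∨
      (t = ix e (A.N g) ∧ y = .rg false (g * A.kE (c, a) e)) ∨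
      ∃ b : Ln, ∃ f < 3, A.IsL b ∧ ((c, a) : Ln) ≠ b ∧ A.cr (c, a) b = true ∧
        t = ix e (A.zp g (c, a) b f) ∧ y = .st b.1 b.2 f (ix f (A.zp g b (c, a) e)) := by
  have hg := h.hg
  have hG := gs_pos (g := g) e
  have m0 := h.st_mod hF
  rcases h.nb hF hy hA with h1 | h1 | h1 | h1 | h1
  · exfalso
    rw [h1] at hy
    have m1 := h.st_mod hy
    have h2 := Nat.dvd_of_mod_eq_zero m0
    have h3 := Nat.dvd_of_mod_eq_zero m1
    have h4 := (Nat.dvd_add_right h2).1 h3
    have := Nat.le_of_dvd (by omega) h4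
    omega
  · exfalso
    rw [h1.2] at hy
    have m1 := h.st_mod hy
    have h2 := Nat.dvd_of_mod_eq_zero m0
    have h3 := Nat.dvd_of_mod_eq_zero m1
    have h5 : gs g e ∣ (t - 1) + 1 := by rwa [Nat.sub_add_cancel (by omega)]
    have h4 := (Nat.dvd_add_right h3).1 h5
    have := Nat.le_of_dvd (by omega) h4
    omega
  · exact Or.inl h1
  · exact Or.inr (Or.inl h1)
  · exact Or.inr (Or.inr h1)

theorem GF.ne_end (h : GF A g F) {c a e t} (hF : F (.st c a e t)) :
    t ≠ 0 ∧ t ≠ ix e (A.N g) := by
  have hg := h.hg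
  obtain ⟨v1, v2, v3⟩ := h.hV _ hF
  have hN : 0 < A.N g := by
    unfold Arr.N
    exact Nat.mul_pos (by omega) (by omega)
  have hN' : 0 < ix e (A.N g) := RS.ix_pos hN
  obtain ⟨y, z, hyz, hy, hz, ay, az⟩ := h.two _ hF
  have bd : ∀ (b : Ln) (f : ℕ), f < 3 → A.IsL b → A.cr (c, a) b = true →
      0 < ix e (A.zp g (c, a) b f) ∧ ix e (A.zp g (c, a) b f) < ix e (A.N g) := by
    intro b f hf hb hc
    obtain ⟨r', h1, h2⟩ := zp_eq (A := A) (g := g) (c, a) b f
    have h3 := h2 hf
    have h4 := le_pos (g := g) (A.sl (c, a) b) r'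
    have h5 := pos_le (g := g) (r := r') (h.ok.sl_lt (a := (c, a)) v1 hb hc) (by omega)
    rw [h1]
    exact ⟨RS.ix_pos (by omega), RS.ix_lt.2 (by omega)⟩
  constructor
  · intro h0
    have key : ∀ y, F y → A.Aj g (.st c a e t) y → y = .rg false (g * A.kS (c, a) e) := by
      intro y hy hA
      rcases h.st_in hF hy hA with h1 | h1 | ⟨b, f, h1, h2, h3, h4, h5, h6⟩
      · exact h1.2
      · omega
      · have := bd b f h1 h2 h4
        omega
    exact hyz ((key y hy ay).trans (key z hz az).symm)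
  · intro h0
    have key : ∀ y, F y → A.Aj g (.st c a e t) y → y = .rg false (g * A.kE (c, a) e) := by
      intro y hy hA
      rcases h.st_in hF hy hA with h1 | h1 | ⟨b, f, h1, h2, h3, h4, h5, h6⟩
      · omega
      · exact h1.2
      · have := bd b f h1 h2 h4
        omega
    exact hyz ((key y hy ay).trans (key z hz az).symm)

theorem GF.rg (h : GF A g F) {b j} : ¬ F (.rg b j) := by
  have hg := h.hg
  have hMg : A.M g = g * (6 * A.nn) := by unfold Arr.M; ring
  -- neighbours
  have nb : ∀ j y, F (.rg b j) → F y → A.Aj g (.rg b j) y →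
      (y = .rg b ((j + 1) % A.M g)) ∨ ∃ i, y = .rg b i ∧ j = (i + 1) % A.M g ∧ i < A.M g := by
    intro j y hj hy hA
    cases y with
    | st c' a' e' t' =>
      exfalso
      have hne := h.ne_end hy
      obtain ⟨-, -, h3 | h3⟩ := aj_st_rg hA.symm
      · exact hne.1 h3.1
      · exact hne.2 h3.1
    | ti c' a' e' i' d' k' => exact absurd hy h.ti
    | rg b' i =>
      have hV := h.hV _ hy
      obtain ⟨rfl, h1 | h1⟩ := aj_rg_rg hA
      · left; rw [h1]
      · right; exact ⟨i, rfl, h1, hV⟩
    | sp b i => exact absurd hy h.sp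
  have step : ∀ j, F (.rg b j) → F (.rg b ((j + 1) % A.M g)) ∧
      ∃ i, F (.rg b i) ∧ j = (i + 1) % A.M g ∧ i < A.M g := by
    intro j hj
    obtain ⟨y, z, hyz, hy, hz, ay, az⟩ := h.two _ hj
    rcases nb j y hj hy ay with h1 | ⟨i, h1, h1'⟩ <;> rcases nb j z hj hz az with h2 | ⟨i', h2, h2'⟩
    · exact absurd (h1.trans h2.symm) hyz
    · exact ⟨h1 ▸ hy, i', h2 ▸ hz, h2'⟩
    · exact ⟨h2 ▸ hz, i, h1 ▸ hy, h1'⟩
    · exfalso
      apply hyz
      rw [h1, h2]
      have : i = i' := by
        have e1 := h1'.1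
        rw [h2'.1] at e1
        rcases RS.mod_succ h1'.2 with h3 | h3 <;> rcases RS.mod_succ h2'.2 with h4 | h4 <;> omega
      rw [this]
  intro hF
  have hj : j < A.M g := h.hV _ hF
  have hmod : j % g < g := Nat.mod_lt _ (by omega)
  have hdm := Nat.div_add_mod j g
  have hblk : g * (j / g) + g ≤ A.M g := by
    rw [hMg]
    have h1 : j / g < 6 * A.nn := by
      rw [Nat.div_lt_iff_lt_mul (by omega), Nat.mul_comm, ← hMg]; exact hj
    calc g * (j / g) + g = g * (j / g + 1) := by ring
      _ ≤ g * (6 * A.nn) := Nat.mul_le_mul_left _ h1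
  have all : ∀ s < g, F (.rg b (g * (j / g) + s)) := by
    refine updown (S := fun s => F (.rg b (g * (j / g) + s))) hmod ?_ ?_ ?_
    · show F (.rg b (g * (j / g) + j % g))
      rw [hdm]; exact hF
    · intro s hs hs'
      have h1 := (step _ hs).1
      rw [Nat.mod_eq_of_lt (by omega)] at h1
      rwa [show g * (j / g) + s + 1 = g * (j / g) + (s + 1) by omega] at h1
    · intro s hs hs'
      obtain ⟨i, h1, h2, h3⟩ := (step _ hs).2
      have : i = g * (j / g) + s := by
        rcases RS.mod_succ h3 with h4 | h4 <;> omega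
      show F (.rg b (g * (j / g) + s))
      rw [← this]; exact h1
  obtain ⟨s, hs, hns⟩ := h.nog (fun s => .rg b (g * (j / g) + s)) (by
    intro i j' _ _ he
    simp only [Vx.rg.injEq, true_and] at he
    omega)
  exact hns (all s hs)

/-- The neighbours are at a crossing. -/
theorem GF.crs (h : GF A g F) {c a e t} (hF : F (.st c a e t)) {y} (hy : F y)
    (hA : A.Aj g (.st c a e t) y) :
      ∃ b : Ln, ∃ f < 3, A.IsL b ∧ ((c, a) : Ln) ≠ b ∧ A.cr (c, a) b = true ∧
        t = ix e (A.zp g (c, a) b f) ∧ y = .st b.1 b.2 f (ix f (A.zp g b (c, a) e)) := by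
  rcases h.st_in hF hy hA with h1 | h1 | h1
  · rw [h1.2] at hy; exact absurd hy h.rg
  · rw [h1.2] at hy; exact absurd hy h.rg
  · exact h1

/-- A vertex with two neighbours is thick. -/
theorem GF.thick (h : GF A g F) {c a e t} (hF : F (.st c a e t)) {b : Ln} {f : ℕ} (hf : f < 3)
    (hb : A.IsL b) (hne : ((c, a) : Ln) ≠ b) (hc : A.cr (c, a) b = true)
    (ht : t = ix e (A.zp g (c, a) b f)) : A.rk (c, a) < A.rk b := by
  have hg := h.hg
  obtain ⟨v1, v2, v3⟩ := h.hV _ hF
  have v1' : A.IsL (c, a) := v1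
  obtain ⟨y, z, hyz, hy, hz, ay, az⟩ := h.two _ hF
  obtain ⟨b1, f1, k1, k2, k3, k4, k5, k6⟩ := h.crs hF hy ay
  obtain ⟨b2, f2, l1, l2, l3, l4, l5, l6⟩ := h.crs hF hz az
  have e1 : b1 = b := by
    refine sl_inj h.ok v1' k2 hb k4 hc (zp_inj hg k1 hf ?_)
    exact RS.ix_inj (k5.symm.trans ht)
  have e2 : b2 = b := by
    refine sl_inj h.ok v1' l2 hb l4 hc (zp_inj hg l1 hf ?_)
    exact RS.ix_inj (l5.symm.trans ht)
  subst e1
  subst e2
  rcases Nat.lt_trichotomy (A.rk (c, a)) (A.rk b2) with h1 | h1 | h1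
  · exact h1
  · exact absurd (RS.rk_inj v1' hb h1) hne
  · exfalso
    apply hyz
    have h2 : A.zp g (c, a) b2 f1 = A.zp g (c, a) b2 f2 := RS.ix_inj (k5.symm.trans l5)
    have h3 : f1 = f2 := by
      have hn : ¬ A.rk (c, a) < A.rk b2 := by omega
      unfold Arr.zp at h2
      simp only [if_neg hn] at h2
      split_ifs at h2
      · have := (pos_inj hg (r := 2 - f1) (r' := 2 - f2) (by omega) (by omega) h2).2
        omega
      · exact (pos_inj hg (r := f1) (r' := f2) (by omega) (by omega) h2).2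
    rw [k6, l6, h3]

theorem GF.false (h : GF A g F) (x : Vx) : ¬ F x := by
  intro hF
  cases x with
  | st c a e t =>
    obtain ⟨v1, v2, v3⟩ := h.hV _ hF
    obtain ⟨y, z, hyz, hy, hz, ay, az⟩ := h.two _ hF
    obtain ⟨b1, f1, k1, k2, k3, k4, k5, k6⟩ := h.crs hF hy ay
    have h1 := h.thick hF k1 k2 k3 k4 k5
    subst k6
    have h2 := h.thick (b := (c, a)) (f := e) hy v2 v1 k3.symm (by rw [h.ok.cr_comm]; exact k4) rfl
    have h3 : A.rk b1 < A.rk (c, a) := h2
    omega
  | ti c a e i d k => exact h.ti hF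
  | rg b j => exact h.rg hF
  | sp k j => exact h.sp hF

end

/-- The graph. -/
def gr' (A : Arr) (g : ℕ) : SimpleGraph {v : Vx // A.IsV g v} :=
  SimpleGraph.fromRel fun u v => A.Ed g u.1 v.1

/-- **Girth.** -/
theorem gir' (A : Arr) (g : ℕ) (hA : A.Ok) (hg : 4 ≤ g) (v : {v : Vx // A.IsV g v})
    (w : (gr' A g).Walk v v) (hw : w.IsCycle) : g ≤ w.length := by
  classical
  by_contra hlt
  push Not at hlt
  let F : Vx → Prop := fun x => ∃ h : A.IsV g x, (⟨x, h⟩ : {v : Vx // A.IsV g v}) ∈ w.support
  have hcard : ∀ f : ℕ → Vx, (∀ i j, i < g → j < g → f i = f j → i = j) →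
      ∃ t < g, ¬ F (f t) := by
    intro f hf
    by_contra hcon
    push Not at hcon
    -- all `f t` are in the tail of the support
    have h1 : (Finset.range g).image f ⊆ (w.support.tail.map Subtype.val).toFinset := by
      intro x hx
      rw [Finset.mem_image] at hx
      obtain ⟨t, ht, rfl⟩ := hx
      obtain ⟨h2, h3⟩ := hcon t (Finset.mem_range.1 ht)
      rw [List.mem_toFinset, List.mem_map]
      refine ⟨⟨f t, h2⟩, ?_, rfl⟩
      have h4 : ¬ w.Nil := hw.not_nil
      rcases SimpleGraph.Walk.mem_support_iff w |>.1 h3 with h5 | h5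
      · rw [h5]
        exact SimpleGraph.Walk.end_mem_tail_support h4
      · exact h5
    have h2 := Finset.card_le_card h1
    rw [Finset.card_image_of_injOn (by
      intro i hi j hj he
      exact hf i j (Finset.mem_range.1 hi) (Finset.mem_range.1 hj) he), Finset.card_range] at h2
    have h3 := List.toFinset_card_le (w.support.tail.map Subtype.val)
    rw [List.length_map, List.length_tail, SimpleGraph.Walk.length_support] at h3
    omega
  have hF : GF A g F := by
    refine ⟨hA, hg, fun x hx => hx.1, ?_, hcard⟩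
    rintro x ⟨hx, hxs⟩
    have h2 := hw.ncard_neighborSet_toSubgraph_eq_two hxs
    obtain ⟨y, z, hyz, hset⟩ := Set.ncard_eq_two.1 h2
    have hy : y ∈ w.toSubgraph.neighborSet ⟨x, hx⟩ := by rw [hset]; exact Or.inl rfl
    have hz : z ∈ w.toSubgraph.neighborSet ⟨x, hx⟩ := by rw [hset]; exact Or.inr rfl
    have key : ∀ y, y ∈ w.toSubgraph.neighborSet ⟨x, hx⟩ → F y.1 ∧ A.Aj g x y.1 := by
      intro y hy
      have h3 : w.toSubgraph.Adj ⟨x, hx⟩ y := hy
      refine ⟨⟨y.2, ?_⟩, ?_⟩
      · have h4 := w.toSubgraph.edge_vert h3.symm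
        rwa [SimpleGraph.Walk.mem_verts_toSubgraph] at h4
      · have h4 := w.toSubgraph.adj_sub h3
        have h5 := (SimpleGraph.fromRel_adj
          (fun u v : {v : Vx // A.IsV g v} => A.Ed g u.1 v.1) ⟨x, hx⟩ y).1 h4
        exact h5.2
    refine ⟨y.1, z.1, fun h => hyz (Subtype.ext h), (key y hy).1, (key z hz).1, (key y hy).2,
      (key z hz).2⟩
  exact hF.false v.1 ⟨v.2, w.start_mem_support⟩

end Run7.h749
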