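import Pool.Agent.Run7.h749.RepI

/-!
# The representation: assembly
-/

namespace Run7.h749

open Set Arr

variable {A : Arr} {u v : Bool → ℕ → ℝ} {g : ℕ} {δ : ℝ} {D : Ln → Dat} {c : ℕ → ℝ}

/-- The scale of the rings. -/
noncomputable def sc (b : Bool) : ℝ := if b = true then 3 else 1

theorem sc_pos (b : Bool) : 0 < sc b := by unfold sc; split_ifs <;> norm_num

/-- The first points. -/
noncomputable def PV (A : Arr) (g : ℕ) (u v : Bool → ℕ → ℝ) (D : Ln → Dat) (c : ℕ → ℝ) :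
    Vx → ℝ × ℝ
  | .st b a e i => EE u v (b, a) (D (b, a)).e (LP (A.N g) g (D (b, a)).d (.st e i))
  | .ti b a e i d k => EE u v (b, a) (D (b, a)).e (LP (A.N g) g (D (b, a)).d (.ti e i d k))
  | .rg b j => hom (sc b) (bd (c (2 * j)))
  | .sp k j => hom (1 + 2 * (j : ℝ) / g) (bd (c (2 * (g * k + 1) + 1)))

/-- The second points. -/
noncomputable def QV (A : Arr) (g : ℕ) (u v : Bool → ℕ → ℝ) (D : Ln → Dat) (c : ℕ → ℝ) :
    Vx → ℝ × ℝ
  | .st b a e i => EE u v (b, a) (D (b, a)).e (LQ (A.N g) g (D (b, a)).d (.st e i))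
  | .ti b a e i d k => EE u v (b, a) (D (b, a)).e (LQ (A.N g) g (D (b, a)).d (.ti e i d k))
  | .rg b j => hom (sc b) (bd (c (2 * j + 2)))
  | .sp k j => hom (1 + 2 * ((j + 1 : ℕ) : ℝ) / g) (bd (c (2 * (g * k + 1) + 1)))

/-- Two segments meet. -/
def MV (A : Arr) (g : ℕ) (u v : Bool → ℕ → ℝ) (D : Ln → Dat) (c : ℕ → ℝ) (x y : Vx) : Prop :=
  ∃ z, z ∈ segment ℝ (PV A g u v D c x) (QV A g u v D c x) ∧
    z ∈ segment ℝ (PV A g u v D c y) (QV A g u v D c y)

theorem MV_comm {x y : Vx} : MV A g u v D c x y ↔ MV A g u v D c y x :=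
  ⟨fun ⟨z, a, b⟩ => ⟨z, b, a⟩, fun ⟨z, a, b⟩ => ⟨z, b, a⟩⟩

theorem seg_up (a : Ln) (l : Lv) :
    segment ℝ (PV A g u v D c (up a l)) (QV A g u v D c (up a l)) = sgm A g u v a (D a) l := by
  cases l <;> rfl

theorem seg_rg (hC : Cut A g c) {b : Bool} {j : ℕ} (hj : j < A.M g) {z : ℝ × ℝ} :
    z ∈ segment ℝ (PV A g u v D c (.rg b j)) (QV A g u v D c (.rg b j)) ↔
      ∃ w, w ∈ segment ℝ (bd (c (2 * j))) (bd (c (2 * j + 2))) ∧ z = hom (sc b) w ∧
        nrm w = 1 := by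
  have : segment ℝ (PV A g u v D c (.rg b j)) (QV A g u v D c (.rg b j)) =
    hom (sc b) '' segment ℝ (bd (c (2 * j))) (bd (c (2 * j + 2))) := hom_seg _ _ _
  rw [this]
  constructor
  · rintro ⟨w, hw, rfl⟩
    refine ⟨w, hw, rfl, ?_⟩
    obtain ⟨s, h1, h2, rfl⟩ := (hC.mem hj).1 hw
    have b1 := hC.box (i := 2 * j) (by omega)
    have b2 := hC.box (i := 2 * j + 2) (by omega)
    exact nrm_bd (by linarith) (by linarith)
  · rintro ⟨w, hw, rfl, -⟩
    exact ⟨w, hw, rfl⟩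

theorem sp_mark (hC : Cut A g c) (hg : 4 ≤ g) {k : ℕ} (hk : k < 6 * A.nn) :
    g * k + 1 < A.M g ∧ nrm (bd (c (2 * (g * k + 1) + 1))) = 1 := by
  have h1 : g * k + g ≤ A.M g := by
    unfold Arr.M
    calc g * k + g = g * (k + 1) := by ring
      _ ≤ g * (6 * A.nn) := Nat.mul_le_mul_left _ hk
      _ = 6 * A.nn * g := by ring
  refine ⟨by omega, ?_⟩
  have := hC.box (i := 2 * (g * k + 1) + 1) (by omega)
  exact nrm_bd this.1 this.2

theorem seg_sp (hC : Cut A g c) (hg : 4 ≤ g) {k j : ℕ} (hk : k < 6 * A.nn) {z : ℝ × ℝ} :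
    z ∈ segment ℝ (PV A g u v D c (.sp k j)) (QV A g u v D c (.sp k j)) ↔
      ∃ s : ℝ, 1 + 2 * (j : ℝ) / g ≤ s ∧ s ≤ 1 + 2 * ((j + 1 : ℕ) : ℝ) / g ∧
        z = hom s (bd (c (2 * (g * k + 1) + 1))) ∧ nrm z = s := by
  have hg' : (0 : ℝ) < g := by exact_mod_cast (show 0 < g by omega)
  have hlt : 1 + 2 * (j : ℝ) / g < 1 + 2 * ((j + 1 : ℕ) : ℝ) / g := by
    have : 2 * (j : ℝ) / g < 2 * ((j + 1 : ℕ) : ℝ) / g := by
      apply div_lt_div_of_pos_right _ hg'
      push_cast; linarith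
    linarith
  have h0 : 0 ≤ 2 * (j : ℝ) / g := by positivity
  rw [show segment ℝ (PV A g u v D c (.sp k j)) (QV A g u v D c (.sp k j)) =
    segment ℝ (hom (1 + 2 * (j : ℝ) / g) (bd (c (2 * (g * k + 1) + 1))))
      (hom (1 + 2 * ((j + 1 : ℕ) : ℝ) / g) (bd (c (2 * (g * k + 1) + 1)))) from rfl, hom_rad hlt]
  constructor
  · rintro ⟨s, h1, h2, rfl⟩
    refine ⟨s, h1, h2, rfl, ?_⟩
    rw [nrm_hom (by linarith), (sp_mark hC hg hk).2, mul_one]
  · rintro ⟨s, h1, h2, h3, -⟩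
    exact ⟨s, h1, h2, h3⟩

theorem up_rg (hL : LnH A u v) (hg : 4 ≤ g) (hδ : Dl A u v δ)
    (hG : ∀ a, A.IsL a → Gd A g δ (D a)) (hC : Cut A g c)
    (hc : ∀ q k x, ET A u v D q k x → c (2 * (g * k) + 1) = x) {a : Ln} {l : Lv} (ha : A.IsL a)
    (hl : LV (A.N g) g l) {b : Bool} {j : ℕ} (hj : j < A.M g) :
    MV A g u v D c (up a l) (.rg b j) ↔ A.Aj g (up a l) (.rg b j) := by
  have hA := hL.ok
  have kM : ∀ k, k < 6 * A.nn → g * k < A.M g := by
    intro k hk
    have := (sp_mark hC hg hk).1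
    omega
  unfold MV
  rw [seg_up]
  constructor
  · rintro ⟨z, hz, hz'⟩
    rw [seg_rg hC hj] at hz'
    obtain ⟨w, hw, rfl, hw1⟩ := hz'
    obtain ⟨i1, i2⟩ := inside hδ ha (hG a ha) hl hz
    rw [nrm_hom (sc_pos b).le, hw1, mul_one] at i1 i2
    have hb : b = false := by
      cases b
      · rfl
      · unfold sc at i1; norm_num at i1
    subst hb
    have hs : sc false = 1 := rfl
    rw [hs, hom_one] at i2
    rcases i2 rfl with ⟨e, he, rfl, h2⟩ | ⟨e, he, rfl, h2⟩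
    · obtain ⟨q, hq⟩ := ET_S (D := D) (u := u) (v := v) ha he
      rw [← hc _ _ _ hq] at h2
      rw [h2, hC.mark (kM _ (kS_lt hA ha he)) hj] at hw
      subst hw
      exact Or.inl (.ends a e ha he)
    · obtain ⟨q, hq⟩ := ET_E (D := D) (u := u) (v := v) ha he
      rw [← hc _ _ _ hq] at h2
      rw [h2, hC.mark (kM _ (kE_lt hA ha he)) hj] at hw
      subst hw
      exact Or.inl (.ende a e ha he)
  · intro h
    cases l with
    | ti e i d k => exact absurd h not_aj_ti_rg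
    | st e i =>
      obtain ⟨rfl, he, h1⟩ := aj_st_rg h
      have hs : sc false = 1 := rfl
      rcases h1 with ⟨rfl, rfl⟩ | ⟨rfl, rfl⟩
      · obtain ⟨q, hq⟩ := ET_S (D := D) (u := u) (v := v) ha he
        have h3 := start_mem hδ ha (hG a ha) he
        rw [← hc _ _ _ hq] at h3
        refine ⟨_, h3, ?_⟩
        have h4 := (hC.mark (kM _ (kS_lt hA ha he)) hj).2 rfl
        obtain ⟨s, s1, s2, s3⟩ := (hC.mem hj).1 h4
        rw [seg_rg hC hj]
        refine ⟨_, h4, by rw [hs, hom_one], ?_⟩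
        have := hC.box (i := 2 * (g * A.kS a e) + 1) (by
          have := kM _ (kS_lt hA ha he); omega)
        exact nrm_bd this.1 this.2
      · obtain ⟨q, hq⟩ := ET_E (D := D) (u := u) (v := v) ha he
        have h3 := end_mem hδ ha (hG a ha) he
        rw [← hc _ _ _ hq] at h3
        refine ⟨_, h3, ?_⟩
        have h4 := (hC.mark (kM _ (kE_lt hA ha he)) hj).2 rfl
        rw [seg_rg hC hj]
        refine ⟨_, h4, by rw [hs, hom_one], ?_⟩
        have := hC.box (i := 2 * (g * A.kE a e) + 1) (by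
          have := kM _ (kE_lt hA ha he); omega)
        exact nrm_bd this.1 this.2

theorem hom_at_one {s : ℝ} (hs : s = 1) (z : ℝ × ℝ) : hom s z = z := by rw [hs, hom_one]

theorem up_sp (hL : LnH A u v) (hg : 4 ≤ g) (hδ : Dl A u v δ)
    (hG : ∀ a, A.IsL a → Gd A g δ (D a)) (hC : Cut A g c)
    (hc : ∀ q k x, ET A u v D q k x → c (2 * (g * k) + 1) = x) {a : Ln} {l : Lv} (ha : A.IsL a)
    (hl : LV (A.N g) g l) {k j : ℕ} (hk : k < 6 * A.nn) :
    MV A g u v D c (up a l) (.sp k j) ↔ A.Aj g (up a l) (.sp k j) := by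
  have hA := hL.ok
  have hnn : ¬ A.Aj g (up a l) (.sp k j) := by
    cases l with
    | ti e i d k => exact not_aj_ti_sp
    | st e i => exact not_aj_st_sp
  constructor
  · rintro ⟨z, hz, hz'⟩
    exfalso
    rw [seg_up] at hz
    rw [seg_sp hC hg hk] at hz'
    obtain ⟨s, s1, s2, s3, s4⟩ := hz'
    obtain ⟨i1, i2⟩ := inside hδ ha (hG a ha) hl hz
    rw [s4] at i1 i2
    have h0 : 0 ≤ 2 * (j : ℝ) / g := by positivity
    have hs : s = 1 := by linarith
    rw [hom_at_one hs] at s3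
    have key : ∀ κ, κ < 6 * A.nn → z = bd (c (2 * (g * κ) + 1)) → False := by
      intro κ hκ h2
      rw [s3] at h2
      have m1 := (sp_mark hC hg hk).1
      have m2 := (sp_mark hC hg hκ).1
      have b1 := (hC.mark (i := g * k + 1) (j := g * k + 1) m1 m1).2 rfl
      rw [h2] at b1
      have h3 := (hC.mark (i := g * κ) (by omega) m1).1 b1
      rcases Nat.lt_trichotomy κ k with h | h | h
      · have := gk_lt' (g := g) h; omega
      · subst h; omega
      · have := gk_lt' (g := g) h; omega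
    rcases i2 hs with ⟨e, he, rfl, h2⟩ | ⟨e, he, rfl, h2⟩
    · obtain ⟨q, hq⟩ := ET_S (D := D) (u := u) (v := v) ha he
      rw [← hc _ _ _ hq] at h2
      exact key _ (kS_lt hA ha he) h2
    · obtain ⟨q, hq⟩ := ET_E (D := D) (u := u) (v := v) ha he
      rw [← hc _ _ _ hq] at h2
      exact key _ (kE_lt hA ha he) h2
  · intro h
    exact absurd h hnn

theorem rg_rg (hC : Cut A g c) (hM : 3 ≤ A.M g) {b b' : Bool} {i j : ℕ} (hi : i < A.M g)
    (hj : j < A.M g) (hne : Vx.rg b i ≠ Vx.rg b' j) :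
    MV A g u v D c (.rg b i) (.rg b' j) ↔ A.Aj g (.rg b i) (.rg b' j) := by
  have hsc : ∀ b b', sc b = sc b' → b = b' := by
    intro b b' h
    cases b <;> cases b' <;> simp_all [sc]
  have mod1 : ∀ i j, i < A.M g → j < A.M g → ((i + 1) % A.M g = j ↔
      j = i + 1 ∨ (j = 0 ∧ i + 1 = A.M g)) := by
    intro i j hi hj
    rcases Nat.lt_or_ge (i + 1) (A.M g) with h | h
    · rw [Nat.mod_eq_of_lt h]; omega
    · have h' : i + 1 = A.M g := by omega
      rw [h', Nat.mod_self]; omega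
  have main : ∀ i j, i < j → j < A.M g → ((∃ w, w ∈ segment ℝ (bd (c (2 * i))) (bd (c (2 * i + 2)))
      ∧ w ∈ segment ℝ (bd (c (2 * j))) (bd (c (2 * j + 2)))) ↔ A.Aj g (.rg b i) (.rg b j)) := by
    intro i j hij hj
    rw [hC.ring (by omega) hj hij]
    constructor
    · rintro (h | ⟨h1, h2⟩)
      · have h3 := Ed.rng (A := A) (g := g) b i (by omega)
        rw [(mod1 i j (by omega) hj).2 (Or.inl h)] at h3
        exact Or.inl h3
      · have h3 := Ed.rng (A := A) (g := g) b j (by omega)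
        rw [(mod1 j i hj (by omega)).2 (Or.inr ⟨h1, h2⟩)] at h3
        exact Or.inr h3
    · intro h
      obtain ⟨-, h1 | h1⟩ := aj_rg_rg h
      · rcases (mod1 i j (by omega) hj).1 h1.symm with h2 | h2
        · exact Or.inl h2
        · omega
      · rcases (mod1 j i hj (by omega)).1 h1.symm with h2 | h2
        · omega
        · exact Or.inr h2
  by_cases hb : b = b'
  · subst hb
    have hij : i ≠ j := fun h => hne (by rw [h])
    have e : MV A g u v D c (.rg b i) (.rg b j) ↔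
        ∃ w, w ∈ segment ℝ (bd (c (2 * i))) (bd (c (2 * i + 2))) ∧
          w ∈ segment ℝ (bd (c (2 * j))) (bd (c (2 * j + 2))) := by
      constructor
      · rintro ⟨z, h1, h2⟩
        rw [seg_rg hC hi] at h1
        rw [seg_rg hC hj] at h2
        obtain ⟨w, w1, rfl, -⟩ := h1
        obtain ⟨w', w1', w2', -⟩ := h2
        have := hom_inj (sc_pos b).ne' w2'
        subst this
        exact ⟨w, w1, w1'⟩
      · rintro ⟨w, h1, h2⟩
        obtain ⟨s, s1, s2, s3⟩ := (hC.mem hi).1 h1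
        have b1 := hC.box (i := 2 * i) (by omega)
        have b2 := hC.box (i := 2 * i + 2) (by omega)
        have hn : nrm w = 1 := by rw [s3]; exact nrm_bd (by linarith) (by linarith)
        exact ⟨hom (sc b) w, (seg_rg hC hi).2 ⟨w, h1, rfl, hn⟩,
          (seg_rg hC hj).2 ⟨w, h2, rfl, hn⟩⟩
    rw [e]
    rcases Nat.lt_or_ge i j with h | h
    · exact main i j h hj
    · rw [aj_comm, ← main j i (by omega) hi]
      exact ⟨fun ⟨w, x, y⟩ => ⟨w, y, x⟩, fun ⟨w, x, y⟩ => ⟨w, y, x⟩⟩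
  · constructor
    · rintro ⟨z, h1, h2⟩
      exfalso
      rw [seg_rg hC hi] at h1
      rw [seg_rg hC hj] at h2
      obtain ⟨w, w1, rfl, w3⟩ := h1
      obtain ⟨w', w1', w2', w3'⟩ := h2
      have := congrArg nrm w2'
      rw [nrm_hom (sc_pos b).le, nrm_hom (sc_pos b').le, w3, w3', mul_one, mul_one] at this
      exact hb (hsc _ _ this)
    · intro h
      exact absurd (aj_rg_rg h).1 hb

theorem div_g {g j : ℕ} (hg : 4 ≤ g) {s : ℝ} (h1 : 1 + 2 * (j : ℝ) / g ≤ s)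
    (h2 : s ≤ 1 + 2 * ((j + 1 : ℕ) : ℝ) / g) :
    2 * (j : ℝ) ≤ (s - 1) * g ∧ (s - 1) * g ≤ 2 * ((j + 1 : ℕ) : ℝ) := by
  have hg' : (0 : ℝ) < g := by exact_mod_cast (show 0 < g by omega)
  constructor
  · rw [← div_le_iff₀ hg']; linarith
  · rw [← le_div_iff₀ hg']; linarith

theorem rg_sp (hC : Cut A g c) (hg : 4 ≤ g) {b : Bool} {i k j : ℕ} (hi : i < A.M g)
    (hk : k < 6 * A.nn) (hj : j < g) :
    MV A g u v D c (.rg b i) (.sp k j) ↔ A.Aj g (.rg b i) (.sp k j) := by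
  obtain ⟨m1, m2⟩ := sp_mark hC hg hk
  have hg' : (0 : ℝ) < g := by exact_mod_cast (show 0 < g by omega)
  constructor
  · rintro ⟨z, h1, h2⟩
    rw [seg_rg hC hi] at h1
    rw [seg_sp hC hg hk] at h2
    obtain ⟨w, w1, rfl, w3⟩ := h1
    obtain ⟨s, s1, s2, s3, s4⟩ := h2
    rw [nrm_hom (sc_pos b).le, w3, mul_one] at s4
    obtain ⟨d1, d2⟩ := div_g hg s1 s2
    rw [← s4] at s3
    have := hom_inj (sc_pos b).ne' s3
    rw [this] at w1
    have hk' := (hC.mark m1 hi).1 w1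
    subst hk'
    cases b
    · have : s = 1 := s4.symm
      rw [this] at d1 d2
      have : (j : ℝ) ≤ 0 := by linarith
      have hj0 : j = 0 := by
        have : j ≤ 0 := by exact_mod_cast this
        omega
      subst hj0
      exact Or.inr (.spi k hk)
    · have : s = 3 := s4.symm
      rw [this] at d1 d2
      have : (g : ℝ) ≤ ((j + 1 : ℕ) : ℝ) := by linarith
      have h5 : g ≤ j + 1 := by exact_mod_cast this
      have hj0 : j = g - 1 := by omega
      subst hj0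
      exact Or.inr (.spo k hk)
  · intro h
    obtain ⟨rfl, h1⟩ := aj_rg_sp h
    have w1 := (hC.mark m1 m1).2 rfl
    rcases h1 with ⟨rfl, rfl⟩ | ⟨rfl, rfl⟩
    · refine ⟨hom 1 (bd (c (2 * (g * k + 1) + 1))), (seg_rg hC hi).2 ⟨_, w1, rfl, m2⟩,
        (seg_sp hC hg hk).2 ⟨1, ?_, ?_, rfl, ?_⟩⟩
      · norm_num
      · have : 0 ≤ 2 * ((0 + 1 : ℕ) : ℝ) / g := by positivity
        linarith
      · rw [nrm_hom (by norm_num), m2, mul_one]
    · refine ⟨hom 3 (bd (c (2 * (g * k + 1) + 1))), (seg_rg hC hi).2 ⟨_, w1, rfl, m2⟩,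
        (seg_sp hC hg hk).2 ⟨3, ?_, ?_, rfl, ?_⟩⟩
      · have h3 : ((g - 1 : ℕ) : ℝ) ≤ g := by exact_mod_cast (show g - 1 ≤ g by omega)
        have h4 : 2 * ((g - 1 : ℕ) : ℝ) / g ≤ 2 := by
          rw [div_le_iff₀ hg']; linarith
        linarith
      · rw [show g - 1 + 1 = g by omega, mul_div_assoc, div_self hg'.ne']
        norm_num
      · rw [nrm_hom (by norm_num), m2, mul_one]

theorem sp_sp (hC : Cut A g c) (hg : 4 ≤ g) {k j k' j' : ℕ} (hk : k < 6 * A.nn)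
    (hk' : k' < 6 * A.nn) (hj : j < g) (hj' : j' < g) (hne : Vx.sp k j ≠ Vx.sp k' j') :
    MV A g u v D c (.sp k j) (.sp k' j') ↔ A.Aj g (.sp k j) (.sp k' j') := by
  obtain ⟨m1, m2⟩ := sp_mark hC hg hk
  obtain ⟨m1', m2'⟩ := sp_mark hC hg hk'
  have hg' : (0 : ℝ) < g := by exact_mod_cast (show 0 < g by omega)
  have half : ∀ {k j j' : ℕ}, k < 6 * A.nn → j' < g → j' = j + 1 →
      MV A g u v D c (.sp k j) (.sp k j') := by
    intro k j j' hk hj' h
    subst h
    have h0 : 0 ≤ 2 * ((j + 1 : ℕ) : ℝ) / g := by positivity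
    refine ⟨hom (1 + 2 * ((j + 1 : ℕ) : ℝ) / g) (bd (c (2 * (g * k + 1) + 1))),
      (seg_sp hC hg hk).2 ⟨_, ?_, le_rfl, rfl, ?_⟩, (seg_sp hC hg hk).2 ⟨_, le_rfl, ?_, rfl, ?_⟩⟩
    · have : 2 * (j : ℝ) / g ≤ 2 * ((j + 1 : ℕ) : ℝ) / g := by
        apply div_le_div_of_nonneg_right _ hg'.le
        push_cast; linarith
      linarith
    · rw [nrm_hom (by linarith), (sp_mark hC hg hk).2, mul_one]
    · have : 2 * ((j + 1 : ℕ) : ℝ) / g ≤ 2 * ((j + 1 + 1 : ℕ) : ℝ) / g := by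
        apply div_le_div_of_nonneg_right _ hg'.le
        push_cast; linarith
      linarith
    · rw [nrm_hom (by linarith), (sp_mark hC hg hk).2, mul_one]
  constructor
  · rintro ⟨z, h1, h2⟩
    rw [seg_sp hC hg hk] at h1
    rw [seg_sp hC hg hk'] at h2
    obtain ⟨s, s1, s2, s3, s4⟩ := h1
    obtain ⟨t, t1, t2, t3, t4⟩ := h2
    have hst : s = t := s4.symm.trans t4
    subst hst
    have hs0 : s ≠ 0 := by
      have : 0 ≤ 2 * (j : ℝ) / g := by positivity
      linarith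
    have h3 := hom_inj hs0 (s3.symm.trans t3)
    have w1 := (hC.mark m1 m1).2 rfl
    rw [h3] at w1
    have h4 := (hC.mark m1' m1).1 w1
    have hkk : k = k' := by
      have : g * k' = g * k := by omega
      exact (Nat.eq_of_mul_eq_mul_left (by omega) this).symm
    subst hkk
    obtain ⟨d1, d2⟩ := div_g hg s1 s2
    obtain ⟨e1, e2⟩ := div_g hg t1 t2
    have f1 : (j : ℝ) ≤ ((j' + 1 : ℕ) : ℝ) := by linarith
    have f2 : (j' : ℝ) ≤ ((j + 1 : ℕ) : ℝ) := by linarith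
    have f1' : j ≤ j' + 1 := by exact_mod_cast f1
    have f2' : j' ≤ j + 1 := by exact_mod_cast f2
    have hjj : j ≠ j' := fun h => hne (by rw [h])
    rcases Nat.lt_or_ge j j' with h | h
    · have : j' = j + 1 := by omega
      subst this
      exact Or.inl (.spm k j hk hj')
    · have : j = j' + 1 := by omega
      subst this
      exact Or.inr (.spm k j' hk hj)
  · intro h
    rcases h with h | h
    · cases h with
      | spm _ _ h1 h2 => exact half hk hj' rfl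
    · cases h with
      | spm _ _ h1 h2 => exact MV_comm.2 (half hk' hj rfl)

/-- Kinds of vertices. -/
theorem Vx_cases (x : Vx) (hx : A.IsV g x) : (∃ a l, x = up a l ∧ A.IsL a ∧ LV (A.N g) g l) ∨
    (∃ b j, x = .rg b j ∧ j < A.M g) ∨ ∃ k j, x = .sp k j ∧ k < 6 * A.nn ∧ j < g := by
  cases x with
  | st c a e i => exact Or.inl ⟨(c, a), .st e i, rfl, hx.1, hx.2⟩
  | ti c a e i d k => exact Or.inl ⟨(c, a), .ti e i d k, rfl, hx.1, hx.2⟩
  | rg b j => exact Or.inr (Or.inl ⟨b, j, rfl, hx⟩)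
  | sp k j => exact Or.inr (Or.inr ⟨k, j, rfl, hx.1, hx.2⟩)

theorem rk_lt' {a : Ln} (ha : A.IsL a) : A.rk a < 4 * A.nn := by
  obtain ⟨c, i⟩ := a
  unfold Arr.IsL at ha
  unfold Arr.rk Arr.nn
  cases c
  · simp only [Bool.false_eq_true, if_false] at ha ⊢
    split_ifs <;> omega
  · simp only [if_true] at ha ⊢
    split_ifs <;> omega

/-- **S_REP** -/
theorem rep (A : Arr) (g : ℕ) (hA : A.Ok) (hg : 4 ≤ g) (hLines : A.Lines) : A.Rep g := by
  obtain ⟨u, v, h1, h2, h3, h4⟩ := hLines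
  have hL : LnH A u v := ⟨hA, h1, h2, h3, h4⟩
  obtain ⟨δ, hδ⟩ := exists_Dl hL
  obtain ⟨D, d1, d2, -⟩ := all_lines hL hg hδ (4 * A.nn)
  have hG : ∀ a, A.IsL a → Gd A g δ (D a) := fun a ha => d1 a ha (rk_lt' ha)
  have hP : ∀ a b, A.IsL a → A.IsL b → A.rk a < A.rk b → Pst A g u v (D a) (D b) a b :=
    fun a b ha hb h => d2 a b ha hb h (rk_lt' hb)
  obtain ⟨c, hC, hc⟩ := exists_cut hL hg hδ hG
  have hM : 3 ≤ A.M g := by
    have := hA.five false
    unfold Arr.M Arr.nn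
    nlinarith [Nat.zero_le (A.m true)]
  have hg' : (0 : ℝ) < g := by exact_mod_cast (show 0 < g by omega)
  refine ⟨PV A g u v D c, QV A g u v D c, ?_, ?_⟩
  · intro x hx
    rcases Vx_cases x hx with ⟨a, l, rfl, ha, hl⟩ | ⟨b, j, rfl, hj⟩ | ⟨k, j, rfl, hk, hj⟩
    · intro he
      have : EE u v a (D a).e (LP (A.N g) g (D a).d l) =
        EE u v a (D a).e (LQ (A.N g) g (D a).d l) := by
        cases l <;> exact he
      exact LP_ne (hG a ha).ok hl (EE_inj a (hG a ha).e0.ne' this)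
    · intro he
      have he' : bd (c (2 * j)) = bd (c (2 * j + 2)) := hom_inj (sc_pos b).ne' he
      obtain ⟨q, hq, q1, q2⟩ := hC.side j hj
      have b1 := hC.box (i := 2 * j) (by omega)
      have b2 := hC.box (i := 2 * j + 2) (by omega)
      have m := hC.mono (2 * j) (2 * j + 2) (by omega) (by omega)
      rcases bd_inj b1.1 b1.2 b2.1 b2.2 he' with h | h | h
      · linarith
      · have q3 : (4 : ℝ) ≤ q + 1 := by linarith [h.2]
        have q4 : (q : ℝ) ≤ 0 := by linarith [h.1]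
        linarith
      · linarith [h.1, h.2]
    · intro he
      have := congrArg nrm he
      have a1 : 0 ≤ 2 * (j : ℝ) / g := by positivity
      have a2 : 0 ≤ 2 * ((j + 1 : ℕ) : ℝ) / g := by positivity
      have e1 : nrm (PV A g u v D c (.sp k j)) = 1 + 2 * (j : ℝ) / g := by
        show nrm (hom (1 + 2 * (j : ℝ) / g) _) = _
        rw [nrm_hom (by linarith), (sp_mark hC hg hk).2, mul_one]
      have e2 : nrm (QV A g u v D c (.sp k j)) = 1 + 2 * ((j + 1 : ℕ) : ℝ) / g := by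
        show nrm (hom (1 + 2 * ((j + 1 : ℕ) : ℝ) / g) _) = _
        rw [nrm_hom (by linarith), (sp_mark hC hg hk).2, mul_one]
      rw [e1, e2] at this
      have h5 : 2 * (j : ℝ) / g = 2 * ((j + 1 : ℕ) : ℝ) / g := by linarith
      rw [div_left_inj' hg'.ne'] at h5
      push_cast at h5
      linarith
  · intro x y hx hy hne
    have e : (segment ℝ (PV A g u v D c x) (QV A g u v D c x) ∩
        segment ℝ (PV A g u v D c y) (QV A g u v D c y)).Nonempty ↔ MV A g u v D c x y := Iff.rfl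
    rw [e]
    show MV A g u v D c x y ↔ A.Aj g x y
    rcases Vx_cases x hx with ⟨a, l, rfl, ha, hl⟩ | ⟨b, j, rfl, hj⟩ | ⟨k, j, rfl, hk, hj⟩ <;>
      rcases Vx_cases y hy with ⟨a', l', rfl, ha', hl'⟩ | ⟨b', j', rfl, hj'⟩ |
        ⟨k', j', rfl, hk', hj'⟩
    · unfold MV
      rw [seg_up, seg_up]
      exact lines_adj hL hG hP ha ha' hl hl' hne
    · exact up_rg hL hg hδ hG hC hc ha hl hj'
    · exact up_sp hL hg hδ hG hC hc ha hl hk'
    · rw [MV_comm, aj_comm]
      exact up_rg hL hg hδ hG hC hc ha' hl' hj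
    · exact rg_rg hC hM hj hj' hne
    · exact rg_sp hC hg hj hk' hj'
    · rw [MV_comm, aj_comm]
      exact up_sp hL hg hδ hG hC hc ha' hl' hk
    · rw [MV_comm, aj_comm]
      exact rg_sp hC hg hj' hk hj
    · exact sp_sp hC hg hk hk' hj hj' hne

end Run7.h749
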