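import Pool.Agent.Run7.h749.CodC
import Pool.Agent.Run7.h749.RepJ
import Pool.Agent.Run7.h749.Gir
import Pool.Agent.Run7.h688.Seg.ALG
import Pool.Agent.Run7.h688.Seg.LIN

/-!
# Recognising segment intersection graphs of large girth is `∃ℝ`-hard: assembly
-/

namespace Pool.Agent.NPC.H749

open Run7.h749 Pool.Agent.NPC.ER Pool.Agent.NPC.ER.Oslp

/-- Being a segment intersection graph is invariant under isomorphism. -/
theorem IsSeg.iso {V W : Type} {G : SimpleGraph V} {H : SimpleGraph W} (e : G ≃g H)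
    (h : IsSeg H) : IsSeg G := by
  obtain ⟨P, Q, h1, h2⟩ := h
  refine ⟨fun v => P (e v), fun v => Q (e v), fun v => h1 _, fun u v huv => ?_⟩
  rw [← h2 (e u) (e v) (fun h => huv (e.injective h))]
  exact (e.map_adj_iff).symm

/-- The graph of an arrangement is a segment intersection graph. -/
theorem isSeg_gr {A : Arr} {g : ℕ} (h : A.Rep g) : IsSeg (A.gr g) := by
  obtain ⟨P, Q, h1, h2⟩ := h
  refine ⟨fun v => P v.1, fun v => Q v.1, fun v => h1 v.1 v.2, fun u v huv => ?_⟩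
  rw [h2 u.1 v.1 u.2 v.2 (fun h => huv (Subtype.ext h))]
  unfold Arr.gr
  rw [SimpleGraph.fromRel_adj]
  exact ⟨fun h => h.2, fun h => ⟨huv, h⟩⟩

theorem rep_of_isSeg {A : Arr} {g : ℕ} (h : IsSeg (A.gr g)) : A.Rep g := by
  classical
  obtain ⟨P, Q, h1, h2⟩ := h
  refine ⟨fun v => if hv : A.IsV g v then P ⟨v, hv⟩ else 0,
    fun v => if hv : A.IsV g v then Q ⟨v, hv⟩ else 0, fun v hv => ?_, fun u v hu hv huv => ?_⟩
  · simp only [dif_pos hv]
    exact h1 _
  · simp only [dif_pos hu, dif_pos hv]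
    rw [← h2 ⟨u, hu⟩ ⟨v, hv⟩ (fun h => huv (congrArg Subtype.val h))]
    unfold Arr.gr
    rw [SimpleGraph.fromRel_adj]
    exact ⟨fun h => h.2, fun h => ⟨fun h' => huv (congrArg Subtype.val h'), h⟩⟩

/-- **Correctness of the reduction.** -/
theorem red_iff {p : List Ins} (hp : WF 2 p) {g : ℕ} (hg : 4 ≤ g) :
    OSat p ↔ IsSeg ((arrOf p).gr g) := by
  have hA := ok_arrOf p hp
  constructor
  · intro h
    exact isSeg_gr (rep (arrOf p) g hA hg (Run7.h688.Seg.lin p hp h))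
  · intro h
    exact Run7.h688.Seg.alg p hp (snd (arrOf p) g hA hg (rep_of_isSeg h))

theorem egirth_gr {A : Arr} {g : ℕ} (hA : A.Ok) (hg : 4 ≤ g) : (g : ℕ∞) ≤ (A.gr g).egirth := by
  rw [SimpleGraph.le_egirth]
  intro v w hw
  exact_mod_cast gir' A g hA hg v w hw

/-- The reduction from systems of constraints. -/
theorem red_sys (k : ℕ) : ∃ f : List Con → GCode, Poly f ∧
    ∀ S, (f S).WF ∧ (k : ℕ∞) ≤ (f S).graph.egirth ∧ (Sat S ↔ IsSeg (f S).graph) := by
  obtain ⟨F, hF, hF'⟩ := s_cod (max 4 k) (le_max_left _ _)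
  refine ⟨fun S => F (prog S), Poly.comp hF (poly_prog Poly.id), fun S => ?_⟩
  have hp := wf_prog S
  obtain ⟨h1, ⟨e⟩⟩ := hF' (prog S) hp
  refine ⟨h1, ?_, ?_⟩
  · rw [e.egirth_eq]
    refine le_trans ?_ (egirth_gr (ok_arrOf _ hp) (le_max_left 4 k))
    exact_mod_cast le_max_right 4 k
  · rw [prog_iff, red_iff hp (le_max_left 4 k)]
    exact ⟨fun h => IsSeg.iso e h, fun h => IsSeg.iso e.symm h⟩

/-- **Main theorem.** -/
theorem main (k : ℕ) (L : Set (List Bool)) (hL : InER L) :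
    ∃ f : List Bool → GCode, PolyTime (fun x => bits (f x)) ∧
      ∀ x, (f x).WF ∧ (k : ℕ∞) ≤ (f x).graph.egirth ∧ (x ∈ L ↔ IsSeg (f x).graph) := by
  obtain ⟨f, hf, h⟩ := red_sys k
  obtain ⟨g, hg, hL⟩ := hL
  have h1 : PC (id : List Bool → List Bool) (bits : ER.Fm → List Bool) g :=
    H642R2.TMSim.polyTime_toPC hg
  have h2 : Poly (fun φ : ER.Fm => f (ER.sysOf φ)) := Poly.comp hf (ER.poly_sysOf Poly.id)
  have h3 : PC (id : List Bool → List Bool) (bits : GCode → List Bool)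
      (fun x => f (ER.sysOf (g x))) :=
    PC.comp (g := fun φ : ER.Fm => f (ER.sysOf φ)) (eb := (bits : ER.Fm → List Bool)) h2 h1
  have h4 : PC (id : List Bool → List Bool) (id : List Bool → List Bool)
    (fun x => bits (f (ER.sysOf (g x)))) := h3
  refine ⟨fun x => f (ER.sysOf (g x)), PC.toPolyTime h4, fun x => ?_⟩
  obtain ⟨a1, a2, a3⟩ := h (ER.sysOf (g x))
  refine ⟨a1, a2, ?_⟩
  rw [hL, ← ER.sat_sysOf, a3]

end Pool.Agent.NPC.H749
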