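import Pool.Agent.Run7.h749.Red

/-!
# The axioms for the arrangement of a program
-/

namespace Run7.h749

open Pool.Agent.NPC.ER.Oslp Pool.Agent.NPC.ER.Sgn

variable {p : List Ins}

theorem inS_iff {j : ℕ} : inS p j = true ↔
    3 ≤ j ∧ j < 3 + 10 * G p ∧ bpo j % 5 ≠ 4 ∧ ∃ c, opc p j = some c := by
  unfold inS
  simp only [Bool.and_eq_true, decide_eq_true_eq, Bool.not_eq_true', decide_eq_false_iff_not,
    Option.isSome_iff_exists, and_assoc, ne_eq]

theorem sp_0 : sp p 0 = 2 * (p.length + 1) := by unfold sp; rw [if_pos rfl]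

theorem sp_pos {a : ℕ} (h : 0 < a) : sp p a = 2 * (a - 1) := by unfold sp; rw [if_neg (by omega)]

/-- The bounds for the crossings in a slab. -/
theorem cs_fac (hp : WF 2 p) {j : ℕ} (hj : inS p j = true) {z z' : ℕ} (_hz : z < z')
    (_hz' : z' < 4) : 4 ≤ cs p j z z' ∧ cs p j z z' ≤ 4 * T p ∧ cs p j z z' % 2 = 0 := by
  obtain ⟨h1, h2, h3, c, hc⟩ := inS_iff.1 hj
  unfold cs
  rw [hc]
  have hw := opd_wf hp (k := kof p j) (o := c.1) (l := c.2.1) (i := c.2.2.1) (j := c.2.2.2) hc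
  obtain ⟨w1, w2, w3, w4, w5, w6, w7⟩ := hw
  simp only
  have hT : T p = 2 * (p.length + 2) := rfl
  have key : ∀ q, 4 * sp p (vl c (kof p j) q) + 8 ≤ 4 * T p ∧ sp p (vl c (kof p j) q) % 2 = 0 := by
    intro q
    have e0 := sp_0 (p := p)
    have : ∀ a, a ≤ kof p j → sp p a ≤ 2 * (p.length + 1) ∧ sp p a % 2 = 0 := by
      intro a ha
      rcases Nat.eq_zero_or_pos a with h | h
      · subst h; rw [e0]; omega
      · rw [sp_pos h]; omega
    have hv : vl c (kof p j) q ≤ kof p j := by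
      unfold vl
      split_ifs <;> omega
    have := this _ hv
    omega
  have k := key (qq (decide (c.1 = 0)) z z')
  unfold hs
  split_ifs <;> omega

theorem sp_lt {a b : ℕ} (h : 0 < a) (h' : a < b) (hb : b < p.length + 2) :
    sp p a + 2 ≤ sp p b ∧ sp p b + 2 ≤ sp p 0 := by
  rw [sp_pos h, sp_pos (by omega), sp_0]
  omega

/-- The crossings of three columns of a slab. -/
theorem cs_tri (hp : WF 2 p) {j : ℕ} (hj : inS p j = true) {x y z : ℕ} (hx : x < y)
    (hy : y < z) (hz : z < 4) : (cs p j x y < cs p j x z ∧ cs p j x z < cs p j y z) ∨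
      (cs p j y z < cs p j x z ∧ cs p j x z < cs p j x y) := by
  obtain ⟨h1, h2, h3, c, hc⟩ := inS_iff.1 hj
  unfold cs
  rw [hc]
  obtain ⟨w1, w2, w3, w4, w5, w6, w7⟩ :=
    opd_wf hp (k := kof p j) (o := c.1) (l := c.2.1) (i := c.2.2.1) (j := c.2.2.2) hc
  simp only
  obtain ⟨o, l, i, j'⟩ := c
  simp only at w3 w4 w5 w6 w7 ⊢
  set k := kof p j
  set b := bpo j / 5
  have li := sp_lt (p := p) (a := l) (b := i) (by omega) w4 (by omega)
  have lj := sp_lt (p := p) (a := l) (b := j') (by omega) w5 (by omega)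
  have ik := sp_lt (p := p) (a := i) (b := k) (by omega) w6 w2
  have jk := sp_lt (p := p) (a := j') (b := k) (by omega) w7 w2
  have main : ∀ q, sp p (vl (o, l, i, j') k q) * 4 + 4 ≤ hs p (o, l, i, j') k b q ∧
      hs p (o, l, i, j') k b q ≤ sp p (vl (o, l, i, j') k q) * 4 + 8 := by
    intro q
    unfold hs
    split_ifs with h
    · rw [h]; omega
    · omega
    · omega
  have m0 := main 0
  have m1 := main 1
  have m2 := main 2
  have m3 := main 3
  have m4 := main 4
  have m5 := main 5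
  have v0 : vl (o, l, i, j') k 0 = 0 := rfl
  have v1 : vl (o, l, i, j') k 1 = k := rfl
  have v2 : vl (o, l, i, j') k 2 = i := rfl
  have v3 : vl (o, l, i, j') k 3 = j' := rfl
  have v4 : vl (o, l, i, j') k 4 = l := rfl
  have v5 : vl (o, l, i, j') k 5 = o := rfl
  rw [v0] at m0
  rw [v1] at m1
  rw [v2] at m2
  rw [v3] at m3
  rw [v4] at m4
  rw [v5] at m5
  by_cases ho : o = 0
  · subst ho
    have hd : decide (0 = 0) = true := rfl
    rw [hd]
    have hcase : (x = 0 ∧ y = 1 ∧ z = 2) ∨ (x = 0 ∧ y = 1 ∧ z = 3) ∨ (x = 0 ∧ y = 2 ∧ z = 3) ∨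
      (x = 1 ∧ y = 2 ∧ z = 3) := by omega
    rcases hcase with ⟨rfl, rfl, rfl⟩ | ⟨rfl, rfl, rfl⟩ | ⟨rfl, rfl, rfl⟩ | ⟨rfl, rfl, rfl⟩ <;>
      simp only [qq, if_true, if_false, OfNat.ofNat_ne_zero, OfNat.ofNat_ne_one, OfNat.one_ne_ofNat,
        one_ne_zero, Nat.reduceEqDiff] <;> omega
  · have hd : decide (o = 0) = false := decide_eq_false ho
    rw [hd]
    have ol := sp_lt (p := p) (a := o) (b := l) (by omega) w3 (by omega)
    have hcase : (x = 0 ∧ y = 1 ∧ z = 2) ∨ (x = 0 ∧ y = 1 ∧ z = 3) ∨ (x = 0 ∧ y = 2 ∧ z = 3) ∨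
      (x = 1 ∧ y = 2 ∧ z = 3) := by omega
    rcases hcase with ⟨rfl, rfl, rfl⟩ | ⟨rfl, rfl, rfl⟩ | ⟨rfl, rfl, rfl⟩ | ⟨rfl, rfl, rfl⟩ <;>
      simp only [qq, if_true, if_false, OfNat.ofNat_ne_zero, OfNat.ofNat_ne_one, OfNat.one_ne_ofNat,
        one_ne_zero, Nat.reduceEqDiff, Bool.false_eq_true] <;> omega

/-- Positions, as a function of the six comparisons. -/
def pz (e01 e02 e03 e12 e13 e23 : Bool) (z : ℕ) : ℕ :=
  if z = 0 then (!e01).toNat + (!e02).toNat + (!e03).toNat
  else if z = 1 then e01.toNat + (!e12).toNat + (!e13).toNat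
  else if z = 2 then e02.toNat + e12.toNat + (!e23).toNat
  else e03.toNat + e13.toNat + e23.toNat

theorem pz_lt (e01 e02 e03 e12 e13 e23 : Bool) (z : ℕ) : pz e01 e02 e03 e12 e13 e23 z < 4 := by
  unfold pz
  have h : ∀ b : Bool, b.toNat ≤ 1 := by decide
  have := h (!e01)
  have := h (!e02)
  have := h (!e03)
  have := h (!e12)
  have := h (!e13)
  have := h (!e23)
  have := h e01
  have := h e02
  have := h e03
  have := h e12
  have := h e13
  have := h e23
  split_ifs <;> omega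

/-- The comparisons of three columns are consistent. -/
def cons (a b c : Bool) : Bool := !(a && c && !b) && !(!a && !c && b)

theorem pz_inj : ∀ e01 e02 e03 e12 e13 e23 : Bool, cons e01 e02 e12 = true →
    cons e01 e03 e13 = true → cons e02 e03 e23 = true → cons e12 e13 e23 = true →
    ∀ z < 4, ∀ z' < 4, pz e01 e02 e03 e12 e13 e23 z = pz e01 e02 e03 e12 e13 e23 z' → z = z' := by
  decide

theorem cons_of {a b c r : ℕ} (h : (a < b ∧ b < c) ∨ (c < b ∧ b < a)) :
    cons (decide (a < r)) (decide (b < r)) (decide (c < r)) = true := by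
  unfold cons
  by_cases h1 : a < r <;> by_cases h2 : b < r <;> by_cases h3 : c < r <;> simp [h1, h2, h3] <;> omega

theorem posz_eq (hp : WF 2 p) {j : ℕ} (hj : inS p j = true) (r : ℕ) :
    posz p r j = pz (decide (cs p j 0 1 < 2 * r + 1)) (decide (cs p j 0 2 < 2 * r + 1))
      (decide (cs p j 0 3 < 2 * r + 1)) (decide (cs p j 1 2 < 2 * r + 1))
      (decide (cs p j 1 3 < 2 * r + 1)) (decide (cs p j 2 3 < 2 * r + 1)) (bpo j % 5) := by
  obtain ⟨h1, h2, h3, c, hc⟩ := inS_iff.1 hj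
  have f01 := cs_fac hp hj (z := 0) (z' := 1) (by omega) (by omega)
  have f02 := cs_fac hp hj (z := 0) (z' := 2) (by omega) (by omega)
  have f03 := cs_fac hp hj (z := 0) (z' := 3) (by omega) (by omega)
  have f12 := cs_fac hp hj (z := 1) (z' := 2) (by omega) (by omega)
  have f13 := cs_fac hp hj (z := 1) (z' := 3) (by omega) (by omega)
  have f23 := cs_fac hp hj (z := 2) (z' := 3) (by omega) (by omega)
  have hz : bpo j % 5 < 4 := by omega
  have tn : ∀ a : ℕ, (decide (a < 2 * r + 1)).toNat = if a < 2 * r + 1 then 1 else 0 := by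
    intro a; split_ifs with h <;> simp [h]
  have tn' : ∀ a : ℕ, (!decide (a < 2 * r + 1)).toNat = if a < 2 * r + 1 then 0 else 1 := by
    intro a; split_ifs with h <;> simp [h]
  unfold posz pz
  simp only [tn, tn']
  generalize bpo j % 5 = z at hz
  have hcase : z = 0 ∨ z = 1 ∨ z = 2 ∨ z = 3 := by omega
  rcases hcase with rfl | rfl | rfl | rfl
  · simp only [lt_irrefl, false_and, false_or, if_true, ↓reduceIte]
    split_ifs <;> omega
  · simp only [one_ne_zero, if_false, if_true]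
    split_ifs <;> omega
  · simp only [OfNat.ofNat_ne_zero, OfNat.ofNat_ne_one, if_false, if_true]
    split_ifs <;> omega
  · simp only [OfNat.ofNat_ne_zero, OfNat.ofNat_ne_one, Nat.reduceEqDiff, if_false]
    split_ifs <;> omega

end Run7.h749
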