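import Pool.Agent.Run7.h749.Top2
import Pool.Agent.Run7.h749.Cvx

/-!
# Regions bounded by chains of segments all of whose corners are fixed
-/

namespace Run7.h749.Top

open Set Cvx

/-- A region: a convex component of the complement of `Q` containing `I`, not meeting `O`. -/
structure Rg (Q I O U : Set (ℝ × ℝ)) : Prop where
  isOpen : IsOpen U
  convex : Convex ℝ U
  inn : I ⊆ U
  dQ : Disjoint U Q
  dO : Disjoint U O
  mx : ∀ C : Set (ℝ × ℝ), IsPreconnected C → Disjoint C Q → (C ∩ U).Nonempty → C ⊆ U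

theorem region {ι : Type} {side : ι → Set (ℝ × ℝ)} {a b : ι → ℝ × ℝ} {Q I O : Set (ℝ × ℝ)}
    (hQ : Q = ⋃ i, side i) (hQc : IsClosed Q) (hcv : ∀ i, Convex ℝ (side i))
    (hne : ∀ i, b i ≠ a i)
    (hop : ∀ i, side i ⊆ openSegment ℝ (b i) (a i))
    (htip : ∀ i, ∀ z ∈ segment ℝ (b i) (a i), z ∈ Q → z ∈ side i)
    (hb : ∀ i, b i ∈ O) (ha : ∀ i, a i ∈ O) (hI : IsPreconnected I) (hIQ : Disjoint I Q)
    {x0 y0 : ℝ × ℝ} (hx0 : x0 ∈ I) (hO : IsPreconnected O) (hOQ : Disjoint O Q) (hy0 : y0 ∈ O)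
    (hsep : ∀ D : Set (ℝ × ℝ), Disjoint D Q → JoinedIn D x0 y0 → False) :
    ∃ U, Rg Q I O U := by
  have hx0Q : x0 ∈ Qᶜ := fun h => Set.disjoint_left.1 hIQ hx0 h
  have hUo : IsOpen (connectedComponentIn Qᶜ x0) := hQc.isOpen_compl.connectedComponentIn
  have hUc : IsPreconnected (connectedComponentIn Qᶜ x0) := isPreconnected_connectedComponentIn
  have hxU : x0 ∈ connectedComponentIn Qᶜ x0 := mem_connectedComponentIn hx0Q
  have hUQ : connectedComponentIn Qᶜ x0 ⊆ Qᶜ := connectedComponentIn_subset _ _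
  set U := connectedComponentIn Qᶜ x0 with hU
  have hmx : ∀ C : Set (ℝ × ℝ), IsPreconnected C → Disjoint C Q → (C ∩ U).Nonempty → C ⊆ U := by
    intro C hC hCQ ⟨z, hzC, hzU⟩
    have h1 : IsPreconnected (C ∪ U) := hC.union z hzC hzU hUc
    have h2 : C ∪ U ⊆ Qᶜ := by
      rintro w (hw | hw)
      · exact fun h => Set.disjoint_left.1 hCQ hw h
      · exact hUQ hw
    have h3 := h1.subset_connectedComponentIn (Or.inr hxU) h2
    exact fun w hw => h3 (Or.inl hw)
  have hIU : I ⊆ U := hmx I hI hIQ ⟨x0, hx0, hxU⟩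
  have hOU : Disjoint U O := by
    rw [Set.disjoint_left]
    intro z hzU hzO
    have hOsub : O ⊆ U := hmx O hO hOQ ⟨z, hzO, hzU⟩
    have hpc : IsPathConnected U := by
      rw [← hUo.isConnected_iff_isPathConnected]
      exact ⟨⟨x0, hxU⟩, hUc⟩
    exact hsep U (Set.disjoint_left.2 fun w hw hwQ => hUQ hw hwQ)
      (hpc.joinedIn x0 hxU y0 (hOsub hy0))
  refine ⟨U, hUo, convex_of_supp hUo hUc ?_, hIU, Set.disjoint_left.2 fun w hw hwQ => hUQ hw hwQ,
    hOU, hmx⟩
  intro w hw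
  -- frontier points are in `Q`
  have hwU : w ∉ U := by
    rw [hUo.frontier_eq] at hw
    exact hw.2
  have hwQ : w ∈ Q := by
    by_contra hn
    obtain ⟨r, hr, hball⟩ := Metric.isOpen_iff.1 hQc.isOpen_compl w hn
    have hw' : w ∈ closure U := frontier_subset_closure hw
    obtain ⟨z, hz, hzU⟩ := Metric.mem_closure_iff.1 hw' r hr
    have := hmx (Metric.ball w r) (convex_ball w r).isPreconnected
      (Set.disjoint_left.2 fun y hy hyQ => hball hy hyQ)
      ⟨z, by rw [Metric.mem_ball, dist_comm]; exact hzU, hz⟩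
    exact hwU (this (Metric.mem_ball_self hr))
  rw [hQ] at hwQ
  obtain ⟨i, hi⟩ := mem_iUnion.1 hwQ
  refine ⟨b i, a i, hne i, hop i hi, ?_⟩
  intro z hz hzU
  by_cases hzQ : z ∈ Q
  · exact hUQ hzU hzQ
  -- `z` is on one of the tips
  have hzs : z ∉ side i := fun h => hzQ (hQ ▸ mem_iUnion.2 ⟨i, h⟩)
  have hsub : ∀ c, c ∈ segment ℝ (b i) (a i) → segment ℝ z c ⊆ segment ℝ (b i) (a i) :=
    fun c hc => (convex_segment (b i) (a i)).segment_subset hz hc
  have hba := left_mem_segment ℝ (b i) (a i)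
  have hab := right_mem_segment ℝ (b i) (a i)
  have hcase : Disjoint (segment ℝ z (b i)) (side i) ∨ Disjoint (segment ℝ z (a i)) (side i) := by
    by_contra hcon
    push Not at hcon
    obtain ⟨h1, h2⟩ := hcon
    rw [Set.not_disjoint_iff] at h1 h2
    obtain ⟨p, hp, hps⟩ := h1
    obtain ⟨q, hq, hqs⟩ := h2
    apply hzs
    refine (hcv i).segment_subset hps hqs ?_
    -- `z` is between `p` and `q`
    rw [segment_eq_image'] at hz hp hq
    obtain ⟨t, ht, rfl⟩ := hz
    obtain ⟨s, hs, rfl⟩ := hp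
    obtain ⟨r, hr, rfl⟩ := hq
    rw [segment_eq_image']
    simp only
    -- positions: `p = (1 - s) t`, `q = t + r (1 - t)`
    have e1 : b i + t • (a i - b i) + s • (b i - (b i + t • (a i - b i))) =
        b i + (t - s * t) • (a i - b i) := by module
    have e2 : b i + t • (a i - b i) + r • (a i - (b i + t • (a i - b i))) =
        b i + (t + r * (1 - t)) • (a i - b i) := by module
    rw [e1, e2]
    have p1 : 0 ≤ s * t := mul_nonneg hs.1 ht.1
    have p2 : 0 ≤ r * (1 - t) := mul_nonneg hr.1 (by linarith [ht.2])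
    rcases eq_or_lt_of_le (add_nonneg p1 p2) with h0 | h0
    · have q1 : s * t = 0 := by linarith
      have q2 : r * (1 - t) = 0 := by linarith
      exact ⟨0, ⟨le_rfl, zero_le_one⟩, by rw [q1, q2]; module⟩
    · refine ⟨s * t / (s * t + r * (1 - t)), ⟨by positivity, ?_⟩, ?_⟩
      · rw [div_le_one h0]; linarith
      · have : s * t / (s * t + r * (1 - t)) * (s * t + r * (1 - t)) = s * t :=
          div_mul_cancel₀ _ h0.ne'
        set κ := s * t / (s * t + r * (1 - t))
        have e3 : b i + (t - s * t) • (a i - b i) + κ • (b i + (t + r * (1 - t)) • (a i - b i) -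
            (b i + (t - s * t) • (a i - b i))) =
            b i + (t - s * t + κ * (s * t + r * (1 - t))) • (a i - b i) := by module
        beta_reduce
        rw [e3, this]
        congr 2
        ring
  have fin : ∀ c, c ∈ segment ℝ (b i) (a i) → c ∈ O → Disjoint (segment ℝ z c) (side i) →
      False := by
    intro c hc hcO hd
    have h1 : segment ℝ z c ⊆ U := by
      refine hmx _ (convex_segment z c).isPreconnected ?_ ⟨z, left_mem_segment ℝ z c, hzU⟩
      rw [Set.disjoint_left]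
      intro y hy hyQ
      exact Set.disjoint_left.1 hd hy (htip i y (hsub c hc hy) hyQ)
    exact Set.disjoint_left.1 hOU (h1 (right_mem_segment ℝ z c)) hcO
  rcases hcase with h | h
  · exact fin _ hba (hb i) h
  · exact fin _ hab (ha i) h

/-- Two regions on the two sides of a curve are separated by a straight line. -/
theorem separate {Q Q' I I' O O' U U' C : Set (ℝ × ℝ)} (h : Rg Q I O U) (h' : Rg Q' I' O' U')
    (hC : IsPreconnected C) (hCQ : Disjoint C Q)
    (hQC : Q' ⊆ C) (hCO : (C ∩ O).Nonempty)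
    {C' : Set (ℝ × ℝ)} (hC' : IsPreconnected C') (hCQ' : Disjoint C' Q') (hIC : (C' ∩ I).Nonempty)
    (hCO' : (C' ∩ O').Nonempty) :
    Disjoint U U' := by
  rw [Set.disjoint_left]
  intro z hz hz'
  -- `Q'` does not meet `U`
  have h1 : Disjoint C U := by
    rw [Set.disjoint_left]
    intro w hwC hwU
    obtain ⟨o, ho, hoO⟩ := hCO
    exact Set.disjoint_left.1 h.dO (h.mx C hC hCQ ⟨w, hwC, hwU⟩ ho) hoO
  have h2 : U ⊆ U' := h'.mx U h.convex.isPreconnected
    (Set.disjoint_left.2 fun w hw hwQ => Set.disjoint_left.1 h1 (hQC hwQ) hw) ⟨z, hz, hz'⟩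
  obtain ⟨i, hi, hiI⟩ := hIC
  obtain ⟨o, ho, hoO⟩ := hCO'
  exact Set.disjoint_left.1 h'.dO (h'.mx C' hC' hCQ' ⟨i, hi, h2 (h.inn hiI)⟩ ho) hoO

/-- A linear function separating two disjoint open convex sets. -/
theorem exists_line {U U' : Set (ℝ × ℝ)} (hU : IsOpen U) (hc : Convex ℝ U) (hU' : IsOpen U')
    (hc' : Convex ℝ U') (hd : Disjoint U U') :
    ∃ c : ℝ × ℝ × ℝ, (∀ z ∈ U, 0 < c.1 * z.1 + c.2.1 * z.2 + c.2.2) ∧
      ∀ z ∈ U', c.1 * z.1 + c.2.1 * z.2 + c.2.2 < 0 := by
  obtain ⟨f, u, h1, h2⟩ := geometric_hahn_banach_open_open hc' hU' hc hU hd.symm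
  have hf : ∀ z : ℝ × ℝ, f z = f (1, 0) * z.1 + f (0, 1) * z.2 := by
    intro z
    have : z = z.1 • ((1 : ℝ), (0 : ℝ)) + z.2 • ((0 : ℝ), (1 : ℝ)) := by
      ext <;> simp
    nth_rewrite 1 [this]
    rw [map_add, map_smul, map_smul, smul_eq_mul, smul_eq_mul]
    ring
  refine ⟨(f (1, 0), f (0, 1), -u), fun z hz => ?_, fun z hz => ?_⟩
  · have := h2 z hz
    rw [hf] at this
    simp only
    linarith
  · have := h1 z hz
    rw [hf] at this
    simp only
    linarith

end Run7.h749.Top
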