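import Pool.Agent.Run7.h749.Fac2
import Pool.Agent.Run7.h749.Region

/-!
# Quadrilaterals formed by four lines
-/

namespace Run7.h749

open Arr Set

variable {A : Arr} {g : ℕ} {P Q : Vx → ℝ × ℝ}

/-! ### Order on a segment -/

theorem seg_anti {a b z : ℝ × ℝ} (h1 : z ∈ segment ℝ a b) (h2 : b ∈ segment ℝ a z) : z = b := by
  obtain ⟨s, hs0, hs1, hs⟩ := seg_coord h1
  obtain ⟨r, hr0, hr1, hr⟩ := seg_coord h2
  rw [hs] at hr
  have : (1 - r * s) • (b - a) = 0 := by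
    have e : (1 - r * s) • (b - a) = b - (a + r • (a + s • (b - a) - a)) := by module
    rw [e, ← hr, sub_self]
  rcases smul_eq_zero.1 this with h | h
  · have : s = 1 := by nlinarith
    rw [hs, this]; module
  · rw [hs, h, smul_zero, add_zero]
    exact (sub_eq_zero.1 h).symm

theorem ord4 {a b c d : ℝ × ℝ} (h1 : b ∈ segment ℝ a c) (h2 : c ∈ segment ℝ b d) (n1 : b ≠ a)
    (n2 : c ≠ b) (n3 : d ≠ c) : segment ℝ b c ⊆ openSegment ℝ a d ∧ a ≠ d := by
  obtain ⟨s, hs0, hs1, hs⟩ := seg_coord h1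
  obtain ⟨r, hr0, hr1, hr⟩ := seg_coord h2
  have s1 : s < 1 := lt_of_le_of_ne hs1 fun h => n2 (by rw [hs, h]; module)
  have s0 : 0 < s := lt_of_le_of_ne hs0 fun h => n1 (by rw [hs, ← h]; module)
  have r1 : r < 1 := lt_of_le_of_ne hr1 fun h => n3 (by rw [hr, h]; module)
  have r0 : 0 < r := lt_of_le_of_ne hr0 fun h => n2 (by rw [hr, ← h]; module)
  -- coordinates with respect to `b` and `c`
  set D := c - b with hD
  have hD0 : D ≠ 0 := sub_ne_zero.2 n2
  have ea : a = b - (s / (1 - s)) • D := by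
    have e1 : (1 - s) • (b - a) = s • D := by
      have : b - a = s • (c - a) := by rw [hs]; module
      have e2 : (1 - s) • (b - a) = (b - a) - s • (b - a) := by module
      rw [e2]
      nth_rewrite 1 [this]
      rw [hD]; module
    have e3 : b - a = (s / (1 - s)) • D := by
      rw [div_eq_inv_mul, mul_smul, ← e1, smul_smul, inv_mul_cancel₀ (by linarith), one_smul]
    rw [← e3]; module
  have ed : d = b + (1 / r) • D := by
    have e1 : D = r • (d - b) := by rw [hD]; nth_rewrite 1 [hr]; module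
    rw [e1, smul_smul, one_div, inv_mul_cancel₀ r0.ne', one_smul]
    module
  set α := s / (1 - s) with hα
  have α0 : 0 < α := div_pos s0 (by linarith)
  have δ1 : 1 < 1 / r := by rw [lt_div_iff₀ r0]; linarith
  set δ := 1 / r
  constructor
  · intro z hz
    obtain ⟨t, ht0, ht1, rfl⟩ := seg_coord hz
    have hs : 0 < α + δ := by linarith
    refine ⟨(δ - t) / (α + δ), (t + α) / (α + δ), div_pos (by linarith) hs,
      div_pos (by linarith) hs, by rw [← add_div]; rw [div_eq_one_iff_eq hs.ne']; ring, ?_⟩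
    rw [ea, ed]
    have e : ((δ - t) / (α + δ)) • (b - α • D) + ((t + α) / (α + δ)) • (b + δ • D) =
        ((δ - t) / (α + δ) + (t + α) / (α + δ)) • b +
        (-((δ - t) / (α + δ)) * α + (t + α) / (α + δ) * δ) • D := by module
    rw [e]
    have e1 : (δ - t) / (α + δ) + (t + α) / (α + δ) = 1 := by
      rw [← add_div]; rw [div_eq_one_iff_eq hs.ne']; ring
    have e2 : -((δ - t) / (α + δ)) * α + (t + α) / (α + δ) * δ = t := by
      field_simp
      ring
    rw [e1, e2, one_smul]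
  · intro h
    have : (α + δ) • D = 0 := by
      have e : (α + δ) • D = (b + δ • D) - (b - α • D) := by module
      rw [e, ← ea, ← ed, h, sub_self]
    rcases smul_eq_zero.1 this with h | h
    · linarith
    · exact hD0 h

/-! ### Arms -/

/-- The corner points of a chain. -/
noncomputable def qc (P Q : Vx → ℝ × ℝ) (l : Ln) (e t : ℕ) : ℝ × ℝ :=
  pt P Q (.st l.1 l.2 e t) (.st l.1 l.2 e (t + 1))

/-- The crossing point of the strand `e` of `a` and the strand `f` of `b`. -/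
noncomputable def wc (A : Arr) (g : ℕ) (P Q : Vx → ℝ × ℝ) (a b : Ln) (e f : ℕ) : ℝ × ℝ :=
  pt P Q (cv A g a b e f) (cv A g b a f e)

/-- The part of the chain `e` of the line `l` from the strand `2` of `b0` to the strand `0` of
`b1`. -/
structure Am where
  l : Ln
  e : ℕ
  b0 : Ln
  b1 : Ln

namespace Am

/-- First index. -/
def lo (A : Arr) (g : ℕ) (M : Am) : ℕ := A.zp g M.l M.b0 2

/-- Last index. -/
def hi (A : Arr) (g : ℕ) (M : Am) : ℕ := A.zp g M.l M.b1 0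

/-- Joints. -/
noncomputable def J (A : Arr) (g : ℕ) (P Q : Vx → ℝ × ℝ) (M : Am) (t : ℕ) : ℝ × ℝ :=
  if t = M.lo A g then wc A g P Q M.l M.b0 M.e 2
  else if t = M.hi A g + 1 then wc A g P Q M.l M.b1 M.e 0
  else qc P Q M.l M.e (t - 1)

/-- Sides. -/
def sd (A : Arr) (g : ℕ) (P Q : Vx → ℝ × ℝ) (M : Am) (t : ℕ) : Set (ℝ × ℝ) :=
  segment ℝ (M.J A g P Q t) (M.J A g P Q (t + 1))

/-- The vertices. -/
def vx (M : Am) (t : ℕ) : Vx := .st M.l.1 M.l.2 M.e t

/-- Good arms. -/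
structure OK (A : Arr) (M : Am) : Prop where
  hl : A.IsL M.l
  h0 : A.IsL M.b0
  h1 : A.IsL M.b1
  he : M.e = 0 ∨ M.e = 2
  n0 : M.l.1 ≠ M.b0.1
  n1 : M.l.1 ≠ M.b1.1
  hs : A.sl M.l M.b0 < A.sl M.l M.b1

end Am

namespace RS

variable {M : Am}

theorem cr_of_ne {a b : Ln} (h : a.1 ≠ b.1) : A.cr a b = true := by
  unfold Arr.cr; rw [if_neg h]

theorem ne_of_ne {a b : Ln} (h : a.1 ≠ b.1) : a ≠ b := fun he => h (by rw [he])

theorem lo_lt_hi (_hR : RS A g P Q) (hM : M.OK A) : M.lo A g + g ≤ M.hi A g := by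
  unfold Am.lo Am.hi
  obtain ⟨r, h1, h2⟩ := zp_eq (A := A) (g := g) M.l M.b0 2
  obtain ⟨r', h1', h2'⟩ := zp_eq (A := A) (g := g) M.l M.b1 0
  rw [h1, h1']
  exact pos_lt hM.hs (by have := h2 (by omega); omega)

theorem lo_pos (hR : RS A g P Q) (hM : M.OK A) : g ≤ M.lo A g :=
  (hR.zp_bd hM.hl hM.h0 (cr_of_ne hM.n0) (by omega)).1

theorem hi_le (hR : RS A g P Q) (hM : M.OK A) : M.hi A g + g ≤ A.N g :=
  (hR.zp_bd hM.hl hM.h1 (cr_of_ne hM.n1) (by omega)).2

theorem ix_e {e n : ℕ} (he : e = 0 ∨ e = 2) : ix e n = n := by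
  unfold ix; rw [if_neg (by omega)]

theorem e3 (hM : M.OK A) : M.e < 3 := by have := hM.he; omega

theorem vx_V (hM : M.OK A) {t : ℕ} (ht : t ≤ A.N g) : A.IsV g (M.vx t) :=
  ⟨hM.hl, e3 hM, by rw [ix_e hM.he]; exact ht⟩

/-- The facts on the corner number `t` of a chain. -/
theorem qc_un (hR : RS A g P Q) (hM : M.OK A) {t : ℕ} (ht : t < A.N g) :
    Un P Q (M.vx t) (M.vx (t + 1)) := (hR.corner hM.hl hM.he ht).1

theorem qc_mem (hR : RS A g P Q) (hM : M.OK A) {t : ℕ} (ht : t < A.N g) :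
    qc P Q M.l M.e t ∈ segment ℝ (P (M.vx t)) (Q (M.vx t)) ∧
    qc P Q M.l M.e t ∈ segment ℝ (P (M.vx (t + 1))) (Q (M.vx (t + 1))) :=
  ⟨(hR.qc_un hM ht).1, (hR.qc_un hM ht).2.1⟩

theorem pv_vx {t : ℕ} (ht : 0 < t) : pv A g M.l M.e t = M.vx (t - 1) := by
  unfold pv; rw [if_neg (by omega)]; rfl

theorem nx_vx (hM : M.OK A) {t : ℕ} (ht : t < A.N g) : nx A g M.l M.e t = M.vx (t + 1) := by
  unfold nx; rw [if_neg (by rw [ix_e hM.he]; omega)]; rfl

/-- The tips of the vertex number `t`: points of the ties. -/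
theorem tips (hR : RS A g P Q) (hM : M.OK A) {t : ℕ} (h0 : 0 < t) (ht : t < A.N g) :
    ∃ L R, (L ∈ segment ℝ (P (M.vx t)) (Q (M.vx t)) ∧
      L ∈ segment ℝ (P (.ti M.l.1 M.l.2 M.e (t - 1) 0 (g - 1)))
        (Q (.ti M.l.1 M.l.2 M.e (t - 1) 0 (g - 1)))) ∧
      (R ∈ segment ℝ (P (M.vx t)) (Q (M.vx t)) ∧
      R ∈ segment ℝ (P (.ti M.l.1 M.l.2 M.e t 1 (g - 1)))
        (Q (.ti M.l.1 M.l.2 M.e t 1 (g - 1)))) ∧
      segment ℝ (qc P Q M.l M.e (t - 1)) (qc P Q M.l M.e t) ⊆ openSegment ℝ L R ∧ L ≠ R := by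
  have hg := hR.hg
  have aL : A.Aj g (M.vx t) (.ti M.l.1 M.l.2 M.e (t - 1) 0 (g - 1)) := by
    have := Ed.ti1 (A := A) (g := g) M.l.1 M.l.2 M.e (t - 1) 0 hM.hl hM.he (by omega) (by omega)
    rw [show t - 1 + 1 - 0 = t by omega] at this
    exact Or.inr this
  have aR : A.Aj g (M.vx t) (.ti M.l.1 M.l.2 M.e t 1 (g - 1)) := by
    have := Ed.ti1 (A := A) (g := g) M.l.1 M.l.2 M.e t 1 hM.hl hM.he ht (by omega)
    rw [show t + 1 - 1 = t by omega] at this
    exact Or.inr this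
  have VL : A.IsV g (.ti M.l.1 M.l.2 M.e (t - 1) 0 (g - 1)) :=
    ⟨hM.hl, hM.he, by omega, by omega, by omega⟩
  have VR : A.IsV g (.ti M.l.1 M.l.2 M.e t 1 (g - 1)) :=
    ⟨hM.hl, hM.he, ht, by omega, by omega⟩
  have Vt : A.IsV g (M.vx t) := vx_V hM ht.le
  obtain ⟨L, hL, hL'⟩ := hR.mt Vt VL aL
  obtain ⟨R, hR', hR''⟩ := hR.mt Vt VR aR
  obtain ⟨c1, c2, c3⟩ := hR.corner hM.hl hM.he ht
  obtain ⟨d1, d2, d3⟩ := hR.corner hM.hl hM.he (i := t - 1) (by omega)
  rw [show t - 1 + 1 = t by omega] at d1 d2 d3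
  have q1 := hR.qc_mem hM ht
  have q0 := hR.qc_mem hM (t := t - 1) (by omega)
  rw [show t - 1 + 1 = t by omega] at q0
  have e1 : qc P Q M.l M.e t ∈ segment ℝ (qc P Q M.l M.e (t - 1)) R := by
    refine c2 _ _ q0.2 ?_ hR' hR''
    rw [pv_vx h0]
    exact q0.1
  have e2 : qc P Q M.l M.e (t - 1) ∈ segment ℝ L (qc P Q M.l M.e t) := by
    have := d3 _ (qc P Q M.l M.e t) hL hL' q1.1 (by rw [nx_vx hM ht]; exact q1.2)
    unfold qc at this ⊢
    rw [show t - 1 + 1 = t by omega]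
    exact this
  have n1 : qc P Q M.l M.e (t - 1) ≠ L := by
    intro h
    refine hR.dj' (vx_V hM (t := t - 1) (by omega)) VL (by simp [Am.vx]) (fun hA => ?_) q0.1
      (h ▸ hL')
    have := aj_st_ti hA
    omega
  have n2 : qc P Q M.l M.e t ≠ qc P Q M.l M.e (t - 1) := by
    intro h
    refine hR.dj' (vx_V hM (t := t + 1) (by omega)) (vx_V hM (t := t - 1) (by omega))
      (by simp [Am.vx]; omega) (fun hA => ?_) q1.2 (h ▸ q0.1)
    rcases aj_st_st hR.ok hA with h1 | h1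
    · omega
    · exact h1.1 rfl
  have n3 : R ≠ qc P Q M.l M.e t := by
    intro h
    refine hR.dj' (vx_V hM (t := t + 1) (by omega)) VR (by simp [Am.vx]) (fun hA => ?_) q1.2
      (h ▸ hR'')
    have := aj_st_ti hA
    omega
  have := ord4 e2 e1 n1 n2 n3
  exact ⟨L, R, ⟨hL, hL'⟩, ⟨hR', hR''⟩, this.1, this.2⟩

/-- Crossing points are between the corners. -/
theorem wc_mem (hR : RS A g P Q) {l b : Ln} {e f : ℕ} (hl : A.IsL l) (hb : A.IsL b)
    (he : e = 0 ∨ e = 2) (hf : f < 3) (hne : l ≠ b) (hc : A.cr l b = true) :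
    wc A g P Q l b e f ∈ segment ℝ (qc P Q l e (A.zp g l b f - 1)) (qc P Q l e (A.zp g l b f)) := by
  have hg := hR.hg
  have he3 : e < 3 := by omega
  have bd := hR.zp_bd hl hb hc hf
  set t := A.zp g l b f with ht
  obtain ⟨c1, c2⟩ := hR.cross hl hb hne hc he3 hf
  have hix : ix e t = t := ix_e he
  rw [← ht, hix] at c2
  have hcv : cv A g l b e f = .st l.1 l.2 e t := by unfold cv; rw [← ht, hix]
  rw [hcv] at c2
  have p1 := (hR.corner hl he (i := t) (by omega)).1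
  have p0 := (hR.corner hl he (i := t - 1) (by omega)).1
  rw [show t - 1 + 1 = t by omega] at p0
  have := c2 (qc P Q l e (t - 1)) (qc P Q l e t)
    (by unfold qc; rw [show t - 1 + 1 = t by omega]; exact p0.2.1)
    (by
      unfold qc pv; rw [if_neg (by omega), show t - 1 + 1 = t by omega]; exact p0.1)
    (by unfold qc; exact p1.1)
    (by
      unfold qc nx
      rw [if_neg (by rw [ix_e he]; omega)]
      exact p1.2.1)
  unfold wc
  rw [hcv]
  exact this

theorem J_lo : M.J A g P Q (M.lo A g) = wc A g P Q M.l M.b0 M.e 2 := by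
  unfold Am.J; rw [if_pos rfl]

theorem J_hi (hR : RS A g P Q) (hM : M.OK A) :
    M.J A g P Q (M.hi A g + 1) = wc A g P Q M.l M.b1 M.e 0 := by
  have := hR.lo_lt_hi hM
  unfold Am.J; rw [if_neg (by omega), if_pos rfl]

theorem J_mid {t : ℕ} (h1 : M.lo A g < t) (h2 : t ≤ M.hi A g) :
    M.J A g P Q t = qc P Q M.l M.e (t - 1) := by
  unfold Am.J; rw [if_neg (by omega), if_neg (by omega)]

/-- The joints of a side are between the corners. -/
theorem J_mem (hR : RS A g P Q) (hM : M.OK A) {t : ℕ} (h1 : M.lo A g ≤ t) (h2 : t ≤ M.hi A g) :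
    M.J A g P Q t ∈ segment ℝ (qc P Q M.l M.e (t - 1)) (qc P Q M.l M.e t) ∧
    M.J A g P Q (t + 1) ∈ segment ℝ (qc P Q M.l M.e (t - 1)) (qc P Q M.l M.e t) := by
  have hlt := hR.lo_lt_hi hM
  have hg := hR.hg
  constructor
  · rcases Nat.eq_or_lt_of_le h1 with h | h
    · subst h
      rw [J_lo]
      exact hR.wc_mem hM.hl hM.h0 hM.he (by omega) (ne_of_ne hM.n0) (cr_of_ne hM.n0)
    · rw [J_mid h h2]
      exact left_mem_segment ℝ _ _
  · rcases Nat.eq_or_lt_of_le h2 with h | h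
    · subst h
      rw [hR.J_hi hM]
      exact hR.wc_mem hM.hl hM.h1 hM.he (by omega) (ne_of_ne hM.n1) (cr_of_ne hM.n1)
    · rw [J_mid (by omega) (by omega)]
      exact right_mem_segment ℝ _ _

theorem sd_sub (hR : RS A g P Q) (hM : M.OK A) {t : ℕ} (h1 : M.lo A g ≤ t) (h2 : t ≤ M.hi A g) :
    M.sd A g P Q t ⊆ segment ℝ (qc P Q M.l M.e (t - 1)) (qc P Q M.l M.e t) :=
  (convex_segment _ _).segment_subset (hR.J_mem hM h1 h2).1 (hR.J_mem hM h1 h2).2

theorem sd_seg (hR : RS A g P Q) (hM : M.OK A) {t : ℕ} (h1 : M.lo A g ≤ t) (h2 : t ≤ M.hi A g) :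
    M.sd A g P Q t ⊆ segment ℝ (P (M.vx t)) (Q (M.vx t)) := by
  have a1 := hR.lo_pos hM
  have a2 := hR.hi_le hM
  have hg := hR.hg
  refine (hR.sd_sub hM h1 h2).trans ((convex_segment _ _).segment_subset ?_ ?_)
  · have := (hR.qc_mem hM (t := t - 1) (by omega)).2
    rwa [show t - 1 + 1 = t by omega] at this
  · exact (hR.qc_mem hM (t := t) (by omega)).1

/-- Joining along an arm. -/
theorem sd_join (hR : RS A g P Q) (hM : M.OK A) {i j : ℕ} (hij : i ≤ j) :
    JoinedIn (⋃ t ∈ {t | i ≤ t ∧ t ≤ j}, M.sd A g P Q t) (M.J A g P Q i) (M.J A g P Q (j + 1)) := by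
  induction j, hij using Nat.le_induction with
  | base => 
    refine JoinedIn.of_segment_subset ?_
    intro x hx
    exact mem_biUnion (x := i) ⟨le_rfl, le_rfl⟩ hx
  | succ j hij ih =>
    refine (ih.mono ?_).trans (JoinedIn.of_segment_subset ?_)
    · exact biUnion_subset_biUnion_left fun t ht => ⟨ht.1, by have := ht.2; omega⟩
    · intro x hx
      exact mem_biUnion (x := j + 1) ⟨by omega, le_rfl⟩ hx

/-- Any two points of the sides from `i` to `j` can be joined. -/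
theorem sd_join' (hR : RS A g P Q) (hM : M.OK A) {i j : ℕ} {s t : ℕ} (hs : i ≤ s ∧ s ≤ j)
    (ht : i ≤ t ∧ t ≤ j) {x y : ℝ × ℝ} (hx : x ∈ M.sd A g P Q s) (hy : y ∈ M.sd A g P Q t) :
    JoinedIn (⋃ t ∈ {t | i ≤ t ∧ t ≤ j}, M.sd A g P Q t) x y := by
  have key : ∀ {s x}, i ≤ s ∧ s ≤ j → x ∈ M.sd A g P Q s →
      JoinedIn (⋃ t ∈ {t | i ≤ t ∧ t ≤ j}, M.sd A g P Q t) (M.J A g P Q i) x := by
    intro s x hs hx
    have h1 : JoinedIn (⋃ t ∈ {t | i ≤ t ∧ t ≤ j}, M.sd A g P Q t) (M.J A g P Q i)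
        (M.J A g P Q (s + 1)) := (hR.sd_join hM hs.1).mono
      (biUnion_subset_biUnion_left fun t ht => ⟨ht.1, by have := ht.2; have := hs.2; omega⟩)
    refine h1.trans (joined_seg (p := M.J A g P Q s) (q := M.J A g P Q (s + 1)) ?_
      (right_mem_segment ℝ _ _) hx)
    intro z hz
    exact mem_biUnion (x := s) hs hz
  exact (key hs hx).symm.trans (key ht hy)

end RS

end Run7.h749
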