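import Pool.Agent.Run7.h749.Quad

/-!
# The region inside a quadrilateral
-/

namespace Run7.h749

open Arr Set

variable {A : Arr} {g : ℕ} {P Q : Vx → ℝ × ℝ}

/-- Four lines forming a quadrilateral: `R p false`, `R p true` are the lower and the upper line
of the direction `p`. -/
structure QH (A : Arr) (R : Bool → Bool → Ln) : Prop where
  hl : ∀ p h, A.IsL (R p h)
  hd : ∀ p h h', (R p h).1 ≠ (R (!p) h').1
  hn : ∀ p, R p false ≠ R p true
  hx : ∀ p, A.cr (R p false) (R p true) = false
  hs : ∀ p h, A.sl (R p h) (R (!p) false) < A.sl (R p h) (R (!p) true)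

/-- The chain of a line of the quadrilateral which is on the inner side. -/
def ee (h : Bool) : ℕ := if h = true then 0 else 2

/-- The arms. -/
def am (R : Bool → Bool → Ln) (p h : Bool) : Am := ⟨R p h, ee h, R (!p) false, R (!p) true⟩

theorem ee_lt (h : Bool) : ee h < 3 := by unfold ee; split_ifs <;> omega

theorem ee_or (h : Bool) : ee h = 0 ∨ ee h = 2 := by unfold ee; split_ifs <;> simp

variable {R : Bool → Bool → Ln}

theorem QH.ok (hQ : QH A R) (p h : Bool) : (am R p h).OK A :=
  ⟨hQ.hl p h, hQ.hl _ _, hQ.hl _ _, ee_or h, hQ.hd p h false, hQ.hd p h true, hQ.hs p h⟩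

theorem QH.cross (hQ : QH A R) (p h h' : Bool) : A.cr (R p h) (R (!p) h') = true :=
  RS.cr_of_ne (hQ.hd p h h')

/-- Lines of the same direction do not cross. -/
theorem QH.ncross (hR : RS A g P Q) (hQ : QH A R) (p : Bool) {h h' : Bool} (hh : h ≠ h') :
    A.cr (R p h) (R p h') = false ∧ R p h ≠ R p h' := by
  have h1 := hQ.hx p
  have h2 := hQ.hn p
  cases h <;> cases h'
  · exact absurd rfl hh
  · exact ⟨h1, h2⟩
  · exact ⟨by rw [hR.ok.cr_comm]; exact h1, h2.symm⟩
  · exact absurd rfl hh

/-- The index of a corner on an arm. -/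
def cI (A : Arr) (g : ℕ) (R : Bool → Bool → Ln) (p h h' : Bool) : ℕ :=
  if h' = true then (am R p h).hi A g else (am R p h).lo A g

/-- The corner point. -/
noncomputable def cp (A : Arr) (g : ℕ) (P Q : Vx → ℝ × ℝ) (R : Bool → Bool → Ln)
    (p h h' : Bool) : ℝ × ℝ := wc A g P Q (R p h) (R (!p) h') (ee h) (ee h')

theorem cI_zp (p h h' : Bool) : cI A g R p h h' = A.zp g (R p h) (R (!p) h') (ee h') := by
  unfold cI am Am.lo Am.hi ee
  cases h' <;> simp

namespace RS

theorem cI_bd (hR : RS A g P Q) (hQ : QH A R) (p h h' : Bool) :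
    (am R p h).lo A g ≤ cI A g R p h h' ∧ cI A g R p h h' ≤ (am R p h).hi A g := by
  have := hR.lo_lt_hi (hQ.ok p h)
  unfold cI
  cases h' <;> simp <;> omega

/-- The corner point is on the side. -/
theorem cp_sd (hR : RS A g P Q) (hQ : QH A R) (p h h' : Bool) :
    cp A g P Q R p h h' ∈ (am R p h).sd A g P Q (cI A g R p h h') := by
  unfold cI cp Am.sd
  cases h'
  · have : (am R p h).J A g P Q ((am R p h).lo A g) =
      wc A g P Q (R p h) (R (!p) false) (ee h) (ee false) := J_lo
    simp only [Bool.false_eq_true, if_false]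
    rw [this]
    exact left_mem_segment ℝ _ _
  · have : (am R p h).J A g P Q ((am R p h).hi A g + 1) =
      wc A g P Q (R p h) (R (!p) true) (ee h) (ee true) := hR.J_hi (hQ.ok p h)
    simp only [if_true]
    rw [this]
    exact right_mem_segment ℝ _ _

theorem wc_comm (hR : RS A g P Q) {a b : Ln} (ha : A.IsL a) (hb : A.IsL b) (hab : a ≠ b)
    (hc : A.cr a b = true) {e f : ℕ} (he : e < 3) (hf : f < 3) :
    wc A g P Q a b e f = wc A g P Q b a f e := by
  have := (hR.cross ha hb hab hc he hf).1.comm.2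
  exact this.symm

theorem cp_comm (hR : RS A g P Q) (hQ : QH A R) (p h h' : Bool) :
    cp A g P Q R p h h' = cp A g P Q R (!p) h' h := by
  unfold cp
  rw [hR.wc_comm (hQ.hl _ _) (hQ.hl _ _) (ne_of_ne (hQ.hd p h h')) (hQ.cross p h h') (ee_lt _)
    (ee_lt _), Bool.not_not]

theorem vx_cv (p h h' : Bool) : (am R p h).vx (cI A g R p h h') =
    cv A g (R p h) (R (!p) h') (ee h) (ee h') := by
  rw [cI_zp]
  unfold Am.vx am cv
  simp only
  rw [ix_e (ee_or h)]

/-- Adjacency of vertices of the arms. -/
theorem adj_arm (hR : RS A g P Q) (hQ : QH A R) {p h p' h' : Bool} {t t' : ℕ}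
    (hA : A.Aj g ((am R p h).vx t) ((am R p' h').vx t')) :
    (p = p' ∧ h = h' ∧ (t' = t + 1 ∨ t = t' + 1)) ∨
    (p' = !p ∧ t = cI A g R p h h' ∧ t' = cI A g R p' h' h) := by
  have hA' : A.Aj g (.st (R p h).1 (R p h).2 (ee h) t) (.st (R p' h').1 (R p' h').2 (ee h') t') := hA
  by_cases hpp : p = p'
  · subst hpp
    by_cases hhh : h = h'
    · subst hhh
      rcases aj_st_st hR.ok hA' with h1 | h1
      · exact Or.inl ⟨rfl, rfl, h1.2.2.2⟩
      · exact absurd rfl h1.1
    · have hn := hQ.ncross hR p hhh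
      have := hR.aj_ne hn.2 hA'
      rw [hn.1] at this
      exact absurd this.2.2.1 (by simp)
  · have hp' : p' = !p := by cases p <;> cases p' <;> simp_all
    subst hp'
    have := hR.aj_ne (ne_of_ne (hQ.hd p h h')) hA'
    right
    refine ⟨rfl, ?_, ?_⟩
    · rw [cI_zp, this.2.2.2.1, ix_e (ee_or h)]
    · rw [cI_zp, this.2.2.2.2, ix_e (ee_or h'), Bool.not_not]

theorem vx_ne (hR : RS A g P Q) (hQ : QH A R) {p h p' h' : Bool} {t t' : ℕ}
    (he : (am R p h).vx t = (am R p' h').vx t') : p = p' ∧ h = h' ∧ t = t' := by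
  have he' : (Vx.st (R p h).1 (R p h).2 (ee h) t) = (.st (R p' h').1 (R p' h').2 (ee h') t') := he
  simp only [Vx.st.injEq] at he'
  obtain ⟨h1, h2, h3, h4⟩ := he'
  have h5 : R p h = R p' h' := Prod.ext h1 h2
  by_cases hpp : p = p'
  · subst hpp
    by_cases hhh : h = h'
    · exact ⟨rfl, hhh, h4⟩
    · exact absurd h5 (hQ.ncross hR p hhh).2
  · have hp' : p' = !p := by cases p <;> cases p' <;> simp_all
    subst hp'
    exact absurd h1 (hQ.hd p h h')

/-- The tips do not meet other sides. -/
theorem zz (hR : RS A g P Q) (hQ : QH A R) {p h p' h' : Bool} {t t' : ℕ}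
    (ht : (am R p h).lo A g ≤ t ∧ t ≤ (am R p h).hi A g)
    (ht' : (am R p' h').lo A g ≤ t' ∧ t' ≤ (am R p' h').hi A g) {z : ℝ × ℝ}
    (hz : z ∈ segment ℝ (P ((am R p h).vx t)) (Q ((am R p h).vx t)))
    (hz' : z ∈ (am R p' h').sd A g P Q t') : z ∈ (am R p h).sd A g P Q t := by
  have hg := hR.hg
  have ok := hQ.ok p h
  have ok' := hQ.ok p' h'
  have b1 := hR.lo_pos ok
  have b2 := hR.hi_le ok
  have b1' := hR.lo_pos ok'
  have b2' := hR.hi_le ok'
  have hz2 := hR.sd_seg ok' ht'.1 ht'.2 hz'
  by_cases hA : A.Aj g ((am R p h).vx t) ((am R p' h').vx t')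
  · rcases hR.adj_arm hQ hA with ⟨rfl, rfl, h1⟩ | ⟨rfl, h1, h2⟩
    · rcases h1 with h1 | h1
      · subst h1
        have hu := hR.qc_un ok (t := t) (by omega)
        have : z = (am R p h).J A g P Q (t + 1) := by
          rw [J_mid (by omega) (by omega)]
          exact hu.2.2 z hz hz2
        rw [this]
        exact right_mem_segment ℝ _ _
      · subst h1
        have hu := hR.qc_un ok (t := t') (by omega)
        have : z = (am R p h).J A g P Q (t' + 1) := by
          rw [J_mid (by omega) (by omega)]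
          exact hu.2.2 z hz2 hz
        rw [this]
        exact left_mem_segment ℝ _ _
    · have hcr := (hR.cross (hQ.hl p h) (hQ.hl (!p) h') (ne_of_ne (hQ.hd p h h'))
        (hQ.cross p h h') (ee_lt h) (ee_lt h')).1
      subst h1 h2
      rw [vx_cv] at hz hz2
      rw [Bool.not_not] at hz2
      have : z = cp A g P Q R p h h' := hcr.2.2 z hz hz2
      rw [this]
      exact hR.cp_sd hQ p h h'
  · by_cases he : (am R p h).vx t = (am R p' h').vx t'
    · obtain ⟨rfl, rfl, rfl⟩ := hR.vx_ne hQ he
      exact hz'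
    · exact absurd hz2 (hR.dj' (vx_V ok (by omega)) (vx_V ok' (by omega)) he hA hz)

/-! ### The outer part -/

/-- Spines and ties. -/
def WO (A : Arr) (g : ℕ) (R : Bool → Bool → Ln) : Set Vx :=
  {v | (∃ p h t, t ≤ 4 * A.N g ∧ v = .st (R p h).1 (R p h).2 1 t) ∨
    ∃ p h i d j, i < A.N g ∧ d < 2 ∧ j < g ∧ v = .ti (R p h).1 (R p h).2 (ee h) i d j}

theorem WO_V (hQ : QH A R) {v : Vx} (hv : v ∈ WO A g R) : A.IsV g v := by
  rcases hv with ⟨p, h, t, ht, rfl⟩ | ⟨p, h, i, d, j, hi, hd, hj, rfl⟩
  · exact ⟨hQ.hl p h, by omega, by unfold ix; rw [if_pos rfl]; exact ht⟩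
  · exact ⟨hQ.hl p h, ee_or h, hi, hd, hj⟩

theorem WO_st {p h : Bool} {t : ℕ} (ht : t ≤ 4 * A.N g) :
    Vx.st (R p h).1 (R p h).2 1 t ∈ WO A g R := Or.inl ⟨p, h, t, ht, rfl⟩

theorem WO_ti {p h : Bool} {i d j : ℕ} (hi : i < A.N g) (hd : d < 2) (hj : j < g) :
    Vx.ti (R p h).1 (R p h).2 (ee h) i d j ∈ WO A g R := Or.inr ⟨p, h, i, d, j, hi, hd, hj, rfl⟩

theorem WO_con (hR : RS A g P Q) (hQ : QH A R) {u v : Vx} (hu : u ∈ WO A g R)
    (hv : v ∈ WO A g R) : Jn P Q (WO A g R) u v := by
  have hg := hR.hg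
  have ix1 : ix 1 (A.N g) = 4 * A.N g := by unfold ix; rw [if_pos rfl]
  have spine : ∀ p h t t', t ≤ 4 * A.N g → t' ≤ 4 * A.N g →
      Jn P Q (WO A g R) (.st (R p h).1 (R p h).2 1 t) (.st (R p h).1 (R p h).2 1 t') := by
    have key : ∀ p h t t', t ≤ t' → t' ≤ 4 * A.N g →
        Jn P Q (WO A g R) (.st (R p h).1 (R p h).2 1 t) (.st (R p h).1 (R p h).2 1 t') :=
      fun p h t t' htt ht' => hR.jst (hQ.hl p h) (by omega) htt (by rw [ix1]; exact ht')
        fun s _ hs => WO_st (by omega)
    intro p h t t' ht ht'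
    rcases le_total t t' with h1 | h1
    · exact key p h t t' h1 ht'
    · exact (key p h t' t h1 ht).symm
  have cross : ∀ p h h', Jn P Q (WO A g R) (.st (R p h).1 (R p h).2 1 0)
      (.st (R (!p) h').1 (R (!p) h').2 1 0) := by
    intro p h h'
    have ha := hQ.hl p h
    have hb := hQ.hl (!p) h'
    have hc := hQ.cross p h h'
    have hc' : A.cr (R (!p) h') (R p h) = true := by rw [hR.ok.cr_comm]; exact hc
    have hne := ne_of_ne (hQ.hd p h h')
    have b1 := hR.zp_bd ha hb hc (r := 1) (by omega)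
    have b2 := hR.zp_bd hb ha hc' (r := 1) (by omega)
    have i1 : ∀ n, ix 1 n = 4 * n := fun n => by unfold ix; rw [if_pos rfl]
    refine (spine p h 0 (4 * A.zp g (R p h) (R (!p) h') 1) (by omega) (by omega)).trans ?_
    refine Jn.trans ?_ (spine (!p) h' (4 * A.zp g (R (!p) h') (R p h) 1) 0 (by omega) (by omega))
    have aj := hR.cv_aj ha hb hne hc (e := 1) (f := 1) (by omega) (by omega)
    have V1 := hR.cv_V ha hb hc (e := 1) (f := 1) (by omega) (by omega)
    have V2 := hR.cv_V hb ha hc' (e := 1) (f := 1) (by omega) (by omega)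
    unfold cv at aj V1 V2
    rw [i1] at aj V1 V2
    rw [i1] at aj
    exact hR.step (WO_st (by omega)) (WO_st (by omega)) V1 V2 aj
  have base : ∀ p h, Jn P Q (WO A g R) (.st (R p h).1 (R p h).2 1 0)
      (.st (R false false).1 (R false false).2 1 0) := by
    intro p h
    cases p
    · exact (cross false h false).trans (cross (!false) false false)
    · exact cross true h false
  have all : ∀ w ∈ WO A g R, Jn P Q (WO A g R) w (.st (R false false).1 (R false false).2 1 0) := by
    rintro w (⟨p, h, t, ht, rfl⟩ | ⟨p, h, i, d, j, hi, hd, hj, rfl⟩)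
    · exact (spine p h t 0 ht (by omega)).trans (base p h)
    · refine ((hR.jti (hQ.hl p h) (ee_or h) hi hd hj fun t ht => WO_ti hi hd ht).symm).trans ?_
      refine (hR.step (WO_ti hi hd (by omega)) (WO_st (t := 4 * i + 1 + 2 * d) (by omega))
        ⟨hQ.hl p h, ee_or h, hi, hd, by omega⟩ ⟨hQ.hl p h, by omega, by rw [ix1]; omega⟩
        (Or.inl (.ti0 _ _ _ _ _ (hQ.hl p h) (ee_or h) hi hd))).trans ?_
      exact (spine p h _ 0 (by omega) (by omega)).trans (base p h)
  exact (all u hu).trans (all v hv).symm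

/-- The outer part does not meet the sides. -/
theorem WO_sd (hR : RS A g P Q) (hQ : QH A R) {o : Vx} (ho : o ∈ WO A g R) {p h : Bool} {t : ℕ}
    (ht : (am R p h).lo A g ≤ t ∧ t ≤ (am R p h).hi A g) {z : ℝ × ℝ}
    (hz : z ∈ segment ℝ (P o) (Q o)) (hz' : z ∈ (am R p h).sd A g P Q t) : False := by
  have hg := hR.hg
  have ok := hQ.ok p h
  have b1 := hR.lo_pos ok
  have b2 := hR.hi_le ok
  have blt := hR.lo_lt_hi ok
  have hVo := WO_V hQ ho
  have hzv := hR.sd_seg ok ht.1 ht.2 hz'
  have hzq := hR.sd_sub ok ht.1 ht.2 hz'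
  have hVt : A.IsV g ((am R p h).vx t) := vx_V ok (by omega)
  have hne : o ≠ (am R p h).vx t := by
    rcases ho with ⟨p', h', t', ht', rfl⟩ | ⟨p', h', i, d, j, hi, hd, hj, rfl⟩
    · intro he
      have he' : (Vx.st (R p' h').1 (R p' h').2 1 t') = .st (R p h).1 (R p h).2 (ee h) t := he
      simp only [Vx.st.injEq] at he'
      have := ee_or h
      omega
    · intro he
      have he' : (Vx.ti (R p' h').1 (R p' h').2 (ee h') i d j) =
        .st (R p h).1 (R p h).2 (ee h) t := he
      simp at he'
  by_cases hA : A.Aj g o ((am R p h).vx t)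
  swap
  · exact hR.dj' hVo hVt hne hA hz hzv
  rcases ho with ⟨p', h', t', ht', rfl⟩ | ⟨p', h', i, d, j, hi, hd, hj, rfl⟩
  · -- a spine
    have hA' : A.Aj g (.st (R p' h').1 (R p' h').2 1 t') (.st (R p h).1 (R p h).2 (ee h) t) := hA
    have he1 : ee h ≠ 1 := by have := ee_or h; omega
    have hln : R p' h' ≠ R p h := by
      intro he
      rcases aj_st_st hR.ok hA' with h1 | h1
      · exact he1 h1.2.2.1.symm
      · exact h1.1 he
    have haj := hR.aj_ne hln hA'
    have hp' : p' = !p := by
      by_contra hcon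
      have hpp : p' = p := by cases p <;> cases p' <;> simp_all
      subst hpp
      have hhh : h' ≠ h := fun he => hln (by rw [he])
      have := (hQ.ncross hR p' hhh).1
      rw [this] at haj
      exact absurd haj.2.2.1 (by simp)
    subst hp'
    obtain ⟨-, -, hc', e1, e2⟩ := haj
    rw [ix_e (ee_or h)] at e2
    have ha := hQ.hl p h
    have hb := hQ.hl (!p) h'
    have hd := hQ.hd p h h'
    have hnl := ne_of_ne hd
    have hc := hQ.cross p h h'
    have hcr1 := (hR.cross ha hb hnl hc (ee_lt h) (f := 1) (by omega)).1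
    have hcrh := (hR.cross ha hb hnl hc (ee_lt h) (ee_lt h')).1
    have hrv : rv (R p h) (R (!p) h') = false := by
      unfold rv; simp [hd]
    rcases Nat.lt_trichotomy (A.rk (R p h)) (A.rk (R (!p) h')) with hr | hr | hr
    · -- thick
      have hz1 : z = wc A g P Q (R p h) (R (!p) h') (ee h) 1 := by
        refine hcr1.2.2 z ?_ ?_
        · unfold cv; rw [ix_e (ee_or h), ← e2]; exact hzv
        · unfold cv; rw [← e1]; exact hz
      have ez : A.zp g (R p h) (R (!p) h') 1 = A.zp g (R p h) (R (!p) h') (ee h') := by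
        rw [zp_thick hr, zp_thick hr]
      have hti : t = cI A g R p h h' := by rw [cI_zp, e2, ez]
      -- it is the corner point
      have hfin : z = wc A g P Q (R p h) (R (!p) h') (ee h) (ee h') → False := by
        intro hz2
        have m1 : z ∈ segment ℝ (P (cv A g (R (!p) h') (R p h) 1 (ee h)))
          (Q (cv A g (R (!p) h') (R p h) 1 (ee h))) := by rw [hz1]; exact hcr1.2.1
        have m2 : z ∈ segment ℝ (P (cv A g (R (!p) h') (R p h) (ee h') (ee h)))
          (Q (cv A g (R (!p) h') (R p h) (ee h') (ee h))) := by rw [hz2]; exact hcrh.2.1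
        refine hR.dj' (hR.cv_V hb ha hc' (e := 1) (by omega) (ee_lt h))
          (hR.cv_V hb ha hc' (ee_lt h') (ee_lt h)) ?_ ?_ m1 m2
        · unfold cv
          simp only [ne_eq, Vx.st.injEq, true_and, not_and]
          have := ee_or h'
          omega
        · intro hAA
          rcases aj_st_st hR.ok hAA with h1 | h1
          · have := ee_or h'
            omega
          · exact h1.1 rfl
      cases h'
      · -- lower neighbour
        have hlo : t = (am R p h).lo A g := by rw [hti]; rfl
        have hJ1 : (am R p h).J A g P Q t = wc A g P Q (R p h) (R (!p) false) (ee h) 2 := by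
          rw [hlo]; exact J_lo
        have hJ2 : (am R p h).J A g P Q (t + 1) = qc P Q (R p h) (ee h) t := by
          rw [J_mid (by omega) (by omega)]; rfl
        have hz3 : z ∈ segment ℝ (wc A g P Q (R p h) (R (!p) false) (ee h) 2)
            (qc P Q (R p h) (ee h) t) := by
          have : z ∈ segment ℝ ((am R p h).J A g P Q t) ((am R p h).J A g P Q (t + 1)) := hz'
          rwa [hJ1, hJ2] at this
        have ht2 : A.zp g (R p h) (R (!p) false) 2 = t := by rw [e2, zp_thick hr, zp_thick hr]
        have hq := hR.qc_mem ok (t := t) (by omega)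
        have key := hR.toe ha hb hd hr (ee_lt h) (y := qc P Q (R p h) (ee h) t)
          (by unfold cv; rw [ht2, ix_e (ee_or h)]; exact hq.1)
          (by
            rw [ht2, ix_e (ee_or h)]
            have := nx_vx (g := g) ok (t := t) (by omega)
            rw [show nx A g (R p h) (ee h) t = (am R p h).vx (t + 1) from this]
            exact hq.2)
        apply hfin
        rw [segment_symm] at hz3
        refine seg_anti hz3 ?_
        rw [segment_symm, hz1]
        exact key
      · -- upper neighbour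
        have hhi : t = (am R p h).hi A g := by rw [hti]; rfl
        have hJ2 : (am R p h).J A g P Q (t + 1) = wc A g P Q (R p h) (R (!p) true) (ee h) 0 := by
          rw [hhi]; exact hR.J_hi ok
        have hJ1 : (am R p h).J A g P Q t = qc P Q (R p h) (ee h) (t - 1) := by
          rw [J_mid (by omega) (by omega)]; rfl
        have hz3 : z ∈ segment ℝ (qc P Q (R p h) (ee h) (t - 1))
            (wc A g P Q (R p h) (R (!p) true) (ee h) 0) := by
          have : z ∈ segment ℝ ((am R p h).J A g P Q t) ((am R p h).J A g P Q (t + 1)) := hz'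
          rwa [hJ1, hJ2] at this
        have ht2 : A.zp g (R p h) (R (!p) true) 0 = t := by rw [e2, zp_thick hr, zp_thick hr]
        have hq := hR.qc_mem ok (t := t - 1) (by omega)
        rw [show t - 1 + 1 = t by omega] at hq
        have key := hR.tos ha hb hd hr (ee_lt h) (y := qc P Q (R p h) (ee h) (t - 1))
          (by unfold cv; rw [ht2, ix_e (ee_or h)]; exact hq.2)
          (by
            rw [ht2, ix_e (ee_or h)]
            have := pv_vx (A := A) (g := g) (M := am R p h) (t := t) (by omega)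
            rw [show pv A g (R p h) (ee h) t = (am R p h).vx (t - 1) from this]
            exact hq.1)
        apply hfin
        refine seg_anti hz3 ?_
        rw [hz1]
        exact key
    · exact hnl (rk_inj ha hb hr)
    · -- thin
      have zt : ∀ r, A.zp g (R p h) (R (!p) h') r = pos g (A.sl (R p h) (R (!p) h')) r := by
        intro r
        unfold Arr.zp
        rw [if_neg (by omega), hrv]
        simp
      have z1 : pos g (A.sl (R p h) (R (!p) h')) 0 + g =
        pos g (A.sl (R p h) (R (!p) h')) 1 := (pos_succ _ _).symm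
      have z2 : pos g (A.sl (R p h) (R (!p) h')) 1 + g =
        pos g (A.sl (R p h) (R (!p) h')) 2 := (pos_succ _ _).symm
      cases h'
      · have hlo : (am R p h).lo A g = A.zp g (R p h) (R (!p) false) 2 := rfl
        rw [zt] at hlo e2
        omega
      · have hhi : (am R p h).hi A g = A.zp g (R p h) (R (!p) true) 0 := rfl
        rw [zt] at hhi e2
        omega
  · -- a tie
    have hA' : A.Aj g (.st (R p h).1 (R p h).2 (ee h) t)
      (.ti (R p' h').1 (R p' h').2 (ee h') i d j) := hA.symm
    have he1 : ee h ≠ 1 := by have := ee_or h; omega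
    obtain ⟨c1, c2, c3, c4, c5, c6⟩ := aj_st_ti hA'
    rcases c6 with c6 | c6
    · exact he1 c6.1
    obtain ⟨c6, c7, c8⟩ := c6
    have hln : R p h = R p' h' := Prod.ext c1 c2
    rw [← hln, ← c6] at hz hVo
    rw [c7] at hz hVo
    have hd2 : d = 0 ∨ d = 1 := by omega
    rcases hd2 with rfl | rfl
    · -- the left tip
      have hi : i = t - 1 := by omega
      subst hi
      obtain ⟨-, -, k3⟩ := hR.corner (hQ.hl p h) (ee_or h) (i := t - 1) (by omega)
      rw [show t - 1 + 1 = t by omega] at k3
      have q1 := hR.qc_mem ok (t := t) (by omega)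
      have q0 := hR.qc_mem ok (t := t - 1) (by omega)
      have := k3 z (qc P Q (R p h) (ee h) t) hzv hz q1.1 (by
        have := nx_vx (g := g) ok (t := t) (by omega)
        rw [show nx A g (R p h) (ee h) t = (am R p h).vx (t + 1) from this]
        exact q1.2)
      have e0 : pt P Q (.st (R p h).1 (R p h).2 (ee h) (t - 1)) (.st (R p h).1 (R p h).2 (ee h) t) =
        qc P Q (R p h) (ee h) (t - 1) := by unfold qc; rw [show t - 1 + 1 = t by omega]
      rw [e0] at this
      have hzz : z = qc P Q (R p h) (ee h) (t - 1) := by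
        have hzq' : z ∈ segment ℝ (qc P Q (R p h) (ee h) (t - 1)) (qc P Q (R p h) (ee h) t) := hzq
        rw [segment_symm] at hzq' this
        exact seg_anti hzq' this
      refine hR.dj' (vx_V ok (t := t - 1) (by omega)) hVo (by simp [Am.vx]) ?_
        (hzz ▸ q0.1 : z ∈ segment ℝ (P ((am R p h).vx (t - 1))) (Q ((am R p h).vx (t - 1)))) hz
      intro hAA
      have := aj_st_ti hAA
      omega
    · have hi : i = t := by omega
      subst hi
      obtain ⟨-, k2, -⟩ := hR.corner (hQ.hl p h) (ee_or h) (i := i) (by omega)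
      have q1 := hR.qc_mem ok (t := i) (by omega)
      have q0 := hR.qc_mem ok (t := i - 1) (by omega)
      rw [show i - 1 + 1 = i by omega] at q0
      have := k2 (qc P Q (R p h) (ee h) (i - 1)) z q0.2 (by
        have := pv_vx (A := A) (g := g) (M := am R p h) (t := i) (by omega)
        rw [show pv A g (R p h) (ee h) i = (am R p h).vx (i - 1) from this]
        exact q0.1) hzv hz
      have hzz : z = qc P Q (R p h) (ee h) i := seg_anti hzq this
      refine hR.dj' (vx_V ok (t := i + 1) (by omega)) hVo (by simp [Am.vx]) ?_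
        (hzz ▸ q1.2 : z ∈ segment ℝ (P ((am R p h).vx (i + 1))) (Q ((am R p h).vx (i + 1)))) hz
      intro hAA
      have := aj_st_ti hAA
      omega

end RS

end Run7.h749
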