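import Pool.Agent.Run7.h749.Quad2

/-!
# The region inside a quadrilateral is convex
-/

namespace Run7.h749

open Arr Set

variable {A : Arr} {g : ℕ} {P Q : Vx → ℝ × ℝ} {R : Bool → Bool → Ln}

/-- Unions of sides. -/
def SS (A : Arr) (g : ℕ) (P Q : Vx → ℝ × ℝ) (R : Bool → Bool → Ln)
    (E : Bool → Bool → ℕ → Prop) : Set (ℝ × ℝ) :=
  {z | ∃ p h t, E p h t ∧ ((am R p h).lo A g ≤ t ∧ t ≤ (am R p h).hi A g) ∧
    z ∈ (am R p h).sd A g P Q t}

/-- The boundary. -/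
def QQ (A : Arr) (g : ℕ) (P Q : Vx → ℝ × ℝ) (R : Bool → Bool → Ln) : Set (ℝ × ℝ) :=
  SS A g P Q R fun _ _ _ => True

/-- A strand vertex which is not adjacent to the four lines (with exceptions `X`). -/
structure FR (A : Arr) (g : ℕ) (R : Bool → Bool → Ln) (X : Bool → Bool → ℕ → Prop)
    (b : Ln) (e t : ℕ) : Prop where
  hl : A.IsL b
  he : e < 3
  ht : t ≤ ix e (A.N g)
  hn : ∀ p h, b ≠ R p h
  hz : ∀ p h f, f < 3 → A.cr b (R p h) = true → X p h f ∨ t ≠ ix e (A.zp g b (R p h) f)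

/-- The inner part of a quadrilateral. -/
structure QI (A : Arr) (g : ℕ) (P Q : Vx → ℝ × ℝ) (R : Bool → Bool → Ln) (p0 h0 : Bool)
    (WI : Set Vx) (γ0 γ1 : Ln) : Prop where
  hW : ∀ w ∈ WI, ∃ b e t, w = .st b.1 b.2 e t ∧ FR A g R (fun _ _ _ => False) b e t
  con : ∀ u ∈ WI, ∀ v ∈ WI, Jn P Q WI u v
  g0 : FR A g R (fun p h f => p = p0 ∧ h = h0 ∧ f = ee h0) γ0 0 (A.zp g γ0 (R p0 h0) (ee h0))
  g1 : FR A g R (fun p h f => p = p0 ∧ h = h0 ∧ f = ee h0) γ1 0 (A.zp g γ1 (R p0 h0) (ee h0))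
  c0 : A.cr (R p0 h0) γ0 = true
  c1 : A.cr (R p0 h0) γ1 = true
  a0 : ∃ w ∈ WI, A.Aj g w (.st γ0.1 γ0.2 0 (A.zp g γ0 (R p0 h0) (ee h0)))
  a1 : ∃ w ∈ WI, A.Aj g w (.st γ1.1 γ1.2 0 (A.zp g γ1 (R p0 h0) (ee h0)))
  i0 : (am R p0 h0).lo A g < A.zp g (R p0 h0) γ0 0
  i1 : A.zp g (R p0 h0) γ0 0 + 4 ≤ A.zp g (R p0 h0) γ1 0
  i2 : A.zp g (R p0 h0) γ1 0 < (am R p0 h0).hi A g

namespace RS

theorem SS_joined (hR : RS A g P Q) (hQ : QH A R) {E : Bool → Bool → ℕ → Prop} {p h : Bool}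
    {i j s t : ℕ} (hi : (am R p h).lo A g ≤ i) (hj : j ≤ (am R p h).hi A g)
    (hE : ∀ t, i ≤ t → t ≤ j → E p h t) (hs : i ≤ s ∧ s ≤ j) (ht : i ≤ t ∧ t ≤ j)
    {x y : ℝ × ℝ} (hx : x ∈ (am R p h).sd A g P Q s) (hy : y ∈ (am R p h).sd A g P Q t) :
    JoinedIn (SS A g P Q R E) x y := by
  refine (hR.sd_join' (hQ.ok p h) hs ht hx hy).mono ?_
  intro z hz
  obtain ⟨r, hr, hz⟩ := mem_iUnion₂.1 hz
  exact ⟨p, h, r, hE r hr.1 hr.2, ⟨by have := hr.1; omega, by have := hr.2; omega⟩, hz⟩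

theorem SS_dSS (hR : RS A g P Q) (hQ : QH A R) {E E' : Bool → Bool → ℕ → Prop}
    (h1 : ∀ p h t t', E p h t → E' p h t' → t + 1 < t' ∨ t' + 1 < t)
    (h2 : ∀ p h h', E p h (cI A g R p h h') → E' (!p) h' (cI A g R (!p) h' h) → False) :
    Disjoint (SS A g P Q R E) (SS A g P Q R E') := by
  rw [Set.disjoint_left]
  rintro z ⟨p, h, t, hE, hb, hz⟩ ⟨p', h', t', hE', hb', hz'⟩
  have ok := hQ.ok p h
  have ok' := hQ.ok p' h'
  have b2 := hR.hi_le ok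
  have b2' := hR.hi_le ok'
  refine hR.dj' (vx_V ok (t := t) (by omega)) (vx_V ok' (t := t') (by omega)) ?_ ?_
    (hR.sd_seg ok hb.1 hb.2 hz) (hR.sd_seg ok' hb'.1 hb'.2 hz')
  · intro he
    obtain ⟨rfl, rfl, rfl⟩ := hR.vx_ne hQ he
    have := h1 _ _ _ _ hE hE'
    omega
  · intro hA
    rcases hR.adj_arm hQ hA with ⟨rfl, rfl, h3⟩ | ⟨rfl, rfl, rfl⟩
    · have := h1 _ _ _ _ hE hE'
      omega
    · exact h2 _ _ _ hE hE'

theorem SS_dUU (hR : RS A g P Q) (hQ : QH A R) {E : Bool → Bool → ℕ → Prop} {W : Set Vx}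
    (hV : ∀ w ∈ W, A.IsV g w)
    (h1 : ∀ w ∈ W, ∀ p h t, E p h t → w ≠ (am R p h).vx t ∧ ¬ A.Aj g w ((am R p h).vx t)) :
    Disjoint (UU P Q W) (SS A g P Q R E) := by
  rw [Set.disjoint_left]
  rintro z hz ⟨p', h', t', hE', hb', hz'⟩
  obtain ⟨w, hw, hz⟩ := mem_iUnion₂.1 hz
  have ok' := hQ.ok p' h'
  have b2' := hR.hi_le ok'
  have := h1 w hw p' h' t' hE'
  exact hR.dj' (hV w hw) (vx_V ok' (t := t') (by omega)) this.1 this.2 hz
    (hR.sd_seg ok' hb'.1 hb'.2 hz')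

/-- Adjacency of far vertices. -/
theorem FR_st (hR : RS A g P Q) {X : Bool → Bool → ℕ → Prop} {b : Ln}
    {e t : ℕ} (hF : FR A g R X b e t) {p h : Bool} {f t' : ℕ} :
    (Vx.st b.1 b.2 e t ≠ .st (R p h).1 (R p h).2 f t') ∧
    (A.Aj g (.st b.1 b.2 e t) (.st (R p h).1 (R p h).2 f t') →
      X p h f ∧ t' = ix f (A.zp g (R p h) b e)) := by
  have hne := hF.hn p h
  refine ⟨fun he => ?_, fun hA => ?_⟩
  · simp only [Vx.st.injEq] at he
    exact hne (Prod.ext he.1 he.2.1)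
  · obtain ⟨h1, h2, h3, h4, h5⟩ := hR.aj_ne hne hA
    rcases hF.hz p h f h2 h3 with h6 | h6
    · exact ⟨h6, h5⟩
    · exact absurd h4 h6

theorem FR_ti {X : Bool → Bool → ℕ → Prop} {b : Ln}
    {e t : ℕ} (hF : FR A g R X b e t) {p h : Bool} {f i d k : ℕ} :
    (Vx.st b.1 b.2 e t ≠ .ti (R p h).1 (R p h).2 f i d k) ∧
    ¬ A.Aj g (.st b.1 b.2 e t) (.ti (R p h).1 (R p h).2 f i d k) := by
  refine ⟨by simp, fun hA => ?_⟩
  have := aj_st_ti hA
  exact hF.hn p h (Prod.ext this.1 this.2.1)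

theorem FR_V {X : Bool → Bool → ℕ → Prop} {b : Ln} {e t : ℕ} (hF : FR A g R X b e t) :
    A.IsV g (.st b.1 b.2 e t) := ⟨hF.hl, hF.he, hF.ht⟩

theorem UU_pre {W : Set Vx} (hc : ∀ u ∈ W, ∀ v ∈ W, Jn P Q W u v) :
    IsPreconnected (UU P Q W) := by
  rcases W.eq_empty_or_nonempty with rfl | ⟨w, hw⟩
  · unfold UU
    simp only [mem_empty_iff_false, iUnion_of_empty, iUnion_empty]
    exact isPreconnected_empty
  · have : IsPathConnected (UU P Q W) := by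
      refine ⟨P w, mem_UU hw (left_mem_segment ℝ _ _), ?_⟩
      intro y hy
      obtain ⟨v, hv, hy⟩ := mem_iUnion₂.1 hy
      exact hc w hw v hv _ (left_mem_segment ℝ _ _) y hy
    exact this.isConnected.isPreconnected

/-- **The region inside a quadrilateral.** -/
theorem reg (hR : RS A g P Q) (hQ : QH A R) {p0 h0 : Bool} {WI : Set Vx} {γ0 γ1 : Ln}
    (hI : QI A g P Q R p0 h0 WI γ0 γ1) :
    ∃ U, Top.Rg (QQ A g P Q R) (UU P Q WI) (UU P Q (WO A g R)) U := by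
  classical
  have hg := hR.hg
  let ι := {i : (Bool × Bool) × Fin (A.N g + 1) //
    (am R i.1.1 i.1.2).lo A g ≤ i.2.1 ∧ i.2.1 ≤ (am R i.1.1 i.1.2).hi A g}
  have ok := fun p h => hQ.ok p h
  have tipex : ∀ i : ι, ∃ L R', _ := fun i => hR.tips (ok i.1.1.1 i.1.1.2) (t := i.1.2.1)
    (by have := hR.lo_pos (ok i.1.1.1 i.1.1.2); have := i.2.1; omega)
    (by have := hR.hi_le (ok i.1.1.1 i.1.1.2); have := i.2.2; omega)
  choose L R' hL hR' hsub hne using tipex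
  have hWV : ∀ w ∈ WI, A.IsV g w := by
    intro w hw
    obtain ⟨b, e, t, rfl, hF⟩ := hI.hW w hw
    exact FR_V hF
  have hQeq : QQ A g P Q R = ⋃ i : ι, (am R i.1.1.1 i.1.1.2).sd A g P Q i.1.2.1 := by
    ext z
    rw [mem_iUnion]
    constructor
    · rintro ⟨p, h, t, -, hb, hz⟩
      have := hR.hi_le (ok p h)
      exact ⟨⟨((p, h), ⟨t, by omega⟩), hb⟩, hz⟩
    · rintro ⟨⟨⟨⟨p, h⟩, t⟩, hb⟩, hz⟩
      exact ⟨p, h, t.1, trivial, hb, hz⟩
  have hWO : ∀ u ∈ WO A g R, ∀ v ∈ WO A g R, Jn P Q (WO A g R) u v :=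
    fun u hu v hv => hR.WO_con hQ hu hv
  obtain ⟨w0, hw0, hw0A⟩ := hI.a0
  obtain ⟨w1, hw1, hw1A⟩ := hI.a1
  have hv0 : Vx.st (R false false).1 (R false false).2 1 0 ∈ WO A g R := WO_st (by omega)
  refine Top.region (ι := ι) (side := fun i => (am R i.1.1.1 i.1.1.2).sd A g P Q i.1.2.1)
    (a := R') (b := L) (x0 := P w0) (y0 := P (Vx.st (R false false).1 (R false false).2 1 0))
    hQeq ?_ ?_ ?_ ?_ ?_ ?_ ?_ ?_ ?_ ?_ ?_ ?_ ?_ ?_
  · rw [hQeq]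
    exact isClosed_iUnion_of_finite fun i => by
      unfold Am.sd
      rw [segment_eq_image']
      exact (isCompact_Icc.image (by fun_prop)).isClosed
  · intro i
    exact convex_segment _ _
  · exact fun i => hne i
  · intro i
    exact (hR.sd_sub (ok _ _) i.2.1 i.2.2).trans (hsub i)
  · rintro i z hz ⟨p', h', t', -, hb', hz'⟩
    have h1 : z ∈ segment ℝ (P ((am R i.1.1.1 i.1.1.2).vx i.1.2.1))
      (Q ((am R i.1.1.1 i.1.1.2).vx i.1.2.1)) :=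
      (convex_segment _ _).segment_subset (hL i).1 (hR' i).1 hz
    exact hR.zz hQ i.2 hb' h1 hz'
  · intro i
    have b1 := hR.lo_pos (ok i.1.1.1 i.1.1.2)
    have b2 := hR.hi_le (ok i.1.1.1 i.1.1.2)
    have b3 := i.2
    exact mem_UU (WO_ti (by omega) (by omega) (by omega)) (hL i).2
  · intro i
    have b1 := hR.lo_pos (ok i.1.1.1 i.1.1.2)
    have b2 := hR.hi_le (ok i.1.1.1 i.1.1.2)
    have b3 := i.2
    exact mem_UU (WO_ti (by omega) (by omega) (by omega)) (hR' i).2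
  · exact UU_pre hI.con
  · refine hR.SS_dUU hQ hWV ?_
    intro w hw p h t _
    obtain ⟨b, e, t', rfl, hF⟩ := hI.hW w hw
    have := hR.FR_st hF (p := p) (h := h) (f := ee h) (t' := t)
    exact ⟨this.1, fun hA => (this.2 hA).1⟩
  · exact mem_UU hw0 (left_mem_segment ℝ _ _)
  · exact UU_pre hWO
  · rw [Set.disjoint_left]
    rintro z hz ⟨p, h, t, -, hb, hz'⟩
    obtain ⟨o, ho, hz⟩ := mem_iUnion₂.1 hz
    exact hR.WO_sd hQ ho hb hz hz'
  · exact mem_UU hv0 (left_mem_segment ℝ _ _)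
  -- the separation
  intro D hDQ hDj
  have okM := ok p0 h0
  have okG := ok p0 (!h0)
  have lM := hR.lo_lt_hi okM
  have lG := hR.lo_lt_hi okG
  have pM := hR.lo_pos okM
  have pG := hR.lo_pos okG
  have qM := hR.hi_le okM
  have qG := hR.hi_le okG
  set i1 := A.zp g (R p0 h0) γ0 0 with hi1
  set i3 := A.zp g (R p0 h0) γ1 0 with hi3
  set i2 := i1 + 2 with hi2
  set j4 := (am R p0 (!h0)).lo A g + 1 with hj4
  have k0 := hI.i0
  have k1 := hI.i1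
  have k2 := hI.i2
  rw [← hi1] at k0
  rw [← hi1, ← hi3] at k1
  rw [← hi3] at k2
  have hlR : A.IsL (R p0 h0) := hQ.hl p0 h0
  have ne0 : R p0 h0 ≠ γ0 := (hI.g0.hn p0 h0).symm
  have ne1 : R p0 h0 ≠ γ1 := (hI.g1.hn p0 h0).symm
  have X0 := (hR.cross hlR hI.g0.hl ne0 hI.c0 (ee_lt h0) (f := 0) (by omega)).1
  have X1 := (hR.cross hlR hI.g1.hl ne1 hI.c1 (ee_lt h0) (f := 0) (by omega)).1
  -- the vertices of attachment
  set u1 : Vx := .st γ0.1 γ0.2 0 (A.zp g γ0 (R p0 h0) (ee h0)) with hu1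
  set u3 : Vx := .st γ1.1 γ1.2 0 (A.zp g γ1 (R p0 h0) (ee h0)) with hu3
  have cu1 : cv A g γ0 (R p0 h0) 0 (ee h0) = u1 := by
    unfold cv; rw [ix_e (Or.inl rfl)]
  have cu3 : cv A g γ1 (R p0 h0) 0 (ee h0) = u3 := by
    unfold cv; rw [ix_e (Or.inl rfl)]
  have cM1 : cv A g (R p0 h0) γ0 (ee h0) 0 = (am R p0 h0).vx i1 := by
    unfold cv Am.vx; rw [ix_e (ee_or h0)]; rfl
  have cM3 : cv A g (R p0 h0) γ1 (ee h0) 0 = (am R p0 h0).vx i3 := by
    unfold cv Am.vx; rw [ix_e (ee_or h0)]; rfl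
  have eJ : ∀ t, (am R p0 h0).lo A g < t → t < (am R p0 h0).hi A g → (am R p0 h0).sd A g P Q t =
      segment ℝ (qc P Q (R p0 h0) (ee h0) (t - 1)) (qc P Q (R p0 h0) (ee h0) t) := by
    intro t h1 h2
    unfold Am.sd
    rw [J_mid h1 h2.le, J_mid (t := t + 1) (by omega) (by omega)]
    rfl
  have z1s : wc A g P Q (R p0 h0) γ0 (ee h0) 0 ∈ (am R p0 h0).sd A g P Q i1 := by
    rw [eJ i1 (by omega) (by omega)]
    exact hR.wc_mem hlR hI.g0.hl (ee_or h0) (by omega) ne0 hI.c0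
  have z3s : wc A g P Q (R p0 h0) γ1 (ee h0) 0 ∈ (am R p0 h0).sd A g P Q i3 := by
    rw [eJ i3 (by omega) (by omega)]
    exact hR.wc_mem hlR hI.g1.hl (ee_or h0) (by omega) ne1 hI.c1
  have z1u : wc A g P Q (R p0 h0) γ0 (ee h0) 0 ∈ segment ℝ (P u1) (Q u1) := by
    have := X0.2.1
    rwa [cu1] at this
  have z3u : wc A g P Q (R p0 h0) γ1 (ee h0) 0 ∈ segment ℝ (P u3) (Q u3) := by
    have := X1.2.1
    rwa [cu3] at this
  have z2 : (am R p0 h0).J A g P Q (i2 + 1) ∈ (am R p0 h0).sd A g P Q i2 := right_mem_segment ℝ _ _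
  have z2' : (am R p0 h0).J A g P Q (i2 + 1) ∈ (am R p0 h0).sd A g P Q (i2 + 1) := left_mem_segment ℝ _ _
  have z4 : (am R p0 (!h0)).J A g P Q (j4 + 1) ∈ (am R p0 (!h0)).sd A g P Q j4 := right_mem_segment ℝ _ _
  have z4' : (am R p0 (!h0)).J A g P Q (j4 + 1) ∈ (am R p0 (!h0)).sd A g P Q (j4 + 1) := left_mem_segment ℝ _ _
  let E12 : Bool → Bool → ℕ → Prop := fun p h t => p = p0 ∧ h = h0 ∧ i1 ≤ t ∧ t ≤ i2
  let E23 : Bool → Bool → ℕ → Prop := fun p h t => p = p0 ∧ h = h0 ∧ i2 + 1 ≤ t ∧ t ≤ i3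
  let E34 : Bool → Bool → ℕ → Prop := fun p h t => (p = p0 ∧ h = h0 ∧ i3 ≤ t) ∨
    (p = !p0 ∧ h = true) ∨ (p = p0 ∧ h = !h0 ∧ j4 + 1 ≤ t)
  let E41 : Bool → Bool → ℕ → Prop := fun p h t => (p = p0 ∧ h = !h0 ∧ t ≤ j4) ∨
    (p = !p0 ∧ h = false) ∨ (p = p0 ∧ h = h0 ∧ t ≤ i1)
  have cIM : ∀ h', cI A g R p0 h0 h' = (am R p0 h0).lo A g ∨ cI A g R p0 h0 h' = (am R p0 h0).hi A g := by
    intro h'
    unfold cI
    cases h' <;> simp
  have cIG : ∀ h', cI A g R p0 (!h0) h' = (am R p0 (!h0)).lo A g ∨ cI A g R p0 (!h0) h' = (am R p0 (!h0)).hi A g := by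
    intro h'
    unfold cI
    cases h' <;> simp
  have bnot : ∀ p q : Bool, ¬ (p = q ∧ p = !q) := by decide
  -- the arcs
  have J12 : JoinedIn (SS A g P Q R E12) (wc A g P Q (R p0 h0) γ0 (ee h0) 0)
      ((am R p0 h0).J A g P Q (i2 + 1)) :=
    hR.SS_joined hQ (i := i1) (j := i2) (by omega) (by omega) (fun t h1 h2 => ⟨rfl, rfl, h1, h2⟩)
      (s := i1) (t := i2) ⟨by omega, by omega⟩ ⟨by omega, by omega⟩ z1s z2
  have J23 : JoinedIn (SS A g P Q R E23) ((am R p0 h0).J A g P Q (i2 + 1))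
      (wc A g P Q (R p0 h0) γ1 (ee h0) 0) :=
    hR.SS_joined hQ (i := i2 + 1) (j := i3) (by omega) (by omega)
      (fun t h1 h2 => ⟨rfl, rfl, h1, h2⟩) (s := i2 + 1) (t := i3) ⟨by omega, by omega⟩
      ⟨by omega, by omega⟩ z2' z3s
  have J34 : JoinedIn (SS A g P Q R E34) (wc A g P Q (R p0 h0) γ1 (ee h0) 0)
      ((am R p0 (!h0)).J A g P Q (j4 + 1)) := by
    have s1 := hR.cp_sd hQ p0 h0 true
    have s2 := hR.cp_sd hQ (!p0) true h0
    have s3 := hR.cp_sd hQ (!p0) true (!h0)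
    have s4 := hR.cp_sd hQ p0 (!h0) true
    rw [hR.cp_comm hQ p0 h0 true] at s1
    rw [hR.cp_comm hQ p0 (!h0) true] at s4
    have B := hR.cI_bd hQ (!p0) true h0
    have B' := hR.cI_bd hQ (!p0) true (!h0)
    have e1 : cI A g R p0 h0 true = (am R p0 h0).hi A g := rfl
    have e4 : cI A g R p0 (!h0) true = (am R p0 (!h0)).hi A g := rfl
    rw [e1] at s1
    rw [e4] at s4
    refine (hR.SS_joined hQ (E := E34) (i := i3) (j := (am R p0 h0).hi A g) (by omega) (by omega)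
      (fun t h1 h2 => Or.inl ⟨rfl, rfl, h1⟩) (s := i3) (t := (am R p0 h0).hi A g) ⟨by omega, by omega⟩
      ⟨by omega, by omega⟩ z3s s1).trans ?_
    refine (hR.SS_joined hQ (E := E34) (i := (am R (!p0) true).lo A g)
      (j := (am R (!p0) true).hi A g) le_rfl le_rfl
      (fun t h1 h2 => Or.inr (Or.inl ⟨rfl, rfl⟩)) B B' s2 s3).trans ?_
    exact hR.SS_joined hQ (E := E34) (i := j4 + 1) (j := (am R p0 (!h0)).hi A g) (by omega) (by omega)
      (fun t h1 h2 => Or.inr (Or.inr ⟨rfl, rfl, h1⟩)) (s := (am R p0 (!h0)).hi A g) (t := j4 + 1)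
      ⟨by omega, by omega⟩ ⟨by omega, by omega⟩ s4 z4'
  have J41 : JoinedIn (SS A g P Q R E41) ((am R p0 (!h0)).J A g P Q (j4 + 1))
      (wc A g P Q (R p0 h0) γ0 (ee h0) 0) := by
    have s1 := hR.cp_sd hQ p0 h0 false
    have s2 := hR.cp_sd hQ (!p0) false h0
    have s3 := hR.cp_sd hQ (!p0) false (!h0)
    have s4 := hR.cp_sd hQ p0 (!h0) false
    rw [hR.cp_comm hQ p0 h0 false] at s1
    rw [hR.cp_comm hQ p0 (!h0) false] at s4
    have B := hR.cI_bd hQ (!p0) false h0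
    have B' := hR.cI_bd hQ (!p0) false (!h0)
    have e1 : cI A g R p0 h0 false = (am R p0 h0).lo A g := rfl
    have e4 : cI A g R p0 (!h0) false = (am R p0 (!h0)).lo A g := rfl
    rw [e1] at s1
    rw [e4] at s4
    refine (hR.SS_joined hQ (E := E41) (i := (am R p0 (!h0)).lo A g) (j := j4) (by omega) (by omega)
      (fun t h1 h2 => Or.inl ⟨rfl, rfl, h2⟩) (s := j4) (t := (am R p0 (!h0)).lo A g) ⟨by omega, by omega⟩
      ⟨by omega, by omega⟩ z4 s4).trans ?_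
    refine (hR.SS_joined hQ (E := E41) (i := (am R (!p0) false).lo A g)
      (j := (am R (!p0) false).hi A g) le_rfl le_rfl
      (fun t h1 h2 => Or.inr (Or.inl ⟨rfl, rfl⟩)) B' B s3 s2).trans ?_
    exact hR.SS_joined hQ (E := E41) (i := (am R p0 h0).lo A g) (j := i1) (by omega) (by omega)
      (fun t h1 h2 => Or.inr (Or.inr ⟨rfl, rfl, h2⟩)) (s := (am R p0 h0).lo A g) (t := i1)
      ⟨by omega, by omega⟩ ⟨by omega, by omega⟩ s1 z1s
  -- far vertices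
  have u1V : A.IsV g u1 := FR_V hI.g0
  have u3V : A.IsV g u3 := FR_V hI.g1
  have wst : ∀ w ∈ WI, ∀ p h f t, w ≠ .st (R p h).1 (R p h).2 f t ∧
      ¬ A.Aj g w (.st (R p h).1 (R p h).2 f t) := by
    intro w hw p h f t
    obtain ⟨b, e, t', rfl, hF⟩ := hI.hW w hw
    have := hR.FR_st hF (p := p) (h := h) (f := f) (t' := t)
    exact ⟨this.1, fun hA => (this.2 hA).1⟩
  have wti : ∀ w ∈ WI, ∀ p h f i d k, w ≠ .ti (R p h).1 (R p h).2 f i d k ∧
      ¬ A.Aj g w (.ti (R p h).1 (R p h).2 f i d k) := by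
    intro w hw p h f i d k
    obtain ⟨b, e, t', rfl, hF⟩ := hI.hW w hw
    exact FR_ti hF
  have dXS : ∀ (E : Bool → Bool → ℕ → Prop) (u : Vx), A.IsV g u →
      (∀ p h t, E p h t → u ≠ (am R p h).vx t ∧ ¬ A.Aj g u ((am R p h).vx t)) →
      Disjoint (UU P Q (WI ∪ {u})) (SS A g P Q R E) := by
    intro E u hu hE
    refine hR.SS_dUU hQ ?_ ?_
    · rintro w (hw | hw)
      · exact hWV w hw
      · rw [mem_singleton_iff.1 hw]; exact hu
    · rintro w (hw | hw) p h t ht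
      · exact wst w hw p h _ t
      · rw [mem_singleton_iff.1 hw]; exact hE p h t ht
  have dU1 : ∀ p h t, (p = p0 → h = h0 → t ≠ i1) → u1 ≠ (am R p h).vx t ∧
      ¬ A.Aj g u1 ((am R p h).vx t) := by
    intro p h t ht
    have := hR.FR_st hI.g0 (p := p) (h := h) (f := ee h) (t' := t)
    refine ⟨this.1, fun hA => ?_⟩
    obtain ⟨⟨h1, h2, h3⟩, h4⟩ := this.2 hA
    subst h1 h2
    rw [ix_e (ee_or h)] at h4
    exact ht rfl rfl h4
  have dU3 : ∀ p h t, (p = p0 → h = h0 → t ≠ i3) → u3 ≠ (am R p h).vx t ∧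
      ¬ A.Aj g u3 ((am R p h).vx t) := by
    intro p h t ht
    have := hR.FR_st hI.g1 (p := p) (h := h) (f := ee h) (t' := t)
    refine ⟨this.1, fun hA => ?_⟩
    obtain ⟨⟨h1, h2, h3⟩, h4⟩ := this.2 hA
    subst h1 h2
    rw [ix_e (ee_or h)] at h4
    exact ht rfl rfl h4
  have dXO : ∀ (γ : Ln) (t : ℕ), FR A g R (fun p h f => p = p0 ∧ h = h0 ∧ f = ee h0) γ 0 t →
      ∀ w ∈ WI ∪ {(.st γ.1 γ.2 0 t : Vx)}, ∀ v ∈ WO A g R, A.IsV g w ∧ A.IsV g v ∧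
      w ≠ v ∧ ¬ A.Aj g w v := by
    intro γ t hF w hw v hv
    have hvV := WO_V hQ hv
    rcases hw with hw | hw
    · refine ⟨hWV w hw, hvV, ?_⟩
      rcases hv with ⟨p, h, t', ht', rfl⟩ | ⟨p, h, i, d, j, hi, hd, hj, rfl⟩
      · exact wst w hw p h _ _
      · exact wti w hw p h _ _ _ _
    · rw [mem_singleton_iff.1 hw]
      refine ⟨FR_V hF, hvV, ?_⟩
      rcases hv with ⟨p, h, t', ht', rfl⟩ | ⟨p, h, i, d, j, hi, hd, hj, rfl⟩
      · have := hR.FR_st hF (p := p) (h := h) (f := 1) (t' := t')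
        refine ⟨this.1, fun hA => ?_⟩
        have h2 := (this.2 hA).1.2.2
        have := ee_or h0
        omega
      · exact FR_ti hF
  have dWv : ∀ w ∈ WI, ∀ p h t, w ≠ (am R p h).vx t ∧ ¬ A.Aj g w ((am R p h).vx t) :=
    fun w hw p h t => wst w hw p h _ t
  have vM2 : A.IsV g ((am R p0 h0).vx i2) := vx_V okM (by omega)
  have vG4 : A.IsV g ((am R p0 (!h0)).vx j4) := vx_V okG (by omega)
  have dXY : ∀ (γ : Ln) (t : ℕ), FR A g R (fun p h f => p = p0 ∧ h = h0 ∧ f = ee h0) γ 0 t →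
      ∀ v : Vx, A.IsV g v → (∀ w ∈ WI, w ≠ v ∧ ¬ A.Aj g w v) →
      ((.st γ.1 γ.2 0 t : Vx) ≠ v ∧ ¬ A.Aj g (.st γ.1 γ.2 0 t) v) →
      Disjoint (UU P Q (WI ∪ {(.st γ.1 γ.2 0 t : Vx)})) (UU P Q (WO A g R ∪ {v})) := by
    intro γ t hF v hv h1 h2
    refine hR.dU ?_
    rintro w hw v' (hv' | hv')
    · exact dXO γ t hF w hw v' hv'
    · rw [mem_singleton_iff.1 hv']
      rcases hw with hw | hw
      · exact ⟨hWV w hw, hv, h1 w hw⟩
      · rw [mem_singleton_iff.1 hw]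
        exact ⟨FR_V hF, hv, h2⟩
  have dYS : ∀ (E : Bool → Bool → ℕ → Prop) (v : Vx), A.IsV g v →
      (∀ p h t, E p h t → v ≠ (am R p h).vx t ∧ ¬ A.Aj g v ((am R p h).vx t)) →
      Disjoint (UU P Q (WO A g R ∪ {v})) (SS A g P Q R E) := by
    intro E v hv hE
    rw [UU_union]
    refine Disjoint.union_left ?_ ?_
    · rw [Set.disjoint_left]
      rintro z hz ⟨p, h, t, -, hb, hz'⟩
      obtain ⟨o, ho, hz⟩ := mem_iUnion₂.1 hz
      exact hR.WO_sd hQ ho hb hz hz'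
    · refine hR.SS_dUU hQ ?_ ?_
      · intro w hw; rw [mem_singleton_iff.1 hw]; exact hv
      · intro w hw p h t ht; rw [mem_singleton_iff.1 hw]; exact hE p h t ht
  have dQD : ∀ E : Bool → Bool → ℕ → Prop, Disjoint D (SS A g P Q R E) := by
    intro E
    refine hDQ.mono_right ?_
    rintro z ⟨p, h, t, -, hb, hz⟩
    exact ⟨p, h, t, trivial, hb, hz⟩
  -- adjacency of vertices of the arms
  have armA : ∀ p h t p' h' t', (p = p' → h = h' → t + 1 < t' ∨ t' + 1 < t) →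
      (p' = (!p) → t ≠ cI A g R p h h' ∨ t' ≠ cI A g R p' h' h) →
      (am R p h).vx t ≠ (am R p' h').vx t' ∧ ¬ A.Aj g ((am R p h).vx t) ((am R p' h').vx t') := by
    intro p h t p' h' t' h1 h2
    refine ⟨fun he => ?_, fun hA => ?_⟩
    · obtain ⟨rfl, rfl, rfl⟩ := hR.vx_ne hQ he
      have := h1 rfl rfl
      omega
    · rcases hR.adj_arm hQ hA with ⟨rfl, rfl, h3⟩ | ⟨rfl, rfl, rfl⟩
      · have := h1 rfl rfl
        omega
      · rcases h2 rfl with h4 | h4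
        · exact h4 rfl
        · exact h4 rfl
  have KX1 : JoinedIn (UU P Q (WI ∪ {u1})) (P w0) (wc A g P Q (R p0 h0) γ0 (ee h0) 0) :=
    (hR.step (W := WI ∪ {u1}) (Or.inl hw0) (Or.inr rfl) (hWV w0 hw0) u1V hw0A) _
      (left_mem_segment ℝ _ _) _ z1u
  have KX3 : JoinedIn (UU P Q (WI ∪ {u3})) (P w0) (wc A g P Q (R p0 h0) γ1 (ee h0) 0) :=
    (((hI.con w0 hw0 w1 hw1).mono subset_union_left).trans
      (hR.step (W := WI ∪ {u3}) (Or.inl hw1) (Or.inr rfl) (hWV w1 hw1) u3V hw1A)) _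
      (left_mem_segment ℝ _ _) _ z3u
  have KY : ∀ h t, 0 < t → t < A.N g → ∀ z ∈ segment ℝ (P ((am R p0 h).vx t))
      (Q ((am R p0 h).vx t)), JoinedIn (UU P Q (WO A g R ∪ {(am R p0 h).vx t}))
      (P (Vx.st (R false false).1 (R false false).2 1 0)) z := by
    intro h t h1 h2 z hz
    obtain ⟨L, R'', hL, -, -⟩ := hR.tips (ok p0 h) h1 h2
    have m : Vx.ti (R p0 h).1 (R p0 h).2 (ee h) (t - 1) 0 (g - 1) ∈ WO A g R :=
      WO_ti (by omega) (by omega) (by omega)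
    have j1 := hR.WO_con hQ hv0 m _ (left_mem_segment ℝ _ _) L hL.2
    refine (j1.mono (UU_mono subset_union_left)).trans ?_
    exact joined_seg (sub_UU (Or.inr rfl)) hL.1 hz
  have c34 : ∀ p h t, E34 p h t → p = p0 → h = h0 → i3 ≤ t := by
    rintro p h t (h1 | h1 | h1) h2 h3
    · exact h1.2.2
    · exact absurd ⟨h2, h1.1⟩ (bnot _ _)
    · exact absurd ⟨h3, h1.2.1⟩ (bnot _ _)
  have c41 : ∀ p h t, E41 p h t → p = p0 → h = h0 → t ≤ i1 := by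
    rintro p h t (h1 | h1 | h1) h2 h3
    · exact absurd ⟨h3, h1.2.1⟩ (bnot _ _)
    · exact absurd ⟨h2, h1.1⟩ (bnot _ _)
    · exact h1.2.2
  refine Top.sep33 J12 J23 J34 J41 KX1 KX3
    (KY h0 i2 (by omega) (by omega) ((am R p0 h0).J A g P Q (i2 + 1)) (hR.sd_seg okM (by omega) (by omega) z2))
    (KY (!h0) j4 (by omega) (by omega) ((am R p0 (!h0)).J A g P Q (j4 + 1))
      (hR.sd_seg okG (by omega) (by omega) z4)) hDj
    ?_ ?_ ?_ ?_ ?_ ?_ ?_ ?_ ?_ ?_ ?_ ?_ ?_ ?_ (dQD _) (dQD _) (dQD _) (dQD _)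
  · -- d1
    refine hR.SS_dSS hQ ?_ ?_
    · rintro p h t t' ⟨h1, h2, h3, h4⟩ h5
      have := c34 _ _ _ h5 h1 h2
      omega
    · rintro p h h' ⟨rfl, rfl, h3, h4⟩ -
      rcases cIM h' with h5 | h5 <;> omega
  · -- d2
    refine hR.SS_dSS hQ ?_ ?_
    · rintro p h t t' ⟨h1, h2, h3, h4⟩ h5
      have := c41 _ _ _ h5 h1 h2
      omega
    · rintro p h h' ⟨rfl, rfl, h3, h4⟩ -
      rcases cIM h' with h5 | h5 <;> omega
  · -- e1
    refine dXS _ u1 u1V fun p h t hE => dU1 p h t fun _ _ => ?_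
    have := hE.2.2
    omega
  · -- e2
    refine dXS _ u1 u1V fun p h t hE => dU1 p h t fun h1 h2 => ?_
    have := c34 _ _ _ hE h1 h2
    omega
  · -- e3
    refine dXS _ u3 u3V fun p h t hE => dU3 p h t fun _ _ => ?_
    have := hE.2.2
    omega
  · -- e4
    refine dXS _ u3 u3V fun p h t hE => dU3 p h t fun h1 h2 => ?_
    have := c41 _ _ _ hE h1 h2
    omega
  · -- f1
    refine dYS _ _ vM2 fun p h t hE => armA p0 h0 i2 p h t ?_ ?_
    · intro h1 h2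
      have := c34 _ _ _ hE h1.symm h2.symm
      omega
    · intro _
      left
      rcases cIM h with h5 | h5 <;> omega
  · -- f2
    refine dYS _ _ vM2 fun p h t hE => armA p0 h0 i2 p h t ?_ ?_
    · intro h1 h2
      have := c41 _ _ _ hE h1.symm h2.symm
      omega
    · intro _
      left
      rcases cIM h with h5 | h5 <;> omega
  · -- f3
    refine dYS _ _ vG4 fun p h t hE => armA p0 (!h0) j4 p h t ?_ ?_
    · intro h1 h2
      exact absurd ⟨hE.2.1, h2.symm⟩ (bnot _ _)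
    · intro _
      left
      rcases cIG h with h5 | h5 <;> omega
  · -- f4
    refine dYS _ _ vG4 fun p h t hE => armA p0 (!h0) j4 p h t ?_ ?_
    · intro h1 h2
      exact absurd ⟨hE.2.1, h2.symm⟩ (bnot _ _)
    · intro _
      left
      rcases cIG h with h5 | h5 <;> omega
  · -- g1
    exact dXY _ _ hI.g0 _ vM2 (fun w hw => dWv w hw _ _ _) (dU1 _ _ _ fun _ _ => by omega)
  · -- g2
    exact dXY _ _ hI.g0 _ vG4 (fun w hw => dWv w hw _ _ _)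
      (dU1 _ _ _ fun _ h => absurd ⟨rfl, h.symm⟩ (bnot h0 h0))
  · -- g3
    exact dXY _ _ hI.g1 _ vM2 (fun w hw => dWv w hw _ _ _) (dU3 _ _ _ fun _ _ => by omega)
  · -- g4
    exact dXY _ _ hI.g1 _ vG4 (fun w hw => dWv w hw _ _ _)
      (dU3 _ _ _ fun _ h => absurd ⟨rfl, h.symm⟩ (bnot h0 h0))

end RS

end Run7.h749
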