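import Pool.Agent.Run7.h749.Quad3

/-!
# The two regions of a line
-/

namespace Run7.h749

open Arr Set

variable {A : Arr} {g : ℕ} {P Q : Vx → ℝ × ℝ}

/-- The quadrilateral on the side `s` of the line `a`. -/
def RR (A : Arr) (a : Ln) (s : Bool) (p h : Bool) : Ln :=
  if p = true then (!a.1, if h = true then A.m (!a.1) - 1 else 0)
  else if h = s then (a.1, if s = true then A.m a.1 - 1 else 0) else a

/-- The last position of the crossing with `b` on `a`. -/
def fin (A : Arr) (g : ℕ) (a b : Ln) : ℕ :=
  if A.rk a < A.rk b then pos g (A.sl a b) 0 else pos g (A.sl a b) 2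

/-- The lines meeting the region on the side `s` of the line `a`. -/
structure In (A : Arr) (a : Ln) (s : Bool) (b : Ln) : Prop where
  ne : b ≠ a
  p : 0 < b.2
  q : b.2 + 1 < A.m b.1
  x : b.1 = a.1 → A.x a.1 b.2 a.2 = true ∨ decide (a.2 < b.2) = s

/-- The line at which the part of `b` in the region starts. -/
def zL (A : Arr) (a : Ln) (s : Bool) (b : Ln) : Ln :=
  if b.1 = a.1 then (if A.x a.1 b.2 a.2 = true ∧ decide (a.2 < b.2) = s then a else (!a.1, 0))
  else RR A a s false false

/-- The line at which the part of `b` in the region ends. -/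
def zH (A : Arr) (a : Ln) (s : Bool) (b : Ln) : Ln :=
  if b.1 = a.1 then (if A.x a.1 b.2 a.2 = true ∧ decide (a.2 < b.2) ≠ s then a
    else (!a.1, A.m (!a.1) - 1))
  else RR A a s false true

/-- The vertices inside the region. -/
def WI (A : Arr) (g : ℕ) (a : Ln) (s : Bool) : Set Vx :=
  {v | ∃ b e t, v = .st b.1 b.2 e t ∧ In A a s b ∧ e < 3 ∧ ix e (fin A g b (zL A a s b)) < t ∧
    t < ix e (pos g (A.sl b (zH A a s b)) 0)}

/-- The crossing of `b` with `b'` is in the region. -/
def Zn (A : Arr) (a : Ln) (s : Bool) (b b' : Ln) : Prop :=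
  A.sl b (zL A a s b) < A.sl b b' ∧ A.sl b b' < A.sl b (zH A a s b)

/-- The base line. -/
def bet (A : Arr) (a : Ln) (s : Bool) : Ln := (a.1, if s = true then A.m a.1 - 2 else 1)

section
variable (A)
theorem sl_s (c : Bool) (i j : ℕ) : A.sl (c, i) (c, j) = A.ss c i j := by simp [Arr.sl]
theorem sl_o (c : Bool) (i j : ℕ) : A.sl (c, i) (!c, j) = A.sd c i j := by simp [Arr.sl]
theorem sl_o' (c : Bool) (i j : ℕ) : A.sl (!c, i) (c, j) = A.sd (!c) i j := by simp [Arr.sl]
theorem cr_s (c : Bool) (i j : ℕ) : A.cr (c, i) (c, j) = A.x c i j := by simp [Arr.cr]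
theorem cr_o (c : Bool) (i j : ℕ) : A.cr (c, i) (!c, j) = true := by simp [Arr.cr]
theorem cr_o' (c : Bool) (i j : ℕ) : A.cr (!c, i) (c, j) = true := by simp [Arr.cr]
end

theorem nre0 (c : Bool) : ¬ A.Re (c, 0) := by unfold Arr.Re; simp
theorem nre1 (c : Bool) : ¬ A.Re (c, 1) := by unfold Arr.Re; simp
theorem nreM (c : Bool) {i : ℕ} (h : A.m c ≤ i + 2) : ¬ A.Re (c, i) := by
  unfold Arr.Re; simp only; omega

theorem x_false (hA : A.Ok) {c : Bool} {i j : ℕ} (h : ¬ A.Re (c, i) ∨ ¬ A.Re (c, j)) :
    A.x c i j = false := by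
  rw [Bool.eq_false_iff]
  intro hx
  have := hA.xre c i j hx
  rcases h with h | h
  · exact h this.1
  · exact h this.2.1

theorem not_eq {c d : Bool} (h : d ≠ c) : d = !c := by cases c <;> cases d <;> simp_all

theorem RR_a (a : Ln) (s : Bool) : RR A a s false (!s) = a := by
  unfold RR; cases s <;> simp

theorem QHa (hA : A.Ok) {a : Ln} (ha : A.Re a) (s : Bool) : QH A (RR A a s) := by
  obtain ⟨c, i⟩ := a
  have h5 := hA.five c
  have h5' := hA.five (!c)
  obtain ⟨ha1, ha2⟩ := ha
  simp only at ha1 ha2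
  refine ⟨?_, ?_, ?_, ?_, ?_⟩
  · intro p h
    unfold Arr.IsL RR
    cases p <;> cases h <;> cases s <;> simp <;> omega
  · intro p h h'
    unfold RR
    cases p <;> cases h <;> cases s <;> cases h' <;> simp
  · intro p
    unfold RR
    cases p <;> cases s <;> simp <;> omega
  · intro p
    cases p
    · have : ∀ h, ∃ j, RR A (c, i) s false h = (c, j) ∧ (h = s → ¬ A.Re (c, j)) := by
        intro h
        unfold RR
        by_cases hs : h = s
        · refine ⟨if s = true then A.m c - 1 else 0, by simp [hs], fun _ => ?_⟩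
          unfold Arr.Re
          cases s <;> simp
          omega
        · exact ⟨i, by simp [hs], fun h => absurd h hs⟩
      obtain ⟨j, e1, n1⟩ := this false
      obtain ⟨j', e2, n2⟩ := this true
      rw [e1, e2, cr_s]
      apply x_false hA
      cases s
      · exact Or.inl (n1 rfl)
      · exact Or.inr (n2 rfl)
    · have e1 : RR A (c, i) s true false = (!c, 0) := by simp [RR]
      have e2 : RR A (c, i) s true true = (!c, A.m (!c) - 1) := by simp [RR]
      rw [e1, e2, cr_s]
      exact x_false hA (Or.inl (nre0 _))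
  · intro p h
    cases p
    · have e1 : RR A (c, i) s (!false) false = (!c, 0) := by simp [RR]
      have e2 : RR A (c, i) s (!false) true = (!c, A.m (!c) - 1) := by simp [RR]
      have : ∃ j, RR A (c, i) s false h = (c, j) ∧ j < A.m c := by
        unfold RR
        by_cases hs : h = s
        · refine ⟨if s = true then A.m c - 1 else 0, by simp [hs], ?_⟩
          split_ifs <;> omega
        · exact ⟨i, by simp [hs], by omega⟩
      obtain ⟨j, e3, hj⟩ := this
      rw [e1, e2, e3, sl_o, sl_o]
      exact hA.lo0 c j _ hj (by omega) (by omega)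
    · have : ∃ j, RR A (c, i) s true h = (!c, j) ∧ j < A.m (!c) := by
        unfold RR
        cases h
        · exact ⟨0, by simp, by omega⟩
        · exact ⟨A.m (!c) - 1, by simp, by omega⟩
      obtain ⟨j, e3, hj⟩ := this
      rw [e3]
      cases s
      · have e1 : RR A (c, i) false (!true) false = (c, 0) := by simp [RR]
        have e2 : RR A (c, i) false (!true) true = (c, i) := by simp [RR]
        rw [e1, e2, sl_o', sl_o']
        exact hA.lo0 (!c) j i hj (by omega) (by rw [Bool.not_not]; omega)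
      · have e1 : RR A (c, i) true (!true) false = (c, i) := by simp [RR]
        have e2 : RR A (c, i) true (!true) true = (c, A.m c - 1) := by simp [RR]
        rw [e1, e2, sl_o', sl_o']
        have := hA.hi0 (!c) j i hj (by rw [Bool.not_not]; omega)
        rwa [Bool.not_not] at this

theorem zp_le_fin {a b : Ln} {f : ℕ} (hf : f < 3) : A.zp g a b f ≤ fin A g a b := by
  unfold Arr.zp fin
  split_ifs
  · exact le_rfl
  · exact pos_mono (by omega)
  · exact pos_mono (by omega)

theorem pos_le_zp {a b : Ln} {f : ℕ} : pos g (A.sl a b) 0 ≤ A.zp g a b f := by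
  unfold Arr.zp
  split_ifs
  · exact le_rfl
  · exact pos_mono (by omega)
  · exact pos_mono (by omega)

theorem fin_le (a b : Ln) : fin A g a b ≤ pos g (A.sl a b) 2 := by
  unfold fin
  split_ifs
  · exact pos_mono (by omega)
  · exact le_rfl

theorem pos_le_fin (a b : Ln) : pos g (A.sl a b) 0 ≤ fin A g a b := by
  unfold fin
  split_ifs
  · exact le_rfl
  · exact pos_mono (by omega)

theorem fin_lt {a b : Ln} {k r : ℕ} (h : A.sl a b < k) : fin A g a b + g ≤ pos g k r := by
  have := fin_le (A := A) (g := g) a b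
  have := pos_lt (g := g) (r := 2) (r' := r) h le_rfl
  omega

variable {a b : Ln} {s : Bool}

theorem In.isL (h : In A a s b) : A.IsL b := by
  have := h.q
  unfold Arr.IsL; omega

theorem In.nR (h : In A a s b) (p h' : Bool) : b ≠ RR A a s p h' := by
  have h1 := h.ne
  have h2 := h.p
  have h3 := h.q
  unfold RR
  intro he
  split_ifs at he
  · rw [he] at h3; simp only at h3; omega
  · rw [he] at h2; simp only at h2; omega
  · rw [he] at h3; simp only at h3; omega
  · rw [he] at h2; simp only at h2; omega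
  · exact h1 he

/-- The lines bounding the part of `b`. -/
theorem In.cz (hA : A.Ok) (ha : A.Re a) (h : In A a s b) :
    A.IsL (zL A a s b) ∧ A.IsL (zH A a s b) ∧
    A.cr b (zL A a s b) = true ∧ A.cr b (zH A a s b) = true ∧
    A.sl b (zL A a s b) < A.sl b (zH A a s b) := by
  obtain ⟨c, i⟩ := a
  obtain ⟨d, j⟩ := b
  have hQ := QHa hA ha s
  have hL : A.IsL (d, j) := h.isL
  obtain ⟨h1, h2, h3, h4⟩ := h
  simp only at h2 h3 h4
  have h5 := hA.five c
  have h5' := hA.five (!c)
  have hi := ha.2
  simp only at hi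
  by_cases hd : d = c
  · subst hd
    have e : ∀ X : Bool, A.x d j i = X → True := fun _ _ => trivial
    have hj : j < A.m d := by omega
    have q1 := hA.lo0 d j 1 hj (by omega) (by omega)
    have q2 := hA.hi0 d j (A.m (!d) - 2) hj (by omega)
    have q3 := hA.hi0 d j 0 hj (by omega)
    unfold zL zH
    simp only [if_pos]
    by_cases hx : A.x d j i = true
    · have r1 := hA.slo d j i hx
      have r2 := hA.shi d j i hx
      by_cases hdd : decide (i < j) = s
      · rw [if_pos ⟨hx, hdd⟩, if_neg (by intro hh; exact hh.2 hdd)]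
        refine ⟨?_, ?_, ?_, ?_, ?_⟩
        · show i < A.m d; omega
        · show A.m (!d) - 1 < A.m (!d); omega
        · rw [cr_s]; exact hx
        · rw [cr_o]
        · rw [sl_s, sl_o]; omega
      · rw [if_neg (by intro hh; exact hdd hh.2), if_pos ⟨hx, hdd⟩]
        refine ⟨?_, ?_, ?_, ?_, ?_⟩
        · show 0 < A.m (!d); omega
        · show i < A.m d; omega
        · rw [cr_o]
        · rw [cr_s]; exact hx
        · rw [sl_s, sl_o]; omega
    · rw [if_neg (by intro hh; exact hx hh.1), if_neg (by intro hh; exact hx hh.1)]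
      refine ⟨?_, ?_, ?_, ?_, ?_⟩
      · show 0 < A.m (!d); omega
      · show A.m (!d) - 1 < A.m (!d); omega
      · rw [cr_o]
      · rw [cr_o]
      · rw [sl_o, sl_o]; omega
  · have hd' := not_eq hd
    subst hd'
    unfold zL zH
    simp only [if_neg hd]
    have hc : ∀ h', A.cr (!c, j) (RR A (c, i) s false h') = true := by
      intro h'
      unfold Arr.cr RR
      cases s <;> cases h' <;> simp
    refine ⟨hQ.hl _ _, hQ.hl _ _, hc _, hc _, ?_⟩
    have hj : j < A.m (!c) := by omega
    cases s
    · have e1 : RR A (c, i) false false false = (c, 0) := by simp [RR]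
      have e2 : RR A (c, i) false false true = (c, i) := by simp [RR]
      rw [e1, e2, sl_o', sl_o']
      have := ha.1
      simp only at this
      exact hA.lo0 (!c) j i hj (by omega) (by rw [Bool.not_not]; omega)
    · have e1 : RR A (c, i) true false false = (c, i) := by simp [RR]
      have e2 : RR A (c, i) true false true = (c, A.m c - 1) := by simp [RR]
      rw [e1, e2, sl_o', sl_o']
      have := hA.hi0 (!c) j i hj (by rw [Bool.not_not]; omega)
      rwa [Bool.not_not] at this

theorem In.far (hA : A.Ok) (ha : A.Re a) (h : In A a s b) (p h' : Bool)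
    (hc : A.cr b (RR A a s p h') = true) : RR A a s p h' = zL A a s b ∨
      A.sl b (RR A a s p h') < A.sl b (zL A a s b) ∨
      A.sl b (zH A a s b) ≤ A.sl b (RR A a s p h') := by
  obtain ⟨c, i⟩ := a
  obtain ⟨d, j⟩ := b
  obtain ⟨h1, h2, h3, h4⟩ := h
  simp only at h2 h3 h4
  have h5 := hA.five c
  have h5' := hA.five (!c)
  have hi := ha.2
  simp only at hi
  by_cases hd : d = c
  · subst hd
    have hj : j < A.m d := by omega
    have q1 := hA.lo0 d j 1 hj (by omega) (by omega)
    have q2 := hA.hi0 d j (A.m (!d) - 2) hj (by omega)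
    have q3 := hA.hi0 d j 0 hj (by omega)
    unfold zL zH
    simp only [if_pos]
    by_cases hx : A.x d j i = true
    · have r1 := hA.slo d j i hx
      have r2 := hA.shi d j i hx
      by_cases hdd : decide (i < j) = s
      · rw [if_pos ⟨hx, hdd⟩, if_neg (by intro hh; exact hh.2 hdd)]
        unfold RR at hc ⊢
        split_ifs at hc ⊢
        · right; right; exact le_rfl
        · right; left; simp only [sl_o, sl_s]; omega
        · exfalso; rw [cr_s, x_false hA (Or.inr (nreM d (by simp only; omega)))] at hc; exact absurd hc (by simp)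
        · exfalso; rw [cr_s, x_false hA (Or.inr (nre0 d))] at hc; exact absurd hc (by simp)
        · left; rfl
      · rw [if_neg (by intro hh; exact hdd hh.2), if_pos ⟨hx, hdd⟩]
        unfold RR at hc ⊢
        split_ifs at hc ⊢
        · right; right; simp only [sl_o, sl_s]; omega
        · left; rfl
        · exfalso; rw [cr_s, x_false hA (Or.inr (nreM d (by simp only; omega)))] at hc; exact absurd hc (by simp)
        · exfalso; rw [cr_s, x_false hA (Or.inr (nre0 d))] at hc; exact absurd hc (by simp)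
        · right; right; exact le_rfl
    · rw [if_neg (by intro hh; exact hx hh.1), if_neg (by intro hh; exact hx hh.1)]
      unfold RR at hc ⊢
      split_ifs at hc ⊢
      · right; right; exact le_rfl
      · left; rfl
      · exfalso; rw [cr_s, x_false hA (Or.inr (nreM d (by simp only; omega)))] at hc; exact absurd hc (by simp)
      · exfalso; rw [cr_s, x_false hA (Or.inr (nre0 d))] at hc; exact absurd hc (by simp)
      · exfalso; rw [cr_s] at hc; exact hx hc
  · have hd' := not_eq hd
    subst hd'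
    unfold zL zH
    simp only [if_neg hd]
    cases p
    · cases h'
      · left; rfl
      · right; right; exact le_rfl
    · exfalso
      unfold RR at hc
      rw [if_pos rfl] at hc
      simp only at hc
      split_ifs at hc
      · rw [cr_s, x_false hA (Or.inr (nreM _ (by omega)))] at hc; exact absurd hc (by simp)
      · rw [cr_s, x_false hA (Or.inr (nre0 _))] at hc; exact absurd hc (by simp)

/-- Inner vertices are far from the boundary. -/
theorem WI_FR (hA : A.Ok) (ha : A.Re a) (hg : 4 ≤ g) {w : Vx} (hw : w ∈ WI A g a s) :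
    ∃ b e t, w = .st b.1 b.2 e t ∧ FR A g (RR A a s) (fun _ _ _ => False) b e t := by
  obtain ⟨b, e, t, rfl, hI, he, h1, h2⟩ := hw
  obtain ⟨z1, z2, z3, z4, z5⟩ := hI.cz hA ha
  have hS := hA.sl_lt hI.isL z2 z4
  have hN : pos g (A.sl b (zH A a s b)) 0 + g ≤ A.N g := pos_le hS (by omega)
  refine ⟨b, e, t, rfl, hI.isL, he, ?_, hI.nR, ?_⟩
  · have := (RS.ix_le (e := e)).2 (show pos g (A.sl b (zH A a s b)) 0 ≤ A.N g by omega)
    omega
  · intro p h f hf hc
    right
    rintro rfl
    rw [RS.ix_lt] at h1 h2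
    rcases hI.far hA ha p h hc with h3 | h3 | h3
    · rw [h3] at h1
      have := zp_le_fin (A := A) (g := g) (a := b) (b := zL A a s b) hf
      omega
    · have k1 := zp_le_fin (A := A) (g := g) (a := b) (b := RR A a s p h) hf
      have k2 := fin_lt (g := g) (r := 0) h3
      have k3 := pos_le_fin (A := A) (g := g) b (zL A a s b)
      omega
    · have k1 := pos_le_zp (A := A) (g := g) (a := b) (b := RR A a s p h) (f := f)
      have k2 : pos g (A.sl b (zH A a s b)) 0 ≤ pos g (A.sl b (RR A a s p h)) 0 := by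
        unfold pos
        exact Nat.mul_le_mul_left _ (by omega)
      omega

theorem WI_V (hA : A.Ok) (ha : A.Re a) (hg : 4 ≤ g) {w : Vx} (hw : w ∈ WI A g a s) :
    A.IsV g w := by
  obtain ⟨b, e, t, rfl, hF⟩ := WI_FR hA ha hg hw
  exact RS.FR_V hF

/-- Vertices in the zone. -/
theorem WI_mem (hg : 4 ≤ g) (hI : In A a s b) {e k r : ℕ} (he : e < 3)
    (h1 : A.sl b (zL A a s b) < k)
    (h2 : k < A.sl b (zH A a s b)) (hr : r ≤ 2) : Vx.st b.1 b.2 e (ix e (pos g k r)) ∈ WI A g a s := by
  refine ⟨b, e, _, rfl, hI, he, ?_, ?_⟩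
  · rw [RS.ix_lt]
    have := fin_lt (g := g) (r := r) h1
    omega
  · rw [RS.ix_lt]
    have := pos_lt (g := g) (r' := 0) h2 hr
    omega

theorem WI_cv (hg : 4 ≤ g) (hI : In A a s b) {b' : Ln} (hZ : Zn A a s b b') {e f : ℕ}
    (he : e < 3) (hf : f < 3) : cv A g b b' e f ∈ WI A g a s := by
  obtain ⟨r', h1, h2⟩ := zp_eq (A := A) (g := g) b b' f
  unfold cv
  rw [h1]
  exact WI_mem hg hI he hZ.1 hZ.2 (by have := h2 hf; omega)

namespace RS

/-- Vertices of the same strand in the zone. -/
theorem WI_same (hR : RS A g P Q) (ha : A.Re a) {e t t' : ℕ}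
    (h : Vx.st b.1 b.2 e t ∈ WI A g a s) (h' : Vx.st b.1 b.2 e t' ∈ WI A g a s) :
    Jn P Q (WI A g a s) (.st b.1 b.2 e t) (.st b.1 b.2 e t') := by
  have key : ∀ t t', t ≤ t' → Vx.st b.1 b.2 e t ∈ WI A g a s → Vx.st b.1 b.2 e t' ∈ WI A g a s →
      Jn P Q (WI A g a s) (.st b.1 b.2 e t) (.st b.1 b.2 e t') := by
    intro t t' htt h h'
    have hN := (WI_V hR.ok ha hR.hg h').2.2
    obtain ⟨b1, e1, t1, q, hI, he, h1, h2⟩ := h
    obtain ⟨b2, e2, t2, q', hI', he', h1', h2'⟩ := h'
    simp only [Vx.st.injEq] at q q'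
    obtain ⟨q1, q2, rfl, rfl⟩ := q
    obtain ⟨q1', q2', rfl, rfl⟩ := q'
    obtain rfl : b = b1 := Prod.ext q1 q2
    obtain rfl : b = b2 := Prod.ext q1' q2'
    exact hR.jst hI.isL he htt hN fun r hr hr' => ⟨b, e, r, rfl, hI, he, by omega, by omega⟩
  rcases le_total t t' with h1 | h1
  · exact key t t' h1 h h'
  · exact (key t' t h1 h' h).symm

theorem WI_lt {e t : ℕ} (h : Vx.st b.1 b.2 e t ∈ WI A g a s) : e < 3 := by
  obtain ⟨b1, e1, t1, q, hI, he, h1, h2⟩ := h
  simp only [Vx.st.injEq] at q
  omega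

/-- Two crossing lines are joined in the zone. -/
theorem WI_link (hR : RS A g P Q) (ha : A.Re a) {b b' : Ln} (hb : In A a s b) (hb' : In A a s b')
    (hne : b ≠ b') (hc : A.cr b b' = true) (hZ : Zn A a s b b') (hZ' : Zn A a s b' b)
    {e f t t' : ℕ} (hv : Vx.st b.1 b.2 e t ∈ WI A g a s)
    (hv' : Vx.st b'.1 b'.2 f t' ∈ WI A g a s) :
    Jn P Q (WI A g a s) (.st b.1 b.2 e t) (.st b'.1 b'.2 f t') := by
  have he := WI_lt hv
  have hf := WI_lt hv'
  have m1 := WI_cv hR.hg hb hZ he hf
  have m2 := WI_cv hR.hg hb' hZ' hf he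
  have j1 : Jn P Q (WI A g a s) (.st b.1 b.2 e t) (cv A g b b' e f) := hR.WI_same ha hv m1
  have j2 : Jn P Q (WI A g a s) (cv A g b' b f e) (.st b'.1 b'.2 f t') := hR.WI_same ha m2 hv'
  refine j1.trans (Jn.trans ?_ j2)
  exact hR.step m1 m2 (WI_V hR.ok ha hR.hg m1) (WI_V hR.ok ha hR.hg m2)
    (hR.cv_aj hb.isL hb'.isL hne hc he hf)

end RS

theorem bet_In (hA : A.Ok) (ha : A.Re a) (s : Bool) : In A a s (bet A a s) := by
  obtain ⟨c, i⟩ := a
  obtain ⟨h1, h2⟩ := ha
  simp only at h1 h2
  have h5 := hA.five c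
  unfold bet
  cases s
  · refine ⟨by simp; omega, by simp, by simp; omega, fun _ => Or.inr ?_⟩
    simp; omega
  · refine ⟨by simp; omega, by simp; omega, by simp; omega, fun _ => Or.inr ?_⟩
    simp; omega

theorem gam_In (s : Bool) {j : ℕ} (hj : 0 < j)
    (hj' : j + 1 < A.m (!a.1)) : In A a s (!a.1, j) := by
  obtain ⟨c, i⟩ := a
  refine ⟨by simp, hj, hj', fun h => ?_⟩
  cases c <;> simp at h

theorem Zn_opp (hA : A.Ok) (ha : A.Re a) (hb : In A a s b) (hd : b.1 ≠ a.1) :
    Zn A a s b (bet A a s) ∧ Zn A a s (bet A a s) b := by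
  obtain ⟨c, i⟩ := a
  obtain ⟨d, j⟩ := b
  have hd' := not_eq hd
  simp only at hd'
  subst hd'
  obtain ⟨-, h2, h3, -⟩ := hb
  obtain ⟨a1, a2⟩ := ha
  simp only at h2 h3 a1 a2
  have h5 := hA.five c
  have h5' := hA.five (!c)
  constructor
  · unfold Zn zL zH bet
    simp only [if_neg hd]
    cases s
    · have e1 : RR A (c, i) false false false = (c, 0) := by simp [RR]
      have e2 : RR A (c, i) false false true = (c, i) := by simp [RR]
      simp only [e1, e2, sl_o', Bool.false_eq_true, if_false]
      have q1 := hA.lo0 (!c) j 1 (by omega) (by omega) (by rw [Bool.not_not]; omega)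
      have q2 := hA.lo1 (!c) j i (by omega) (by omega) (by rw [Bool.not_not]; omega)
      exact ⟨q1, q2⟩
    · have e1 : RR A (c, i) true false false = (c, i) := by simp [RR]
      have e2 : RR A (c, i) true false true = (c, A.m c - 1) := by simp [RR]
      simp only [e1, e2, sl_o', if_true]
      have q1 := hA.hi0 (!c) j (A.m c - 2) (by omega) (by rw [Bool.not_not]; omega)
      have q2 := hA.hi1 (!c) j i (by omega) (by rw [Bool.not_not]; omega)
      rw [Bool.not_not] at q1 q2
      exact ⟨q2, q1⟩
  · have hx : A.x c (bet A (c, i) s).2 i = false := by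
      apply x_false hA
      left
      unfold bet
      cases s
      · exact nre1 c
      · exact nreM c (by simp only [if_true]; omega)
    have hbt : (bet A (c, i) s).2 < A.m c := by
      unfold bet; cases s <;> simp <;> omega
    unfold Zn zL zH
    have e0 : (bet A (c, i) s).1 = c := rfl
    simp only [e0, if_true, hx]
    simp only [Bool.false_eq_true, false_and, if_false]
    have e1 : ∀ k, A.sl (bet A (c, i) s) (!c, k) = A.sd c (bet A (c, i) s).2 k :=
      fun k => sl_o A c _ k
    rw [e1, e1, e1]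
    exact ⟨hA.lo0 c _ j hbt h2 (by omega), hA.hi0 c _ j hbt h3⟩

theorem Zn_same (hA : A.Ok) (ha : A.Re a) (hb : In A a s b) (hd : b.1 = a.1) :
    (Zn A a s b (!a.1, 1) ∧ Zn A a s (!a.1, 1) b) ∨
    (Zn A a s b (!a.1, A.m (!a.1) - 2) ∧ Zn A a s (!a.1, A.m (!a.1) - 2) b) := by
  obtain ⟨c, i⟩ := a
  obtain ⟨d, j⟩ := b
  simp only at hd
  subst hd
  obtain ⟨h1, h2, h3, h4⟩ := hb
  obtain ⟨a1, a2⟩ := ha
  simp only at h2 h3 h4 a1 a2
  have h4 := h4 trivial
  have h5 := hA.five d
  have h5' := hA.five (!d)
  have hij : i ≠ j := by rintro rfl; exact h1 rfl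
  have hj : j < A.m d := by omega
  have q1 := hA.lo0 d j 1 hj (by omega) (by omega)
  have q2 := hA.hi0 d j (A.m (!d) - 2) hj (by omega)
  have q3 := hA.hi0 d j 1 hj (by omega)
  have q4 := hA.lo0 d j (A.m (!d) - 2) hj (by omega) (by omega)
  have zz : ∀ k, zL A (d, i) s (!d, k) = RR A (d, i) s false false ∧
      zH A (d, i) s (!d, k) = RR A (d, i) s false true := by
    intro k
    unfold zL zH
    simp
  -- the order on the two auxiliary lines
  have hγ : ∀ k, k < A.m (!d) → (s = true → A.sd (!d) k i < A.sd (!d) k j) →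
      (s = false → A.sd (!d) k j < A.sd (!d) k i) → Zn A (d, i) s (!d, k) (d, j) := by
    intro k hk k1 k2
    unfold Zn
    rw [(zz k).1, (zz k).2]
    cases s
    · have e1 : RR A (d, i) false false false = (d, 0) := by simp [RR]
      have e2 : RR A (d, i) false false true = (d, i) := by simp [RR]
      rw [e1, e2, sl_o', sl_o', sl_o']
      exact ⟨hA.lo0 (!d) k j hk h2 (by rw [Bool.not_not]; omega), k2 rfl⟩
    · have e1 : RR A (d, i) true false false = (d, i) := by simp [RR]
      have e2 : RR A (d, i) true false true = (d, A.m d - 1) := by simp [RR]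
      rw [e1, e2, sl_o', sl_o', sl_o']
      have := hA.hi0 (!d) k j hk (by rw [Bool.not_not]; omega)
      rw [Bool.not_not] at this
      exact ⟨k1 rfl, this⟩
  have hst : ∀ k k', k < A.m d → k' < A.m d → A.st d k < A.st d k' →
      A.sd (!d) 1 k < A.sd (!d) 1 k' := by
    intro k k' hk hk' hh
    exact hA.oS (!d) 1 k k' (by omega) (by rw [Bool.not_not]; exact hk)
      (by rw [Bool.not_not]; exact hk') (by rw [Bool.not_not]; exact hh)
  have hen : ∀ k k', k < k' → k' < A.m d →
      A.sd (!d) (A.m (!d) - 2) k < A.sd (!d) (A.m (!d) - 2) k' := by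
    intro k k' hk hk'
    exact hA.oE (!d) (A.m (!d) - 2) k k' (by omega) (by omega) hk (by rw [Bool.not_not]; exact hk')
  have hstne : A.st d i ≠ A.st d j := fun h => hij (hA.stinj d i j (by omega) hj h)
  by_cases hx : A.x d j i = true
  · have r1 := hA.slo d j i hx
    have r2 := hA.shi d j i hx
    by_cases hdd : decide (i < j) = s
    · -- the end part
      right
      constructor
      · unfold Zn zL zH
        simp only [if_true]
        rw [if_pos ⟨hx, hdd⟩, if_neg (by intro hh; exact hh.2 hdd), sl_s, sl_o, sl_o]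
        exact ⟨r2, q2⟩
      · apply hγ _ (by first | omega | (simp only; omega))
        · intro hs
          rw [hs, decide_eq_true_eq] at hdd
          exact hen i j hdd hj
        · intro hs
          rw [hs, decide_eq_false_iff_not] at hdd
          exact hen j i (by omega) (by omega)
    · left
      constructor
      · unfold Zn zL zH
        simp only [if_true]
        rw [if_neg (by intro hh; exact hdd hh.2), if_pos ⟨hx, hdd⟩, sl_s, sl_o, sl_o]
        exact ⟨q1, r1⟩
      · apply hγ _ (by first | omega | (simp only; omega))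
        · intro hs
          rw [hs, decide_eq_true_eq] at hdd
          have hlt : j < i := by omega
          exact hst i j (by omega) hj ((hA.xst d j i hlt (by omega)).1 hx)
        · intro hs
          rw [hs, decide_eq_false_iff_not, not_not] at hdd
          refine hst j i hj (by omega) ((hA.xst d i j hdd hj).1 ?_)
          rw [hA.xsymm]; exact hx
  · left
    have hdd := h4.resolve_left hx
    constructor
    · unfold Zn zL zH
      simp only [if_true]
      rw [if_neg (by intro hh; exact hx hh.1), if_neg (by intro hh; exact hx hh.1), sl_o, sl_o,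
        sl_o]
      exact ⟨q1, q3⟩
    · apply hγ _ (by omega)
      · intro hs
        rw [hs, decide_eq_true_eq] at hdd
        have : ¬ A.st d j < A.st d i := fun hh => hx (by
          rw [hA.xsymm]; exact (hA.xst d i j hdd hj).2 hh)
        exact hst i j (by omega) hj (by omega)
      · intro hs
        rw [hs, decide_eq_false_iff_not] at hdd
        have hlt : j < i := by omega
        have : ¬ A.st d i < A.st d j := fun hh => hx ((hA.xst d j i hlt (by omega)).2 hh)
        exact hst j i hj (by omega) (by omega)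

theorem RS.WI_con (hR : RS A g P Q) (ha : A.Re a) {u v : Vx} (hu : u ∈ WI A g a s)
    (hv : v ∈ WI A g a s) : Jn P Q (WI A g a s) u v := by
  have hA := hR.ok
  have h5' := hA.five (!a.1)
  have iβ := bet_In hA ha s
  have i0 : In A a s (!a.1, 1) := gam_In s (by omega) (by omega)
  have i1 : In A a s (!a.1, A.m (!a.1) - 2) := gam_In s (by omega) (by omega)
  have hne : ∀ j, ((!a.1, j) : Ln).1 ≠ a.1 := by intro j; simp
  obtain ⟨z0, z0'⟩ := Zn_opp hA ha i0 (hne _)
  obtain ⟨z1, z1'⟩ := Zn_opp hA ha i1 (hne _)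
  have hcβ : ∀ {b : Ln}, b.1 ≠ a.1 → A.cr b (bet A a s) = true ∧ b ≠ bet A a s := by
    intro b hb
    exact ⟨cr_of_ne hb, ne_of_ne hb⟩
  have c0 : cv A g (bet A a s) (!a.1, 1) 0 0 ∈ WI A g a s :=
    WI_cv hR.hg iβ z0' (by omega) (by omega)
  have key : ∀ w ∈ WI A g a s, Jn P Q (WI A g a s) w (cv A g (bet A a s) (!a.1, 1) 0 0) := by
    intro w hw
    have hw' := hw
    obtain ⟨b, e, t, rfl, hI, he, h1, h2⟩ := hw'
    by_cases hd : b.1 = a.1
    · have fin1 : ∀ j, In A a s (!a.1, j) → Zn A a s b (!a.1, j) → Zn A a s (!a.1, j) b →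
          Jn P Q (WI A g a s) (.st b.1 b.2 e t) (cv A g (bet A a s) (!a.1, 1) 0 0) := by
        intro j hj k1 k2
        obtain ⟨y, y'⟩ := Zn_opp hA ha hj (hne _)
        have m := WI_cv hR.hg hj k2 (e := 0) (f := 0) (by omega) (by omega)
        have hb' : b.1 ≠ ((!a.1, j) : Ln).1 := by rw [hd]; simp
        refine (hR.WI_link ha hI hj (ne_of_ne hb') (cr_of_ne hb') k1 k2 hw m).trans ?_
        exact hR.WI_link ha hj iβ (hcβ (hne j)).2 (hcβ (hne j)).1 y y' m c0
      rcases Zn_same hA ha hI hd with h | h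
      · exact fin1 _ i0 h.1 h.2
      · exact fin1 _ i1 h.1 h.2
    · obtain ⟨y, y'⟩ := Zn_opp hA ha hI hd
      exact hR.WI_link ha hI iβ (hcβ hd).2 (hcβ hd).1 y y' hw c0
  exact (key u hu).trans (key v hv).symm

end Run7.h749
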