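import Pool.Agent.Run7.h749.Defs
import Pool.Agent.H612.PatOslp

/-!
# The arrangement of an increasing straight-line program

The values of the program `p` have indices `0` (infinity), `1, …, p.length + 1`. There are `T p`
strips, bounded by the rows `2 + 2 t` (lower row) and `3 + 2 t` (upper row); the strip of the value
of index `a` is `sp p a`; the strips of odd number are dummies. The columns are: `0`, `1`
(auxiliary), `2` (the reference column), a block of ten columns for every value, in decreasing
order of the indices, and two auxiliary columns. The block number `h` belongs to the value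
`G p - 1 - h`; its columns are the upper slab (`0, 1, 2, 3`), a separator (`4`), the lower slab
(`5, 6, 7, 8`) and a separator (`9`).
-/

namespace Run7.h749

open Pool.Agent.NPC.ER.Oslp Pool.Agent.NPC.ER.Sgn

/-- The number of values. -/
def G (p : List Ins) : ℕ := p.length + 2

/-- The number of strips. -/
def T (p : List Ins) : ℕ := 2 * G p

/-- The strip of the value of index `a`. -/
def sp (p : List Ins) (a : ℕ) : ℕ := if a = 0 then 2 * (p.length + 1) else 2 * (a - 1)

/-- The number of the height at which the lines `z < z'` of a slab cross: `0`: `3 4`, `1`: `2 3`,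
`2`: `1 3`, `3`: `2 4`, `4`: `1 4`, `5`: `1 2`. The lines are, in the order at the top:
`3, 4, 2, 1` for multiplications, `3, 4, 1, 2` for additions. -/
def qq (add : Bool) (z z' : ℕ) : ℕ :=
  if z = 0 then
    (if z' = 1 then 0 else if z' = 2 then (if add = true then 2 else 1)
      else (if add = true then 1 else 2))
  else if z = 1 then
    (if z' = 2 then (if add = true then 4 else 3) else (if add = true then 3 else 4))
  else 5

/-- The index of the value at the height number `q` of the operation `c` for the value `k`. -/
def vl (c : ℕ × ℕ × ℕ × ℕ) (k q : ℕ) : ℕ :=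
  if q = 0 then 0 else if q = 1 then k else if q = 2 then c.2.2.1 else if q = 3 then c.2.2.2
  else if q = 4 then c.2.1 else c.1

/-- The slot (on the columns) of the height number `q` in the slab `b` (`0`: upper, `1`: lower) of
the operation `c` for the value `k`. -/
def hs (p : List Ins) (c : ℕ × ℕ × ℕ × ℕ) (k b q : ℕ) : ℕ :=
  if q = 1 then 4 * sp p (vl c k q) + 6
  else if (b = 0 ∧ q ≠ 4) ∨ (b ≠ 0 ∧ q = 4) then 4 * sp p (vl c k q) + 8
  else 4 * sp p (vl c k q) + 4

/-- The block of a column. -/
def blk (j : ℕ) : ℕ := (j - 3) / 10

/-- The position of a column in its block. -/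
def bpo (j : ℕ) : ℕ := (j - 3) % 10

/-- The value of the block of a column. -/
def kof (p : List Ins) (j : ℕ) : ℕ := G p - 1 - blk j

/-- The operation of the block of a column. -/
def opc (p : List Ins) (j : ℕ) : Option (ℕ × ℕ × ℕ × ℕ) := opd p (kof p j)

/-- The column `j` belongs to a slab (of an operation). -/
def inS (p : List Ins) (j : ℕ) : Bool :=
  decide (3 ≤ j) && decide (j < 3 + 10 * G p) && !decide (bpo j % 5 = 4) && (opc p j).isSome

/-- The columns `i`, `j` belong to the same slab. -/
def same (i j : ℕ) : Bool := decide (blk i = blk j) && decide (bpo i / 5 = bpo j / 5)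

/-- The slot of the crossing of the columns number `z < z'` of the slab of the column `j`. -/
def cs (p : List Ins) (j z z' : ℕ) : ℕ :=
  match opc p j with
  | none => 0
  | some c => hs p c (kof p j) (bpo j / 5) (qq (decide (c.1 = 0)) z z')

/-- The position, among the columns of its slab, of the column `j` at the row `r`. -/
def posz (p : List Ins) (r j : ℕ) : ℕ :=
  let z := bpo j % 5
  (if 0 < z ∧ cs p j 0 z < 2 * r + 1 ∨ 0 > z ∧ 2 * r + 1 < cs p j z 0 then 1 else 0) +
  (if 1 < z ∧ cs p j 1 z < 2 * r + 1 ∨ 1 > z ∧ 2 * r + 1 < cs p j z 1 then 1 else 0) +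
  (if 2 < z ∧ cs p j 2 z < 2 * r + 1 ∨ 2 > z ∧ 2 * r + 1 < cs p j z 2 then 1 else 0) +
  (if 3 > z ∧ 2 * r + 1 < cs p j z 3 then 1 else 0)

/-- The number of rows. -/
def mr (p : List Ins) : ℕ := 2 * T p + 4

/-- The number of columns. -/
def mc (p : List Ins) : ℕ := 10 * G p + 5

/-- A row which bounds a strip. -/
def isR (p : List Ins) (i : ℕ) : Bool := decide (2 ≤ i) && decide (i < 2 * T p + 2)

/-- Crossings of rows. -/
def xr (p : List Ins) (i j : ℕ) : Bool :=
  isR p i && isR p j &&
    ((decide (i < j) && decide (i % 2 = 1) && decide (j % 2 = 0)) ||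
      (decide (j < i) && decide (j % 2 = 1) && decide (i % 2 = 0)))

/-- Crossings of columns. -/
def xc (p : List Ins) (i j : ℕ) : Bool :=
  inS p i && inS p j && same i j && !decide (i = j)

/-- The left ranks of the rows. -/
def str (p : List Ins) (i : ℕ) : ℕ :=
  if isR p i = true then (if i % 2 = 0 then 2 + (i - 2) / 2 else 2 + T p + (i - 3) / 2) else i

/-- The ranks of the columns at the bottom. -/
def stc (p : List Ins) (j : ℕ) : ℕ :=
  if inS p j = true then j + 3 - 2 * (bpo j % 5) else j

/-- The slot on the row `i` of its crossing with the row `j`. -/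
def ssr (p : List Ins) (i j : ℕ) : ℕ :=
  if i % 2 = 0 then 2 + (j - 3) / 2 else 2 + (T p - 1 - (j - 2) / 2)

/-- The slot on the column `i` of its crossing with the column `j`. -/
def ssc (p : List Ins) (i j : ℕ) : ℕ :=
  if i < j then cs p i (bpo i % 5) (bpo j % 5) else cs p i (bpo j % 5) (bpo i % 5)

/-- The slot on the row `i` of its crossing with the column `j`. -/
def sdr (p : List Ins) (i j : ℕ) : ℕ :=
  if j < 2 then j else
  if inS p j = true then T p + j - bpo j % 5 + posz p i j else T p + j

/-- The slot on the column `j` of its crossing with the row `i`. -/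
def sdc (p : List Ins) (j i : ℕ) : ℕ := if j < 2 then 2 * str p i + 1 else 2 * i + 1

/-- The arrangement of a program. -/
def arrOf (p : List Ins) : Arr where
  m c := if c = true then mc p else mr p
  S := mc p + T p + 2 * mr p
  x c i j := if c = true then xc p i j else xr p i j
  ss c i j := if c = true then ssc p i j else ssr p i j
  sd c i j := if c = true then sdc p i j else sdr p i j
  st c i := if c = true then stc p i else str p i

end Run7.h749
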