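import Mathlib

/-!
# Perturbing segments
-/

namespace Run7.h749

open Set Filter Topology

/-- Twice the signed area of a triangle. -/
def Dt3 (p q r : ℝ × ℝ) : ℝ := (q.1 - p.1) * (r.2 - p.2) - (q.2 - p.2) * (r.1 - p.1)

/-- Properly crossing segments meet. -/
theorem cross_of_D {p q r s : ℝ × ℝ} (h : Dt3 p q r * Dt3 p q s < 0)
    (h' : Dt3 r s p * Dt3 r s q < 0) : ∃ z, z ∈ segment ℝ p q ∧ z ∈ segment ℝ r s := by
  have e1 : Dt3 r s p - Dt3 r s q = -(Dt3 p q r - Dt3 p q s) := by
    unfold Dt3; ring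
  set α := Dt3 r s p with hα
  set β := Dt3 r s q with hβ
  set γ := Dt3 p q r with hγ
  set δ := Dt3 p q s with hδ
  have n1 : α - β ≠ 0 := by
    intro h0
    have : α = β := by linarith
    rw [this] at h'
    nlinarith [mul_self_nonneg β]
  have n2 : γ - δ ≠ 0 := by
    intro h0
    apply n1
    rw [e1, h0, neg_zero]
  have key : ∀ x y : ℝ, x * y < 0 → 0 ≤ x / (x - y) ∧ x / (x - y) ≤ 1 := by
    intro x y hxy
    rcases mul_neg_iff.1 hxy with ⟨h1, h2⟩ | ⟨h1, h2⟩
    · have h3 : 0 < x - y := by linarith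
      exact ⟨div_nonneg h1.le h3.le, by rw [div_le_one h3]; linarith⟩
    · have h3 : x - y < 0 := by linarith
      exact ⟨div_nonneg_of_nonpos h1.le h3.le, by rw [div_le_one_of_neg h3]; linarith⟩
  refine ⟨p + (α / (α - β)) • (q - p), ?_, ?_⟩
  · rw [segment_eq_image']
    exact ⟨_, key α β h', rfl⟩
  · rw [segment_eq_image']
    refine ⟨γ / (γ - δ), key γ δ h, ?_⟩
    have n2' : -(γ - δ) ≠ 0 := neg_ne_zero.2 n2
    have f1 : α / (α - β) = -(α / (γ - δ)) := by
      rw [e1, div_neg]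
    have e2 : (s.1 - r.1) * γ = -(α) * (q.1 - p.1) - (γ - δ) * (r.1 - p.1) := by
      rw [hγ, hα, hδ]; unfold Dt3; ring
    have e3 : (s.2 - r.2) * γ = -(α) * (q.2 - p.2) - (γ - δ) * (r.2 - p.2) := by
      rw [hγ, hα, hδ]; unfold Dt3; ring
    ext
    · show r.1 + γ / (γ - δ) * (s.1 - r.1) = p.1 + α / (α - β) * (q.1 - p.1)
      rw [f1]
      have : γ / (γ - δ) * (s.1 - r.1) = ((s.1 - r.1) * γ) / (γ - δ) := by ring
      rw [this, e2]
      field_simp
      ring
    · show r.2 + γ / (γ - δ) * (s.2 - r.2) = p.2 + α / (α - β) * (q.2 - p.2)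
      rw [f1]
      have : γ / (γ - δ) * (s.2 - r.2) = ((s.2 - r.2) * γ) / (γ - δ) := by ring
      rw [this, e3]
      field_simp
      ring

theorem cont_Dt3 : Continuous fun z : (ℝ × ℝ) × (ℝ × ℝ) × (ℝ × ℝ) => Dt3 z.1 z.2.1 z.2.2 := by
  unfold Dt3
  fun_prop

/-- Crossing segments still cross after a small perturbation. -/
theorem ev_cross {p q : ℝ → ℝ × ℝ} (hp : Continuous p) (hq : Continuous q) {r s : ℝ × ℝ}
    (h : Dt3 (p 0) (q 0) r * Dt3 (p 0) (q 0) s < 0)
    (h' : Dt3 r s (p 0) * Dt3 r s (q 0) < 0) :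
    ∀ᶠ ε in 𝓝 (0 : ℝ), ∃ z, z ∈ segment ℝ (p ε) (q ε) ∧ z ∈ segment ℝ r s := by
  have c1 : Continuous fun ε => Dt3 (p ε) (q ε) r * Dt3 (p ε) (q ε) s := by
    unfold Dt3; fun_prop
  have c2 : Continuous fun ε => Dt3 r s (p ε) * Dt3 r s (q ε) := by
    unfold Dt3; fun_prop
  have e1 := c1.continuousAt.eventually_lt continuousAt_const h
  have e2 := c2.continuousAt.eventually_lt continuousAt_const h'
  filter_upwards [e1, e2] with ε h1 h2
  exact cross_of_D h1 h2

/-- Disjoint segments are still disjoint after a small perturbation. -/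
theorem ev_disj {p q : ℝ → ℝ × ℝ} (hp : Continuous p) (hq : Continuous q) {K : Set (ℝ × ℝ)}
    (hK : IsCompact K) (hd : ∀ z ∈ segment ℝ (p 0) (q 0), z ∉ K) :
    ∀ᶠ ε in 𝓝 (0 : ℝ), ∀ z ∈ segment ℝ (p ε) (q ε), z ∉ K := by
  have hS : IsCompact (segment ℝ (p 0) (q 0)) := by
    rw [segment_eq_image']
    exact isCompact_Icc.image (by fun_prop)
  have hdis : Disjoint (segment ℝ (p 0) (q 0)) K := Set.disjoint_left.2 hd
  obtain ⟨δ, hδ, hdis⟩ := hdis.exists_thickenings hS hK.isClosed
  have e1 : ∀ᶠ ε in 𝓝 (0 : ℝ), dist (p ε) (p 0) < δ :=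
    Metric.tendsto_nhds.1 hp.continuousAt δ hδ
  have e2 : ∀ᶠ ε in 𝓝 (0 : ℝ), dist (q ε) (q 0) < δ :=
    Metric.tendsto_nhds.1 hq.continuousAt δ hδ
  filter_upwards [e1, e2] with ε h1 h2 z hz hzK
  obtain ⟨a, b, ha, hb, hab, rfl⟩ := hz
  refine absurd (Metric.self_subset_thickening hδ K hzK) (Set.disjoint_left.1 hdis ?_)
  rw [Metric.mem_thickening_iff]
  refine ⟨a • p 0 + b • q 0, ⟨a, b, ha, hb, hab, rfl⟩, ?_⟩
  rw [dist_eq_norm] at h1 h2 ⊢
  have e : a • p ε + b • q ε - (a • p 0 + b • q 0) = a • (p ε - p 0) + b • (q ε - q 0) := by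
    module
  rw [e]
  calc ‖a • (p ε - p 0) + b • (q ε - q 0)‖ ≤ ‖a • (p ε - p 0)‖ + ‖b • (q ε - q 0)‖ :=
        norm_add_le _ _
    _ = a * ‖p ε - p 0‖ + b * ‖q ε - q 0‖ := by
        rw [norm_smul, norm_smul, Real.norm_of_nonneg ha, Real.norm_of_nonneg hb]
    _ < δ := by
        rcases eq_or_lt_of_le ha with h | h
        · have hb1 : b = 1 := by linarith
          rw [← h, hb1]; linarith
        · nlinarith

theorem compact_seg (p q : ℝ × ℝ) : IsCompact (segment ℝ p q) := by
  rw [segment_eq_image']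
  exact isCompact_Icc.image (by fun_prop)

/-- Interpolation. -/
theorem interp (V : ℕ → ℝ → Prop) : ∀ (n : ℕ) (lo hi : ℝ), lo < hi →
    (∀ j < n, ∀ x, V j x → lo < x ∧ x < hi) →
    (∀ j < n, ∀ x x', V j x → V j x' → x = x') →
    (∀ j j', j < j' → j' < n → ∀ x x', V j x → V j' x' → x < x') →
    ∃ c : ℕ → ℝ, (∀ j < n, lo < c j ∧ c j < hi) ∧ (∀ j, j + 1 < n → c j < c (j + 1)) ∧
      ∀ j < n, ∀ x, V j x → c j = x := by
  intro n
  induction n with
  | zero =>
    intro lo hi _ _ _ _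
    exact ⟨fun _ => 0, fun j hj => absurd hj (Nat.not_lt_zero j),
      fun j hj => absurd hj (Nat.not_lt_zero _), fun j hj => absurd hj (Nat.not_lt_zero j)⟩
  | succ n ih =>
    intro lo hi hlh h1 h2 h3
    -- the last value
    have key : ∃ y, lo < y ∧ y < hi ∧ (∀ x, V n x → y = x) ∧
        ∃ c : ℕ → ℝ, (∀ j < n, lo < c j ∧ c j < y) ∧ (∀ j, j + 1 < n → c j < c (j + 1)) ∧
          ∀ j < n, ∀ x, V j x → c j = x := by
      by_cases hx : ∃ x, V n x
      · obtain ⟨x, hx⟩ := hx
        obtain ⟨a1, a2⟩ := h1 n (by omega) x hx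
        obtain ⟨c, c1, c2, c3⟩ := ih lo x a1
          (fun j hj y hy => ⟨(h1 j (by omega) y hy).1, h3 j n hj (by omega) y x hy hx⟩)
          (fun j hj => h2 j (by omega)) (fun j j' hjj hj' => h3 j j' hjj (by omega))
        exact ⟨x, a1, a2, fun x' hx' => h2 n (by omega) x x' hx hx', c, c1, c2, c3⟩
      · obtain ⟨c, c1, c2, c3⟩ := ih lo hi hlh (fun j hj => h1 j (by omega))
          (fun j hj => h2 j (by omega)) (fun j j' hjj hj' => h3 j j' hjj (by omega))
        rcases Nat.eq_zero_or_pos n with h0 | h0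
        · subst h0
          exact ⟨(lo + hi) / 2, by linarith, by linarith, fun x hx' => absurd ⟨x, hx'⟩ hx, c,
            fun j hj => absurd hj (Nat.not_lt_zero j), fun j hj => absurd hj (Nat.not_lt_zero _),
            fun j hj => absurd hj (Nat.not_lt_zero j)⟩
        · have b := c1 (n - 1) (by omega)
          refine ⟨(c (n - 1) + hi) / 2, by linarith, by linarith,
            fun x hx' => absurd ⟨x, hx'⟩ hx, c, fun j hj => ⟨(c1 j hj).1, ?_⟩, c2, c3⟩
          have mono : ∀ i, i < n → ∀ j ≤ i, c j ≤ c i := by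
            intro i
            induction i with
            | zero => intro _ j hj; rw [Nat.le_zero.1 hj]
            | succ i ih' =>
              intro hi' j hj
              rcases Nat.eq_or_lt_of_le hj with h | h
              · rw [h]
              · exact (ih' (by omega) j (by omega)).trans (c2 i hi').le
          have := mono (n - 1) (by omega) j (by omega)
          linarith
    obtain ⟨y, y1, y2, y3, c, c1, c2, c3⟩ := key
    refine ⟨fun j => if j = n then y else c j, ?_, ?_, ?_⟩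
    · intro j hj
      by_cases h : j = n
      · simp only [h, if_true]; exact ⟨y1, y2⟩
      · simp only [if_neg h]
        have := c1 j (by omega)
        exact ⟨this.1, by linarith [this.2]⟩
    · intro j hj
      by_cases h : j + 1 = n
      · simp only [if_neg (show j ≠ n by omega), if_pos h]
        exact (c1 j (by omega)).2
      · simp only [if_neg (show j ≠ n by omega), if_neg h]
        exact c2 j (by omega)
    · intro j hj x hx
      by_cases h : j = n
      · subst h
        simp only [if_true]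
        exact y3 x hx
      · simp only [if_neg h]
        exact c3 j (by omega) x hx

end Run7.h749
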