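import Pool.Agent.Run7.h749.RepA
import Pool.Agent.Run7.h749.Defs

/-!
# The segments of one line, in coordinates
-/

namespace Run7.h749

open Set

/-- Local names of the vertices of a line. -/
inductive Lv
  | st (e i : ℕ)
  | ti (e i d k : ℕ)
  deriving DecidableEq

/-- The valid local vertices. -/
def LV (N g : ℕ) : Lv → Prop
  | .st e i => e < 3 ∧ i ≤ ix e N
  | .ti e i d k => (e = 0 ∨ e = 2) ∧ i < N ∧ d < 2 ∧ k < g

/-- Local adjacency in one direction. -/
def LE (g : ℕ) : Lv → Lv → Prop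
  | .st e i, .st e' i' => e = e' ∧ i' = i + 1
  | .st e i, .ti e' j d k => (e = 1 ∧ k = 0 ∧ i = 4 * j + 1 + 2 * d) ∨
      (e = e' ∧ k + 1 = g ∧ i = j + 1 - d)
  | .ti _ _ _ _, .st _ _ => False
  | .ti e i d k, .ti e' i' d' k' => e = e' ∧ i = i' ∧ d = d' ∧ k' = k + 1

/-- The data of a line: the parameters of the corners and the length of the overlaps. -/
structure LD where
  t : ℕ → ℝ
  l : ℝ

namespace LD

variable (d : LD) (N g : ℕ)

/-- Good data. -/
structure Ok : Prop where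
  t0 : d.t 0 = 0
  tN : d.t (N + 1) = 1
  lp : 0 < d.l
  gap : ∀ i ≤ N, d.t i + 4 * d.l < d.t (i + 1)

/-- Overlaps. -/
noncomputable def lam (e : ℕ) : ℝ := if e = 0 then d.l else 3 / 2 * d.l

/-- Heights. -/
noncomputable def fi (i : ℕ) (x : ℝ) : ℝ := 1 + (d.t i + d.t (i + 1)) * x - d.t i * d.t (i + 1)

/-- Left ends. -/
noncomputable def lft (e i : ℕ) : ℝ := if i = 0 then 0 else d.t i - d.lam e

/-- Right ends. -/
noncomputable def rgt (e i : ℕ) : ℝ := if i = N then 1 else d.t (i + 1) + d.lam e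

/-- The joints of the spine. -/
noncomputable def B (s : ℕ) : ℝ :=
  if s = 0 then 0 else if s = 4 * N + 1 then 1 else
    if (s - 1) % 4 = 0 then d.t ((s - 1) / 4 + 1) - 2 * d.l
    else if (s - 1) % 4 = 1 then d.t ((s - 1) / 4 + 1) - d.l / 2
    else if (s - 1) % 4 = 2 then d.t ((s - 1) / 4 + 1) + d.l / 2
    else d.t ((s - 1) / 4 + 1) + 2 * d.l

/-- The position of a tie. -/
noncomputable def x0 (e i dd : ℕ) : ℝ :=
  if dd = 0 then d.t (i + 1) - d.lam e else d.t (i + 1) + d.lam e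

/-- The height of a tie. -/
noncomputable def H (e i dd : ℕ) : ℝ :=
  if dd = 0 then d.fi (i + 1) (d.x0 e i dd) else d.fi i (d.x0 e i dd)

end LD

/-- The sign of a chain. -/
noncomputable def sg (e : ℕ) : ℝ := if e = 0 then -1 else 1

/-- Left (lower) end points. -/
noncomputable def LP (N g : ℕ) (d : LD) : Lv → ℝ × ℝ
  | .st e i => if e = 1 then (d.B N i, 0) else (d.lft e i, sg e * d.fi i (d.lft e i))
  | .ti e i dd k => (d.x0 e i dd, sg e * d.H e i dd * (k / g))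

/-- Right (upper) end points. -/
noncomputable def LQ (N g : ℕ) (d : LD) : Lv → ℝ × ℝ
  | .st e i => if e = 1 then (d.B N (i + 1), 0) else (d.rgt N e i, sg e * d.fi i (d.rgt N e i))
  | .ti e i dd k => (d.x0 e i dd, sg e * d.H e i dd * ((k + 1) / g))

/-- Segments which are graphs. -/
theorem mem_graph {α β x1 x2 : ℝ} (h : x1 < x2) {z : ℝ × ℝ} :
    z ∈ segment ℝ (x1, α + β * x1) (x2, α + β * x2) ↔ x1 ≤ z.1 ∧ z.1 ≤ x2 ∧ z.2 = α + β * z.1 := by
  rw [segment_eq_image']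
  constructor
  · rintro ⟨θ, ⟨h1, h2⟩, rfl⟩
    have h3 : 0 < x2 - x1 := by linarith
    refine ⟨?_, ?_, ?_⟩
    · show x1 ≤ x1 + θ * (x2 - x1)
      have := mul_nonneg h1 h3.le
      linarith
    · show x1 + θ * (x2 - x1) ≤ x2
      nlinarith
    · show α + β * x1 + θ * (α + β * x2 - (α + β * x1)) = α + β * (x1 + θ * (x2 - x1))
      ring
  · rintro ⟨h1, h2, h3⟩
    have h4 : 0 < x2 - x1 := by linarith
    refine ⟨(z.1 - x1) / (x2 - x1), ⟨div_nonneg (by linarith) h4.le, by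
      rw [div_le_one h4]; linarith⟩, ?_⟩
    ext
    · show x1 + (z.1 - x1) / (x2 - x1) * (x2 - x1) = z.1
      rw [div_mul_cancel₀ _ h4.ne']; ring
    · show α + β * x1 + (z.1 - x1) / (x2 - x1) * (α + β * x2 - (α + β * x1)) = z.2
      rw [h3]
      have e1 : α + β * x2 - (α + β * x1) = β * (x2 - x1) := by ring
      have e2 : (z.1 - x1) / (x2 - x1) * (β * (x2 - x1)) = β * (z.1 - x1) := by
        field_simp
      rw [e1, e2]; ring

/-- Vertical segments. -/
theorem mem_vert {x0 c a b : ℝ} (h : a ≤ b) {z : ℝ × ℝ} :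
    z ∈ segment ℝ (x0, c * a) (x0, c * b) ↔ z.1 = x0 ∧ ∃ θ, a ≤ θ ∧ θ ≤ b ∧ z.2 = c * θ := by
  rw [segment_eq_image']
  constructor
  · rintro ⟨θ, ⟨h1, h2⟩, rfl⟩
    refine ⟨?_, a + θ * (b - a), ?_, ?_, ?_⟩
    · show x0 + θ * (x0 - x0) = x0
      ring
    · have := mul_nonneg h1 (sub_nonneg.2 h)
      linarith
    · nlinarith
    · show c * a + θ * (c * b - c * a) = _
      ring
  · rintro ⟨h1, θ, h2, h3, h4⟩
    rcases eq_or_lt_of_le h with h5 | h5
    · refine ⟨0, ⟨le_rfl, zero_le_one⟩, ?_⟩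
      have : θ = a := by linarith
      ext
      · show x0 + 0 * (x0 - x0) = z.1
        rw [h1]; ring
      · show c * a + 0 * (c * b - c * a) = z.2
        rw [h4, this]; ring
    · have h6 : 0 < b - a := by linarith
      refine ⟨(θ - a) / (b - a), ⟨div_nonneg (by linarith) h6.le, by
        rw [div_le_one h6]; linarith⟩, ?_⟩
      ext
      · show x0 + (θ - a) / (b - a) * (x0 - x0) = z.1
        rw [h1]; ring
      · show c * a + (θ - a) / (b - a) * (c * b - c * a) = z.2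
        rw [h4]
        have e1 : c * b - c * a = c * (b - a) := by ring
        have e2 : (θ - a) / (b - a) * (c * (b - a)) = c * (θ - a) := by
          field_simp
        rw [e1, e2]; ring

namespace LD

variable {d : LD} {N g : ℕ}

theorem Ok.lt (h : d.Ok N) {i j : ℕ} (hij : i < j) (hj : j ≤ N + 1) :
    d.t i + 4 * d.l < d.t j := by
  induction j, hij using Nat.le_induction with
  | base => exact h.gap i (by omega)
  | succ j hij ih =>
    have h1 := ih (by omega)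
    have h2 := h.gap j (by omega)
    have := h.lp
    linarith

theorem Ok.ge (h : d.Ok N) {i : ℕ} (hi : i ≤ N + 1) : 0 ≤ d.t i := by
  rcases Nat.eq_zero_or_pos i with h0 | h0
  · rw [h0, h.t0]
  · have := h.lt h0 hi
    have := h.lp
    rw [h.t0] at *
    linarith

theorem Ok.le (h : d.Ok N) {i : ℕ} (hi : i ≤ N + 1) : d.t i ≤ 1 := by
  rcases Nat.eq_or_lt_of_le hi with h0 | h0
  · rw [h0, h.tN]
  · have := h.lt h0 le_rfl
    have := h.lp
    rw [h.tN] at *
    linarith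

theorem Ok.lam_b (h : d.Ok N) (e : ℕ) : d.l ≤ d.lam e ∧ d.lam e ≤ 3 / 2 * d.l := by
  have := h.lp
  unfold lam
  split_ifs <;> constructor <;> linarith

theorem Ok.lft_b (h : d.Ok N) {e i : ℕ} (hi : i ≤ N) :
    0 ≤ d.lft e i ∧ d.t i - d.lam e ≤ d.lft e i ∧ d.lft e i ≤ d.t i := by
  have h1 := h.lam_b e
  have h2 := h.lp
  unfold lft
  split_ifs with h0
  · rw [h0, h.t0]
    exact ⟨le_rfl, by linarith, le_rfl⟩
  · have := h.lt (i := 0) (j := i) (by omega) (by omega)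
    rw [h.t0] at this
    exact ⟨by linarith, le_rfl, by linarith⟩

theorem Ok.rgt_b (h : d.Ok N) {e i : ℕ} (hi : i ≤ N) :
    d.rgt N e i ≤ 1 ∧ d.rgt N e i ≤ d.t (i + 1) + d.lam e ∧ d.t (i + 1) ≤ d.rgt N e i := by
  have h1 := h.lam_b e
  have h2 := h.lp
  unfold rgt
  split_ifs with h0
  · rw [h0, h.tN]
    exact ⟨le_rfl, by linarith, le_rfl⟩
  · have := h.lt (i := i + 1) (j := N + 1) (by omega) (by omega)
    rw [h.tN] at this
    exact ⟨by linarith, le_rfl, by linarith⟩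

theorem Ok.lr (h : d.Ok N) {e i : ℕ} (hi : i ≤ N) : d.lft e i < d.rgt N e i := by
  have := h.lft_b (e := e) hi
  have := h.rgt_b (e := e) hi
  have := h.gap i hi
  have := h.lp
  linarith

/-- Heights are positive and at most `3`. -/
theorem Ok.fi_b (h : d.Ok N) {i : ℕ} (hi : i ≤ N) {x : ℝ} (hx : 0 ≤ x) (hx' : x ≤ 1) :
    0 < d.fi i x ∧ d.fi i x ≤ 3 := by
  have h1 := h.ge (i := i) (by omega)
  have h2 := h.ge (i := i + 1) (by omega)
  have h3 := h.le (i := i) (by omega)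
  have h4 := h.le (i := i + 1) (by omega)
  have h5 := h.gap i hi
  have h6 := h.lp
  unfold fi
  set a := d.t i
  set b := d.t (i + 1)
  have p1 : 0 ≤ (a + b) * x := by positivity
  have p2 : (a + b) * x ≤ 2 := by nlinarith
  have p3 : a * b ≤ a := by nlinarith
  have p4 : 0 ≤ a * b := by positivity
  constructor <;> linarith

theorem fi_sub (d : LD) (i : ℕ) (x : ℝ) : d.fi i x - d.fi (i + 1) x =
    (d.t (i + 2) - d.t i) * (d.t (i + 1) - x) := by
  unfold fi; ring

theorem B0 : d.B N 0 = 0 := by unfold B; rw [if_pos rfl]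

theorem Bl : d.B N (4 * N + 1) = 1 := by unfold B; rw [if_neg (by omega), if_pos rfl]

theorem B1 {i : ℕ} (hi : i < N) : d.B N (4 * i + 1) = d.t (i + 1) - 2 * d.l := by
  unfold B
  rw [if_neg (by omega), if_neg (by omega), if_pos (by omega),
    show (4 * i + 1 - 1) / 4 + 1 = i + 1 by omega]

theorem B2 {i : ℕ} (_hi : i < N) : d.B N (4 * i + 2) = d.t (i + 1) - d.l / 2 := by
  unfold B
  rw [if_neg (by omega), if_neg (by omega), if_neg (by omega), if_pos (by omega),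
    show (4 * i + 2 - 1) / 4 + 1 = i + 1 by omega]

theorem B3 {i : ℕ} (_hi : i < N) : d.B N (4 * i + 3) = d.t (i + 1) + d.l / 2 := by
  unfold B
  rw [if_neg (by omega), if_neg (by omega), if_neg (by omega), if_neg (by omega),
    if_pos (by omega), show (4 * i + 3 - 1) / 4 + 1 = i + 1 by omega]

theorem B4 {i : ℕ} (_hi : i < N) : d.B N (4 * i + 4) = d.t (i + 1) + 2 * d.l := by
  unfold B
  rw [if_neg (by omega), if_neg (by omega), if_neg (by omega), if_neg (by omega),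
    if_neg (by omega), show (4 * i + 4 - 1) / 4 + 1 = i + 1 by omega]

theorem Ok.B_succ (h : d.Ok N) {s : ℕ} (hs : s ≤ 4 * N) : d.B N s < d.B N (s + 1) := by
  have hl := h.lp
  have hcase : ∃ i, s = 4 * i ∨ s = 4 * i + 1 ∨ s = 4 * i + 2 ∨ s = 4 * i + 3 :=
    ⟨s / 4, by omega⟩
  obtain ⟨i, hi⟩ := hcase
  rcases hi with rfl | rfl | rfl | rfl
  · -- from `4 i` to `4 i + 1`
    have e1 : d.B N (4 * i) ≤ d.t i + 2 * d.l := by
      rcases Nat.eq_zero_or_pos i with h0 | h0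
      · rw [h0, Nat.mul_zero, B0, h.t0]; linarith
      · have := B4 (d := d) (N := N) (i := i - 1) (by omega)
        rw [show 4 * (i - 1) + 4 = 4 * i by omega, show i - 1 + 1 = i by omega] at this
        rw [this]
    have e2 : d.t (i + 1) - 2 * d.l ≤ d.B N (4 * i + 1) := by
      rcases Nat.eq_or_lt_of_le (show i ≤ N by omega) with h0 | h0
      · rw [h0, Bl, h.tN]; linarith
      · rw [B1 h0]
    have := h.gap i (by omega)
    linarith
  · rw [B1 (by omega), B2 (by omega)]; linarith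
  · rw [B2 (by omega), B3 (by omega)]; linarith
  · rw [B3 (by omega), B4 (by omega)]; linarith

theorem Ok.B_lt (h : d.Ok N) {s s' : ℕ} (hs : s < s') (hs' : s' ≤ 4 * N + 1) :
    d.B N s < d.B N s' := by
  induction s', hs using Nat.le_induction with
  | base => exact h.B_succ (by omega)
  | succ j hij ih => exact (ih (by omega)).trans (h.B_succ (by omega))

theorem Ok.B_b (h : d.Ok N) {s : ℕ} (hs : s ≤ 4 * N + 1) : 0 ≤ d.B N s ∧ d.B N s ≤ 1 := by
  constructor
  · rcases Nat.eq_zero_or_pos s with h0 | h0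
    · rw [h0, B0]
    · have := h.B_lt h0 hs
      rw [B0] at this; exact this.le
  · rcases Nat.eq_or_lt_of_le hs with h0 | h0
    · rw [h0, Bl]
    · have := h.B_lt h0 le_rfl
      rw [Bl] at this; exact this.le

/-- The position of a tie. -/
theorem Ok.x0_b (h : d.Ok N) (e i dd : ℕ) :
    d.t (i + 1) - 3 / 2 * d.l ≤ d.x0 e i dd ∧ d.x0 e i dd ≤ d.t (i + 1) + 3 / 2 * d.l := by
  have h1 := h.lam_b e
  have h2 := h.lp
  unfold x0
  split_ifs <;> constructor <;> linarith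

theorem Ok.x0_u (h : d.Ok N) {e i dd : ℕ} (hi : i < N) : 0 ≤ d.x0 e i dd ∧ d.x0 e i dd ≤ 1 := by
  have h1 := h.x0_b e i dd
  have h2 := h.lt (i := 0) (j := i + 1) (by omega) (by omega)
  have h3 := h.lt (i := i + 1) (j := N + 1) (by omega) (by omega)
  have h4 := h.lp
  rw [h.t0] at h2
  rw [h.tN] at h3
  constructor <;> linarith

theorem Ok.H_b (h : d.Ok N) {e i dd : ℕ} (hi : i < N) : 0 < d.H e i dd ∧ d.H e i dd ≤ 3 := by
  have h1 := h.x0_u (e := e) (dd := dd) hi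
  unfold H
  split_ifs
  · exact h.fi_b (by omega) h1.1 h1.2
  · exact h.fi_b (by omega) h1.1 h1.2

end LD

variable {d : LD} {N g : ℕ}

/-- Points of a chain. -/
theorem mem_ch (h : d.Ok N) {e i : ℕ} (he : e ≠ 1) (hi : i ≤ N) {z : ℝ × ℝ} :
    z ∈ segment ℝ (LP N g d (.st e i)) (LQ N g d (.st e i)) ↔
      d.lft e i ≤ z.1 ∧ z.1 ≤ d.rgt N e i ∧ z.2 = sg e * d.fi i z.1 := by
  have e1 : ∀ x, sg e * d.fi i x = sg e * (1 - d.t i * d.t (i + 1)) +
      sg e * (d.t i + d.t (i + 1)) * x := by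
    intro x; unfold LD.fi; ring
  unfold LP LQ
  simp only [if_neg he]
  rw [e1, e1, e1, mem_graph (h.lr hi)]

/-- Points of a spine. -/
theorem mem_sp (h : d.Ok N) {i : ℕ} (hi : i ≤ 4 * N) {z : ℝ × ℝ} :
    z ∈ segment ℝ (LP N g d (.st 1 i)) (LQ N g d (.st 1 i)) ↔
      d.B N i ≤ z.1 ∧ z.1 ≤ d.B N (i + 1) ∧ z.2 = 0 := by
  unfold LP LQ
  simp only [if_true]
  have := mem_graph (α := 0) (β := 0) (h.B_succ hi) (z := z)
  simp only [zero_mul, add_zero] at this
  exact this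

/-- Points of a tie. -/
theorem mem_ti {e i dd k : ℕ} {z : ℝ × ℝ} (hg : 0 < g) :
    z ∈ segment ℝ (LP N g d (.ti e i dd k)) (LQ N g d (.ti e i dd k)) ↔
      z.1 = d.x0 e i dd ∧ ∃ θ : ℝ, (k : ℝ) / g ≤ θ ∧ θ ≤ (k + 1) / g ∧
        z.2 = sg e * d.H e i dd * θ := by
  unfold LP LQ
  simp only
  refine mem_vert ?_
  have : (0 : ℝ) < g := by exact_mod_cast hg
  gcongr
  linarith

theorem sg_0 : sg 0 = -1 := by unfold sg; rw [if_pos rfl]
theorem sg_2 : sg 2 = 1 := by unfold sg; rw [if_neg (by omega)]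

/-- The sign of the height of a point of a strand. -/
theorem st_sign (h : d.Ok N) {e i : ℕ} (hl : LV N g (.st e i)) {z : ℝ × ℝ}
    (hz : z ∈ segment ℝ (LP N g d (.st e i)) (LQ N g d (.st e i))) :
    (0 ≤ z.1 ∧ z.1 ≤ 1) ∧ ((e = 0 ∧ z.2 < 0) ∨ (e = 1 ∧ z.2 = 0) ∨ (e = 2 ∧ 0 < z.2)) ∧
      |z.2| ≤ 3 := by
  obtain ⟨he, hi⟩ := hl
  by_cases h1 : e = 1
  · subst h1
    have hi' : i ≤ 4 * N := by unfold ix at hi; simpa using hi
    rw [mem_sp h hi'] at hz
    have b1 := h.B_b (s := i) (by omega)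
    have b2 := h.B_b (s := i + 1) (by omega)
    exact ⟨⟨by linarith [hz.1], by linarith [hz.2.1]⟩, Or.inr (Or.inl ⟨rfl, hz.2.2⟩), by
      rw [hz.2.2]; norm_num⟩
  · have hi' : i ≤ N := by unfold ix at hi; rwa [if_neg h1] at hi
    rw [mem_ch h h1 hi'] at hz
    have b1 := h.lft_b (e := e) hi'
    have b2 := h.rgt_b (e := e) hi'
    have hx : 0 ≤ z.1 ∧ z.1 ≤ 1 := ⟨by linarith [hz.1], by linarith [hz.2.1]⟩
    have hf := h.fi_b hi' hx.1 hx.2
    refine ⟨hx, ?_⟩
    have he' : e = 0 ∨ e = 2 := by omega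
    rcases he' with rfl | rfl
    · rw [sg_0] at hz
      refine ⟨Or.inl ⟨rfl, by rw [hz.2.2]; linarith⟩, ?_⟩
      rw [hz.2.2, abs_le]; constructor <;> linarith
    · rw [sg_2] at hz
      refine ⟨Or.inr (Or.inr ⟨rfl, by rw [hz.2.2]; linarith⟩), ?_⟩
      rw [hz.2.2, abs_le]; constructor <;> linarith

theorem ti_sign (h : d.Ok N) {e i dd k : ℕ} (hl : LV N g (.ti e i dd k)) {z : ℝ × ℝ}
    (hz : z ∈ segment ℝ (LP N g d (.ti e i dd k)) (LQ N g d (.ti e i dd k))) :
    (0 < z.1 ∧ z.1 < 1) ∧ ((e = 0 ∧ z.2 ≤ 0) ∨ (e = 2 ∧ 0 ≤ z.2)) ∧ |z.2| ≤ 3 ∧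
      (z.2 = 0 → k = 0) := by
  obtain ⟨he, hi, hd, hk⟩ := hl
  have hg : 0 < g := by omega
  have hg' : (0 : ℝ) < g := by exact_mod_cast hg
  rw [mem_ti hg] at hz
  obtain ⟨h1, θ, h2, h3, h4⟩ := hz
  have hx := h.x0_b e i dd
  have hH := h.H_b (e := e) (dd := dd) hi
  have hθ : 0 ≤ θ := le_trans (by positivity) h2
  have hθ' : θ ≤ 1 := by
    refine h3.trans ?_
    rw [div_le_one hg']
    exact_mod_cast hk
  have l1 := h.lt (i := 0) (j := i + 1) (by omega) (by omega)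
  have l2 := h.lt (i := i + 1) (j := N + 1) (by omega) (by omega)
  rw [h.t0] at l1
  rw [h.tN] at l2
  have l3 := h.lp
  have p1 : 0 ≤ d.H e i dd * θ := mul_nonneg hH.1.le hθ
  have p2 : d.H e i dd * θ ≤ 3 := by nlinarith
  refine ⟨⟨by rw [h1]; linarith, by rw [h1]; linarith⟩, ?_, ?_, ?_⟩
  · rcases he with rfl | rfl
    · left; rw [sg_0] at h4; exact ⟨rfl, by rw [h4]; linarith⟩
    · right; rw [sg_2] at h4; exact ⟨rfl, by rw [h4]; linarith⟩
  · rcases he with rfl | rfl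
    · rw [sg_0] at h4; rw [h4, abs_le]; constructor <;> linarith
    · rw [sg_2] at h4; rw [h4, abs_le]; constructor <;> linarith
  · intro h0
    have hs : sg e ≠ 0 := by
      rcases he with rfl | rfl
      · rw [sg_0]; norm_num
      · rw [sg_2]; norm_num
    rw [h0] at h4
    have h5 : θ = 0 := by
      have h6 : sg e * d.H e i dd ≠ 0 := mul_ne_zero hs hH.1.ne'
      rcases mul_eq_zero.1 h4.symm with h7 | h7
      · exact absurd h7 h6
      · exact h7
    rw [h5] at h2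
    by_contra hk0
    have : (0 : ℝ) < (k : ℝ) / g := by
      have : (0 : ℝ) < k := by exact_mod_cast Nat.pos_of_ne_zero hk0
      positivity
    linarith

end Run7.h749
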