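import Pool.Agent.Run7.h749.RepB

/-!
# The segments of one line: intersections
-/

namespace Run7.h749

open Set

variable {d : LD} {N g : ℕ}

/-- The segments of two local vertices meet. -/
def Mt (N g : ℕ) (d : LD) (l l' : Lv) : Prop :=
  ∃ z, z ∈ segment ℝ (LP N g d l) (LQ N g d l) ∧ z ∈ segment ℝ (LP N g d l') (LQ N g d l')

theorem Mt.symm {l l' : Lv} (h : Mt N g d l l') : Mt N g d l' l := by
  obtain ⟨z, h1, h2⟩ := h; exact ⟨z, h2, h1⟩

theorem ixe {e n : ℕ} (h : e ≠ 1) : ix e n = n := by unfold ix; rw [if_neg h]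

theorem lam_ne {e e' : ℕ} (h : d.Ok N) (he : e = 0 ∨ e = 2) (he' : e' = 0 ∨ e' = 2)
    (hl : d.lam e = d.lam e') : e = e' := by
  have := h.lp
  unfold LD.lam at hl
  rcases he with rfl | rfl <;> rcases he' with rfl | rfl
  · rfl
  · simp at hl; linarith
  · simp at hl; linarith
  · rfl

theorem x0_inj (h : d.Ok N) {e i dd e' i' dd' : ℕ} (he : e = 0 ∨ e = 2) (he' : e' = 0 ∨ e' = 2)
    (hi : i < N) (hi' : i' < N) (hd : dd < 2) (hd' : dd' < 2)
    (hx : d.x0 e i dd = d.x0 e' i' dd') : e = e' ∧ i = i' ∧ dd = dd' := by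
  have b1 := h.x0_b e i dd
  have b2 := h.x0_b e' i' dd'
  have hl := h.lp
  have hii : i = i' := by
    rcases Nat.lt_trichotomy i i' with h1 | h1 | h1
    · have := h.lt (i := i + 1) (j := i' + 1) (by omega) (by omega)
      linarith
    · exact h1
    · have := h.lt (i := i' + 1) (j := i + 1) (by omega) (by omega)
      linarith
  subst hii
  have l1 := h.lam_b e
  have l2 := h.lam_b e'
  unfold LD.x0 at hx
  have hdd : dd = dd' := by
    split_ifs at hx with h1 h2 h2
    · omega
    · linarith
    · linarith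
    · omega
  subst hdd
  refine ⟨lam_ne h he he' ?_, rfl, rfl⟩
  split_ifs at hx <;> linarith

/-- Two strand vertices. -/
theorem Mt_st_st (h : d.Ok N) {e i e' i' : ℕ} (hl : LV N g (.st e i)) (hl' : LV N g (.st e' i'))
    (hne : Lv.st e i ≠ .st e' i') :
    Mt N g d (.st e i) (.st e' i') ↔ e = e' ∧ (i' = i + 1 ∨ i = i' + 1) := by
  have hlp := h.lp
  constructor
  · rintro ⟨z, h1, h2⟩
    have s1 := st_sign h hl h1
    have s2 := st_sign h hl' h2
    have hee : e = e' := by
      obtain ⟨-, s1, -⟩ := s1
      obtain ⟨-, s2, -⟩ := s2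
      rcases s1 with ⟨rfl, s1⟩ | ⟨rfl, s1⟩ | ⟨rfl, s1⟩ <;>
        rcases s2 with ⟨rfl, s2⟩ | ⟨rfl, s2⟩ | ⟨rfl, s2⟩ <;> first | rfl | (exfalso; linarith)
    subst hee
    refine ⟨rfl, ?_⟩
    have hii : i ≠ i' := fun hh => hne (by rw [hh])
    by_contra hcon
    by_cases he : e = 1
    · subst he
      have j1 : i ≤ 4 * N := by have := hl.2; unfold ix at this; simpa using this
      have j2 : i' ≤ 4 * N := by have := hl'.2; unfold ix at this; simpa using this
      rw [mem_sp h j1] at h1
      rw [mem_sp h j2] at h2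
      rcases lt_or_gt_of_ne hii with h3 | h3
      · have := h.B_lt (s := i + 1) (s' := i') (by omega) (by omega)
        linarith [h1.2.1, h2.1]
      · have := h.B_lt (s := i' + 1) (s' := i) (by omega) (by omega)
        linarith [h2.2.1, h1.1]
    · have j1 : i ≤ N := by have := hl.2; rwa [ixe he] at this
      have j2 : i' ≤ N := by have := hl'.2; rwa [ixe he] at this
      rw [mem_ch h he j1] at h1
      rw [mem_ch h he j2] at h2
      have lb := h.lam_b e
      rcases lt_or_gt_of_ne hii with h3 | h3
      · have := h.lt (i := i + 1) (j := i') (by omega) (by omega)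
        have r1 := (h.rgt_b (e := e) j1).2.1
        have r2 := (h.lft_b (e := e) j2).2.1
        linarith [h1.2.1, h2.1]
      · have := h.lt (i := i' + 1) (j := i) (by omega) (by omega)
        have r1 := (h.rgt_b (e := e) j2).2.1
        have r2 := (h.lft_b (e := e) j1).2.1
        linarith [h2.2.1, h1.1]
  · rintro ⟨rfl, hii⟩
    have key : ∀ i, LV N g (.st e (i + 1)) → Mt N g d (.st e i) (.st e (i + 1)) := by
      intro i hl
      by_cases he : e = 1
      · subst he
        have j1 : i + 1 ≤ 4 * N := by have := hl.2; unfold ix at this; simpa using this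
        refine ⟨(d.B N (i + 1), 0), ?_, ?_⟩
        · rw [mem_sp h (by omega)]
          exact ⟨(h.B_lt (s := i) (s' := i + 1) (by omega) (by omega)).le, le_rfl, rfl⟩
        · rw [mem_sp h j1]
          exact ⟨le_rfl, (h.B_lt (s := i + 1) (s' := i + 1 + 1) (by omega) (by omega)).le, rfl⟩
      · have j1 : i + 1 ≤ N := by have := hl.2; rwa [ixe he] at this
        refine ⟨(d.t (i + 1), sg e * d.fi i (d.t (i + 1))), ?_, ?_⟩
        · rw [mem_ch h he (by omega)]
          refine ⟨?_, (h.rgt_b (e := e) (by omega)).2.2, rfl⟩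
          have := (h.lft_b (e := e) (i := i) (by omega)).2.2
          have := h.gap i (by omega)
          simp only
          linarith
        · rw [mem_ch h he j1]
          refine ⟨(h.lft_b (e := e) j1).2.2, ?_, ?_⟩
          · have := (h.rgt_b (e := e) j1).2.2
            have := h.gap (i + 1) j1
            simp only
            linarith
          · have := d.fi_sub i (d.t (i + 1))
            rw [sub_self, mul_zero] at this
            simp only
            rw [show d.fi i (d.t (i + 1)) = d.fi (i + 1) (d.t (i + 1)) by linarith]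
    rcases hii with rfl | rfl
    · exact key i hl'
    · exact (key i' hl).symm

/-- A strand vertex and a tie vertex. -/
theorem Mt_st_ti (h : d.Ok N) {e i e' j dd k : ℕ} (hl : LV N g (.st e i))
    (hl' : LV N g (.ti e' j dd k)) :
    Mt N g d (.st e i) (.ti e' j dd k) ↔ (e = 1 ∧ k = 0 ∧ i = 4 * j + 1 + 2 * dd) ∨
      (e = e' ∧ k + 1 = g ∧ i = j + 1 - dd) := by
  have hlp := h.lp
  obtain ⟨he', hj, hdd, hk⟩ := id hl'
  have hg : 0 < g := by omega
  have hg' : (0 : ℝ) < g := by exact_mod_cast hg
  have xb := h.x0_b e' j dd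
  have xu := h.x0_u (e := e') (dd := dd) hj
  have hH := h.H_b (e := e') (dd := dd) hj
  have lb := h.lam_b e'
  have hsg : sg e' ≠ 0 := by
    rcases he' with rfl | rfl
    · rw [sg_0]; norm_num
    · rw [sg_2]; norm_num
  -- the two heights at the tie
  have hfi : d.fi j (d.x0 e' j 0) > d.H e' j 0 ∧ d.fi (j + 1) (d.x0 e' j 1) > d.H e' j 1 := by
    have g1 := h.lt (i := j) (j := j + 2) (by omega) (by omega)
    constructor
    · have := d.fi_sub j (d.x0 e' j 0)
      have hx : d.x0 e' j 0 < d.t (j + 1) := by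
        unfold LD.x0; rw [if_pos rfl]; linarith
      have hh : d.H e' j 0 = d.fi (j + 1) (d.x0 e' j 0) := by unfold LD.H; rw [if_pos rfl]
      rw [hh]
      have : 0 < (d.t (j + 2) - d.t j) * (d.t (j + 1) - d.x0 e' j 0) :=
        mul_pos (by linarith) (by linarith)
      linarith
    · have := d.fi_sub j (d.x0 e' j 1)
      have hx : d.t (j + 1) < d.x0 e' j 1 := by
        unfold LD.x0; rw [if_neg (by omega)]; linarith
      have hh : d.H e' j 1 = d.fi j (d.x0 e' j 1) := by unfold LD.H; rw [if_neg (by omega)]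
      rw [hh]
      have : 0 < (d.t (j + 2) - d.t j) * (d.x0 e' j 1 - d.t (j + 1)) :=
        mul_pos (by linarith) (by linarith)
      nlinarith
  -- the corner belonging to the tie
  constructor
  · rintro ⟨z, h1, h2⟩
    have s1 := st_sign h hl h1
    have s2 := ti_sign h hl' h2
    have h2' := h2
    rw [mem_ti hg] at h2'
    obtain ⟨hz1, θ, t1, t2, hz2⟩ := h2'
    have t3 : θ ≤ 1 := by
      refine t2.trans ?_
      rw [div_le_one hg']
      exact_mod_cast hk
    by_cases he : e = 1
    · left
      subst he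
      have j1 : i ≤ 4 * N := by have := hl.2; unfold ix at this; simpa using this
      rw [mem_sp h j1] at h1
      refine ⟨rfl, s2.2.2.2 h1.2.2, ?_⟩
      -- the position of the tie on the spine
      have pos : d.B N (4 * j + 1 + 2 * dd) < d.x0 e' j dd ∧
          d.x0 e' j dd < d.B N (4 * j + 1 + 2 * dd + 1) := by
        have hdd' : dd = 0 ∨ dd = 1 := by omega
        rcases hdd' with rfl | rfl
        · rw [Nat.mul_zero, Nat.add_zero, LD.B1 hj, LD.B2 hj]
          unfold LD.x0
          rw [if_pos rfl]
          constructor <;> linarith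
        · rw [Nat.mul_one, LD.B3 hj, LD.B4 hj]
          unfold LD.x0
          rw [if_neg (by omega)]
          constructor <;> linarith
      rcases Nat.lt_trichotomy i (4 * j + 1 + 2 * dd) with h3 | h3 | h3
      · exfalso
        have : d.B N (i + 1) ≤ d.B N (4 * j + 1 + 2 * dd) := by
          rcases Nat.eq_or_lt_of_le (show i + 1 ≤ 4 * j + 1 + 2 * dd by omega) with h4 | h4
          · rw [h4]
          · exact (h.B_lt h4 (by omega)).le
        linarith [h1.2.1, pos.1]
      · exact h3
      · exfalso
        have : d.B N (4 * j + 1 + 2 * dd + 1) ≤ d.B N i := by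
          rcases Nat.eq_or_lt_of_le (show 4 * j + 1 + 2 * dd + 1 ≤ i by omega) with h4 | h4
          · rw [h4]
          · exact (h.B_lt h4 (by omega)).le
        linarith [h1.1, pos.2]
    · right
      have hee : e = e' := by
        have he0 := hl.1
        obtain ⟨-, s1, -⟩ := s1
        obtain ⟨-, s2, -⟩ := s2
        rcases s1 with ⟨rfl, s1⟩ | ⟨rfl, s1⟩ | ⟨rfl, s1⟩ <;>
          rcases s2 with ⟨rfl, s2⟩ | ⟨rfl, s2⟩ <;> first | rfl | (exfalso; linarith) | omega
      subst hee
      have j1 : i ≤ N := by have := hl.2; rwa [ixe he] at this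
      rw [mem_ch h he j1] at h1
      obtain ⟨h3, h4, h5⟩ := h1
      have hij : i = j ∨ i = j + 1 := by
        rcases Nat.lt_trichotomy i j with h6 | h6 | h6
        · exfalso
          have g1 := h.lt (i := i + 1) (j := j + 1) (by omega) (by omega)
          have r1 := (h.rgt_b (e := e) j1).2.1
          linarith
        · exact Or.inl h6
        · rcases Nat.eq_or_lt_of_le (show j + 1 ≤ i by omega) with h7 | h7
          · exact Or.inr h7.symm
          · exfalso
            have g1 := h.lt (i := j + 1) (j := i) (by omega) (by omega)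
            have r1 := (h.lft_b (e := e) j1).2.1
            linarith
      have hq : d.fi i (d.x0 e j dd) = d.H e j dd * θ := by
        rw [h5, hz1] at hz2
        have : sg e * (d.fi i (d.x0 e j dd) - d.H e j dd * θ) = 0 := by linarith
        rcases mul_eq_zero.1 this with h8 | h8
        · exact absurd h8 hsg
        · linarith
      have hHθ : d.H e j dd * θ ≤ d.H e j dd := by
        have := mul_le_mul_of_nonneg_left t3 hH.1.le
        linarith
      have kg : ∀ (_ : d.H e j dd * θ = d.H e j dd), k + 1 = g := by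
        intro h6
        have : θ = 1 := by
          have h7 : d.H e j dd * (θ - 1) = 0 := by linarith
          rcases mul_eq_zero.1 h7 with h8 | h8
          · linarith [hH.1]
          · linarith
        rw [this, le_div_iff₀ hg', one_mul] at t2
        have : (g : ℝ) ≤ (k + 1 : ℕ) := by push_cast; exact t2
        have : g ≤ k + 1 := by exact_mod_cast this
        omega
      have hdd' : dd = 0 ∨ dd = 1 := by omega
      rcases hdd' with rfl | rfl
      · rcases hij with rfl | rfl
        · exfalso; linarith [hfi.1]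
        · refine ⟨rfl, kg ?_, by omega⟩
          rw [← hq]; unfold LD.H; rw [if_pos rfl]
      · rcases hij with rfl | rfl
        · refine ⟨rfl, kg ?_, by omega⟩
          rw [← hq]; unfold LD.H; rw [if_neg (by omega)]
        · exfalso; linarith [hfi.2]
  · rintro (⟨rfl, rfl, rfl⟩ | ⟨rfl, hkg, rfl⟩)
    · refine ⟨(d.x0 e' j dd, 0), ?_, ?_⟩
      · rw [mem_sp h (by omega)]
        have hdd' : dd = 0 ∨ dd = 1 := by omega
        rcases hdd' with rfl | rfl
        · rw [Nat.mul_zero, Nat.add_zero, LD.B1 hj, LD.B2 hj]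
          unfold LD.x0
          rw [if_pos rfl]
          refine ⟨?_, ?_, rfl⟩ <;> simp only <;> linarith
        · rw [Nat.mul_one, LD.B3 hj, LD.B4 hj]
          unfold LD.x0
          rw [if_neg (by omega)]
          refine ⟨?_, ?_, rfl⟩ <;> simp only <;> linarith
      · rw [mem_ti hg]
        refine ⟨rfl, 0, by simp, by positivity, by simp⟩
    · have he : e ≠ 1 := by omega
      refine ⟨(d.x0 e j dd, sg e * d.H e j dd), ?_, ?_⟩
      · have j1 : j + 1 - dd ≤ N := by have := hl.2; rwa [ixe he] at this
        rw [mem_ch h he j1]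
        have hdd' : dd = 0 ∨ dd = 1 := by omega
        rcases hdd' with rfl | rfl
        · rw [Nat.sub_zero] at *
          have e1 : d.x0 e j 0 = d.lft e (j + 1) := by
            unfold LD.x0 LD.lft; rw [if_pos rfl, if_neg (by omega)]
          refine ⟨by simp only; rw [e1], ?_, ?_⟩
          · simp only; rw [e1]; exact (h.lr j1).le
          · simp only; unfold LD.H; rw [if_pos rfl]
        · rw [Nat.add_sub_cancel] at *
          have e1 : d.x0 e j 1 = d.rgt N e j := by
            unfold LD.x0 LD.rgt; rw [if_neg (by omega), if_neg (by omega)]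
          refine ⟨?_, by simp only; rw [e1], ?_⟩
          · simp only; rw [e1]; exact (h.lr j1).le
          · simp only; unfold LD.H; rw [if_neg (by omega)]
      · rw [mem_ti hg]
        refine ⟨rfl, 1, ?_, ?_, by simp⟩
        · rw [div_le_one hg']; exact_mod_cast hk.le
        · rw [le_div_iff₀ hg', one_mul]
          have : (g : ℝ) = (k + 1 : ℕ) := by rw [hkg]
          rw [this]; push_cast; exact le_rfl

/-- Two tie vertices. -/
theorem Mt_ti_ti (h : d.Ok N) {e i dd k e' i' dd' k' : ℕ} (hl : LV N g (.ti e i dd k))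
    (hl' : LV N g (.ti e' i' dd' k')) (hne : Lv.ti e i dd k ≠ .ti e' i' dd' k') :
    Mt N g d (.ti e i dd k) (.ti e' i' dd' k') ↔ e = e' ∧ i = i' ∧ dd = dd' ∧
      (k' = k + 1 ∨ k = k' + 1) := by
  obtain ⟨he, hj, hdd, hk⟩ := id hl
  obtain ⟨he', hj', hdd', hk'⟩ := id hl'
  have hg : 0 < g := by omega
  have hg' : (0 : ℝ) < g := by exact_mod_cast hg
  have hH := h.H_b (e := e) (dd := dd) hj
  have hsg : sg e ≠ 0 := by
    rcases he with rfl | rfl
    · rw [sg_0]; norm_num
    · rw [sg_2]; norm_num
  constructor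
  · rintro ⟨z, h1, h2⟩
    rw [mem_ti hg] at h1 h2
    obtain ⟨a1, θ, a2, a3, a4⟩ := h1
    obtain ⟨b1, η, b2, b3, b4⟩ := h2
    obtain ⟨rfl, rfl, rfl⟩ := x0_inj h he he' hj hj' hdd hdd' (a1.symm.trans b1)
    refine ⟨rfl, rfl, rfl, ?_⟩
    have h3 : θ = η := by
      have : (sg e * d.H e i dd) * (θ - η) = 0 := by rw [mul_sub, ← a4, ← b4, sub_self]
      rcases mul_eq_zero.1 this with h5 | h5
      · exact absurd h5 (mul_ne_zero hsg hH.1.ne')
      · linarith
    subst h3
    have hkk : k ≠ k' := fun hh => hne (by rw [hh])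
    have c1 : (k : ℝ) / g ≤ (k' + 1) / g := a2.trans b3
    have c2 : (k' : ℝ) / g ≤ (k + 1) / g := b2.trans a3
    rw [div_le_div_iff_of_pos_right hg'] at c1 c2
    have c1' : k ≤ k' + 1 := by exact_mod_cast c1
    have c2' : k' ≤ k + 1 := by exact_mod_cast c2
    omega
  · rintro ⟨rfl, rfl, rfl, hkk⟩
    have key : ∀ k : ℕ, Mt N g d (.ti e i dd k) (.ti e i dd (k + 1)) := by
      intro k
      refine ⟨(d.x0 e i dd, sg e * d.H e i dd * ((k + 1) / g)), ?_, ?_⟩
      · rw [mem_ti hg]
        refine ⟨rfl, (k + 1) / g, ?_, le_rfl, rfl⟩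
        gcongr; linarith
      · rw [mem_ti hg]
        refine ⟨rfl, (k + 1) / g, ?_, ?_, rfl⟩
        · push_cast; exact le_rfl
        · push_cast; gcongr; linarith
    rcases hkk with rfl | rfl
    · exact key k
    · exact (key k').symm

/-- **The segments of one line.** -/
theorem local_adj (h : d.Ok N) {l l' : Lv} (hl : LV N g l) (hl' : LV N g l') (hne : l ≠ l') :
    Mt N g d l l' ↔ LE g l l' ∨ LE g l' l := by
  cases l with
  | st e i =>
    cases l' with
    | st e' i' =>
      rw [Mt_st_st h hl hl' hne]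
      unfold LE
      constructor
      · rintro ⟨rfl, h1 | h1⟩
        · exact Or.inl ⟨rfl, h1⟩
        · exact Or.inr ⟨rfl, h1⟩
      · rintro (⟨rfl, h1⟩ | ⟨rfl, h1⟩)
        · exact ⟨rfl, Or.inl h1⟩
        · exact ⟨rfl, Or.inr h1⟩
    | ti e' j dd k =>
      rw [Mt_st_ti h hl hl']
      unfold LE
      rw [or_false]
  | ti e j dd k =>
    cases l' with
    | st e' i' =>
      have : Mt N g d (.ti e j dd k) (.st e' i') ↔ Mt N g d (.st e' i') (.ti e j dd k) :=
        ⟨Mt.symm, Mt.symm⟩
      rw [this, Mt_st_ti h hl' hl]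
      unfold LE
      rw [false_or]
    | ti e' j' dd' k' =>
      rw [Mt_ti_ti h hl hl' hne]
      unfold LE
      constructor
      · rintro ⟨rfl, rfl, rfl, h1 | h1⟩
        · exact Or.inl ⟨rfl, rfl, rfl, h1⟩
        · exact Or.inr ⟨rfl, rfl, rfl, h1⟩
      · rintro (⟨rfl, rfl, rfl, h1⟩ | ⟨rfl, rfl, rfl, h1⟩)
        · exact ⟨rfl, rfl, rfl, Or.inl h1⟩
        · exact ⟨rfl, rfl, rfl, Or.inr h1⟩

/-- The parameters of the crossings are in the middle of the segments. -/
structure Mid (N : ℕ) (d : LD) (c : ℕ → ℝ) : Prop where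
  h : ∀ i ≤ N, d.t i + 2 * d.l < c i ∧ c i < d.t (i + 1) - 2 * d.l

/-- The position of the parameter of a crossing. -/
theorem mid_in (h : d.Ok N) {c : ℕ → ℝ} (hc : Mid N d c) {f j : ℕ} (hf : f < 3) (hj : j ≤ N) :
    (LP N g d (.st f (ix f j))).1 < c j ∧ c j < (LQ N g d (.st f (ix f j))).1 := by
  have hlp := h.lp
  have hcj := hc.h j hj
  by_cases he : f = 1
  · subst he
    have hix : ix 1 j = 4 * j := by unfold ix; rw [if_pos rfl]
    unfold LP LQ
    simp only [if_true]
    rw [hix]
    constructor
    · rcases Nat.eq_zero_or_pos j with h0 | h0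
      · subst h0
        rw [Nat.mul_zero, LD.B0]
        rw [h.t0] at hcj; linarith
      · have := LD.B4 (d := d) (N := N) (i := j - 1) (by omega)
        rw [show 4 * (j - 1) + 4 = 4 * j by omega, show j - 1 + 1 = j by omega] at this
        rw [this]; linarith
    · rcases Nat.eq_or_lt_of_le hj with h0 | h0
      · rw [h0, LD.Bl]
        rw [h0, h.tN] at hcj; linarith
      · rw [LD.B1 h0]; linarith
  · rw [ixe he]
    unfold LP LQ
    simp only [if_neg he]
    have := (h.lft_b (e := f) hj).2.2
    have := (h.rgt_b (e := f) hj).2.2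
    constructor <;> linarith

theorem mid_out (h : d.Ok N) {c : ℕ → ℝ} (hc : Mid N d c) {l : Lv} (hl : LV N g l) {j : ℕ}
    (hj : j ≤ N) (h1 : (LP N g d l).1 ≤ c j) (h2 : c j ≤ (LQ N g d l).1) :
    ∃ f < 3, l = .st f (ix f j) := by
  have hlp := h.lp
  have hcj := hc.h j hj
  cases l with
  | st e i =>
    refine ⟨e, hl.1, ?_⟩
    by_cases he : e = 1
    · subst he
      have j1 : i ≤ 4 * N := by have := hl.2; unfold ix at this; simpa using this
      have hix : ix 1 j = 4 * j := by unfold ix; rw [if_pos rfl]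
      have hin := mid_in (g := g) h hc (f := 1) (by omega) hj
      rw [hix] at hin ⊢
      unfold LP at h1 hin
      unfold LQ at h2 hin
      simp only [if_true] at h1 h2 hin
      rcases Nat.lt_trichotomy i (4 * j) with h3 | h3 | h3
      · exfalso
        have : d.B N (i + 1) ≤ d.B N (4 * j) := by
          rcases Nat.eq_or_lt_of_le (show i + 1 ≤ 4 * j by omega) with h4 | h4
          · rw [h4]
          · exact (h.B_lt h4 (by omega)).le
        linarith
      · rw [h3]
      · exfalso
        have : d.B N (4 * j + 1) ≤ d.B N i := by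
          rcases Nat.eq_or_lt_of_le (show 4 * j + 1 ≤ i by omega) with h4 | h4
          · rw [h4]
          · exact (h.B_lt h4 (by omega)).le
        linarith
    · have j1 : i ≤ N := by have := hl.2; rwa [ixe he] at this
      rw [ixe he]
      unfold LP at h1
      unfold LQ at h2
      simp only [if_neg he] at h1 h2
      have l1 := (h.lft_b (e := e) j1).2.1
      have r1 := (h.rgt_b (e := e) j1).2.1
      have lb := h.lam_b e
      rcases Nat.lt_trichotomy i j with h3 | h3 | h3
      · exfalso
        have : d.t (i + 1) ≤ d.t j := by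
          rcases Nat.eq_or_lt_of_le (show i + 1 ≤ j by omega) with h4 | h4
          · rw [h4]
          · linarith [h.lt h4 (by omega)]
        linarith
      · rw [h3]
      · exfalso
        have : d.t (j + 1) ≤ d.t i := by
          rcases Nat.eq_or_lt_of_le (show j + 1 ≤ i by omega) with h4 | h4
          · rw [h4]
          · linarith [h.lt h4 (by omega)]
        linarith
  | ti e i dd k =>
    exfalso
    obtain ⟨he, hi, hdd, hk⟩ := hl
    unfold LP at h1
    unfold LQ at h2
    simp only at h1 h2
    have xb := h.x0_b e i dd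
    rcases Nat.lt_trichotomy j (i + 1) with h3 | h3 | h3
    · have : d.t (j + 1) ≤ d.t (i + 1) := by
        rcases Nat.eq_or_lt_of_le (show j + 1 ≤ i + 1 by omega) with h4 | h4
        · rw [h4]
        · linarith [h.lt h4 (by omega)]
      linarith
    · rw [h3] at hcj
      rw [h3] at h1 h2
      linarith
    · linarith [h.lt h3 (by omega)]

end Run7.h749
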