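import Pool.Agent.Run7.h749.RepC
import Pool.Agent.Run7.h749.Adj

/-!
# Coordinates with respect to the lines, small perturbations
-/

namespace Run7.h749

open Set Filter Topology Arr

variable (u v : Bool → ℕ → ℝ)

/-- The point with given coordinates with respect to a line. -/
def ph (a : Ln) (z : ℝ × ℝ) : ℝ × ℝ :=
  if a.1 = false then (z.1, u a.1 a.2 + (v a.1 a.2 - u a.1 a.2) * z.1 + z.2)
  else (u a.1 a.2 + (v a.1 a.2 - u a.1 a.2) * z.1 + z.2, z.1)

/-- The first coordinate with respect to a line. -/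
def tc (a : Ln) (z : ℝ × ℝ) : ℝ := if a.1 = false then z.1 else z.2

/-- The second coordinate with respect to a line. -/
def hc (a : Ln) (z : ℝ × ℝ) : ℝ :=
  if a.1 = false then z.2 - u a.1 a.2 - (v a.1 a.2 - u a.1 a.2) * z.1
  else z.1 - u a.1 a.2 - (v a.1 a.2 - u a.1 a.2) * z.2

/-- The scaled coordinates. -/
def EE (a : Ln) (ε : ℝ) (z : ℝ × ℝ) : ℝ × ℝ := ph u v a (z.1, ε * z.2)

variable {u v}

theorem tc_ph (a : Ln) (z : ℝ × ℝ) : tc a (ph u v a z) = z.1 := by
  unfold tc ph; split_ifs <;> rfl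

theorem hc_ph (a : Ln) (z : ℝ × ℝ) : hc u v a (ph u v a z) = z.2 := by
  unfold hc ph; split_ifs <;> simp only <;> ring

theorem ph_ch (a : Ln) (z : ℝ × ℝ) : ph u v a (tc a z, hc u v a z) = z := by
  unfold hc ph tc; split_ifs <;> ext <;> simp only <;> ring

theorem ph_aff (a : Ln) (p q : ℝ × ℝ) (s : ℝ) :
    ph u v a (p + s • (q - p)) = ph u v a p + s • (ph u v a q - ph u v a p) := by
  unfold ph
  split_ifs <;> ext <;> simp only [Prod.fst_add, Prod.snd_add, Prod.smul_fst, Prod.smul_snd,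
    Prod.fst_sub, Prod.snd_sub, smul_eq_mul] <;> ring

theorem hc_aff (a : Ln) (p q : ℝ × ℝ) (s : ℝ) :
    hc u v a (p + s • (q - p)) = (1 - s) * hc u v a p + s * hc u v a q := by
  unfold hc
  split_ifs <;> simp only [Prod.fst_add, Prod.snd_add, Prod.smul_fst, Prod.smul_snd,
    Prod.fst_sub, Prod.snd_sub, smul_eq_mul] <;> ring

theorem EE_seg (a : Ln) (ε : ℝ) (p q : ℝ × ℝ) :
    segment ℝ (EE u v a ε p) (EE u v a ε q) = EE u v a ε '' segment ℝ p q := by
  rw [segment_eq_image', segment_eq_image', image_image]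
  apply image_congr
  intro s _
  unfold EE
  rw [← ph_aff]
  congr 1
  ext
  · rfl
  · simp only [Prod.snd_add, Prod.smul_snd, Prod.snd_sub, smul_eq_mul]
    ring

theorem EE_inj (a : Ln) {ε : ℝ} (hε : ε ≠ 0) : Function.Injective (EE u v a ε) := by
  intro z w h
  unfold EE at h
  have h1 := congrArg (tc a) h
  have h2 := congrArg (hc u v a) h
  rw [tc_ph, tc_ph] at h1
  rw [hc_ph, hc_ph] at h2
  exact Prod.ext h1 (mul_left_cancel₀ hε h2)

theorem tc_EE (a : Ln) (ε : ℝ) (z : ℝ × ℝ) : tc a (EE u v a ε z) = z.1 := tc_ph a _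

theorem hc_EE (a : Ln) (ε : ℝ) (z : ℝ × ℝ) : hc u v a (EE u v a ε z) = ε * z.2 := hc_ph a _

theorem cont_EE (a : Ln) (z : ℝ × ℝ) : Continuous fun ε => EE u v a ε z := by
  unfold EE ph
  split_ifs <;> fun_prop

theorem EE_zero (a : Ln) (z : ℝ × ℝ) : EE u v a 0 z = ph u v a (z.1, 0) := by
  unfold EE; rw [zero_mul]

theorem cont_hc (a : Ln) : Continuous (hc u v a) := by
  unfold hc
  split_ifs <;> fun_prop

/-- The centre line. -/
def CC (u v : Bool → ℕ → ℝ) (a : Ln) : Set (ℝ × ℝ) := segment ℝ (ph u v a (0, 0)) (ph u v a (1, 0))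

theorem mem_CC (a : Ln) {z : ℝ × ℝ} : z ∈ CC u v a ↔ ∃ t, 0 ≤ t ∧ t ≤ 1 ∧ z = ph u v a (t, 0) := by
  unfold CC
  rw [segment_eq_image']
  constructor
  · rintro ⟨t, ⟨h0, h1⟩, rfl⟩
    refine ⟨t, h0, h1, ?_⟩
    beta_reduce
    rw [← ph_aff]
    congr 1
    ext <;> simp
  · rintro ⟨t, h0, h1, rfl⟩
    refine ⟨t, ⟨h0, h1⟩, ?_⟩
    beta_reduce
    rw [← ph_aff]
    congr 1
    ext <;> simp

/-- Areas and heights. -/
theorem D_line (a : Ln) (t1 t2 : ℝ) (r : ℝ × ℝ) :
    Dt3 (ph u v a (t1, 0)) (ph u v a (t2, 0)) r =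
      (if a.1 = false then 1 else -1) * ((t2 - t1) * hc u v a r) := by
  unfold Dt3 ph hc
  split_ifs <;> simp only <;> ring

theorem D_pt (a : Ln) (r s : ℝ × ℝ) (c t : ℝ) (hc0 : ph u v a (c, 0) ∈ segment ℝ r s) :
    Dt3 r s (ph u v a (t, 0)) = (if a.1 = false then 1 else -1) *
      ((c - t) * (hc u v a s - hc u v a r)) := by
  rw [segment_eq_image'] at hc0
  obtain ⟨θ, -, hθ⟩ := hc0
  beta_reduce at hθ
  -- the point lies on the line of `r` and `s`
  have e1 : (s.1 - r.1) * ((ph u v a (c, 0)).2 - r.2) -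
      (s.2 - r.2) * ((ph u v a (c, 0)).1 - r.1) = 0 := by
    rw [← hθ]
    simp only [Prod.fst_add, Prod.snd_add, Prod.smul_fst, Prod.smul_snd,
      Prod.fst_sub, Prod.snd_sub, smul_eq_mul]
    ring
  unfold Dt3 hc
  unfold ph at e1 ⊢
  split_ifs at e1 ⊢ <;> simp only at e1 ⊢ <;> linear_combination e1

variable {N g : ℕ} {d : LD}

theorem finLV (N g : ℕ) : {l : Lv | LV N g l}.Finite := by
  refine Set.Finite.subset (Finset.finite_toSet (((Finset.range 3) ×ˢ
      (Finset.range (4 * N + 1))).image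
      (fun x : ℕ × ℕ => Lv.st x.1 x.2) ∪
      ((Finset.range 3) ×ˢ (Finset.range N) ×ˢ (Finset.range 2) ×ˢ (Finset.range g)).image
      (fun x : ℕ × ℕ × ℕ × ℕ => Lv.ti x.1 x.2.1 x.2.2.1 x.2.2.2) : Finset Lv)) ?_
  intro l hl
  rw [Finset.mem_coe, Finset.mem_union]
  cases l with
  | st e i =>
    left
    rw [Finset.mem_image]
    obtain ⟨h1, h2⟩ := hl
    refine ⟨(e, i), ?_, rfl⟩
    rw [Finset.mem_product, Finset.mem_range, Finset.mem_range]
    refine ⟨h1, ?_⟩
    unfold ix at h2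
    simp only
    split_ifs at h2 <;> omega
  | ti e i dd k =>
    right
    rw [Finset.mem_image]
    obtain ⟨h1, h2, h3, h4⟩ := hl
    refine ⟨(e, i, dd, k), ?_, rfl⟩
    simp only [Finset.mem_product, Finset.mem_range]
    omega

/-- The parameters of the end points. -/
theorem LPQ (h : d.Ok N) {l : Lv} (hl : LV N g l) :
    0 ≤ (LP N g d l).1 ∧ (LP N g d l).1 ≤ (LQ N g d l).1 ∧ (LQ N g d l).1 ≤ 1 := by
  cases l with
  | st e i =>
    have s1 := st_sign (g := g) h hl (left_mem_segment ℝ _ _)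
    have s2 := st_sign (g := g) h hl (right_mem_segment ℝ _ _)
    refine ⟨s1.1.1, ?_, s2.1.2⟩
    by_cases he : e = 1
    · subst he
      have j1 : i ≤ 4 * N := by have := hl.2; unfold ix at this; simpa using this
      unfold LP LQ
      simp only [if_true]
      exact (h.B_succ j1).le
    · have j1 : i ≤ N := by have := hl.2; rwa [ixe he] at this
      unfold LP LQ
      simp only [if_neg he]
      exact (h.lr j1).le
  | ti e i dd k =>
    have s1 := ti_sign (g := g) h hl (left_mem_segment ℝ _ _)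
    have s2 := ti_sign (g := g) h hl (right_mem_segment ℝ _ _)
    exact ⟨s1.1.1.le, le_rfl, s2.1.2.le⟩

/-- Points of the limit segment. -/
theorem lim_seg (a : Ln) {t1 t2 : ℝ} (h : t1 ≤ t2) {z : ℝ × ℝ}
    (hz : z ∈ segment ℝ (ph u v a (t1, 0)) (ph u v a (t2, 0))) :
    ∃ t, t1 ≤ t ∧ t ≤ t2 ∧ z = ph u v a (t, 0) := by
  rw [segment_eq_image'] at hz
  obtain ⟨s, ⟨h0, h1⟩, rfl⟩ := hz
  refine ⟨t1 + s * (t2 - t1), by nlinarith, by nlinarith, ?_⟩
  beta_reduce
  rw [← ph_aff]
  congr 1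
  ext <;> simp

/-- A segment which does not meet the centre line. -/
theorem T0 (h : d.Ok N) (b : Ln) {p q : ℝ × ℝ} (hd : ∀ z ∈ CC u v b, z ∉ segment ℝ p q) :
    ∀ᶠ ε in 𝓝 (0 : ℝ), ∀ l ∈ {l | LV N g l}, ∀ z ∈ segment ℝ (EE u v b ε (LP N g d l))
      (EE u v b ε (LQ N g d l)), z ∉ segment ℝ p q := by
  rw [Filter.eventually_all_finite (finLV N g)]
  intro l hl
  refine ev_disj (cont_EE b _) (cont_EE b _) (compact_seg p q) ?_
  intro z hz
  rw [EE_zero, EE_zero] at hz
  obtain ⟨h1, h2, h3⟩ := LPQ h hl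
  obtain ⟨t, t1, t2, rfl⟩ := lim_seg b h2 hz
  exact hd _ ((mem_CC b).2 ⟨t, by linarith, by linarith, rfl⟩)

/-- A segment which crosses the centre line. -/
theorem T1 (h : d.Ok N) {c : ℕ → ℝ} (hc' : Mid N d c) (b : Ln) {p q : ℝ × ℝ} {j : ℕ} (hj : j ≤ N)
    (hpq : hc u v b p * hc u v b q < 0) (hz : ph u v b (c j, 0) ∈ segment ℝ p q) :
    ∀ᶠ ε in 𝓝 (0 : ℝ), ∀ l ∈ {l | LV N g l}, (∃ z, z ∈ segment ℝ (EE u v b ε (LP N g d l))
      (EE u v b ε (LQ N g d l)) ∧ z ∈ segment ℝ p q) ↔ ∃ f < 3, l = .st f (ix f j) := by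
  rw [Filter.eventually_all_finite (finLV N g)]
  intro l hl
  have hneq : hc u v b p ≠ hc u v b q := by
    intro he; rw [he] at hpq; nlinarith [mul_self_nonneg (hc u v b q)]
  by_cases hx : ∃ f < 3, l = .st f (ix f j)
  · have hx' := hx
    obtain ⟨f, hf, rfl⟩ := hx'
    obtain ⟨m1, m2⟩ := mid_in (g := g) h hc' hf hj
    have := ev_cross (p := fun ε => EE u v b ε (LP N g d (.st f (ix f j))))
      (q := fun ε => EE u v b ε (LQ N g d (.st f (ix f j)))) (cont_EE b _) (cont_EE b _)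
      (r := p) (s := q) ?_ ?_
    · filter_upwards [this] with ε hε
      exact ⟨fun _ => hx, fun _ => hε⟩
    · simp only [EE_zero]
      rw [D_line, D_line]
      set x := (LQ N g d (.st f (ix f j))).1 - (LP N g d (.st f (ix f j))).1
      have hxp : 0 < x := by simp only [x]; linarith
      have e : (if b.1 = false then (1 : ℝ) else -1) * (x * hc u v b p) *
          ((if b.1 = false then 1 else -1) * (x * hc u v b q)) =
          x ^ 2 * (hc u v b p * hc u v b q) := by
        split_ifs <;> ring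
      rw [e]
      exact mul_neg_of_pos_of_neg (by positivity) hpq
    · simp only [EE_zero]
      rw [D_pt b p q (c j) _ hz, D_pt b p q (c j) _ hz]
      set x := c j - (LP N g d (.st f (ix f j))).1
      set y := c j - (LQ N g d (.st f (ix f j))).1
      have hxp : 0 < x := by simp only [x]; linarith
      have hyp : y < 0 := by simp only [y]; linarith
      set w := hc u v b q - hc u v b p
      have hw : w ≠ 0 := sub_ne_zero.2 hneq.symm
      have e : (if b.1 = false then (1 : ℝ) else -1) * (x * w) *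
          ((if b.1 = false then 1 else -1) * (y * w)) = w ^ 2 * (x * y) := by
        split_ifs <;> ring
      rw [e]
      exact mul_neg_of_pos_of_neg (by positivity) (mul_neg_of_pos_of_neg hxp hyp)
  · have hout : ¬ ((LP N g d l).1 ≤ c j ∧ c j ≤ (LQ N g d l).1) := fun hh =>
      hx (mid_out h hc' hl hj hh.1 hh.2)
    have := ev_disj (p := fun ε => EE u v b ε (LP N g d l))
      (q := fun ε => EE u v b ε (LQ N g d l)) (cont_EE b _) (cont_EE b _)
      (compact_seg p q) ?_
    · filter_upwards [this] with ε hε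
      refine ⟨fun hh => ?_, fun hh => absurd hh hx⟩
      obtain ⟨z, h1, h2⟩ := hh
      exact absurd h2 (hε z h1)
    · intro z hz1 hz2
      simp only [EE_zero] at hz1
      obtain ⟨t, t1, t2, rfl⟩ := lim_seg b (LPQ h hl).2.1 hz1
      apply hout
      -- the zero of the height is unique
      have : t = c j := by
        rw [segment_eq_image'] at hz hz2
        obtain ⟨s, -, hs⟩ := hz
        obtain ⟨s', -, hs'⟩ := hz2
        beta_reduce at hs hs'
        have k1 := hc_aff (u := u) (v := v) b p q s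
        have k2 := hc_aff (u := u) (v := v) b p q s'
        rw [hs, hc_ph] at k1
        rw [hs', hc_ph] at k2
        have k3 : (s - s') * (hc u v b q - hc u v b p) = 0 := by
          simp only at k1 k2
          linarith
        have k4 : s = s' := by
          rcases mul_eq_zero.1 k3 with k5 | k5
          · linarith
          · exact absurd (by linarith) hneq
        rw [k4, hs'] at hs
        have := congrArg (tc b) hs
        rw [tc_ph, tc_ph] at this
        exact this
      rw [← this]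
      exact ⟨t1, t2⟩

end Run7.h749
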