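import Pool.Agent.Run7.h749.Sep2

/-!
# Soundness: a representation gives straight lines
-/

namespace Run7.h749

open Arr Set

variable {A : Arr} {g : ℕ} {P Q : Vx → ℝ × ℝ} {a b : Ln} {s : Bool}

/-- The slots of different crossings are different. -/
theorem sl_inj (hA : A.Ok) {b l l' : Ln} (hb : A.IsL b) (hl : A.IsL l) (hl' : A.IsL l')
    (hc : A.cr b l = true) (hc' : A.cr b l' = true) (he : A.sl b l = A.sl b l') : l = l' := by
  obtain ⟨d, j⟩ := b
  obtain ⟨c, i⟩ := l
  obtain ⟨c', i'⟩ := l'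
  have hj : j < A.m d := hb
  have hi : i < A.m c := hl
  have hi' : i' < A.m c' := hl'
  by_cases h1 : c = d
  · subst h1
    by_cases h2 : c' = c
    · subst h2
      rw [cr_s] at hc hc'
      rw [sl_s, sl_s] at he
      rw [hA.ssinj c' j i i' hc hc' he]
    · have := not_eq h2
      subst this
      rw [cr_s] at hc
      rw [sl_s, sl_o] at he
      exact absurd he (hA.ssd c j i i' hc hi')
  · have := not_eq h1
    subst this
    by_cases h2 : c' = d
    · subst h2
      rw [cr_s] at hc'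
      rw [sl_s, sl_o] at he
      exact absurd he.symm (hA.ssd c' j i' i hc' hi)
    · have := not_eq h2
      subst this
      rw [sl_o, sl_o] at he
      rw [hA.sdinj d j i i' hj hi hi' he]

theorem pos_inj (hg : 4 ≤ g) {s r s' r' : ℕ} (hr : r ≤ 2) (hr' : r' ≤ 2)
    (h : pos g s r = pos g s' r') : s = s' ∧ r = r' := by
  unfold pos at h
  have := Nat.eq_of_mul_eq_mul_left (by omega : 0 < g) h
  omega

theorem zp_inj (hg : 4 ≤ g) {b l l' : Ln} {f f' : ℕ} (hf : f < 3) (hf' : f' < 3)
    (h : A.zp g b l f = A.zp g b l' f') : A.sl b l = A.sl b l' := by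
  obtain ⟨r, h1, h2⟩ := zp_eq (A := A) (g := g) b l f
  obtain ⟨r', h1', h2'⟩ := zp_eq (A := A) (g := g) b l' f'
  rw [h1, h1'] at h
  have := h2 hf
  have := h2' hf'
  exact (pos_inj hg (by omega) (by omega) h).1

theorem RR_eq (ha : A.Re a) {p h : Bool} (he : RR A a s p h = a) :
    p = false ∧ h = !s := by
  have a1 := ha.1
  have a2 := ha.2
  unfold RR at he
  cases p
  · refine ⟨rfl, ?_⟩
    simp only [Bool.false_eq_true, if_false] at he
    by_cases hh : h = s
    · exfalso
      rw [if_pos hh] at he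
      have := congrArg Prod.snd he
      simp only at this
      split_ifs at this <;> omega
    · cases h <;> cases s <;> simp_all
  · exfalso
    simp only [if_true] at he
    have := congrArg Prod.fst he
    simp at this

/-- The crossing with `a` is at one end of the part of `b` in the region. -/
theorem ends (ha : A.Re a) (hb : A.Re b) (hne : b ≠ a) (hc : A.cr b a = true) (s : Bool) :
    (zL A a s b = a ∧ A.zp g b a (ee (!s)) = fin A g b a) ∨
    (zH A a s b = a ∧ A.zp g b a (ee (!s)) = pos g (A.sl b a) 0) := by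
  obtain ⟨c, i⟩ := a
  obtain ⟨d, j⟩ := b
  by_cases hd : d = c
  · subst hd
    rw [cr_s] at hc
    have hij : j ≠ i := fun h => hne (by rw [h])
    by_cases hdd : decide (i < j) = s
    · left
      constructor
      · unfold zL
        simp only [if_true]
        rw [if_pos ⟨hc, hdd⟩]
      · unfold Arr.zp fin
        split_ifs with h1 h2
        · rfl
        · have : s = false := by
            unfold rv at h2
            rw [decide_eq_true_eq] at h2
            rw [← hdd, decide_eq_false_iff_not]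
            have := h2.2; simp only at this; omega
          subst this
          rfl
        · have : s = true := by
            unfold rv at h2
            rw [decide_eq_true_eq] at h2
            rw [← hdd, decide_eq_true_eq]
            simp only [true_and] at h2
            omega
          subst this
          rfl
    · right
      constructor
      · unfold zH
        simp only [if_true]
        rw [if_pos ⟨hc, hdd⟩]
      · unfold Arr.zp
        split_ifs with h1 h2
        · rfl
        · have : s = true := by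
            unfold rv at h2
            rw [decide_eq_true_eq] at h2
            have h3 := h2.2
            simp only at h3
            by_contra hs
            apply hdd
            have : s = false := by cases s <;> simp_all
            rw [this, decide_eq_false_iff_not]
            omega
          subst this
          rfl
        · have : s = false := by
            unfold rv at h2
            rw [decide_eq_true_eq] at h2
            simp only [true_and] at h2
            by_contra hs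
            apply hdd
            have : s = true := by cases s <;> simp_all
            rw [this, decide_eq_true_eq]
            omega
          subst this
          rfl
  · have hrv : rv (d, j) (c, i) = false := by
      unfold rv; simp [hd]
    cases s
    · right
      constructor
      · unfold zH
        simp only [if_neg hd]
        simp [RR]
      · unfold Arr.zp
        rw [hrv]
        split_ifs <;> first | rfl | simp_all
    · left
      constructor
      · unfold zL
        simp only [if_neg hd]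
        simp [RR]
      · unfold Arr.zp fin
        rw [hrv]
        split_ifs <;> first | rfl | simp_all

theorem In.of (hb : A.Re b) (hne : b ≠ a) (hc : A.cr b a = true) (s : Bool) : In A a s b := by
  refine ⟨hne, by have := hb.1; omega, by have := hb.2; omega, fun h => Or.inl ?_⟩
  unfold Arr.cr at hc
  rwa [if_pos h, h] at hc

theorem ev_aff (c : ℝ × ℝ × ℝ) (z w : ℝ × ℝ) (t : ℝ) :
    ev c (w + t • (z - w)) = (1 - t) * ev c w + t * ev c z := by
  unfold ev
  simp only [Prod.fst_add, Prod.snd_add, Prod.smul_fst, Prod.smul_snd, Prod.fst_sub, Prod.snd_sub,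
    smul_eq_mul]
  ring

namespace RS

/-- **The sign at a crossing.** -/
theorem sign (hR : RS A g P Q) (ha : A.Re a) (hb : A.Re b) (hne : b ≠ a) (hc : A.cr b a = true)
    (s : Bool) {U : Set (ℝ × ℝ)} {c : ℝ × ℝ × ℝ}
    (hU : Top.Rg (QQ A g P Q (RR A a s)) (UU P Q (WI A g a s)) (UU P Q (WO A g (RR A a s))) U)
    (hcU : ∀ z ∈ U, 0 < sgn s * ev c z) {δ : ℕ} (hδ : δ < 3) :
    0 ≤ sgn s * ev c (wc A g P Q a b (ee (!s)) δ) := by
  have hA := hR.ok
  have hg := hR.hg
  have haL : A.IsL a := by have := ha.2; unfold Arr.IsL; omega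
  have hbL : A.IsL b := by have := hb.2; unfold Arr.IsL; omega
  have hI : In A a s b := In.of hb hne hc s
  have hc' : A.cr a b = true := by rw [hA.cr_comm]; exact hc
  have hQ := QHa hA ha s
  set ε := ee (!s) with hε
  have hε3 : ε < 3 := ee_lt _
  set w := wc A g P Q a b ε δ with hw
  have hcr := (hR.cross haL hbL hne.symm hc' hε3 hδ).1
  set v := cv A g b a δ ε with hv
  have hVv : A.IsV g v := hR.cv_V hbL haL hc hδ hε3
  have bd := hR.zp_bd hbL haL hc hε3
  -- the next vertex
  obtain ⟨v', hv', hAj⟩ : ∃ v' ∈ WI A g a s, A.Aj g v v' := by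
    obtain ⟨z1, z2, z3, z4, z5⟩ := hI.cz hA ha
    rcases ends (g := g) ha hb hne hc s with ⟨e1, e2⟩ | ⟨e1, e2⟩
    · refine ⟨.st b.1 b.2 δ (ix δ (A.zp g b a ε) + 1), ⟨b, δ, _, rfl, hI, hδ, ?_, ?_⟩, ?_⟩
      · rw [e1, e2]; omega
      · rw [e1] at z5
        have := fin_lt (g := g) (r := 0) z5
        rw [e2]
        unfold ix
        split_ifs <;> omega
      · left
        exact Ed.str b.1 b.2 δ _ hbL hδ (by rw [ix_lt]; omega)
    · refine ⟨.st b.1 b.2 δ (ix δ (A.zp g b a ε) - 1), ⟨b, δ, _, rfl, hI, hδ, ?_, ?_⟩, ?_⟩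
      · rw [e1] at z5
        have := fin_lt (g := g) (r := 0) z5
        rw [e2]
        unfold ix
        split_ifs <;> omega
      · rw [e1, e2]
        have := le_pos (g := g) (A.sl b a) 0
        have : 0 < ix δ (pos g (A.sl b a) 0) := ix_pos (by omega)
        omega
      · right
        have h0 : 0 < ix δ (A.zp g b a ε) := ix_pos (by omega)
        have := Ed.str (A := A) (g := g) b.1 b.2 δ (ix δ (A.zp g b a ε) - 1) hbL hδ (by
          have : ix δ (A.zp g b a ε) < ix δ (A.N g) := ix_lt.2 (by omega)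
          omega)
        rwa [show ix δ (A.zp g b a ε) - 1 + 1 = ix δ (A.zp g b a ε) by omega] at this
  have hVv' : A.IsV g v' := WI_V hA ha hg hv'
  obtain ⟨y, hy, hy'⟩ := hR.mt hVv hVv' hAj
  have hwv : w ∈ segment ℝ (P v) (Q v) := hcr.2.1
  have hwa : w ∈ segment ℝ (P (cv A g a b ε δ)) (Q (cv A g a b ε δ)) := hcr.1
  have hwy : y ≠ w := by
    intro he
    obtain ⟨b', e, t, rfl, hF⟩ := WI_FR hA ha hg hv'
    have h1 := hR.FR_st hF (p := false) (h := !s) (f := ε) (t' := ix ε (A.zp g a b δ))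
    rw [RR_a] at h1
    exact hR.dj' hVv' (hR.cv_V haL hbL hc' hε3 hδ) h1.1 (fun hAA => (h1.2 hAA).1)
      (he ▸ hy' : w ∈ _) hwa
  let C : Set (ℝ × ℝ) := (fun τ : ℝ => w + τ • (y - w)) '' Ioc 0 1
  have hCpre : IsPreconnected C := isPreconnected_Ioc.image _ (by fun_prop)
  have hCseg : ∀ z ∈ C, z ∈ segment ℝ w y ∧ z ≠ w := by
    rintro z ⟨τ, hτ, rfl⟩
    refine ⟨?_, ?_⟩
    · rw [segment_eq_image']
      exact ⟨τ, ⟨hτ.1.le, hτ.2⟩, rfl⟩
    · intro he
      have : τ • (y - w) = 0 := by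
        have h2 : w + τ • (y - w) = w := he
        simpa using h2
      rcases smul_eq_zero.1 this with h | h
      · exact hτ.1.ne' h
      · exact hwy (sub_eq_zero.1 h)
  have hCd : Disjoint C (QQ A g P Q (RR A a s)) := by
    rw [Set.disjoint_left]
    rintro z hz ⟨p, h, t, -, hb', hz'⟩
    obtain ⟨z1, z2⟩ := hCseg z hz
    have hzv : z ∈ segment ℝ (P v) (Q v) := (convex_segment _ _).segment_subset hwv hy z1
    have ok := hQ.ok p h
    have b2 := hR.hi_le ok
    have hz2 := hR.sd_seg ok hb'.1 hb'.2 hz'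
    have V2 : A.IsV g ((am (RR A a s) p h).vx t) := vx_V ok (by omega)
    have hnR := hI.nR p h
    by_cases hAA : A.Aj g v ((am (RR A a s) p h).vx t)
    · have hAA' : A.Aj g (.st b.1 b.2 δ (ix δ (A.zp g b a ε)))
        (.st (RR A a s p h).1 (RR A a s p h).2 (ee h) t) := hAA
      obtain ⟨q1, q2, q3, q4, q5⟩ := hR.aj_ne hnR hAA'
      have q6 := ix_inj q4
      have q7 := zp_inj hg hε3 q2 q6
      have q8 := sl_inj hA hbL haL (hQ.hl p h) hc q3 q7
      obtain ⟨rfl, rfl⟩ := RR_eq ha q8.symm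
      apply z2
      refine hcr.2.2 z ?_ hzv
      have : (am (RR A a s) false (!s)).vx t = cv A g a b ε δ := by
        unfold Am.vx am cv
        simp only
        rw [RR_a] at q5 ⊢
        rw [q5]
      rw [← this]
      exact hz2
    · refine hR.dj' hVv V2 ?_ hAA hzv hz2
      intro he
      have he' : (Vx.st b.1 b.2 δ (ix δ (A.zp g b a ε))) =
        .st (RR A a s p h).1 (RR A a s p h).2 (ee h) t := he
      simp only [Vx.st.injEq] at he'
      exact hnR (Prod.ext he'.1 he'.2.1)
  have hyC : y ∈ C := ⟨1, ⟨by norm_num, le_rfl⟩, by simp⟩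
  have hyU : y ∈ U := hU.inn (mem_UU hv' hy')
  have hCU : C ⊆ U := hU.mx C hCpre hCd ⟨y, hyC, hyU⟩
  by_contra hcon
  push Not at hcon
  have hB := hcU y hyU
  set α := sgn s * ev c w with hα
  set β := sgn s * ev c y with hβ
  have hall : ∀ τ : ℝ, 0 < τ → τ ≤ 1 → 0 < (1 - τ) * α + τ * β := by
    intro τ h1 h2
    have := hcU _ (hCU ⟨τ, ⟨h1, h2⟩, rfl⟩)
    rw [ev_aff] at this
    have e : sgn s * ((1 - τ) * ev c w + τ * ev c y) = (1 - τ) * α + τ * β := by
      rw [hα, hβ]; ring
    rwa [e] at this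
  -- choose a small parameter
  have h1 := hall (-α / (β - α)) (div_pos (by linarith) (by linarith))
    (by rw [div_le_one (by linarith)]; linarith)
  have h2 : (1 - -α / (β - α)) * α + -α / (β - α) * β = 0 := by
    have : β - α ≠ 0 := by linarith
    field_simp
    ring
  linarith

end RS

/-- A zero of an affine function on a segment. -/
theorem zero_seg {c : ℝ × ℝ × ℝ} {p q : ℝ × ℝ} (hp : ev c p ≤ 0) (hq : 0 ≤ ev c q) :
    ∃ z ∈ segment ℝ p q, ev c z = 0 := by
  rcases eq_or_lt_of_le (show 0 ≤ ev c q - ev c p by linarith) with h | h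
  · exact ⟨p, left_mem_segment ℝ _ _, by linarith⟩
  · refine ⟨p + (-ev c p / (ev c q - ev c p)) • (q - p), ?_, ?_⟩
    · rw [segment_eq_image']
      exact ⟨_, ⟨div_nonneg (by linarith) h.le, by rw [div_le_one h]; linarith⟩, rfl⟩
    · rw [ev_aff]
      field_simp
      ring

theorem ev_cv (c : ℝ × ℝ × ℝ) : Convex ℝ {z | ev c z ≤ 0} ∧ Convex ℝ {z | 0 ≤ ev c z} ∧
    Convex ℝ {z | ev c z = 0} ∧ ∀ s, Convex ℝ {z | 0 < sgn s * ev c z} := by
  have key : ∀ x y : ℝ × ℝ, ∀ a b : ℝ, a + b = 1 →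
      ev c (a • x + b • y) = a * ev c x + b * ev c y := by
    intro x y a b hab
    have : a = 1 - b := by linarith
    subst this
    unfold ev
    simp only [Prod.fst_add, Prod.snd_add, Prod.smul_fst, Prod.smul_snd, smul_eq_mul]
    ring
  refine ⟨?_, ?_, ?_, fun s => ?_⟩
  · intro x hx y hy a b ha hb hab
    show ev c _ ≤ 0
    rw [key _ _ _ _ hab]
    have h1 : ev c x ≤ 0 := hx
    have h2 : ev c y ≤ 0 := hy
    nlinarith
  · intro x hx y hy a b ha hb hab
    show 0 ≤ ev c _
    rw [key _ _ _ _ hab]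
    have h1 : 0 ≤ ev c x := hx
    have h2 : 0 ≤ ev c y := hy
    positivity
  · intro x hx y hy a b ha hb hab
    show ev c _ = 0
    rw [key _ _ _ _ hab]
    have h1 : ev c x = 0 := hx
    have h2 : ev c y = 0 := hy
    rw [h1, h2]; ring
  · intro x hx y hy a b ha hb hab
    show 0 < sgn s * ev c _
    rw [key _ _ _ _ hab]
    have h1 : 0 < sgn s * ev c x := hx
    have h2 : 0 < sgn s * ev c y := hy
    have e : sgn s * (a * ev c x + b * ev c y) = a * (sgn s * ev c x) + b * (sgn s * ev c y) := by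
      ring
    rw [e]
    rcases eq_or_lt_of_le ha with h | h
    · have : b = 1 := by linarith
      rw [← h, this]; linarith
    · have := mul_pos h h1
      have := mul_nonneg hb h2.le
      linarith

/-- A common zero in the convex hull of four points. -/
theorem four {c d : ℝ × ℝ × ℝ} {p : ℕ → ℕ → ℝ × ℝ} (h1 : ∀ δ, δ = 0 ∨ δ = 2 → ev c (p 0 δ) ≤ 0)
    (h2 : ∀ δ, δ = 0 ∨ δ = 2 → 0 ≤ ev c (p 2 δ)) (h3 : ∀ ε, ε = 0 ∨ ε = 2 → ev d (p ε 0) ≤ 0)
    (h4 : ∀ ε, ε = 0 ∨ ε = 2 → 0 ≤ ev d (p ε 2)) :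
    ∃ z, ev c z = 0 ∧ ev d z = 0 ∧ ∀ S : Set (ℝ × ℝ), Convex ℝ S →
      (∀ ε δ, (ε = 0 ∨ ε = 2) → (δ = 0 ∨ δ = 2) → p ε δ ∈ S) → z ∈ S := by
  obtain ⟨q0, hq0, e0⟩ := zero_seg (h1 0 (Or.inl rfl)) (h2 0 (Or.inl rfl))
  obtain ⟨q2, hq2, e2⟩ := zero_seg (h1 2 (Or.inr rfl)) (h2 2 (Or.inr rfl))
  obtain ⟨c1, c2, c3, c4⟩ := ev_cv d
  have n0 : ev d q0 ≤ 0 := c1.segment_subset (h3 0 (Or.inl rfl)) (h3 2 (Or.inr rfl)) hq0
  have n2 : 0 ≤ ev d q2 := c2.segment_subset (h4 0 (Or.inl rfl)) (h4 2 (Or.inr rfl)) hq2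
  obtain ⟨z, hz, ez⟩ := zero_seg n0 n2
  refine ⟨z, (ev_cv c).2.2.1.segment_subset e0 e2 hz, ez, fun S hS hp => ?_⟩
  refine hS.segment_subset ?_ ?_ hz
  · exact hS.segment_subset (hp 0 0 (Or.inl rfl) (Or.inl rfl)) (hp 2 0 (Or.inr rfl) (Or.inl rfl)) hq0
  · exact hS.segment_subset (hp 0 2 (Or.inl rfl) (Or.inr rfl)) (hp 2 2 (Or.inr rfl) (Or.inr rfl)) hq2

theorem Reg_In {k : ℕ} (h : A.Reg a s b k) : A.Re a ∧ In A a s b ∧
    A.sl b (zL A a s b) < k ∧ k < A.sl b (zH A a s b) := by
  obtain ⟨c, i⟩ := a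
  obtain ⟨d, j⟩ := b
  obtain ⟨h1, h2, h3, h4, h5⟩ := h
  by_cases hd : c = d
  · subst hd
    simp only [if_true] at h5
    obtain ⟨h5, h6, h7⟩ := h5
    unfold zL zH
    simp only [if_true]
    by_cases hx : A.x c j i = true
    · rw [if_pos hx] at h7
      by_cases hdd : decide (i < j) = s
      · rw [if_pos hdd] at h7
        refine ⟨h1, ⟨h2, h3, h4, fun _ => Or.inl hx⟩, ?_, ?_⟩
        · rw [if_pos ⟨hx, hdd⟩, sl_s]; exact h7
        · rw [if_neg (by intro hh; exact hh.2 hdd), sl_o]; exact h6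
      · rw [if_neg hdd] at h7
        refine ⟨h1, ⟨h2, h3, h4, fun _ => Or.inl hx⟩, ?_, ?_⟩
        · rw [if_neg (by intro hh; exact hdd hh.2), sl_o]; exact h5
        · rw [if_pos ⟨hx, hdd⟩, sl_s]; exact h7
    · rw [if_neg hx] at h7
      refine ⟨h1, ⟨h2, h3, h4, fun _ => Or.inr h7⟩, ?_, ?_⟩
      · rw [if_neg (by intro hh; exact hx hh.1), sl_o]; exact h5
      · rw [if_neg (by intro hh; exact hx hh.1), sl_o]; exact h6
  · have hd' : d = !c := not_eq (Ne.symm hd)
    subst hd'
    simp only [if_neg hd] at h5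
    have hI : In A (c, i) s (!c, j) := ⟨h2, h3, h4, fun h => absurd h.symm hd⟩
    unfold zL zH
    have hd2 : ¬ ((!c) = c) := fun h => hd h.symm
    simp only [if_neg hd2]
    cases s
    · simp only [Bool.false_eq_true, if_false] at h5
      have e1 : RR A (c, i) false false false = (c, 0) := by simp [RR]
      have e2 : RR A (c, i) false false true = (c, i) := by simp [RR]
      rw [e1, e2, sl_o', sl_o']
      exact ⟨h1, hI, h5.1, h5.2⟩
    · simp only [if_true] at h5
      have e1 : RR A (c, i) true false false = (c, i) := by simp [RR]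
      have e2 : RR A (c, i) true false true = (c, A.m c - 1) := by simp [RR]
      rw [e1, e2, sl_o', sl_o']
      exact ⟨h1, hI, h5.1, h5.2⟩

/-- **Soundness.** -/
theorem snd (A : Arr) (g : ℕ) (hA : A.Ok) (hg : 4 ≤ g) (h : A.Rep g) : A.Geo := by
  classical
  obtain ⟨P, Q, -, hPQ⟩ := h
  have hR : RS A g P Q := ⟨hA, hg, hPQ⟩
  have hf : ∀ a : Ln, ∃ c : ℝ × ℝ × ℝ, A.Re a → ∃ U : Bool → Set (ℝ × ℝ),
      ∀ s, Top.Rg (QQ A g P Q (RR A a s)) (UU P Q (WI A g a s)) (UU P Q (RS.WO A g (RR A a s))) (U s) ∧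
      ∀ z ∈ U s, 0 < sgn s * ev c z := by
    intro a
    by_cases ha : A.Re a
    · obtain ⟨c, U, hU⟩ := hR.exf ha
      exact ⟨c, fun _ => ⟨U, hU⟩⟩
    · exact ⟨0, fun h => absurd h ha⟩
  choose f hf using hf
  -- positivity inside the regions
  have pos1 : ∀ c s v, A.Re c → v ∈ WI A g c s → ∀ z ∈ segment ℝ (P v) (Q v),
      0 < sgn s * ev (f c) z := by
    intro c s v hc hv z hz
    obtain ⟨U, hU⟩ := hf c hc
    exact (hU s).2 z ((hU s).1.inn (mem_UU hv hz))
  let Pt : Ln → Ln → ℝ × ℝ → Prop := fun a b z => ev (f a) z = 0 ∧ ev (f b) z = 0 ∧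
    (∀ c s, A.Reg c s a (A.sl a b) → 0 < sgn s * ev (f c) z) ∧
    (∀ c s, A.Reg c s b (A.sl b a) → 0 < sgn s * ev (f c) z)
  have exPt : ∀ a b, A.Re a → A.Re b → a ≠ b → A.cr a b = true → ∃ z, Pt a b z := by
    intro a b ha hb hne hc
    have haL : A.IsL a := by have := ha.2; unfold Arr.IsL; omega
    have hbL : A.IsL b := by have := hb.2; unfold Arr.IsL; omega
    have hc' : A.cr b a = true := by rw [hA.cr_comm]; exact hc
    obtain ⟨U, hU⟩ := hf a ha
    obtain ⟨U', hU'⟩ := hf b hb
    have wcm : ∀ ε δ, (ε = 0 ∨ ε = 2) → (δ = 0 ∨ δ = 2) →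
        wc A g P Q a b ε δ = wc A g P Q b a δ ε := fun ε δ h1 h2 =>
      hR.wc_comm haL hbL hne hc (by omega) (by omega)
    have sg : ∀ s, ∀ δ, (δ = 0 ∨ δ = 2) → 0 ≤ sgn s * ev (f a) (wc A g P Q a b (ee (!s)) δ) :=
      fun s δ h2 => hR.sign ha hb hne.symm hc' s (hU s).1 (hU s).2 (by omega)
    have sg' : ∀ s, ∀ δ, (δ = 0 ∨ δ = 2) → 0 ≤ sgn s * ev (f b) (wc A g P Q b a (ee (!s)) δ) :=
      fun s δ h2 => hR.sign hb ha hne hc s (hU' s).1 (hU' s).2 (by omega)
    obtain ⟨z, e1, e2, hz⟩ := four (c := f a) (d := f b) (p := fun ε δ => wc A g P Q a b ε δ)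
      (by
        intro δ hδ
        have : 0 ≤ -1 * ev (f a) (wc A g P Q a b 0 δ) := sg false δ hδ
        linarith)
      (by
        intro δ hδ
        have : 0 ≤ 1 * ev (f a) (wc A g P Q a b 2 δ) := sg true δ hδ
        linarith)
      (by
        intro ε hε
        have : 0 ≤ -1 * ev (f b) (wc A g P Q b a 0 ε) := sg' false ε hε
        rw [wcm ε 0 hε (Or.inl rfl)]
        linarith)
      (by
        intro ε hε
        have : 0 ≤ 1 * ev (f b) (wc A g P Q b a 2 ε) := sg' true ε hε
        rw [wcm ε 2 hε (Or.inr rfl)]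
        linarith)
    refine ⟨z, e1, e2, ?_, ?_⟩
    · intro c s hreg
      obtain ⟨r1, r2, r3, r4⟩ := Reg_In hreg
      refine hz _ ((ev_cv (f c)).2.2.2 s) fun ε δ h1 h2 => ?_
      have hm := WI_cv hg r2 ⟨r3, r4⟩ (e := ε) (f := δ) (by omega) (by omega)
      exact pos1 c s _ r1 hm _ (hR.cross haL hbL hne hc (by omega) (by omega)).1.1
    · intro c s hreg
      obtain ⟨r1, r2, r3, r4⟩ := Reg_In hreg
      refine hz _ ((ev_cv (f c)).2.2.2 s) fun ε δ h1 h2 => ?_
      have hm := WI_cv hg r2 ⟨r3, r4⟩ (e := δ) (f := ε) (by omega) (by omega)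
      rw [wcm ε δ h1 h2]
      exact pos1 c s _ r1 hm _ (hR.cross hbL haL hne.symm hc' (by omega) (by omega)).1.1
  let ch : Ln → Ln → ℝ × ℝ := fun a b => if h : ∃ z, Pt a b z then h.choose else 0
  let X : Ln → Ln → ℝ × ℝ := fun a b => if A.rk a < A.rk b then ch a b else ch b a
  let W : Ln → ℕ → ℝ × ℝ := fun b k => P (.st b.1 b.2 1 (ix 1 (pos g k 0)))
  refine ⟨f, X, W, ?_, ?_⟩
  · intro a b ha hb hne hc
    have haL : A.IsL a := by have := ha.2; unfold Arr.IsL; omega
    have hbL : A.IsL b := by have := hb.2; unfold Arr.IsL; omega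
    have hc' : A.cr b a = true := by rw [hA.cr_comm]; exact hc
    have h1 : Pt a b (ch a b) := by
      have hex := exPt a b ha hb hne hc
      show Pt a b (if h : ∃ z, Pt a b z then h.choose else 0)
      rw [dif_pos hex]
      exact hex.choose_spec
    have h2 : Pt b a (ch b a) := by
      have hex := exPt b a hb ha hne.symm hc'
      show Pt b a (if h : ∃ z, Pt b a z then h.choose else 0)
      rw [dif_pos hex]
      exact hex.choose_spec
    rcases Nat.lt_trichotomy (A.rk a) (A.rk b) with hr | hr | hr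
    · have e1 : X a b = ch a b := if_pos hr
      have e2 : X b a = ch a b := if_neg (by omega)
      rw [e1, e2]
      exact ⟨h1.1, h1.2.1, rfl, fun c s _ hreg => h1.2.2.1 c s hreg⟩
    · exact absurd (RS.rk_inj haL hbL hr) hne
    · have e1 : X a b = ch b a := if_neg (by omega)
      have e2 : X b a = ch b a := if_pos hr
      rw [e1, e2]
      exact ⟨h2.2.1, h2.1, rfl, fun c s _ hreg => h2.2.2.2 c s hreg⟩
  · intro b k hb hk c s hreg
    obtain ⟨r1, r2, r3, r4⟩ := Reg_In hreg
    exact pos1 c s _ r1 (WI_mem hg r2 (by omega) r3 r4 (by omega)) _ (left_mem_segment ℝ _ _)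

end Run7.h749
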