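import Pool.Agent.Run7.h749.RepD
import Pool.Agent.Run7.h749.Snd

/-!
# The lines and the induction
-/

namespace Run7.h749

open Set Filter Topology Arr

variable {A : Arr} {u v : Bool → ℕ → ℝ}

/-- Lines in the unit square. -/
structure LnH (A : Arr) (u v : Bool → ℕ → ℝ) : Prop where
  ok : A.Ok
  box : ∀ c i, i < A.m c → 0 < u c i ∧ u c i < 1 ∧ 0 < v c i ∧ v c i < 1
  su : ∀ c i j, i < A.m c → j < A.m c → A.st c i < A.st c j → u c i < u c j
  sv : ∀ c i j, i < j → j < A.m c → v c i < v c j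
  tt : ∀ a b b', A.IsL a → A.IsL b → A.IsL b' → b ≠ a → b' ≠ a → A.cr a b = true →
    A.cr a b' = true → A.sl a b < A.sl a b' → tt u v a b < tt u v a b'

/-- The height with respect to a line, along another line. -/
theorem hc_line (a b : Ln) (t : ℝ) : hc u v b (ph u v a (t, 0)) =
    hc u v b (ph u v a (0, 0)) + t * (hc u v b (ph u v a (1, 0)) - hc u v b (ph u v a (0, 0))) := by
  unfold hc ph
  split_ifs <;> simp only <;> ring

theorem tt_eq (a b : Ln) : tt u v a b = hc u v b (ph u v a (0, 0)) /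
    (hc u v b (ph u v a (0, 0)) - hc u v b (ph u v a (1, 0))) := by
  obtain ⟨c, i⟩ := a
  obtain ⟨d, j⟩ := b
  unfold tt hc ph
  cases c <;> cases d <;> simp
  · rw [← neg_div_neg_eq]
    congr 1 <;> ring
  · rw [← neg_div_neg_eq]
    congr 1 <;> ring

/-- The ends of a line, with respect to another line. -/
theorem ends_hc (hL : LnH A u v) {a b : Ln} (ha : A.IsL a) (hb : A.IsL b) (hab : a ≠ b) :
    (A.cr a b = true → (rv a b = false → hc u v b (ph u v a (0, 0)) < 0 ∧
      0 < hc u v b (ph u v a (1, 0))) ∧ (rv a b = true → hc u v b (ph u v a (1, 0)) < 0 ∧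
      0 < hc u v b (ph u v a (0, 0)))) ∧
    (A.cr a b = false → (hc u v b (ph u v a (0, 0)) < 0 ∧ hc u v b (ph u v a (1, 0)) < 0) ∨
      (0 < hc u v b (ph u v a (0, 0)) ∧ 0 < hc u v b (ph u v a (1, 0)))) := by
  obtain ⟨c, i⟩ := a
  obtain ⟨d, j⟩ := b
  have hi : i < A.m c := ha
  have hj : j < A.m d := hb
  by_cases hcd : d = c
  · subst hcd
    have hij : i ≠ j := fun h => hab (by rw [h])
    have e0 : hc u v (d, j) (ph u v (d, i) (0, 0)) = u d i - u d j := by
      unfold hc ph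
      cases d <;> simp
    have e1 : hc u v (d, j) (ph u v (d, i) (1, 0)) = v d i - v d j := by
      unfold hc ph
      cases d <;> simp
    rw [e0, e1]
    rcases lt_or_gt_of_ne hij with h | h
    · have hrv : rv (d, i) (d, j) = true := by unfold rv; simp [h]
      have hv := hL.sv d i j h hj
      constructor
      · intro hc
        rw [cr_s] at hc
        have := hL.su d j i hj hi ((hL.ok.xst d i j h hj).1 hc)
        rw [hrv]
        exact ⟨fun h => absurd h (by simp), fun _ => ⟨by linarith, by linarith⟩⟩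
      · intro hc
        rw [cr_s] at hc
        left
        have h1 : ¬ A.st d j < A.st d i := fun hh => by
          rw [(hL.ok.xst d i j h hj).2 hh] at hc; exact absurd hc (by simp)
        have h2 : A.st d i ≠ A.st d j := fun hh => hij (hL.ok.stinj d i j hi hj hh)
        have := hL.su d i j hi hj (by omega)
        exact ⟨by linarith, by linarith⟩
    · have hrv : rv (d, i) (d, j) = false := by
        unfold rv; simp; omega
      have hv := hL.sv d j i h hi
      constructor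
      · intro hc
        rw [cr_s, hL.ok.xsymm] at hc
        have := hL.su d i j hi hj ((hL.ok.xst d j i h hi).1 hc)
        rw [hrv]
        exact ⟨fun _ => ⟨by linarith, by linarith⟩, fun h => absurd h (by simp)⟩
      · intro hc
        rw [cr_s, hL.ok.xsymm] at hc
        right
        have h1 : ¬ A.st d i < A.st d j := fun hh => by
          rw [(hL.ok.xst d j i h hi).2 hh] at hc; exact absurd hc (by simp)
        have h2 : A.st d i ≠ A.st d j := fun hh => hij (hL.ok.stinj d i j hi hj hh)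
        have := hL.su d j i hj hi (by omega)
        exact ⟨by linarith, by linarith⟩
  · have hd := not_eq hcd
    subst hd
    have hrv : rv (c, i) (!c, j) = false := by unfold rv; simp
    have hcr : A.cr (c, i) (!c, j) = true := cr_o A c i j
    obtain ⟨a1, a2, a3, a4⟩ := hL.box c i hi
    obtain ⟨b1, b2, b3, b4⟩ := hL.box (!c) j hj
    have e0 : hc u v (!c, j) (ph u v (c, i) (0, 0)) =
        -(u (!c) j * (1 - u c i) + v (!c) j * u c i) := by
      unfold hc ph
      cases c <;> simp <;> ring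
    have e1 : hc u v (!c, j) (ph u v (c, i) (1, 0)) =
        (1 - u (!c) j) * (1 - v c i) + (1 - v (!c) j) * v c i := by
      unfold hc ph
      cases c <;> simp <;> ring
    rw [e0, e1, hrv, hcr]
    have p1 : 0 < u (!c) j * (1 - u c i) := mul_pos b1 (by linarith)
    have p2 : 0 < v (!c) j * u c i := mul_pos b3 a1
    have p3 : 0 < (1 - u (!c) j) * (1 - v c i) := mul_pos (by linarith) (by linarith)
    have p4 : 0 < (1 - v (!c) j) * v c i := mul_pos (by linarith) a3
    exact ⟨fun _ => ⟨fun _ => ⟨by linarith, by linarith⟩, fun h => absurd h (by simp)⟩,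
      fun h => absurd h (by simp)⟩

/-- **Crossings of centre lines.** -/
theorem KK (hL : LnH A u v) {a b : Ln} (ha : A.IsL a) (hb : A.IsL b) (hab : a ≠ b)
    (hcr : A.cr a b = true) : ∃ K : ℝ, K ≠ 0 ∧ (rv a b = false → 0 < K) ∧ (rv a b = true → K < 0) ∧
      0 < tt u v a b ∧ tt u v a b < 1 ∧ ∀ t, hc u v b (ph u v a (t, 0)) = K * (t - tt u v a b) := by
  have h := (ends_hc hL ha hb hab).1 hcr
  rw [tt_eq]
  set x := hc u v b (ph u v a (0, 0)) with hx
  set y := hc u v b (ph u v a (1, 0)) with hy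
  have hl : ∀ t, hc u v b (ph u v a (t, 0)) = x + t * (y - x) := hc_line a b
  have key : x - y ≠ 0 → ∀ t, hc u v b (ph u v a (t, 0)) = (y - x) * (t - x / (x - y)) := by
    intro hne t
    rw [hl]
    field_simp
    ring
  by_cases hr : rv a b = true
  · obtain ⟨h1, h2⟩ := h.2 hr
    have hp : 0 < x - y := by linarith
    refine ⟨y - x, by linarith, fun h0 => absurd h0 (by rw [hr]; simp), fun _ => by linarith,
      div_pos h2 hp, by rw [div_lt_one hp]; linarith, key hp.ne'⟩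
  · have hr' : rv a b = false := by simpa using hr
    obtain ⟨h1, h2⟩ := h.1 hr'
    have hp : x - y < 0 := by linarith
    refine ⟨y - x, by linarith, fun _ => by linarith, fun h0 => absurd h0 hr,
      div_pos_of_neg_of_neg h1 hp, by rw [div_lt_one_of_neg hp]; linarith, key hp.ne⟩

/-- Centre lines which do not cross. -/
theorem NK (hL : LnH A u v) {a b : Ln} (ha : A.IsL a) (hb : A.IsL b) (hab : a ≠ b)
    (hcr : A.cr a b = false) {z : ℝ × ℝ} (hz : z ∈ CC u v a) : z ∉ CC u v b := by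
  intro hz'
  obtain ⟨t, t0, t1, rfl⟩ := (mem_CC a).1 hz
  obtain ⟨t', -, -, h'⟩ := (mem_CC b).1 hz'
  have h0 : hc u v b (ph u v a (t, 0)) = 0 := by rw [h', hc_ph]
  rw [hc_line] at h0
  set x := hc u v b (ph u v a (0, 0))
  set y := hc u v b (ph u v a (1, 0))
  have e : x + t * (y - x) = (1 - t) * x + t * y := by ring
  rw [e] at h0
  rcases (ends_hc hL ha hb hab).2 hcr with ⟨h1, h2⟩ | ⟨h1, h2⟩
  · have h1' : x < 0 := h1
    have h2' : y < 0 := h2
    rcases eq_or_lt_of_le t0 with h3 | h3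
    · rw [← h3] at h0; linarith
    · have := mul_neg_of_pos_of_neg h3 h2'
      have := mul_nonpos_of_nonneg_of_nonpos (sub_nonneg.2 t1) h1'.le
      linarith
  · have h1' : 0 < x := h1
    have h2' : 0 < y := h2
    rcases eq_or_lt_of_le t0 with h3 | h3
    · rw [← h3] at h0; linarith
    · have := mul_pos h3 h2'
      have := mul_nonneg (sub_nonneg.2 t1) h1'.le
      linarith

/-- The common point. -/
theorem common (hL : LnH A u v) {a b : Ln} (ha : A.IsL a) (hb : A.IsL b) (hab : a ≠ b)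
    (hcr : A.cr a b = true) : ph u v a (tt u v a b, 0) = ph u v b (tt u v b a, 0) := by
  obtain ⟨K, -, -, -, -, -, hK⟩ := KK hL ha hb hab hcr
  have hcr' : A.cr b a = true := by rw [hL.ok.cr_comm]; exact hcr
  obtain ⟨K', hK0, -, -, -, -, hK'⟩ := KK hL hb ha hab.symm hcr'
  have h0 : hc u v b (ph u v a (tt u v a b, 0)) = 0 := by rw [hK, sub_self, mul_zero]
  have h1 := ph_ch (u := u) (v := v) b (ph u v a (tt u v a b, 0))
  rw [h0] at h1
  have h2 : hc u v a (ph u v b (tc b (ph u v a (tt u v a b, 0)), 0)) = 0 := by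
    rw [h1, hc_ph]
  rw [hK'] at h2
  rcases mul_eq_zero.1 h2 with h3 | h3
  · exact absurd h3 hK0
  · rw [← h1]
    congr 1
    ext
    · simp only; linarith
    · rfl

theorem finL (A : Arr) : {a : Ln | A.IsL a}.Finite := by
  refine Set.Finite.subset (Finset.finite_toSet (((Finset.univ : Finset Bool) ×ˢ
    Finset.range (A.m false + A.m true)))) ?_
  rintro ⟨c, i⟩ h
  have h' : i < A.m c := h
  rw [Finset.mem_coe, Finset.mem_product, Finset.mem_range]
  refine ⟨Finset.mem_univ _, ?_⟩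
  cases c <;> simp only <;> omega

theorem ev2 {x y : ℝ} (h : x < y) : ∀ᶠ δ in 𝓝[>] (0 : ℝ), x + 2 * δ < y := by
  have : ContinuousAt (fun δ : ℝ => x + 2 * δ) 0 := by fun_prop
  have h1 : (fun δ : ℝ => x + 2 * δ) 0 < y := by simpa using h
  exact (this.eventually_lt continuousAt_const h1).filter_mono nhdsWithin_le_nhds

/-- A number separating everything. -/
structure Dl (A : Arr) (u v : Bool → ℕ → ℝ) (δ : ℝ) : Prop where
  pos : 0 < δ
  sep : ∀ a b b', A.IsL a → A.IsL b → A.IsL b' → b ≠ a → b' ≠ a → A.cr a b = true →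
    A.cr a b' = true → A.sl a b < A.sl a b' → tt u v a b + 2 * δ < tt u v a b'
  bd : ∀ a b, A.IsL a → A.IsL b → b ≠ a → A.cr a b = true →
    0 + 2 * δ < tt u v a b ∧ tt u v a b + 2 * δ < 1
  box : ∀ c i, i < A.m c → (0 + 2 * δ < u c i ∧ u c i + 2 * δ < 1) ∧
    (0 + 2 * δ < v c i ∧ v c i + 2 * δ < 1)
  su : ∀ c i j, i < A.m c → j < A.m c → A.st c i < A.st c j → u c i + 2 * δ < u c j
  sv : ∀ c i j, i < j → j < A.m c → v c i + 2 * δ < v c j

theorem ev_imp {p : Prop} {l : Filter ℝ} {q : ℝ → Prop} (h : p → ∀ᶠ δ in l, q δ) :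
    ∀ᶠ δ in l, p → q δ := by
  by_cases hp : p
  · filter_upwards [h hp] with δ hδ
    exact fun _ => hδ
  · exact Filter.Eventually.of_forall fun δ hh => absurd hh hp

theorem exists_Dl (hL : LnH A u v) : ∃ δ, Dl A u v δ := by
  have F := finL A
  have e1 : ∀ᶠ δ in 𝓝[>] (0 : ℝ), ∀ a ∈ {a : Ln | A.IsL a}, ∀ b ∈ {a : Ln | A.IsL a},
      ∀ b' ∈ {a : Ln | A.IsL a}, (b ≠ a ∧ b' ≠ a ∧ A.cr a b = true ∧ A.cr a b' = true ∧
      A.sl a b < A.sl a b') → tt u v a b + 2 * δ < tt u v a b' := by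
    rw [Filter.eventually_all_finite F]
    intro a ha
    rw [Filter.eventually_all_finite F]
    intro b hb
    rw [Filter.eventually_all_finite F]
    intro b' hb'
    exact ev_imp fun ⟨h1, h2, h3, h4, h5⟩ => ev2 (hL.tt a b b' ha hb hb' h1 h2 h3 h4 h5)
  have e2 : ∀ᶠ δ in 𝓝[>] (0 : ℝ), ∀ a ∈ {a : Ln | A.IsL a}, ∀ b ∈ {a : Ln | A.IsL a},
      (b ≠ a ∧ A.cr a b = true) → 0 + 2 * δ < tt u v a b ∧ tt u v a b + 2 * δ < 1 := by
    rw [Filter.eventually_all_finite F]
    intro a ha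
    rw [Filter.eventually_all_finite F]
    intro b hb
    refine ev_imp fun ⟨h1, h2⟩ => ?_
    obtain ⟨K, -, -, -, k1, k2, -⟩ := KK hL ha hb h1.symm h2
    exact (ev2 k1).and (ev2 k2)
  have e3 : ∀ᶠ δ in 𝓝[>] (0 : ℝ), ∀ a ∈ {a : Ln | A.IsL a},
      (0 + 2 * δ < u a.1 a.2 ∧ u a.1 a.2 + 2 * δ < 1) ∧
      (0 + 2 * δ < v a.1 a.2 ∧ v a.1 a.2 + 2 * δ < 1) := by
    rw [Filter.eventually_all_finite F]
    intro a ha
    obtain ⟨h1, h2, h3, h4⟩ := hL.box a.1 a.2 ha
    exact ((ev2 h1).and (ev2 h2)).and ((ev2 h3).and (ev2 h4))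
  have e4 : ∀ᶠ δ in 𝓝[>] (0 : ℝ), ∀ a ∈ {a : Ln | A.IsL a}, ∀ b ∈ {a : Ln | A.IsL a},
      (a.1 = b.1 ∧ A.st a.1 a.2 < A.st b.1 b.2) → u a.1 a.2 + 2 * δ < u b.1 b.2 := by
    rw [Filter.eventually_all_finite F]
    intro a ha
    rw [Filter.eventually_all_finite F]
    intro b hb
    refine ev_imp fun ⟨h1, h2⟩ => ev2 ?_
    have ha' : a.2 < A.m a.1 := ha
    have hb' : b.2 < A.m b.1 := hb
    rw [← h1] at h2 hb' ⊢
    exact hL.su _ _ _ ha' hb' h2
  have e5 : ∀ᶠ δ in 𝓝[>] (0 : ℝ), ∀ a ∈ {a : Ln | A.IsL a}, ∀ b ∈ {a : Ln | A.IsL a},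
      (a.1 = b.1 ∧ a.2 < b.2) → v a.1 a.2 + 2 * δ < v b.1 b.2 := by
    rw [Filter.eventually_all_finite F]
    intro a ha
    rw [Filter.eventually_all_finite F]
    intro b hb
    refine ev_imp fun ⟨h1, h2⟩ => ev2 ?_
    have hb' : b.2 < A.m b.1 := hb
    rw [← h1] at hb' ⊢
    exact hL.sv _ _ _ h2 hb'
  have e6 : ∀ᶠ δ in 𝓝[>] (0 : ℝ), 0 < δ := eventually_mem_nhdsWithin
  obtain ⟨δ, h1, h2, h3, h4, h5, h6⟩ := (e1.and (e2.and (e3.and (e4.and (e5.and e6))))).exists
  refine ⟨δ, h6, ?_, ?_, ?_, ?_, ?_⟩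
  · intro a b b' ha hb hb' k1 k2 k3 k4 k5
    exact h1 a ha b hb b' hb' ⟨k1, k2, k3, k4, k5⟩
  · intro a b ha hb k1 k2
    exact h2 a ha b hb ⟨k1, k2⟩
  · intro c i hi
    exact h3 (c, i) hi
  · intro c i j hi hj h
    exact h4 (c, i) hi (c, j) hj ⟨rfl, h⟩
  · intro c i j h hj
    exact h5 (c, i) (show i < A.m c by omega) (c, j) hj ⟨rfl, h⟩

end Run7.h749
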