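import Pool.Agent.Run7.h749.RepE

/-!
# The induction over the lines
-/

namespace Run7.h749

open Set Filter Topology Arr

variable {A : Arr} {u v : Bool → ℕ → ℝ} {g : ℕ} {δ : ℝ}

/-- The data of a line with its scale. -/
structure Dat where
  d : LD
  e : ℝ

/-- The segment of a local vertex. -/
def sgm (A : Arr) (g : ℕ) (u v : Bool → ℕ → ℝ) (a : Ln) (D : Dat) (l : Lv) : Set (ℝ × ℝ) :=
  segment ℝ (EE u v a D.e (LP (A.N g) g D.d l)) (EE u v a D.e (LQ (A.N g) g D.d l))

/-- Good data. -/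
structure Gd (A : Arr) (g : ℕ) (δ : ℝ) (D : Dat) : Prop where
  ok : D.d.Ok (A.N g)
  e0 : 0 < D.e
  e1 : 3 * D.e < δ

/-- The relations with the centre line of a line which is not yet constructed. -/
structure Fut (A : Arr) (g : ℕ) (u v : Bool → ℕ → ℝ) (δ : ℝ) (D : Dat) (a b : Ln) : Prop where
  out : ∀ l, LV (A.N g) g l → ¬ (A.cr a b = true ∧ ∃ e < 3, l = .st e (ix e (pos g (A.sl a b) 0))) →
    ∀ z ∈ CC u v b, z ∉ sgm A g u v a D l
  inn : A.cr a b = true → ∃ κ : ℕ → ℝ, (∀ e < 3, |κ e - tt u v b a| < δ ∧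
    ph u v b (κ e, 0) ∈ sgm A g u v a D (.st e (ix e (pos g (A.sl a b) 0))) ∧
    hc u v b (EE u v a D.e (LP (A.N g) g D.d (.st e (ix e (pos g (A.sl a b) 0))))) *
      hc u v b (EE u v a D.e (LQ (A.N g) g D.d (.st e (ix e (pos g (A.sl a b) 0))))) < 0) ∧
    (rv b a = false → κ 0 < κ 1 ∧ κ 1 < κ 2) ∧ (rv b a = true → κ 2 < κ 1 ∧ κ 1 < κ 0)

/-- The relations between the segments of two lines. -/
def Pst (A : Arr) (g : ℕ) (u v : Bool → ℕ → ℝ) (D D' : Dat) (a b : Ln) : Prop :=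
  ∀ l l', LV (A.N g) g l → LV (A.N g) g l' →
    ((∃ z, z ∈ sgm A g u v a D l ∧ z ∈ sgm A g u v b D' l') ↔ (A.cr a b = true ∧
      ∃ e < 3, ∃ f < 3, l = .st e (ix e (pos g (A.sl a b) 0)) ∧ l' = .st f (ix f (A.zp g b a e))))

theorem LV_pos (hA : A.Ok) {a b : Ln} (ha : A.IsL a) (hb : A.IsL b) (hc : A.cr a b = true)
    {e : ℕ} (he : e < 3) : LV (A.N g) g (.st e (ix e (pos g (A.sl a b) 0))) := by
  refine ⟨he, ?_⟩
  have := pos_le (g := g) (hA.sl_lt ha hb hc) (show 0 ≤ 2 by omega)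
  exact RS.ix_le.2 (by omega)

/-- Choosing the parameters of the corners. -/
theorem choose_LD {N : ℕ} {c : ℕ → ℝ} (h1 : ∀ j < N + 1, 0 < c j ∧ c j < 1)
    (h2 : ∀ j, j + 1 < N + 1 → c j < c (j + 1)) : ∃ d : LD, d.Ok N ∧ Mid N d c := by
  let t : ℕ → ℝ := fun i => if i = 0 then 0 else if i = N + 1 then 1 else (c (i - 1) + c i) / 2
  have t1 : ∀ i ≤ N, t i < c i := by
    intro i hi
    by_cases h0 : i = 0
    · have : t i = 0 := if_pos h0
      rw [this]; exact (h1 i (by omega)).1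
    · have : t i = (c (i - 1) + c i) / 2 := by
        show (if i = 0 then (0 : ℝ) else if i = N + 1 then 1 else (c (i - 1) + c i) / 2) = _
        rw [if_neg h0, if_neg (by omega)]
      rw [this]
      have := h2 (i - 1) (by omega)
      rw [show i - 1 + 1 = i by omega] at this
      linarith
  have t2 : ∀ i ≤ N, c i < t (i + 1) := by
    intro i hi
    by_cases h0 : i = N
    · have : t (i + 1) = 1 := by
        show (if i + 1 = 0 then (0 : ℝ) else if i + 1 = N + 1 then 1 else _) = _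
        rw [if_neg (by omega), if_pos (by omega)]
      rw [this]; exact (h1 i (by omega)).2
    · have : t (i + 1) = (c i + c (i + 1)) / 2 := by
        show (if i + 1 = 0 then (0 : ℝ) else if i + 1 = N + 1 then 1 else
          (c (i + 1 - 1) + c (i + 1)) / 2) = _
        rw [if_neg (by omega), if_neg (by omega), Nat.add_sub_cancel]
      rw [this]
      have := h2 i (by omega)
      linarith
  have e1 : ∀ᶠ l in 𝓝[>] (0 : ℝ), ∀ i ∈ {i | i ≤ N}, t i + 2 * l < c i ∧ c i + 2 * l < t (i + 1) := by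
    rw [Filter.eventually_all_finite (Set.finite_le_nat N)]
    intro i hi
    exact (ev2 (t1 i hi)).and (ev2 (t2 i hi))
  have e2 : ∀ᶠ l in 𝓝[>] (0 : ℝ), 0 < l := eventually_mem_nhdsWithin
  obtain ⟨l, hl, hl0⟩ := (e1.and e2).exists
  refine ⟨⟨t, l⟩, ⟨?_, ?_, hl0, ?_⟩, ⟨?_⟩⟩
  · show t 0 = 0
    exact if_pos rfl
  · show (if N + 1 = 0 then (0 : ℝ) else if N + 1 = N + 1 then 1 else _) = _
    rw [if_neg (by omega), if_pos rfl]
  · intro i hi
    have := hl i hi
    show t i + 4 * l < t (i + 1)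
    linarith [this.1, this.2]
  · intro i hi
    have := hl i hi
    show t i + 2 * l < c i ∧ c i < t (i + 1) - 2 * l
    exact ⟨this.1, by linarith [this.2]⟩

/-- Choosing the parameters of the crossings. -/
theorem choose_c (hL : LnH A u v) (hg : 4 ≤ g) (hδ : Dl A u v δ) {b : Ln} (hb : A.IsL b)
    {κ : Ln → ℕ → ℝ}
    (hκ : ∀ a, A.IsL a → A.rk a < A.rk b → A.cr a b = true → (∀ e < 3, |κ a e - tt u v b a| < δ) ∧
      (rv b a = false → κ a 0 < κ a 1 ∧ κ a 1 < κ a 2) ∧
      (rv b a = true → κ a 2 < κ a 1 ∧ κ a 1 < κ a 0)) :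
    ∃ c : ℕ → ℝ, (∀ j < A.N g + 1, 0 < c j ∧ c j < 1) ∧ (∀ j, j + 1 < A.N g + 1 → c j < c (j + 1)) ∧
      (∀ a, A.IsL a → A.rk a < A.rk b → A.cr a b = true → ∀ e < 3, c (A.zp g b a e) = κ a e) ∧
      (∀ a, A.IsL a → A.rk b < A.rk a → A.cr a b = true →
        c (pos g (A.sl b a) 0) = tt u v b a) := by
  have hA := hL.ok
  let V : ℕ → ℝ → Prop := fun j x => ∃ a, A.IsL a ∧ A.cr b a = true ∧
    ((A.rk a < A.rk b ∧ ∃ e < 3, j = A.zp g b a e ∧ x = κ a e) ∨
    (A.rk b < A.rk a ∧ j = pos g (A.sl b a) 0 ∧ x = tt u v b a))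
  have ne : ∀ a, (A.rk a < A.rk b ∨ A.rk b < A.rk a) → a ≠ b := by
    rintro a h rfl
    omega
  have fac : ∀ j x, V j x → ∃ a r, A.IsL a ∧ A.cr b a = true ∧ r ≤ 2 ∧ j = pos g (A.sl b a) r ∧
      |x - tt u v b a| < δ ∧ a ≠ b ∧
      ((A.rk b < A.rk a ∧ r = 0 ∧ x = tt u v b a) ∨
      (A.rk a < A.rk b ∧ ∃ e < 3, r = (if rv b a = true then 2 - e else e) ∧ x = κ a e)) := by
    rintro j x ⟨a, h1, h2, ⟨h3, e, he, rfl, rfl⟩ | ⟨h3, rfl, rfl⟩⟩
    · have hn : ¬ A.rk b < A.rk a := by omega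
      refine ⟨a, (if rv b a = true then 2 - e else e), h1, h2, ?_, ?_, ?_, ne a (Or.inl h3),
        Or.inr ⟨h3, e, he, rfl, rfl⟩⟩
      · split_ifs <;> omega
      · unfold Arr.zp; rw [if_neg hn]
      · exact (hκ a h1 h3 (by rw [hA.cr_comm]; exact h2)).1 e he
    · exact ⟨a, 0, h1, h2, by omega, rfl, by rw [sub_self, abs_zero]; exact hδ.pos,
        ne a (Or.inr h3), Or.inl ⟨h3, rfl, rfl⟩⟩
  -- the order of the values
  have mono : ∀ j j' x x', V j x → V j' x' → j < j' → x < x' := by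
    intro j j' x x' hV hV' hjj
    obtain ⟨a, r, a1, a2, a3, a4, a5, a6, a7⟩ := fac j x hV
    obtain ⟨a', r', b1, b2, b3, b4, b5, b6, b7⟩ := fac j' x' hV'
    rw [abs_lt] at a5 b5
    rcases Nat.lt_trichotomy (A.sl b a) (A.sl b a') with hs | hs | hs
    · have := hδ.sep b a a' hb a1 b1 a6 b6 a2 b2 hs
      linarith [a5.1, a5.2, b5.1, b5.2]
    · have haa := sl_inj hA hb a1 b1 a2 b2 hs
      subst haa
      have hrr : r < r' := by
        by_contra hcon
        push Not at hcon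
        have := pos_mono (g := g) (s := A.sl b a) hcon
        rw [a4, b4] at hjj
        omega
      rcases a7 with ⟨c1, c2, c3⟩ | ⟨c1, e, c2, c3, c4⟩ <;>
        rcases b7 with ⟨d1, d2, d3⟩ | ⟨d1, e', d2, d3, d4⟩
      · omega
      · omega
      · omega
      · obtain ⟨k1, k2, k3⟩ := hκ a a1 c1 (by rw [hA.cr_comm]; exact a2)
        rw [c4, d4]
        by_cases hrv : rv b a = true
        · rw [if_pos hrv] at c3 d3
          obtain ⟨m1, m2⟩ := k3 hrv
          have : (e = 2 ∧ e' = 1) ∨ (e = 2 ∧ e' = 0) ∨ (e = 1 ∧ e' = 0) := by omega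
          rcases this with ⟨rfl, rfl⟩ | ⟨rfl, rfl⟩ | ⟨rfl, rfl⟩ <;> linarith
        · rw [if_neg hrv] at c3 d3
          obtain ⟨m1, m2⟩ := k2 (by simpa using hrv)
          have : (e = 0 ∧ e' = 1) ∨ (e = 0 ∧ e' = 2) ∨ (e = 1 ∧ e' = 2) := by omega
          rcases this with ⟨rfl, rfl⟩ | ⟨rfl, rfl⟩ | ⟨rfl, rfl⟩ <;> linarith
    · exfalso
      have := pos_lt (g := g) (r' := r) hs b3
      omega
  have uniq : ∀ j x x', V j x → V j x' → x = x' := by
    intro j x x' hV hV'
    obtain ⟨a, r, a1, a2, a3, a4, a5, a6, a7⟩ := fac j x hV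
    obtain ⟨a', r', b1, b2, b3, b4, b5, b6, b7⟩ := fac j x' hV'
    obtain ⟨hs, hr⟩ := pos_inj hg a3 b3 (a4.symm.trans b4)
    have haa := sl_inj hA hb a1 b1 a2 b2 hs
    subst haa
    rcases a7 with ⟨c1, c2, c3⟩ | ⟨c1, e, c2, c3, c4⟩ <;>
      rcases b7 with ⟨d1, d2, d3⟩ | ⟨d1, e', d2, d3, d4⟩
    · rw [c3, d3]
    · omega
    · omega
    · have : e = e' := by
        rw [hr] at c3
        rw [c3] at d3
        split_ifs at d3 <;> omega
      rw [c4, d4, this]
  obtain ⟨c, c1, c2, c3⟩ := interp V (A.N g + 1) 0 1 one_pos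
    (by
      intro j _ x hV
      obtain ⟨a, r, a1, a2, a3, a4, a5, a6, a7⟩ := fac j x hV
      have := hδ.bd b a hb a1 a6 a2
      rw [abs_lt] at a5
      have := hδ.pos
      constructor <;> linarith [this, hδ.bd b a hb a1 a6 a2 |>.1, hδ.bd b a hb a1 a6 a2 |>.2])
    (fun j _ x x' hV hV' => uniq j x x' hV hV')
    (fun j j' hjj _ x x' hV hV' => mono j j' x x' hV hV' hjj)
  refine ⟨c, c1, c2, ?_, ?_⟩
  · intro a ha hrk hc e he
    have hc' : A.cr b a = true := by rw [hA.cr_comm]; exact hc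
    refine c3 _ ?_ _ ⟨a, ha, hc', Or.inl ⟨hrk, e, he, rfl, rfl⟩⟩
    obtain ⟨r', z1, z2⟩ := zp_eq (A := A) (g := g) b a e
    have := pos_le (g := g) (r := r') (hA.sl_lt hb ha hc') (by have := z2 he; omega)
    rw [z1]; omega
  · intro a ha hrk hc
    have hc' : A.cr b a = true := by rw [hA.cr_comm]; exact hc
    refine c3 _ ?_ _ ⟨a, ha, hc', Or.inr ⟨hrk, rfl, rfl⟩⟩
    have := pos_le (g := g) (hA.sl_lt hb ha hc') (show 0 ≤ 2 by omega)
    omega

/-- **The construction of a line.** -/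
theorem step (hL : LnH A u v) (hg : 4 ≤ g) (hδ : Dl A u v δ) {b : Ln} (hb : A.IsL b)
    {D : Ln → Dat} (hF : ∀ a, A.IsL a → A.rk a < A.rk b → Gd A g δ (D a) ∧
      Fut A g u v δ (D a) a b) :
    ∃ Db : Dat, Gd A g δ Db ∧ (∀ a, A.IsL a → A.rk a < A.rk b → Pst A g u v (D a) Db a b) ∧
      ∀ b', A.IsL b' → A.rk b < A.rk b' → Fut A g u v δ Db b b' := by
  have hA := hL.ok
  have hex : ∀ a : Ln, ∃ κ : ℕ → ℝ, A.IsL a → A.rk a < A.rk b → A.cr a b = true →
      (∀ e < 3, |κ e - tt u v b a| < δ ∧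
      ph u v b (κ e, 0) ∈ sgm A g u v a (D a) (.st e (ix e (pos g (A.sl a b) 0))) ∧
      hc u v b (EE u v a (D a).e (LP (A.N g) g (D a).d (.st e (ix e (pos g (A.sl a b) 0))))) *
      hc u v b (EE u v a (D a).e (LQ (A.N g) g (D a).d (.st e (ix e (pos g (A.sl a b) 0))))) < 0) ∧
      (rv b a = false → κ 0 < κ 1 ∧ κ 1 < κ 2) ∧ (rv b a = true → κ 2 < κ 1 ∧ κ 1 < κ 0) := by
    intro a
    by_cases h : A.IsL a ∧ A.rk a < A.rk b ∧ A.cr a b = true
    · obtain ⟨κ, hκ⟩ := (hF a h.1 h.2.1).2.inn h.2.2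
      exact ⟨κ, fun _ _ _ => hκ⟩
    · exact ⟨fun _ => 0, fun h1 h2 h3 => absurd ⟨h1, h2, h3⟩ h⟩
  choose κ hκ using hex
  obtain ⟨c, c1, c2, c3, c4⟩ := choose_c hL hg hδ hb (κ := κ)
    (fun a h1 h2 h3 => ⟨fun e he => ((hκ a h1 h2 h3).1 e he).1, (hκ a h1 h2 h3).2⟩)
  obtain ⟨d, hd, hm⟩ := choose_LD c1 c2
  have ne : ∀ a, (A.rk a < A.rk b ∨ A.rk b < A.rk a) → a ≠ b := by
    rintro a h rfl
    omega
  have F := finL A
  have FL := finLV (A.N g) g
  -- the relations with the lines already constructed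
  have E1 : ∀ᶠ ε in 𝓝 (0 : ℝ), ∀ a ∈ {a : Ln | A.IsL a}, ∀ l ∈ {l | LV (A.N g) g l},
      A.rk a < A.rk b → ∀ l' ∈ {l | LV (A.N g) g l},
      ((∃ z, z ∈ segment ℝ (EE u v b ε (LP (A.N g) g d l')) (EE u v b ε (LQ (A.N g) g d l')) ∧
        z ∈ sgm A g u v a (D a) l) ↔
      (A.cr a b = true ∧ ∃ e < 3, ∃ f < 3, l = .st e (ix e (pos g (A.sl a b) 0)) ∧
        l' = .st f (ix f (A.zp g b a e)))) := by
    rw [Filter.eventually_all_finite F]
    intro a ha
    rw [Filter.eventually_all_finite FL]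
    intro l hl
    refine ev_imp fun hrk => ?_
    by_cases hx : A.cr a b = true ∧ ∃ e < 3, l = .st e (ix e (pos g (A.sl a b) 0))
    · obtain ⟨hc, e, he, rfl⟩ := hx
      obtain ⟨k1, -⟩ := hκ a ha hrk hc
      obtain ⟨-, k2, k3⟩ := k1 e he
      have hj : A.zp g b a e ≤ A.N g := by
        have hc' : A.cr b a = true := by rw [hA.cr_comm]; exact hc
        obtain ⟨r', z1, z2⟩ := zp_eq (A := A) (g := g) b a e
        have := pos_le (g := g) (r := r') (hA.sl_lt hb ha hc') (by have := z2 he; omega)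
        rw [z1]; omega
      have := T1 (g := g) hd hm b (p := EE u v a (D a).e (LP (A.N g) g (D a).d
        (.st e (ix e (pos g (A.sl a b) 0))))) (q := EE u v a (D a).e (LQ (A.N g) g (D a).d
        (.st e (ix e (pos g (A.sl a b) 0))))) hj k3 (by rw [c3 a ha hrk hc e he]; exact k2)
      filter_upwards [this] with ε hε l' hl'
      rw [show (∃ z, z ∈ segment ℝ (EE u v b ε (LP (A.N g) g d l'))
        (EE u v b ε (LQ (A.N g) g d l')) ∧
        z ∈ sgm A g u v a (D a) (.st e (ix e (pos g (A.sl a b) 0)))) ↔ _ from hε l' hl']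
      constructor
      · rintro ⟨f, hf, rfl⟩
        exact ⟨hc, e, he, f, hf, rfl, rfl⟩
      · rintro ⟨-, e', he', f, hf, h1, rfl⟩
        simp only [Lv.st.injEq] at h1
        rw [← h1.1]
        exact ⟨f, hf, rfl⟩
    · have := T0 (g := g) hd b (p := EE u v a (D a).e (LP (A.N g) g (D a).d l))
        (q := EE u v a (D a).e (LQ (A.N g) g (D a).d l)) ((hF a ha hrk).2.out l hl hx)
      filter_upwards [this] with ε hε l' hl'
      constructor
      · rintro ⟨z, h1, h2⟩
        exact absurd h2 (hε l' hl' z h1)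
      · rintro ⟨hc, e, he, f, hf, h1, -⟩
        exact absurd ⟨hc, e, he, h1⟩ hx
  -- the relations with the centre lines
  have KKb : ∀ b', A.IsL b' → A.rk b < A.rk b' → A.cr b b' = true →
      hc u v b (ph u v b' (0, 0)) * hc u v b (ph u v b' (1, 0)) < 0 ∧
      c (pos g (A.sl b b') 0) = tt u v b b' := by
    intro b' hb' hrk hc
    have hc' : A.cr b' b = true := by rw [hA.cr_comm]; exact hc
    obtain ⟨K, k0, -, -, k1, k2, k3⟩ := KK hL hb' hb (ne b' (Or.inr hrk)) hc'
    refine ⟨?_, c4 b' hb' hrk hc'⟩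
    rw [k3, k3]
    have : K * (0 - tt u v b' b) * (K * (1 - tt u v b' b)) =
      -(K ^ 2 * (tt u v b' b * (1 - tt u v b' b))) := by ring
    rw [this]
    have := mul_pos k1 (sub_pos.2 k2)
    have : 0 < K ^ 2 * (tt u v b' b * (1 - tt u v b' b)) := by positivity
    linarith
  have E2 : ∀ᶠ ε in 𝓝 (0 : ℝ), ∀ b' ∈ {a : Ln | A.IsL a}, A.rk b < A.rk b' →
      ∀ l ∈ {l | LV (A.N g) g l},
      ((∃ z, z ∈ segment ℝ (EE u v b ε (LP (A.N g) g d l)) (EE u v b ε (LQ (A.N g) g d l)) ∧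
        z ∈ CC u v b') ↔ (A.cr b b' = true ∧ ∃ f < 3, l = .st f (ix f (pos g (A.sl b b') 0)))) := by
    rw [Filter.eventually_all_finite F]
    intro b' hb'
    refine ev_imp fun hrk => ?_
    by_cases hx : A.cr b b' = true
    · obtain ⟨k1, k2⟩ := KKb b' hb' hrk hx
      have hj : pos g (A.sl b b') 0 ≤ A.N g := by
        have := pos_le (g := g) (hA.sl_lt hb hb' hx) (show 0 ≤ 2 by omega)
        omega
      have hcom := common hL hb hb' (ne b' (Or.inr hrk)).symm hx
      obtain ⟨K', -, -, -, m1, m2, -⟩ := KK hL hb' hb (ne b' (Or.inr hrk))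
        (by rw [hA.cr_comm]; exact hx)
      have := T1 (g := g) hd hm b (p := ph u v b' (0, 0)) (q := ph u v b' (1, 0)) hj k1
        (by
          rw [k2, hcom]
          exact (mem_CC b').2 ⟨_, m1.le, m2.le, rfl⟩)
      filter_upwards [this] with ε hε l hl
      rw [show (∃ z, z ∈ segment ℝ (EE u v b ε (LP (A.N g) g d l))
        (EE u v b ε (LQ (A.N g) g d l)) ∧ z ∈ CC u v b') ↔ _ from hε l hl]
      exact ⟨fun h => ⟨hx, h⟩, fun h => h.2⟩
    · have := T0 (g := g) hd b (p := ph u v b' (0, 0)) (q := ph u v b' (1, 0))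
        (fun z hz => NK hL hb hb' (ne b' (Or.inr hrk)).symm (by simpa using hx) hz)
      filter_upwards [this] with ε hε l hl
      constructor
      · rintro ⟨z, h1, h2⟩
        exact absurd h2 (hε l hl z h1)
      · rintro ⟨hc, -⟩
        exact absurd hc hx
  have E3 : ∀ᶠ ε in 𝓝 (0 : ℝ), ∀ b' ∈ {a : Ln | A.IsL a}, (A.rk b < A.rk b' ∧ A.cr b b' = true) →
      ∀ f ∈ {f | f ≤ 2},
      hc u v b' (EE u v b ε (LP (A.N g) g d (.st f (ix f (pos g (A.sl b b') 0))))) *
      hc u v b' (EE u v b ε (LQ (A.N g) g d (.st f (ix f (pos g (A.sl b b') 0))))) < 0 := by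
    rw [Filter.eventually_all_finite F]
    intro b' hb'
    refine ev_imp fun ⟨hrk, hx⟩ => ?_
    rw [Filter.eventually_all_finite (Set.finite_le_nat 2)]
    intro f hf
    have hf' : f ≤ 2 := hf
    obtain ⟨k1, k2⟩ := KKb b' hb' hrk hx
    have hj : pos g (A.sl b b') 0 ≤ A.N g := by
      have := pos_le (g := g) (hA.sl_lt hb hb' hx) (show 0 ≤ 2 by omega)
      omega
    obtain ⟨m1, m2⟩ := mid_in (g := g) hd hm (f := f) (by omega) hj
    obtain ⟨K, k0, -, -, -, -, k3⟩ := KK hL hb hb' (ne b' (Or.inr hrk)).symm hx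
    have c1 : Continuous fun ε =>
        hc u v b' (EE u v b ε (LP (A.N g) g d (.st f (ix f (pos g (A.sl b b') 0))))) *
        hc u v b' (EE u v b ε (LQ (A.N g) g d (.st f (ix f (pos g (A.sl b b') 0))))) :=
      ((cont_hc b').comp (cont_EE b _)).mul ((cont_hc b').comp (cont_EE b _))
    refine c1.continuousAt.eventually_lt continuousAt_const ?_
    rw [EE_zero, EE_zero, k3, k3, ← k2]
    set x := (LP (A.N g) g d (.st f (ix f (pos g (A.sl b b') 0)))).1
    set y := (LQ (A.N g) g d (.st f (ix f (pos g (A.sl b b') 0)))).1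
    set w := c (pos g (A.sl b b') 0)
    have : K * (x - w) * (K * (y - w)) = -(K ^ 2 * ((w - x) * (y - w))) := by ring
    rw [this]
    have := mul_pos (sub_pos.2 m1) (sub_pos.2 m2)
    have : 0 < K ^ 2 * ((w - x) * (y - w)) := by positivity
    linarith
  have E4 : ∀ᶠ ε in 𝓝 (0 : ℝ), ∀ b' ∈ {a : Ln | A.IsL a}, (A.rk b < A.rk b' ∧ A.cr b b' = true) →
      3 * ε < δ * |hc u v b (ph u v b' (1, 0)) - hc u v b (ph u v b' (0, 0))| := by
    rw [Filter.eventually_all_finite F]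
    intro b' hb'
    refine ev_imp fun ⟨hrk, hx⟩ => ?_
    obtain ⟨k1, k2⟩ := KKb b' hb' hrk hx
    have hne : hc u v b (ph u v b' (1, 0)) - hc u v b (ph u v b' (0, 0)) ≠ 0 := by
      intro h0
      have : hc u v b (ph u v b' (1, 0)) = hc u v b (ph u v b' (0, 0)) := by linarith
      rw [this] at k1
      nlinarith [mul_self_nonneg (hc u v b (ph u v b' (0, 0)))]
    have c1 : ContinuousAt (fun ε : ℝ => 3 * ε) 0 := by fun_prop
    refine c1.eventually_lt continuousAt_const ?_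
    rw [mul_zero]
    exact mul_pos hδ.pos (abs_pos.2 hne)
  have E5 : ∀ᶠ ε in 𝓝 (0 : ℝ), 3 * ε < δ := by
    have c1 : ContinuousAt (fun ε : ℝ => 3 * ε) 0 := by fun_prop
    refine c1.eventually_lt continuousAt_const ?_
    rw [mul_zero]; exact hδ.pos
  have E6 : ∀ᶠ ε in 𝓝[>] (0 : ℝ), 0 < ε := eventually_mem_nhdsWithin
  have Eall := (E1.and (E2.and (E3.and (E4.and E5)))).filter_mono
    (nhdsWithin_le_nhds (s := Set.Ioi (0 : ℝ)))
  obtain ⟨ε, ⟨h1, h2, h3, h4, h5⟩, h6⟩ := (Eall.and E6).exists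
  refine ⟨⟨d, ε⟩, ⟨hd, h6, h5⟩, ?_, ?_⟩
  · intro a ha hrk l l' hl hl'
    rw [← h1 a ha l hl hrk l' hl']
    constructor
    · rintro ⟨z, z1, z2⟩; exact ⟨z, z2, z1⟩
    · rintro ⟨z, z1, z2⟩; exact ⟨z, z2, z1⟩
  · intro b' hb' hrk
    refine ⟨?_, ?_⟩
    · intro l hl hx z hz hz'
      exact hx ((h2 b' hb' hrk l hl).1 ⟨z, hz', hz⟩)
    · intro hcr
      have hcr2 : A.cr b' b = true := by rw [hA.cr_comm]; exact hcr
      -- the crossing points
      have hz : ∀ f : ℕ, ∃ κ : ℝ, f < 3 → ph u v b' (κ, 0) ∈ sgm A g u v b ⟨d, ε⟩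
          (.st f (ix f (pos g (A.sl b b') 0))) := by
        intro f
        by_cases hf : f < 3
        · obtain ⟨z, z1, z2⟩ := (h2 b' hb' hrk _ (LV_pos hA hb hb' hcr hf)).2 ⟨hcr, f, hf, rfl⟩
          obtain ⟨t, -, -, rfl⟩ := (mem_CC b').1 z2
          exact ⟨t, fun _ => z1⟩
        · exact ⟨0, fun h => absurd h hf⟩
      choose κ' hκ' using hz
      obtain ⟨K, k0, k4, k5, -, -, k3⟩ := KK hL hb' hb (ne b' (Or.inr hrk)) hcr2
      -- heights of the crossing points
      have hh : ∀ f < 3, ∃ y : ℝ, K * (κ' f - tt u v b' b) = ε * y ∧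
          ((f = 0 ∧ y < 0) ∨ (f = 1 ∧ y = 0) ∨ (f = 2 ∧ 0 < y)) ∧ |y| ≤ 3 := by
        intro f hf
        have z1 := hκ' f hf
        unfold sgm at z1
        rw [EE_seg] at z1
        obtain ⟨w, hw, hw'⟩ := z1
        have s := st_sign (g := g) hd (LV_pos hA hb hb' hcr hf) hw
        refine ⟨w.2, ?_, s.2⟩
        rw [← k3, ← hw', hc_EE]
      have e4 := h4 b' hb' ⟨hrk, hcr⟩
      have eK : hc u v b (ph u v b' (1, 0)) - hc u v b (ph u v b' (0, 0)) = K := by
        rw [k3, k3]; ring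
      rw [eK] at e4
      refine ⟨κ', ?_, ?_, ?_⟩
      · intro f hf
        refine ⟨?_, hκ' f hf, h3 b' hb' ⟨hrk, hcr⟩ f (show f ≤ 2 by omega)⟩
        obtain ⟨y, y1, y2, y3⟩ := hh f hf
        have hK : 0 < |K| := abs_pos.2 k0
        have : |K| * |κ' f - tt u v b' b| < |K| * δ := by
          rw [← abs_mul, y1, abs_mul, abs_of_pos h6]
          have : ε * |y| ≤ 3 * ε := by nlinarith
          linarith
        exact lt_of_mul_lt_mul_left this hK.le
      · intro hrv
        have hKp := k4 hrv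
        obtain ⟨y0, p0, q0, -⟩ := hh 0 (by omega)
        obtain ⟨y1, p1, q1, -⟩ := hh 1 (by omega)
        obtain ⟨y2, p2, q2, -⟩ := hh 2 (by omega)
        have q0' : y0 < 0 := by rcases q0 with q | q | q <;> first | exact q.2 | omega
        have q1' : y1 = 0 := by rcases q1 with q | q | q <;> first | exact q.2 | omega
        have q2' : 0 < y2 := by rcases q2 with q | q | q <;> first | exact q.2 | omega
        have r0 : K * (κ' 0 - tt u v b' b) < 0 := by
          rw [p0]; exact mul_neg_of_pos_of_neg h6 q0'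
        have r1 : K * (κ' 1 - tt u v b' b) = 0 := by rw [p1, q1', mul_zero]
        have r2 : 0 < K * (κ' 2 - tt u v b' b) := by rw [p2]; exact mul_pos h6 q2'
        have s1 : κ' 1 - tt u v b' b = 0 := by
          rcases mul_eq_zero.1 r1 with h | h
          · exact absurd h k0
          · exact h
        have s0 : κ' 0 - tt u v b' b < 0 := by
          by_contra hcon
          push Not at hcon
          have := mul_nonneg hKp.le hcon
          linarith
        have s2 : 0 < κ' 2 - tt u v b' b := by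
          by_contra hcon
          push Not at hcon
          have := mul_nonpos_of_nonneg_of_nonpos hKp.le hcon
          linarith
        constructor <;> linarith
      · intro hrv
        have hKp := k5 hrv
        obtain ⟨y0, p0, q0, -⟩ := hh 0 (by omega)
        obtain ⟨y1, p1, q1, -⟩ := hh 1 (by omega)
        obtain ⟨y2, p2, q2, -⟩ := hh 2 (by omega)
        have q0' : y0 < 0 := by rcases q0 with q | q | q <;> first | exact q.2 | omega
        have q1' : y1 = 0 := by rcases q1 with q | q | q <;> first | exact q.2 | omega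
        have q2' : 0 < y2 := by rcases q2 with q | q | q <;> first | exact q.2 | omega
        have r0 : K * (κ' 0 - tt u v b' b) < 0 := by
          rw [p0]; exact mul_neg_of_pos_of_neg h6 q0'
        have r1 : K * (κ' 1 - tt u v b' b) = 0 := by rw [p1, q1', mul_zero]
        have r2 : 0 < K * (κ' 2 - tt u v b' b) := by rw [p2]; exact mul_pos h6 q2'
        have s1 : κ' 1 - tt u v b' b = 0 := by
          rcases mul_eq_zero.1 r1 with h | h
          · exact absurd h k0
          · exact h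
        have s0 : 0 < κ' 0 - tt u v b' b := by
          by_contra hcon
          push Not at hcon
          have := mul_nonneg_of_nonpos_of_nonpos hKp.le hcon
          linarith
        have s2 : κ' 2 - tt u v b' b < 0 := by
          by_contra hcon
          push Not at hcon
          have := mul_nonpos_of_nonpos_of_nonneg hKp.le hcon
          linarith
        constructor <;> linarith

/-- All lines. -/
theorem all_lines (hL : LnH A u v) (hg : 4 ≤ g) (hδ : Dl A u v δ) (n : ℕ) :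
    ∃ D : Ln → Dat, (∀ a, A.IsL a → A.rk a < n → Gd A g δ (D a)) ∧
      (∀ a b, A.IsL a → A.IsL b → A.rk a < A.rk b → A.rk b < n → Pst A g u v (D a) (D b) a b) ∧
      ∀ a b, A.IsL a → A.IsL b → A.rk a < n → n ≤ A.rk b → Fut A g u v δ (D a) a b := by
  induction n with
  | zero =>
    exact ⟨fun _ => ⟨⟨fun _ => 0, 0⟩, 0⟩, fun a _ h => absurd h (Nat.not_lt_zero _),
      fun a b _ _ _ h => absurd h (Nat.not_lt_zero _),
      fun a b _ _ h => absurd h (Nat.not_lt_zero _)⟩
  | succ n ih =>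
    obtain ⟨D, d1, d2, d3⟩ := ih
    by_cases hx : ∃ b, A.IsL b ∧ A.rk b = n
    · obtain ⟨b, hb, hbn⟩ := hx
      obtain ⟨Db, e1, e2, e3⟩ := step hL hg hδ hb (D := D)
        (fun a ha hrk => ⟨d1 a ha (by omega), d3 a b ha hb (by omega) (by omega)⟩)
      classical
      have hD1 : ∀ a, a = b → (if a = b then Db else D a) = Db := fun a h => if_pos h
      have hD2 : ∀ a, a ≠ b → (if a = b then Db else D a) = D a := fun a h => if_neg h
      have cas : ∀ a, A.IsL a → A.rk a < n + 1 → a = b ∨ (a ≠ b ∧ A.rk a < n) := by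
        intro a ha h
        by_cases hab : a = b
        · exact Or.inl hab
        · right
          refine ⟨hab, ?_⟩
          have : A.rk a ≠ A.rk b := fun h => hab (RS.rk_inj ha hb h)
          omega
      refine ⟨fun a => if a = b then Db else D a, ?_, ?_, ?_⟩
      · intro a ha h
        beta_reduce
        rcases cas a ha h with h1 | ⟨h1, h2⟩
        · rw [hD1 a h1]; exact e1
        · rw [hD2 a h1]; exact d1 a ha h2
      · intro a a' ha ha' h h'
        beta_reduce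
        rcases cas a' ha' h' with h1 | ⟨h1, h2⟩
        · rw [hD1 a' h1, hD2 a (by rintro rfl; rw [h1] at h; omega)]
          rw [h1] at h ⊢
          exact e2 a ha h
        · rw [hD2 a' h1, hD2 a (by rintro rfl; omega)]
          exact d2 a a' ha ha' h h2
      · intro a a' ha ha' h h'
        beta_reduce
        rcases cas a ha h with h1 | ⟨h1, h2⟩
        · rw [hD1 a h1, h1]; exact e3 a' ha' (by omega)
        · rw [hD2 a h1]; exact d3 a a' ha ha' h2 (by omega)
    · refine ⟨D, ?_, ?_, ?_⟩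
      · intro a ha h
        refine d1 a ha ?_
        have : A.rk a ≠ n := fun h => hx ⟨a, ha, h⟩
        omega
      · intro a b ha hb h h'
        refine d2 a b ha hb h ?_
        have : A.rk b ≠ n := fun h => hx ⟨b, hb, h⟩
        omega
      · intro a b ha hb h h'
        refine d3 a b ha hb ?_ (by omega)
        have : A.rk a ≠ n := fun h => hx ⟨a, ha, h⟩
        omega

end Run7.h749
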