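import Pool.Agent.Run7.h749.RepF

/-!
# The boundary of the unit square
-/

namespace Run7.h749

open Set Arr

/-- The boundary of the unit square, clockwise from the lower left corner. -/
noncomputable def bd (x : ℝ) : ℝ × ℝ :=
  if x ≤ 1 then (0, x) else if x ≤ 2 then (x - 1, 1) else if x ≤ 3 then (1, 3 - x) else (4 - x, 0)

theorem bd1 {x : ℝ} (h' : x ≤ 1) : bd x = (0, x) := by unfold bd; rw [if_pos h']

theorem bd2 {x : ℝ} (h : 1 ≤ x) (h' : x ≤ 2) : bd x = (x - 1, 1) := by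
  unfold bd
  by_cases h1 : x ≤ 1
  · have : x = 1 := le_antisymm h1 h
    rw [if_pos h1, this]; norm_num
  · rw [if_neg h1, if_pos h']

theorem bd3 {x : ℝ} (h : 2 ≤ x) (h' : x ≤ 3) : bd x = (1, 3 - x) := by
  unfold bd
  rw [if_neg (by linarith)]
  by_cases h1 : x ≤ 2
  · have : x = 2 := le_antisymm h1 h
    rw [if_pos h1, this]; norm_num
  · rw [if_neg h1, if_pos h']

theorem bd4 {x : ℝ} (h : 3 ≤ x) : bd x = (4 - x, 0) := by
  unfold bd
  rw [if_neg (by linarith), if_neg (by linarith)]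
  by_cases h1 : x ≤ 3
  · have : x = 3 := le_antisymm h1 h
    rw [if_pos h1, this]; norm_num
  · rw [if_neg h1]

/-- On a side, the boundary is affine. -/
theorem bd_side {q : ℕ} (hq : q < 4) {x y : ℝ} (hx : (q : ℝ) ≤ x) (hx' : x ≤ q + 1)
    (hy : (q : ℝ) ≤ y) (hy' : y ≤ q + 1) {s : ℝ} (hs : 0 ≤ s) (hs' : s ≤ 1) :
    bd (x + s * (y - x)) = bd x + s • (bd y - bd x) := by
  have h1 : (q : ℝ) ≤ x + s * (y - x) := by nlinarith
  have h2 : x + s * (y - x) ≤ q + 1 := by nlinarith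
  have hq' : q = 0 ∨ q = 1 ∨ q = 2 ∨ q = 3 := by omega
  rcases hq' with rfl | rfl | rfl | rfl
  · norm_num at hx hx' hy hy' h1 h2
    rw [bd1 h2, bd1 hx', bd1 hy']
    ext <;> simp
  · norm_num at hx hx' hy hy' h1 h2
    rw [bd2 h1 h2, bd2 hx hx', bd2 hy hy']
    ext <;> simp <;> ring
  · norm_num at hx hx' hy hy' h1 h2
    rw [bd3 h1 h2, bd3 hx hx', bd3 hy hy']
    ext <;> simp <;> ring
  · norm_num at hx hx' hy hy' h1 h2
    rw [bd4 h1, bd4 hx, bd4 hy]
    ext <;> simp <;> ring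

/-- Segments of the boundary. -/
theorem seg_bd {q : ℕ} (hq : q < 4) {x y : ℝ} (hx : (q : ℝ) ≤ x) (hxy : x < y)
    (hy' : y ≤ q + 1) {z : ℝ × ℝ} :
    z ∈ segment ℝ (bd x) (bd y) ↔ ∃ s, x ≤ s ∧ s ≤ y ∧ z = bd s := by
  rw [segment_eq_image']
  have hd : 0 < y - x := by linarith
  constructor
  · rintro ⟨s, ⟨h0, h1⟩, rfl⟩
    refine ⟨x + s * (y - x), by nlinarith, by nlinarith, ?_⟩
    beta_reduce
    rw [bd_side hq hx (by linarith) (by linarith) hy' h0 h1]
  · rintro ⟨s, h0, h1, rfl⟩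
    refine ⟨(s - x) / (y - x), ⟨div_nonneg (by linarith) hd.le, by
      rw [div_le_one hd]; linarith⟩, ?_⟩
    beta_reduce
    rw [← bd_side hq hx (by linarith) (by linarith) hy' (div_nonneg (by linarith) hd.le)
      (by rw [div_le_one hd]; linarith), div_mul_cancel₀ _ hd.ne']
    congr 1; ring

theorem bd_inj {x y : ℝ} (hx : 0 ≤ x) (hx' : x ≤ 4) (hy : 0 ≤ y) (hy' : y ≤ 4)
    (h : bd x = bd y) : x = y ∨ (x = 0 ∧ y = 4) ∨ (x = 4 ∧ y = 0) := by
  have hcx : x ≤ 1 ∨ (1 < x ∧ x ≤ 2) ∨ (2 < x ∧ x ≤ 3) ∨ 3 < x := by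
    by_cases h1 : x ≤ 1
    · exact Or.inl h1
    · by_cases h2 : x ≤ 2
      · exact Or.inr (Or.inl ⟨by linarith, h2⟩)
      · by_cases h3 : x ≤ 3
        · exact Or.inr (Or.inr (Or.inl ⟨by linarith, h3⟩))
        · exact Or.inr (Or.inr (Or.inr (by linarith)))
  have hcy : y ≤ 1 ∨ (1 < y ∧ y ≤ 2) ∨ (2 < y ∧ y ≤ 3) ∨ 3 < y := by
    by_cases h1 : y ≤ 1
    · exact Or.inl h1
    · by_cases h2 : y ≤ 2
      · exact Or.inr (Or.inl ⟨by linarith, h2⟩)
      · by_cases h3 : y ≤ 3
        · exact Or.inr (Or.inr (Or.inl ⟨by linarith, h3⟩))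
        · exact Or.inr (Or.inr (Or.inr (by linarith)))
  have fst := congrArg Prod.fst h
  have snd := congrArg Prod.snd h
  rcases hcx with a | ⟨a, a'⟩ | ⟨a, a'⟩ | a <;> rcases hcy with b | ⟨b, b'⟩ | ⟨b, b'⟩ | b
  · rw [bd1 a, bd1 b] at snd; left; exact snd
  · rw [bd1 a, bd2 b.le b'] at fst; simp only at fst; linarith
  · rw [bd1 a, bd3 b.le b'] at fst; simp only at fst; linarith
  · rw [bd1 a, bd4 b.le] at fst snd; simp only at fst snd
    right; left; exact ⟨by linarith, by linarith⟩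
  · rw [bd2 a.le a', bd1 b] at fst; simp only at fst; linarith
  · rw [bd2 a.le a', bd2 b.le b'] at fst; simp only at fst; left; linarith
  · rw [bd2 a.le a', bd3 b.le b'] at fst snd; simp only at fst snd; linarith
  · rw [bd2 a.le a', bd4 b.le] at snd; simp only at snd; linarith
  · rw [bd3 a.le a', bd1 b] at fst; simp only at fst; linarith
  · rw [bd3 a.le a', bd2 b.le b'] at fst snd; simp only at fst snd; linarith
  · rw [bd3 a.le a', bd3 b.le b'] at snd; simp only at snd; left; linarith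
  · rw [bd3 a.le a', bd4 b.le] at fst; simp only at fst; linarith
  · rw [bd4 a.le, bd1 b] at fst snd; simp only at fst snd
    right; right; exact ⟨by linarith, by linarith⟩
  · rw [bd4 a.le, bd2 b.le b'] at snd; simp only at snd; linarith
  · rw [bd4 a.le, bd3 b.le b'] at fst; simp only at fst; linarith
  · rw [bd4 a.le, bd4 b.le] at fst; simp only at fst; left; linarith

/-- Twice the distance from the centre. -/
noncomputable def nrm (z : ℝ × ℝ) : ℝ := max |2 * z.1 - 1| |2 * z.2 - 1|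

theorem nrm_bd {x : ℝ} (hx : 0 ≤ x) (hx' : x ≤ 4) : nrm (bd x) = 1 := by
  unfold nrm
  by_cases h1 : x ≤ 1
  · rw [bd1 h1]
    simp only
    rw [max_eq_left]
    · norm_num
    · rw [abs_le]; norm_num; constructor <;> linarith
  · by_cases h2 : x ≤ 2
    · rw [bd2 (by linarith) h2]
      simp only
      rw [max_eq_right]
      · norm_num
      · rw [abs_le]; norm_num; constructor <;> linarith
    · by_cases h3 : x ≤ 3
      · rw [bd3 (by linarith) h3]
        simp only
        rw [max_eq_left]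
        · norm_num
        · rw [abs_le]; norm_num; constructor <;> linarith
      · rw [bd4 (by linarith)]
        simp only
        rw [max_eq_right]
        · norm_num
        · rw [abs_le]; norm_num; constructor <;> linarith

/-- Homotheties about the centre. -/
noncomputable def hom (s : ℝ) (z : ℝ × ℝ) : ℝ × ℝ :=
  (1 / 2 + s * (z.1 - 1 / 2), 1 / 2 + s * (z.2 - 1 / 2))

theorem nrm_hom {s : ℝ} (hs : 0 ≤ s) (z : ℝ × ℝ) : nrm (hom s z) = s * nrm z := by
  unfold nrm hom
  simp only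
  rw [mul_max_of_nonneg _ _ hs]
  have e : ∀ x : ℝ, |2 * (1 / 2 + s * (x - 1 / 2)) - 1| = s * |2 * x - 1| := by
    intro x
    rw [show 2 * (1 / 2 + s * (x - 1 / 2)) - 1 = s * (2 * x - 1) by ring, abs_mul, abs_of_nonneg hs]
  rw [e, e]

theorem hom_seg (s : ℝ) (p q : ℝ × ℝ) :
    segment ℝ (hom s p) (hom s q) = hom s '' segment ℝ p q := by
  rw [segment_eq_image', segment_eq_image', image_image]
  apply image_congr
  intro t _
  unfold hom
  ext <;> simp only [Prod.fst_add, Prod.snd_add, Prod.smul_fst, Prod.smul_snd,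
      Prod.fst_sub, Prod.snd_sub, smul_eq_mul] <;> ring

theorem hom_inj {s : ℝ} (hs : s ≠ 0) {z w : ℝ × ℝ} (h : hom s z = hom s w) : z = w := by
  have h1 := congrArg Prod.fst h
  have h2 := congrArg Prod.snd h
  unfold hom at h1 h2
  simp only at h1 h2
  have e1 : s * (z.1 - w.1) = 0 := by linarith
  have e2 : s * (z.2 - w.2) = 0 := by linarith
  ext
  · rcases mul_eq_zero.1 e1 with h3 | h3
    · exact absurd h3 hs
    · linarith
  · rcases mul_eq_zero.1 e2 with h3 | h3
    · exact absurd h3 hs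
    · linarith

theorem hom_one (z : ℝ × ℝ) : hom 1 z = z := by
  unfold hom
  ext <;> simp only <;> ring

/-- Radial segments. -/
theorem hom_rad {z : ℝ × ℝ} {a b : ℝ} (h : a < b) {w : ℝ × ℝ} :
    w ∈ segment ℝ (hom a z) (hom b z) ↔ ∃ s, a ≤ s ∧ s ≤ b ∧ w = hom s z := by
  rw [segment_eq_image']
  have hd : 0 < b - a := by linarith
  have key : ∀ t, hom a z + t • (hom b z - hom a z) = hom (a + t * (b - a)) z := by
    intro t
    unfold hom
    ext <;> simp only [Prod.fst_add, Prod.snd_add, Prod.smul_fst, Prod.smul_snd,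
      Prod.fst_sub, Prod.snd_sub, smul_eq_mul] <;> ring
  constructor
  · rintro ⟨t, ⟨h0, h1⟩, rfl⟩
    exact ⟨a + t * (b - a), by nlinarith, by nlinarith, key t⟩
  · rintro ⟨s, h0, h1, rfl⟩
    refine ⟨(s - a) / (b - a), ⟨div_nonneg (by linarith) hd.le, by
      rw [div_le_one hd]; linarith⟩, ?_⟩
    beta_reduce
    rw [key, div_mul_cancel₀ _ hd.ne']
    congr 1; ring

/-- The cut points and marked points of the rings. -/
structure Cut (A : Arr) (g : ℕ) (c : ℕ → ℝ) : Prop where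
  mono : ∀ i j, i < j → j ≤ 2 * A.M g → c i < c j
  c0 : c 0 = 0
  cM : c (2 * A.M g) = 4
  side : ∀ j, j < A.M g → ∃ q : ℕ, q < 4 ∧ (q : ℝ) ≤ c (2 * j) ∧ c (2 * j + 2) ≤ q + 1

variable {A : Arr} {g : ℕ} {c : ℕ → ℝ}

theorem Cut.le (h : Cut A g c) {i j : ℕ} (hij : i ≤ j) (hj : j ≤ 2 * A.M g) : c i ≤ c j := by
  rcases Nat.eq_or_lt_of_le hij with h1 | h1
  · rw [h1]
  · exact (h.mono i j h1 hj).le

theorem Cut.lt_of (h : Cut A g c) {i j : ℕ} (hi : i ≤ 2 * A.M g) (hc : c i < c j) : i < j := by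
  by_contra hcon
  push Not at hcon
  have := h.le hcon hi
  linarith

theorem Cut.le_of (h : Cut A g c) {i j : ℕ} (hi : i ≤ 2 * A.M g) (hc : c i ≤ c j) : i ≤ j := by
  by_contra hcon
  push Not at hcon
  have := h.mono j i hcon hi
  linarith

theorem Cut.box (h : Cut A g c) {i : ℕ} (hi : i ≤ 2 * A.M g) : 0 ≤ c i ∧ c i ≤ 4 := by
  constructor
  · have := h.le (Nat.zero_le i) hi
    rwa [h.c0] at this
  · have := h.le hi le_rfl
    rwa [h.cM] at this

/-- Points of a ring segment. -/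
theorem Cut.mem (h : Cut A g c) {j : ℕ} (hj : j < A.M g) {z : ℝ × ℝ} :
    z ∈ segment ℝ (bd (c (2 * j))) (bd (c (2 * j + 2))) ↔
      ∃ s, c (2 * j) ≤ s ∧ s ≤ c (2 * j + 2) ∧ z = bd s := by
  obtain ⟨q, hq, h1, h2⟩ := h.side j hj
  exact seg_bd hq h1 (h.mono _ _ (by omega) (by omega)) h2

/-- A marked point is on one ring segment. -/
theorem Cut.mark (h : Cut A g c) {i j : ℕ} (hi : i < A.M g) (hj : j < A.M g) :
    bd (c (2 * i + 1)) ∈ segment ℝ (bd (c (2 * j))) (bd (c (2 * j + 2))) ↔ i = j := by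
  rw [h.mem hj]
  constructor
  · rintro ⟨s, h1, h2, h3⟩
    have b1 := h.box (i := 2 * i + 1) (by omega)
    have b2 := h.box (i := 2 * j) (by omega)
    have b3 := h.box (i := 2 * j + 2) (by omega)
    have i0 := h.mono 0 (2 * i + 1) (by omega) (by omega)
    have i4 := h.mono (2 * i + 1) (2 * A.M g) (by omega) le_rfl
    rw [h.c0] at i0
    rw [h.cM] at i4
    rcases bd_inj b1.1 b1.2 (by linarith) (by linarith) h3 with h4 | h4 | h4
    · rw [← h4] at h1 h2
      have := h.le_of (by omega) h1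
      have := h.le_of (by omega) h2
      omega
    · linarith [h4.1]
    · linarith [h4.1]
  · rintro rfl
    exact ⟨_, h.le (by omega) (by omega), h.le (by omega) (by omega), rfl⟩

/-- Two ring segments. -/
theorem Cut.ring (h : Cut A g c) {i j : ℕ} (hi : i < A.M g) (hj : j < A.M g) (hij : i < j) :
    (∃ z, z ∈ segment ℝ (bd (c (2 * i))) (bd (c (2 * i + 2))) ∧
      z ∈ segment ℝ (bd (c (2 * j))) (bd (c (2 * j + 2)))) ↔
      (j = i + 1 ∨ (i = 0 ∧ j + 1 = A.M g)) := by
  constructor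
  · rintro ⟨z, h1, h2⟩
    rw [h.mem hi] at h1
    rw [h.mem hj] at h2
    obtain ⟨s, s1, s2, rfl⟩ := h1
    obtain ⟨t, t1, t2, t3⟩ := h2
    have b1 := h.box (i := 2 * i) (by omega)
    have b2 := h.box (i := 2 * i + 2) (by omega)
    have b3 := h.box (i := 2 * j) (by omega)
    have b4 := h.box (i := 2 * j + 2) (by omega)
    rcases bd_inj (by linarith) (by linarith) (by linarith) (by linarith) t3 with h4 | h4 | h4
    · left
      have := h.le_of (i := 2 * j) (j := 2 * i + 2) (by omega) (by linarith)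
      omega
    · right
      constructor
      · have := h.le_of (i := 2 * i) (j := 0) (by omega) (by rw [h.c0]; linarith [h4.1])
        omega
      · have := h.le_of (i := 2 * A.M g) (j := 2 * j + 2) le_rfl (by rw [h.cM]; linarith [h4.2])
        omega
    · exfalso
      have := h.mono 0 (2 * j) (by omega) (by omega)
      rw [h.c0] at this
      linarith [h4.2]
  · rintro (rfl | ⟨rfl, h1⟩)
    · refine ⟨bd (c (2 * i + 2)), right_mem_segment ℝ _ _, ?_⟩
      rw [show 2 * (i + 1) = 2 * i + 2 by ring]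
      exact left_mem_segment ℝ _ _
    · refine ⟨bd 0, ?_, ?_⟩
      · rw [Nat.mul_zero, h.c0]; exact left_mem_segment ℝ _ _
      · rw [show 2 * j + 2 = 2 * A.M g by omega, h.cM]
        have : bd 0 = bd 4 := by rw [bd1 (by norm_num), bd4 (by norm_num)]; norm_num
        rw [this]
        exact right_mem_segment ℝ _ _

end Run7.h749
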