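import Pool.Agent.Run7.h749.RepG

/-!
# The ends of the strands and the rings
-/

namespace Run7.h749

open Set Arr

variable {A : Arr} {u v : Bool → ℕ → ℝ} {g : ℕ} {δ : ℝ} {d : LD} {N : ℕ}

/-- The starts of the strands. -/
theorem end0 (h : d.Ok N) {l : Lv} (hl : LV N g l) {w : ℝ × ℝ}
    (hw : w ∈ segment ℝ (LP N g d l) (LQ N g d l)) (h0 : w.1 = 0) :
    ∃ e < 3, l = .st e 0 ∧ w.2 = (e : ℝ) - 1 := by
  have hlp := h.lp
  cases l with
  | st e i =>
    have he3 : e < 3 := hl.1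
    by_cases he : e = 1
    · subst he
      have j1 : i ≤ 4 * N := by have := hl.2; unfold ix at this; simpa using this
      rw [mem_sp h j1] at hw
      refine ⟨1, by omega, ?_, by rw [hw.2.2]; norm_num⟩
      rcases Nat.eq_zero_or_pos i with h1 | h1
      · rw [h1]
      · exfalso
        have := h.B_lt (s := 0) (s' := i) h1 (by omega)
        rw [LD.B0] at this
        linarith [hw.1]
    · have j1 : i ≤ N := by have := hl.2; rwa [ixe he] at this
      rw [mem_ch h he j1] at hw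
      have hi : i = 0 := by
        rcases Nat.eq_zero_or_pos i with h1 | h1
        · exact h1
        · exfalso
          have h2 := h.lt (i := 0) (j := i) h1 (by omega)
          have h3 := h.lam_b e
          rw [h.t0] at h2
          have h4 : d.lft e i = d.t i - d.lam e := by unfold LD.lft; rw [if_neg (by omega)]
          linarith [hw.1]
      subst hi
      refine ⟨e, he3, rfl, ?_⟩
      rw [hw.2.2, h0]
      unfold LD.fi
      rw [h.t0]
      have he' : e = 0 ∨ e = 2 := by omega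
      rcases he' with rfl | rfl
      · rw [sg_0]; norm_num
      · rw [sg_2]; norm_num
  | ti e i dd k =>
    have := ti_sign h hl hw
    linarith [this.1.1]

/-- The ends of the strands. -/
theorem end1 (h : d.Ok N) {l : Lv} (hl : LV N g l) {w : ℝ × ℝ}
    (hw : w ∈ segment ℝ (LP N g d l) (LQ N g d l)) (h0 : w.1 = 1) :
    ∃ e < 3, l = .st e (ix e N) ∧ w.2 = 2 * ((e : ℝ) - 1) := by
  have hlp := h.lp
  cases l with
  | st e i =>
    have he3 : e < 3 := hl.1
    by_cases he : e = 1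
    · subst he
      have j1 : i ≤ 4 * N := by have := hl.2; unfold ix at this; simpa using this
      rw [mem_sp h j1] at hw
      refine ⟨1, by omega, ?_, by rw [hw.2.2]; norm_num⟩
      have hix : ix 1 N = 4 * N := by unfold ix; rw [if_pos rfl]
      rw [hix]
      rcases Nat.eq_or_lt_of_le j1 with h1 | h1
      · rw [h1]
      · exfalso
        have := h.B_lt (s := i + 1) (s' := 4 * N + 1) (by omega) (by omega)
        rw [LD.Bl] at this
        linarith [hw.2.1]
    · have j1 : i ≤ N := by have := hl.2; rwa [ixe he] at this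
      rw [mem_ch h he j1] at hw
      have hi : i = N := by
        rcases Nat.eq_or_lt_of_le j1 with h1 | h1
        · exact h1
        · exfalso
          have h2 := h.lt (i := i + 1) (j := N + 1) (by omega) (by omega)
          have h3 := h.lam_b e
          rw [h.tN] at h2
          have h4 : d.rgt N e i = d.t (i + 1) + d.lam e := by unfold LD.rgt; rw [if_neg (by omega)]
          linarith [hw.2.1]
      subst hi
      refine ⟨e, he3, by rw [ixe he], ?_⟩
      rw [hw.2.2, h0]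
      unfold LD.fi
      rw [h.tN]
      have he' : e = 0 ∨ e = 2 := by omega
      rcases he' with rfl | rfl
      · rw [sg_0]; push_cast; ring
      · rw [sg_2]; push_cast; ring
  | ti e i dd k =>
    have := ti_sign h hl hw
    linarith [this.1.2]

theorem LV0 (N g : ℕ) {e : ℕ} (he : e < 3) : LV N g (.st e 0) := ⟨he, Nat.zero_le _⟩

theorem LVN (N g : ℕ) {e : ℕ} (he : e < 3) : LV N g (.st e (ix e N)) := ⟨he, le_rfl⟩

theorem end0' (h : d.Ok N) {e : ℕ} (he : e < 3) :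
    ((0 : ℝ), (e : ℝ) - 1) ∈ segment ℝ (LP N g d (.st e 0)) (LQ N g d (.st e 0)) := by
  have h1 : (LP N g d (.st e 0)).1 = 0 := by
    unfold LP
    simp only
    split_ifs
    · show d.B N 0 = 0
      exact LD.B0
    · show d.lft e 0 = 0
      unfold LD.lft; rw [if_pos rfl]
  obtain ⟨e', he', h2, h3⟩ := end0 h (LV0 N g he) (left_mem_segment ℝ _ _) h1
  simp only [Lv.st.injEq, and_true] at h2
  subst h2
  have : ((0 : ℝ), (e : ℝ) - 1) = LP N g d (.st e 0) := Prod.ext h1.symm h3.symm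
  rw [this]
  exact left_mem_segment ℝ _ _

theorem end1' (h : d.Ok N) {e : ℕ} (he : e < 3) :
    ((1 : ℝ), 2 * ((e : ℝ) - 1)) ∈ segment ℝ (LP N g d (.st e (ix e N)))
      (LQ N g d (.st e (ix e N))) := by
  have h1 : (LQ N g d (.st e (ix e N))).1 = 1 := by
    unfold LQ
    simp only
    split_ifs with h0
    · subst h0
      have hix : ix 1 N = 4 * N := by unfold ix; rw [if_pos rfl]
      show d.B N (ix 1 N + 1) = 1
      rw [hix]
      exact LD.Bl
    · show d.rgt N e (ix e N) = 1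
      rw [ixe h0]
      unfold LD.rgt; rw [if_pos rfl]
  obtain ⟨e', he', h2, h3⟩ := end1 h (LVN N g he) (right_mem_segment ℝ _ _) h1
  simp only [Lv.st.injEq] at h2
  obtain ⟨rfl, -⟩ := h2
  have : ((1 : ℝ), 2 * ((e : ℝ) - 1)) = LQ N g d (.st e (ix e N)) := Prod.ext h1.symm h3.symm
  rw [this]
  exact right_mem_segment ℝ _ _

theorem LP_ne (h : d.Ok N) {l : Lv} (hl : LV N g l) : LP N g d l ≠ LQ N g d l := by
  cases l with
  | st e i =>
    intro he'
    have he1 := congrArg Prod.fst he'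
    by_cases he : e = 1
    · subst he
      have j1 : i ≤ 4 * N := by have := hl.2; unfold ix at this; simpa using this
      unfold LP LQ at he1
      simp only [if_true] at he1
      have := h.B_succ j1
      linarith
    · have j1 : i ≤ N := by have := hl.2; rwa [ixe he] at this
      unfold LP LQ at he1
      simp only [if_neg he] at he1
      have := h.lr (e := e) j1
      linarith
  | ti e i dd k =>
    intro he'
    have he1 := congrArg Prod.snd he'
    obtain ⟨he, hi, hd, hk⟩ := hl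
    have hg' : (0 : ℝ) < g := by exact_mod_cast (show 0 < g by omega)
    have hH := h.H_b (e := e) (dd := dd) hi
    have hs : sg e ≠ 0 := by
      rcases he with rfl | rfl
      · rw [sg_0]; norm_num
      · rw [sg_2]; norm_num
    unfold LP LQ at he1
    simp only at he1
    have h2 := mul_left_cancel₀ (mul_ne_zero hs hH.1.ne') he1
    rw [div_left_inj' hg'.ne'] at h2
    linarith

section

variable (A u v) (D : Ln → Dat)

/-- The second coordinate at the start. -/
def yS (a : Ln) (e : ℕ) : ℝ := u a.1 a.2 + (D a).e * ((e : ℝ) - 1)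

/-- The second coordinate at the end. -/
def yE (a : Ln) (e : ℕ) : ℝ := v a.1 a.2 + (D a).e * (2 * ((e : ℝ) - 1))

/-- The position of the start on the boundary. -/
def pS (a : Ln) (e : ℕ) : ℝ := if a.1 = false then yS u D a e else 4 - yS u D a e

/-- The position of the end on the boundary. -/
def pE (a : Ln) (e : ℕ) : ℝ := if a.1 = false then 3 - yE v D a e else 1 + yE v D a e

end

variable {D : Ln → Dat}

theorem e_b {e : ℕ} (he : e < 3) : -1 ≤ (e : ℝ) - 1 ∧ (e : ℝ) - 1 ≤ 1 := by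
  have : (e : ℝ) ≤ 2 := by exact_mod_cast (show e ≤ 2 by omega)
  have : (0 : ℝ) ≤ e := Nat.cast_nonneg e
  constructor <;> linarith

theorem y_near {a : Ln} (hG : Gd A g δ (D a)) {e : ℕ} (he : e < 3) :
    |yS u D a e - u a.1 a.2| < δ ∧ |yE v D a e - v a.1 a.2| < δ := by
  have h1 := e_b he
  have h2 := hG.e0
  have h3 := hG.e1
  unfold yS yE
  rw [abs_lt, abs_lt]
  refine ⟨⟨?_, ?_⟩, ?_, ?_⟩ <;> nlinarith

theorem y_box (hδ : Dl A u v δ) {a : Ln} (ha : A.IsL a) (hG : Gd A g δ (D a)) {e : ℕ}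
    (he : e < 3) : (0 < yS u D a e ∧ yS u D a e < 1) ∧ (0 < yE v D a e ∧ yE v D a e < 1) := by
  obtain ⟨h1, h2⟩ := y_near (u := u) (v := v) hG he
  obtain ⟨b1, b2⟩ := hδ.box a.1 a.2 ha
  have := hδ.pos
  rw [abs_lt] at h1 h2
  refine ⟨⟨?_, ?_⟩, ?_, ?_⟩ <;> linarith [b1.1, b1.2, b2.1, b2.2]

theorem bd_pS (hδ : Dl A u v δ) {a : Ln} (ha : A.IsL a) (hG : Gd A g δ (D a)) {e : ℕ}
    (he : e < 3) : bd (pS u D a e) = EE u v a (D a).e (0, (e : ℝ) - 1) := by
  obtain ⟨⟨h1, h2⟩, -⟩ := y_box hδ ha hG he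
  unfold pS EE ph
  split_ifs with h
  · rw [bd1 h2.le]
    unfold yS
    ext <;> simp only <;> ring
  · rw [bd4 (by linarith)]
    unfold yS
    ext <;> simp only <;> ring

theorem bd_pE (hδ : Dl A u v δ) {a : Ln} (ha : A.IsL a) (hG : Gd A g δ (D a)) {e : ℕ}
    (he : e < 3) : bd (pE v D a e) = EE u v a (D a).e (1, 2 * ((e : ℝ) - 1)) := by
  obtain ⟨-, h1, h2⟩ := y_box hδ ha hG he
  unfold pE EE ph
  split_ifs with h
  · rw [bd3 (by linarith) (by linarith)]
    unfold yE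
    ext <;> simp only <;> ring
  · rw [bd2 (by linarith) (by linarith)]
    unfold yE
    ext <;> simp only <;> ring

/-- **The segments of a line are in the square.** -/
theorem inside (hδ : Dl A u v δ) {a : Ln} (ha : A.IsL a) (hG : Gd A g δ (D a)) {l : Lv}
    (hl : LV (A.N g) g l) {z : ℝ × ℝ} (hz : z ∈ sgm A g u v a (D a) l) :
    nrm z ≤ 1 ∧ (nrm z = 1 → (∃ e < 3, l = .st e 0 ∧ z = bd (pS u D a e)) ∨
      ∃ e < 3, l = .st e (ix e (A.N g)) ∧ z = bd (pE v D a e)) := by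
  unfold sgm at hz
  rw [EE_seg] at hz
  obtain ⟨w, hw, rfl⟩ := hz
  have hb : (0 ≤ w.1 ∧ w.1 ≤ 1) ∧ |w.2| ≤ 3 := by
    cases l with
    | st e i =>
      have := st_sign hG.ok hl hw
      exact ⟨this.1, this.2.2⟩
    | ti e i dd k =>
      have := ti_sign hG.ok hl hw
      exact ⟨⟨this.1.1.le, this.1.2.le⟩, this.2.2.1⟩
  obtain ⟨⟨w0, w1⟩, w2⟩ := hb
  rw [abs_le] at w2
  obtain ⟨b1, b2⟩ := hδ.box a.1 a.2 ha
  have hp := hδ.pos
  have e0 := hG.e0
  have e1 := hG.e1
  set y := u a.1 a.2 + (v a.1 a.2 - u a.1 a.2) * w.1 + (D a).e * w.2 with hy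
  have hy1 : 0 < y ∧ y < 1 := by
    have q1 : u a.1 a.2 + (v a.1 a.2 - u a.1 a.2) * w.1 =
      (1 - w.1) * u a.1 a.2 + w.1 * v a.1 a.2 := by ring
    have q2 : δ * 2 ≤ (1 - w.1) * u a.1 a.2 + w.1 * v a.1 a.2 := by
      nlinarith [mul_nonneg (sub_nonneg.2 w1) (show (0 : ℝ) ≤ u a.1 a.2 - 2 * δ by linarith [b1.1]),
        mul_nonneg w0 (show (0 : ℝ) ≤ v a.1 a.2 - 2 * δ by linarith [b2.1])]
    have q3 : (1 - w.1) * u a.1 a.2 + w.1 * v a.1 a.2 ≤ 1 - δ * 2 := by
      nlinarith [mul_nonneg (sub_nonneg.2 w1) (show (0 : ℝ) ≤ 1 - 2 * δ - u a.1 a.2 by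
        linarith [b1.2]), mul_nonneg w0 (show (0 : ℝ) ≤ 1 - 2 * δ - v a.1 a.2 by linarith [b2.2])]
    have q4 : -(3 * (D a).e) ≤ (D a).e * w.2 := by nlinarith [w2.1]
    have q5 : (D a).e * w.2 ≤ 3 * (D a).e := by nlinarith [w2.2]
    rw [hy, q1]
    constructor <;> linarith
  have hy2 : |2 * y - 1| < 1 := by rw [abs_lt]; constructor <;> linarith [hy1.1, hy1.2]
  have hw3 : |2 * w.1 - 1| ≤ 1 := by rw [abs_le]; constructor <;> linarith
  have hn : nrm (EE u v a (D a).e w) = max |2 * w.1 - 1| |2 * y - 1| := by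
    unfold nrm EE ph
    split_ifs with h
    · rfl
    · rw [max_comm]
  rw [hn]
  refine ⟨max_le hw3 hy2.le, fun h1 => ?_⟩
  have h2 : |2 * w.1 - 1| = 1 := by
    rcases max_choice |2 * w.1 - 1| |2 * y - 1| with h3 | h3
    · rw [h3] at h1; exact h1
    · rw [h3] at h1; linarith
  have h3 : w.1 = 0 ∨ w.1 = 1 := by
    rcases abs_cases (2 * w.1 - 1) with h4 | h4
    · right; linarith [h4.1]
    · left; linarith [h4.1]
  rcases h3 with h3 | h3
  · left
    obtain ⟨e, he, k1, k2⟩ := end0 hG.ok hl hw h3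
    refine ⟨e, he, k1, ?_⟩
    rw [bd_pS hδ ha hG he]
    congr 1
    exact Prod.ext h3 k2
  · right
    obtain ⟨e, he, k1, k2⟩ := end1 hG.ok hl hw h3
    refine ⟨e, he, k1, ?_⟩
    rw [bd_pE hδ ha hG he]
    congr 1
    exact Prod.ext h3 k2

theorem start_mem (hδ : Dl A u v δ) {a : Ln} (ha : A.IsL a) (hG : Gd A g δ (D a)) {e : ℕ}
    (he : e < 3) : bd (pS u D a e) ∈ sgm A g u v a (D a) (.st e 0) := by
  rw [bd_pS hδ ha hG he]
  unfold sgm
  rw [EE_seg]
  exact ⟨_, end0' hG.ok he, rfl⟩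

theorem end_mem (hδ : Dl A u v δ) {a : Ln} (ha : A.IsL a) (hG : Gd A g δ (D a)) {e : ℕ}
    (he : e < 3) : bd (pE v D a e) ∈ sgm A g u v a (D a) (.st e (ix e (A.N g))) := by
  rw [bd_pE hδ ha hG he]
  unfold sgm
  rw [EE_seg]
  exact ⟨_, end1' hG.ok he, rfl⟩

/-- The ends on a side. -/
def ET (A : Arr) (u v : Bool → ℕ → ℝ) (D : Ln → Dat) (q k : ℕ) (x : ℝ) : Prop :=
  (q = 0 ∧ ∃ i e, i < A.m false ∧ e < 3 ∧ k = 3 * A.st false i + e ∧ x = yS u D (false, i) e) ∨
  (q = 1 ∧ ∃ i e, i < A.m true ∧ e < 3 ∧ k = 3 * (A.m false + i) + e ∧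
    x = 1 + yE v D (true, i) e) ∨
  (q = 2 ∧ ∃ i e, i < A.m false ∧ e < 3 ∧
    k = 3 * (A.m false + A.m true + (A.m false - 1 - i)) + (2 - e) ∧
    x = 3 - yE v D (false, i) e) ∨
  (q = 3 ∧ ∃ i e, i < A.m true ∧ e < 3 ∧
    k = 3 * (2 * A.m false + A.m true + (A.m true - 1 - A.st true i)) + (2 - e) ∧
    x = 4 - yS u D (true, i) e)

/-- The first index of a side. -/
def Gq (A : Arr) (q : ℕ) : ℕ := if q = 0 then 0 else if q = 1 then 3 * A.m false
  else if q = 2 then 3 * (A.m false + A.m true) else if q = 3 then 3 * (2 * A.m false + A.m true)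
  else 6 * (A.m false + A.m true)

theorem ET_side (hL : LnH A u v) (hδ : Dl A u v δ) (hG : ∀ a, A.IsL a → Gd A g δ (D a))
    {q k : ℕ} {x : ℝ} (h : ET A u v D q k x) :
    q < 4 ∧ Gq A q ≤ k ∧ k < Gq A (q + 1) ∧ (q : ℝ) < x ∧ x < q + 1 := by
  rcases h with ⟨rfl, i, e, hi, he, rfl, rfl⟩ | ⟨rfl, i, e, hi, he, rfl, rfl⟩ |
    ⟨rfl, i, e, hi, he, rfl, rfl⟩ | ⟨rfl, i, e, hi, he, rfl, rfl⟩
  · have hy := y_box hδ (a := (false, i)) hi (hG _ hi) he
    have := hL.ok.stlt false i hi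
    refine ⟨by omega, by unfold Gq; simp, ?_, ?_, ?_⟩
    · unfold Gq; simp only [zero_add, one_ne_zero, if_false, if_true]; omega
    · norm_num; exact hy.1.1
    · norm_num; exact hy.1.2
  · have hy := y_box hδ (a := (true, i)) hi (hG _ hi) he
    refine ⟨by omega, ?_, ?_, ?_, ?_⟩
    · unfold Gq; simp only [one_ne_zero, if_false, if_true]; omega
    · unfold Gq; simp; omega
    · norm_num; exact hy.2.1
    · norm_num; linarith [hy.2.2]
  · have hy := y_box hδ (a := (false, i)) hi (hG _ hi) he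
    refine ⟨by omega, ?_, ?_, ?_, ?_⟩
    · unfold Gq; simp; omega
    · unfold Gq; simp; omega
    · norm_num; linarith [hy.2.2]
    · norm_num; linarith [hy.2.1]
  · have hy := y_box hδ (a := (true, i)) hi (hG _ hi) he
    have := hL.ok.stlt true i hi
    refine ⟨by omega, ?_, ?_, ?_, ?_⟩
    · unfold Gq; simp; omega
    · unfold Gq; simp; omega
    · norm_num; linarith [hy.1.2]
    · norm_num; linarith [hy.1.1]

theorem yS_lt (hL : LnH A u v) (hδ : Dl A u v δ) (hG : ∀ a, A.IsL a → Gd A g δ (D a)) {c : Bool}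
    {i i' e e' : ℕ} (hi : i < A.m c) (hi' : i' < A.m c) (he : e < 3) (he' : e' < 3)
    (h : A.st c i < A.st c i' ∨ (A.st c i = A.st c i' ∧ e < e')) :
    yS u D (c, i) e < yS u D (c, i') e' := by
  rcases h with h | ⟨h1, h2⟩
  · have n1 := (y_near (u := u) (v := v) (hG (c, i) hi) he).1
    have n2 := (y_near (u := u) (v := v) (hG (c, i') hi') he').1
    have := hδ.su c i i' hi hi' h
    rw [abs_lt] at n1 n2
    simp only at n1 n2
    linarith [n1.1, n1.2, n2.1, n2.2]
  · have := hL.ok.stinj c i i' hi hi' h1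
    subst this
    have e0 := (hG (c, i) hi).e0
    unfold yS
    have : (e : ℝ) < e' := by exact_mod_cast h2
    nlinarith

theorem yE_lt (hδ : Dl A u v δ) (hG : ∀ a, A.IsL a → Gd A g δ (D a)) {c : Bool}
    {i i' e e' : ℕ} (hi : i < A.m c) (hi' : i' < A.m c) (he : e < 3) (he' : e' < 3)
    (h : i < i' ∨ (i = i' ∧ e < e')) :
    yE v D (c, i) e < yE v D (c, i') e' := by
  rcases h with h | ⟨h1, h2⟩
  · have n1 := (y_near (u := u) (v := v) (hG (c, i) hi) he).2
    have n2 := (y_near (u := u) (v := v) (hG (c, i') hi') he').2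
    have := hδ.sv c i i' h hi'
    rw [abs_lt] at n1 n2
    simp only at n1 n2
    linarith [n1.1, n1.2, n2.1, n2.2]
  · subst h1
    have e0 := (hG (c, i) hi).e0
    unfold yE
    have : (e : ℝ) < e' := by exact_mod_cast h2
    nlinarith

/-- The order of the ends. -/
theorem ET_mono (hL : LnH A u v) (hδ : Dl A u v δ) (hG : ∀ a, A.IsL a → Gd A g δ (D a))
    {q k q' k' : ℕ} {x x' : ℝ} (h : ET A u v D q k x) (h' : ET A u v D q' k' x') (hk : k < k') :
    x < x' := by
  obtain ⟨a1, a2, a3, a4, a5⟩ := ET_side hL hδ hG h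
  obtain ⟨b1, b2, b3, b4, b5⟩ := ET_side hL hδ hG h'
  have Gm : ∀ p p', p ≤ p' → p' ≤ 4 → Gq A p ≤ Gq A p' := by
    intro p p' h1 h2
    have c1 : p = 0 ∨ p = 1 ∨ p = 2 ∨ p = 3 ∨ p = 4 := by omega
    have c2 : p' = 0 ∨ p' = 1 ∨ p' = 2 ∨ p' = 3 ∨ p' = 4 := by omega
    unfold Gq
    rcases c1 with rfl | rfl | rfl | rfl | rfl <;> rcases c2 with rfl | rfl | rfl | rfl | rfl <;>
      simp <;> omega
  rcases Nat.lt_trichotomy q q' with hq | hq | hq
  · have : (q : ℝ) + 1 ≤ q' := by exact_mod_cast hq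
    linarith
  · subst hq
    rcases h with ⟨rfl, i, e, hi, he, rfl, rfl⟩ | ⟨rfl, i, e, hi, he, rfl, rfl⟩ |
      ⟨rfl, i, e, hi, he, rfl, rfl⟩ | ⟨rfl, i, e, hi, he, rfl, rfl⟩
    · rcases h' with ⟨-, i', e', hi', he', rfl, rfl⟩ | ⟨h0, -⟩ | ⟨h0, -⟩ | ⟨h0, -⟩
      · exact yS_lt hL hδ hG hi hi' he he' (by omega)
      all_goals omega
    · rcases h' with ⟨h0, -⟩ | ⟨-, i', e', hi', he', rfl, rfl⟩ | ⟨h0, -⟩ | ⟨h0, -⟩
      · omega
      · have := yE_lt (v := v) hδ hG hi hi' he he' (by omega)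
        linarith
      all_goals omega
    · rcases h' with ⟨h0, -⟩ | ⟨h0, -⟩ | ⟨-, i', e', hi', he', rfl, rfl⟩ | ⟨h0, -⟩
      · omega
      · omega
      · have := yE_lt (v := v) hδ hG hi' hi he' he (by omega)
        linarith
      · omega
    · rcases h' with ⟨h0, -⟩ | ⟨h0, -⟩ | ⟨h0, -⟩ | ⟨-, i', e', hi', he', rfl, rfl⟩
      · omega
      · omega
      · omega
      · have s1 := hL.ok.stlt true i hi
        have s2 := hL.ok.stlt true i' hi'
        have := yS_lt hL hδ hG hi' hi he' he (by omega)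
        linarith
  · exfalso
    have := Gm (q' + 1) q hq (by omega)
    omega

theorem ET_uniq (hL : LnH A u v) (hδ : Dl A u v δ) (hG : ∀ a, A.IsL a → Gd A g δ (D a))
    {q k q' : ℕ} {x x' : ℝ} (h : ET A u v D q k x) (h' : ET A u v D q' k x') :
    x = x' := by
  obtain ⟨a1, a2, a3, a4, a5⟩ := ET_side hL hδ hG h
  obtain ⟨b1, b2, b3, b4, b5⟩ := ET_side hL hδ hG h'
  have Gm : ∀ p p', p ≤ p' → p' ≤ 4 → Gq A p ≤ Gq A p' := by
    intro p p' h1 h2
    have c1 : p = 0 ∨ p = 1 ∨ p = 2 ∨ p = 3 ∨ p = 4 := by omega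
    have c2 : p' = 0 ∨ p' = 1 ∨ p' = 2 ∨ p' = 3 ∨ p' = 4 := by omega
    unfold Gq
    rcases c1 with rfl | rfl | rfl | rfl | rfl <;> rcases c2 with rfl | rfl | rfl | rfl | rfl <;>
      simp <;> omega
  rcases Nat.lt_trichotomy q q' with hq | hq | hq
  · exfalso
    have := Gm (q + 1) q' hq (by omega)
    omega
  · subst hq
    rcases h with ⟨rfl, i, e, hi, he, rfl, rfl⟩ | ⟨rfl, i, e, hi, he, rfl, rfl⟩ |
      ⟨rfl, i, e, hi, he, rfl, rfl⟩ | ⟨rfl, i, e, hi, he, rfl, rfl⟩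
    · rcases h' with ⟨-, i', e', hi', he', hk, rfl⟩ | ⟨h0, -⟩ | ⟨h0, -⟩ | ⟨h0, -⟩
      · have := hL.ok.stinj false i i' hi hi' (by omega)
        have h2 : e = e' := by omega
        rw [this, h2]
      all_goals omega
    · rcases h' with ⟨h0, -⟩ | ⟨-, i', e', hi', he', hk, rfl⟩ | ⟨h0, -⟩ | ⟨h0, -⟩
      · omega
      · have h1 : i = i' := by omega
        have h2 : e = e' := by omega
        rw [h1, h2]
      all_goals omega
    · rcases h' with ⟨h0, -⟩ | ⟨h0, -⟩ | ⟨-, i', e', hi', he', hk, rfl⟩ | ⟨h0, -⟩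
      · omega
      · omega
      · have h1 : i = i' := by omega
        have h2 : e = e' := by omega
        rw [h1, h2]
      · omega
    · rcases h' with ⟨h0, -⟩ | ⟨h0, -⟩ | ⟨h0, -⟩ | ⟨-, i', e', hi', he', hk, rfl⟩
      · omega
      · omega
      · omega
      · have s1 := hL.ok.stlt true i hi
        have s2 := hL.ok.stlt true i' hi'
        have := hL.ok.stinj true i i' hi hi' (by omega)
        have h2 : e = e' := by omega
        rw [this, h2]
  · exfalso
    have := Gm (q' + 1) q hq (by omega)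
    omega

theorem ET_S {a : Ln} (ha : A.IsL a) {e : ℕ} (he : e < 3) :
    ∃ q, ET A u v D q (A.kS a e) (pS u D a e) := by
  obtain ⟨c, i⟩ := a
  cases c
  · exact ⟨0, Or.inl ⟨rfl, i, e, ha, he, rfl, rfl⟩⟩
  · exact ⟨3, Or.inr (Or.inr (Or.inr ⟨rfl, i, e, ha, he, rfl, rfl⟩))⟩

theorem ET_E {a : Ln} (ha : A.IsL a) {e : ℕ} (he : e < 3) :
    ∃ q, ET A u v D q (A.kE a e) (pE v D a e) := by
  obtain ⟨c, i⟩ := a
  cases c
  · exact ⟨2, Or.inr (Or.inr (Or.inl ⟨rfl, i, e, ha, he, rfl, rfl⟩))⟩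
  · exact ⟨1, Or.inr (Or.inl ⟨rfl, i, e, ha, he, rfl, rfl⟩)⟩

end Run7.h749
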