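import Pool.Agent.Run7.h749.RepH

/-!
# The representation
-/

namespace Run7.h749

open Set Arr

variable {A : Arr} {u v : Bool → ℕ → ℝ} {g : ℕ} {δ : ℝ} {D : Ln → Dat}

theorem Gq_lt (hA : A.Ok) {p q : ℕ} (h : p < q) (hq : q ≤ 4) : Gq A p < Gq A q := by
  have m0 := hA.five false
  have m1 := hA.five true
  have c1 : p = 0 ∨ p = 1 ∨ p = 2 ∨ p = 3 := by omega
  have c2 : q = 1 ∨ q = 2 ∨ q = 3 ∨ q = 4 := by omega
  unfold Gq
  rcases c1 with rfl | rfl | rfl | rfl <;> rcases c2 with rfl | rfl | rfl | rfl <;>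
    simp <;> omega

theorem Gq_le (hA : A.Ok) {p q : ℕ} (h : p ≤ q) (hq : q ≤ 4) : Gq A p ≤ Gq A q := by
  rcases Nat.eq_or_lt_of_le h with h1 | h1
  · rw [h1]
  · exact (Gq_lt hA h1 hq).le

theorem gk_lt' {g k k' : ℕ} (h : k < k') : g * k + g ≤ g * k' := by
  calc g * k + g = g * (k + 1) := by ring
    _ ≤ g * k' := Nat.mul_le_mul_left _ h

theorem code {g κ κ' ρ ρ' : ℕ} (hρ : ρ ≤ 1) (hg : 4 ≤ g)
    (h : 2 * (g * κ) + ρ < 2 * (g * κ') + ρ') (hρ' : ρ' ≤ 1) : κ < κ' ∨ (κ = κ' ∧ ρ < ρ') := by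
  rcases Nat.lt_trichotomy κ κ' with h1 | h1 | h1
  · exact Or.inl h1
  · subst h1; right; exact ⟨rfl, by omega⟩
  · exfalso
    have := gk_lt' (g := g) h1
    omega

/-- The cut points of the rings. -/
theorem exists_cut (hL : LnH A u v) (hg : 4 ≤ g) (hδ : Dl A u v δ)
    (hG : ∀ a, A.IsL a → Gd A g δ (D a)) :
    ∃ c, Cut A g c ∧ ∀ q k x, ET A u v D q k x → c (2 * (g * k) + 1) = x := by
  have hA := hL.ok
  have hM : A.M g = g * Gq A 4 := by
    unfold Arr.M Arr.nn Gq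
    simp only [OfNat.ofNat_ne_zero, OfNat.ofNat_ne_one, Nat.reduceEqDiff, if_false]
    ring
  let V : ℕ → ℝ → Prop := fun j x => ∃ κ ρ, j = 2 * (g * κ) + ρ ∧ ρ ≤ 1 ∧
    ((ρ = 1 ∧ ∃ q, ET A u v D q κ x) ∨ (ρ = 0 ∧ ∃ q, q ≤ 4 ∧ κ = Gq A q ∧ x = (q : ℝ)))
  have mono : ∀ j j' x x', V j x → V j' x' → j < j' → x < x' := by
    rintro j j' x x' ⟨κ, ρ, rfl, hρ, h⟩ ⟨κ', ρ', rfl, hρ', h'⟩ hjj
    have hc := code hρ hg hjj hρ'
    rcases h with ⟨rfl, q, h⟩ | ⟨rfl, q, hq, rfl, rfl⟩ <;>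
      rcases h' with ⟨rfl, q', h'⟩ | ⟨rfl, q', hq', rfl, rfl⟩
    · exact ET_mono hL hδ hG h h' (by omega)
    · obtain ⟨a1, a2, a3, a4, a5⟩ := ET_side hL hδ hG h
      have : q + 1 ≤ q' := by
        by_contra hcon
        have := Gq_le hA (p := q') (q := q) (by omega) (by omega)
        omega
      have : (q : ℝ) + 1 ≤ q' := by exact_mod_cast this
      linarith
    · obtain ⟨a1, a2, a3, a4, a5⟩ := ET_side hL hδ hG h'
      have : q ≤ q' := by
        by_contra hcon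
        have := Gq_le hA (p := q' + 1) (q := q) (by omega) (by omega)
        omega
      have : (q : ℝ) ≤ q' := by exact_mod_cast this
      linarith
    · have : q < q' := by
        by_contra hcon
        have := Gq_le hA (p := q') (q := q) (by omega) (by omega)
        omega
      exact_mod_cast this
  have uniq : ∀ j x x', V j x → V j x' → x = x' := by
    rintro j x x' ⟨κ, ρ, rfl, hρ, h⟩ ⟨κ', ρ', hj, hρ', h'⟩
    have hκ : κ = κ' ∧ ρ = ρ' := by
      rcases Nat.lt_trichotomy κ κ' with h1 | h1 | h1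
      · have := gk_lt' (g := g) h1; omega
      · subst h1; exact ⟨rfl, by omega⟩
      · have := gk_lt' (g := g) h1; omega
    obtain ⟨rfl, rfl⟩ := hκ
    rcases h with ⟨rfl, q, h⟩ | ⟨rfl, q, hq, rfl, rfl⟩ <;>
      rcases h' with ⟨h0, q', h'⟩ | ⟨h0, q', hq', h1, rfl⟩
    · exact ET_uniq hL hδ hG h h'
    · omega
    · omega
    · have : q = q' := by
        rcases Nat.lt_trichotomy q q' with h2 | h2 | h2
        · have := Gq_lt hA h2 hq'; omega
        · exact h2
        · have := Gq_lt hA h2 hq; omega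
      rw [this]
  have bds : ∀ j x, V j x → -1 < x ∧ x < 5 := by
    rintro j x ⟨κ, ρ, rfl, hρ, h⟩
    rcases h with ⟨rfl, q, h⟩ | ⟨rfl, q, hq, rfl, rfl⟩
    · obtain ⟨a1, a2, a3, a4, a5⟩ := ET_side hL hδ hG h
      have : (q : ℝ) + 1 ≤ 4 := by exact_mod_cast a1
      have : (0 : ℝ) ≤ q := Nat.cast_nonneg q
      constructor <;> linarith
    · have : (q : ℝ) ≤ 4 := by exact_mod_cast hq
      have : (0 : ℝ) ≤ q := Nat.cast_nonneg q
      constructor <;> linarith
  obtain ⟨c, c1, c2, c3⟩ := interp V (2 * A.M g + 1) (-1) 5 (by norm_num)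
    (fun j _ x hV => bds j x hV) (fun j _ x x' hV hV' => uniq j x x' hV hV')
    (fun j j' hjj _ x x' hV hV' => mono j j' x x' hV hV' hjj)
  have cG : ∀ q, q ≤ 4 → c (2 * (g * Gq A q)) = q := by
    intro q hq
    have h1 := Gq_le hA hq le_rfl
    have h2 : g * Gq A q ≤ A.M g := by rw [hM]; exact Nat.mul_le_mul_left _ h1
    exact c3 _ (by omega) _ ⟨Gq A q, 0, rfl, by omega, Or.inr ⟨rfl, q, hq, rfl, rfl⟩⟩
  have cm : ∀ i j, i < j → j ≤ 2 * A.M g → c i < c j := by
    intro i j hij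
    induction j, hij using Nat.le_induction with
    | base => intro hj; exact c2 i (by omega)
    | succ j hij ih => intro hj; exact (ih (by omega)).trans (c2 j (by omega))
  have cle : ∀ i j, i ≤ j → j ≤ 2 * A.M g → c i ≤ c j := by
    intro i j hij hj
    rcases Nat.eq_or_lt_of_le hij with h1 | h1
    · rw [h1]
    · exact (cm i j h1 hj).le
  refine ⟨c, ⟨cm, ?_, ?_, ?_⟩, ?_⟩
  · have := cG 0 (by omega)
    have e : Gq A 0 = 0 := rfl
    rw [e] at this
    simpa using this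
  · have := cG 4 le_rfl
    rw [← hM] at this
    simpa using this
  · intro j hj
    have key : ∃ q, q < 4 ∧ g * Gq A q ≤ j ∧ j < g * Gq A (q + 1) := by
      have e0 : g * Gq A 0 = 0 := by rw [show Gq A 0 = 0 from rfl, Nat.mul_zero]
      by_cases h1 : j < g * Gq A 1
      · exact ⟨0, by omega, by omega, h1⟩
      by_cases h2 : j < g * Gq A 2
      · exact ⟨1, by omega, by omega, h2⟩
      by_cases h3 : j < g * Gq A 3
      · exact ⟨2, by omega, by omega, h3⟩
      · exact ⟨3, by omega, by omega, by rw [← hM]; exact hj⟩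
    obtain ⟨q, hq, h1, h2⟩ := key
    refine ⟨q, hq, ?_, ?_⟩
    · rw [← cG q (by omega)]
      exact cle _ _ (by omega) (by omega)
    · have h3 := Gq_le hA (show q + 1 ≤ 4 by omega) le_rfl
      have h4 : g * Gq A (q + 1) ≤ A.M g := by rw [hM]; exact Nat.mul_le_mul_left _ h3
      have := cG (q + 1) (by omega)
      push_cast at this
      rw [← this]
      exact cle _ _ (by omega) (by omega)
  · intro q k x h
    obtain ⟨a1, a2, a3, a4, a5⟩ := ET_side hL hδ hG h
    have h1 := Gq_le hA (show q + 1 ≤ 4 by omega) le_rfl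
    have h2 : g * k + g ≤ A.M g := by
      rw [hM]; exact gk_lt' (by omega)
    exact c3 _ (by omega) _ ⟨k, 1, rfl, le_rfl, Or.inl ⟨rfl, q, h⟩⟩

/-- Vertices from local vertices. -/
def up (a : Ln) : Lv → Vx
  | .st e i => .st a.1 a.2 e i
  | .ti e i d k => .ti a.1 a.2 e i d k

theorem V_up (a : Ln) (l : Lv) : A.IsV g (up a l) ↔ A.IsL a ∧ LV (A.N g) g l := by
  cases l <;> exact Iff.rfl

theorem up_inj {a b : Ln} {l l' : Lv} (h : up a l = up b l') : a = b ∧ l = l' := by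
  cases l <;> cases l' <;> simp only [up, Vx.st.injEq, Vx.ti.injEq, reduceCtorEq] at h
  · obtain ⟨h1, h2, rfl, rfl⟩ := h
    exact ⟨Prod.ext h1 h2, rfl⟩
  · obtain ⟨h1, h2, rfl, rfl, rfl, rfl⟩ := h
    exact ⟨Prod.ext h1 h2, rfl⟩

theorem aj_up (hA : A.Ok) {a : Ln} {l l' : Lv} (ha : A.IsL a)
    (hl : LV (A.N g) g l) (hl' : LV (A.N g) g l') :
    A.Aj g (up a l) (up a l') ↔ LE g l l' ∨ LE g l' l := by
  have key : ∀ {e i e' j d k}, LV (A.N g) g (.st e i) → LV (A.N g) g (.ti e' j d k) →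
      (A.Aj g (up a (.st e i)) (up a (.ti e' j d k)) ↔ LE g (.st e i) (.ti e' j d k)) := by
    intro e i e' j d k hl hl'
    constructor
    · intro h
      obtain ⟨-, -, -, -, -, h6⟩ := aj_st_ti h
      rcases h6 with h6 | h6
      · exact Or.inl h6
      · have := hl'.2.2.2
        exact Or.inr ⟨h6.1, by omega, h6.2.2⟩
    · obtain ⟨h1, h2, h3, h4⟩ := hl'
      rintro (⟨rfl, rfl, rfl⟩ | ⟨rfl, h5, rfl⟩)
      · exact Or.inr (.ti0 a.1 a.2 e' j d ha h1 h2 h3)
      · have : k = g - 1 := by omega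
        subst this
        exact Or.inr (.ti1 a.1 a.2 e j d ha h1 h2 h3)
  cases l with
  | st e i =>
    cases l' with
    | st e' i' =>
      constructor
      · intro h
        rcases aj_st_st hA h with ⟨-, -, h1, h2 | h2⟩ | h1
        · exact Or.inl ⟨h1, h2⟩
        · exact Or.inr ⟨h1.symm, h2⟩
        · exact absurd rfl h1.1
      · rintro (⟨rfl, rfl⟩ | ⟨rfl, rfl⟩)
        · exact Or.inl (.str _ _ _ _ ha hl.1 (by have := hl'.2; omega))
        · exact Or.inr (.str _ _ _ _ ha hl.1 (by have := hl.2; omega))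
    | ti e' j d k =>
      rw [key hl hl']
      unfold LE
      rw [or_false]
  | ti e j d k =>
    cases l' with
    | st e' i' =>
      rw [aj_comm, key hl' hl]
      unfold LE
      rw [false_or]
    | ti e' j' d' k' =>
      obtain ⟨h1, h2, h3, h4⟩ := hl
      obtain ⟨h1', h2', h3', h4'⟩ := hl'
      constructor
      · intro h
        obtain ⟨-, -, rfl, rfl, rfl, h6 | h6⟩ := aj_ti_ti h
        · exact Or.inl ⟨rfl, rfl, rfl, h6⟩
        · exact Or.inr ⟨rfl, rfl, rfl, h6⟩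
      · rintro (⟨rfl, rfl, rfl, rfl⟩ | ⟨rfl, rfl, rfl, rfl⟩)
        · exact Or.inl (.tim _ _ _ _ _ _ ha h1 h2 h3 h4')
        · exact Or.inr (.tim _ _ _ _ _ _ ha h1 h2 h3 h4)

theorem aj_up_ne (hA : A.Ok) {a b : Ln} {l l' : Lv} (hab : a ≠ b) (ha : A.IsL a) (hb : A.IsL b) :
    A.Aj g (up a l) (up b l') ↔ A.cr a b = true ∧ ∃ e < 3, ∃ f < 3,
      l = .st e (ix e (A.zp g a b f)) ∧ l' = .st f (ix f (A.zp g b a e)) := by
  constructor
  · intro h
    cases l with
    | st e i =>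
      cases l' with
      | st e' i' =>
        rcases aj_st_st hA h with h1 | h1
        · exact absurd (Prod.ext h1.1 h1.2.1) hab
        · obtain ⟨-, -, -, h4, h5, h6, h7, h8⟩ := h1
          exact ⟨h4, e, h5, e', h6, by rw [h7], by rw [h8]⟩
      | ti e' j d k =>
        have := aj_st_ti h
        exact absurd (Prod.ext this.1 this.2.1) hab
    | ti e j d k =>
      cases l' with
      | st e' i' =>
        have := aj_st_ti h.symm
        exact absurd (Prod.ext this.1 this.2.1).symm hab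
      | ti e' j' d' k' =>
        have := aj_ti_ti h
        exact absurd (Prod.ext this.1 this.2.1) hab
  · rintro ⟨h1, e, he, f, hf, rfl, rfl⟩
    rcases Nat.lt_trichotomy (A.rk a) (A.rk b) with h | h | h
    · exact Or.inl (.crs a b e f ha hb hab h1 h he hf)
    · exact absurd (RS.rk_inj ha hb h) hab
    · exact Or.inr (.crs b a f e hb ha hab.symm (by rw [hA.cr_comm]; exact h1) h hf he)

/-- Two vertices of lines. -/
theorem lines_adj (hL : LnH A u v) (hG : ∀ a, A.IsL a → Gd A g δ (D a))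
    (hP : ∀ a b, A.IsL a → A.IsL b → A.rk a < A.rk b → Pst A g u v (D a) (D b) a b)
    {a b : Ln} {l l' : Lv} (ha : A.IsL a) (hb : A.IsL b)
    (hl : LV (A.N g) g l) (hl' : LV (A.N g) g l') (hne : up a l ≠ up b l') :
    (∃ z, z ∈ sgm A g u v a (D a) l ∧ z ∈ sgm A g u v b (D b) l') ↔
      A.Aj g (up a l) (up b l') := by
  have hA := hL.ok
  by_cases hab : a = b
  · subst hab
    have hll : l ≠ l' := fun h => hne (by rw [h])
    rw [aj_up hA ha hl hl', ← local_adj (hG a ha).ok hl hl' hll]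
    unfold sgm Mt
    rw [EE_seg, EE_seg]
    constructor
    · rintro ⟨z, ⟨w, hw, hw'⟩, w2, hw2, hw2'⟩
      have : w = w2 := EE_inj a (hG a ha).e0.ne' (hw'.trans hw2'.symm)
      subst this
      exact ⟨w, hw, hw2⟩
    · rintro ⟨w, h1, h2⟩
      exact ⟨_, ⟨w, h1, rfl⟩, w, h2, rfl⟩
  · rw [aj_up_ne hA hab ha hb]
    rcases Nat.lt_trichotomy (A.rk a) (A.rk b) with h | h | h
    · rw [hP a b ha hb h l l' hl hl']
      simp only [RS.zp_thick h]
    · exact absurd (RS.rk_inj ha hb h) hab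
    · have h1 := hP b a hb ha h l' l hl' hl
      rw [show (∃ z, z ∈ sgm A g u v a (D a) l ∧ z ∈ sgm A g u v b (D b) l') ↔
        ∃ z, z ∈ sgm A g u v b (D b) l' ∧ z ∈ sgm A g u v a (D a) l from
        ⟨fun ⟨z, x, y⟩ => ⟨z, y, x⟩, fun ⟨z, x, y⟩ => ⟨z, y, x⟩⟩, h1]
      simp only [RS.zp_thick h]
      rw [hA.cr_comm b a]
      constructor
      · rintro ⟨h2, e, he, f, hf, h3, h4⟩
        exact ⟨h2, f, hf, e, he, h4, h3⟩
      · rintro ⟨h2, e, he, f, hf, h3, h4⟩
        exact ⟨h2, f, hf, e, he, h4, h3⟩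

end Run7.h749
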