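import Pool.Agent.Run7.h749.Top1

/-!
# Two forms of the obstructions, and convexity of locally supported open sets
-/

namespace Run7.h749.Top

open Set

/-- Two diagonals of a quadrilateral whose vertices are joined to an outer point meet. -/
theorem cross4 {r1 r2 r3 r4 h : ℝ × ℝ} {R12 R23 R34 R41 H1 H2 H3 H4 A B : Set (ℝ × ℝ)}
    (j12 : JoinedIn R12 r1 r2) (j23 : JoinedIn R23 r2 r3) (j34 : JoinedIn R34 r3 r4)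
    (j41 : JoinedIn R41 r4 r1) (k1 : JoinedIn H1 r1 h) (k2 : JoinedIn H2 r2 h)
    (k3 : JoinedIn H3 r3 h) (k4 : JoinedIn H4 r4 h) (jA : JoinedIn A r1 r3)
    (jB : JoinedIn B r2 r4)
    (d1 : Disjoint R12 R34) (d2 : Disjoint R23 R41)
    (d3 : Disjoint H1 R23) (d4 : Disjoint H1 R34) (d5 : Disjoint H2 R34) (d6 : Disjoint H2 R41)
    (d7 : Disjoint H3 R41) (d8 : Disjoint H3 R12) (d9 : Disjoint H4 R12) (d10 : Disjoint H4 R23)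
    (d11 : Disjoint A H2) (d12 : Disjoint A H4) (d13 : Disjoint B H1) (d14 : Disjoint B H3) :
    (A ∩ B).Nonempty := by
  rw [← Set.not_disjoint_iff_nonempty_inter]
  intro dAB
  refine k5R ![r1, r2, r3, r4, h]
    ![![∅, R12, A, R41, H1], ![∅, ∅, R23, B, H2], ![∅, ∅, ∅, R34, H3],
      ![∅, ∅, ∅, ∅, H4], ![∅, ∅, ∅, ∅, ∅]] ?_ ?_
  · intro a b hab
    have : (a, b) ∈ [((0 : Fin 5), (1 : Fin 5)), (0, 2), (0, 3), (0, 4), (1, 2), (1, 3), (1, 4),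
        (2, 3), (2, 4), (3, 4)] := by revert a b; decide
    simp only [List.mem_cons, Prod.mk.injEq, List.not_mem_nil, or_false] at this
    rcases this with ⟨rfl, rfl⟩ | ⟨rfl, rfl⟩ | ⟨rfl, rfl⟩ | ⟨rfl, rfl⟩ | ⟨rfl, rfl⟩ | ⟨rfl, rfl⟩ |
      ⟨rfl, rfl⟩ | ⟨rfl, rfl⟩ | ⟨rfl, rfl⟩ | ⟨rfl, rfl⟩
    · exact j12
    · exact jA
    · exact j41.symm
    · exact k1
    · exact j23
    · exact jB
    · exact k2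
    · exact j34
    · exact k3
    · exact k4
  · intro a b c d hab hcd h1 h2 h3 h4
    have key : (a, b, c, d) ∈ [((0 : Fin 5), (1 : Fin 5), (2 : Fin 5), (3 : Fin 5)), (0,1,2,4),
      (0,1,3,4), (0,2,1,3), (0,2,1,4), (0,2,3,4), (0,3,1,2), (0,3,1,4), (0,3,2,4), (0,4,1,2),
      (0,4,1,3), (0,4,2,3), (1,2,3,4), (1,3,2,4), (1,4,2,3)] ∨ (c, d, a, b) ∈
      [((0 : Fin 5), (1 : Fin 5), (2 : Fin 5), (3 : Fin 5)), (0,1,2,4),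
      (0,1,3,4), (0,2,1,3), (0,2,1,4), (0,2,3,4), (0,3,1,2), (0,3,1,4), (0,3,2,4), (0,4,1,2),
      (0,4,1,3), (0,4,2,3), (1,2,3,4), (1,3,2,4), (1,4,2,3)] := by
      revert a b c d; decide
    simp only [List.mem_cons, Prod.mk.injEq, List.not_mem_nil, or_false] at key
    rcases key with key | key
    · rcases key with ⟨rfl, rfl, rfl, rfl⟩ | ⟨rfl, rfl, rfl, rfl⟩ | ⟨rfl, rfl, rfl, rfl⟩ |
        ⟨rfl, rfl, rfl, rfl⟩ | ⟨rfl, rfl, rfl, rfl⟩ | ⟨rfl, rfl, rfl, rfl⟩ | ⟨rfl, rfl, rfl, rfl⟩ |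
        ⟨rfl, rfl, rfl, rfl⟩ | ⟨rfl, rfl, rfl, rfl⟩ | ⟨rfl, rfl, rfl, rfl⟩ | ⟨rfl, rfl, rfl, rfl⟩ |
        ⟨rfl, rfl, rfl, rfl⟩ | ⟨rfl, rfl, rfl, rfl⟩ | ⟨rfl, rfl, rfl, rfl⟩ | ⟨rfl, rfl, rfl, rfl⟩
      exacts [d1, d8.symm, d9.symm, dAB, d11, d12, d2.symm, d6.symm, d7.symm, d3, d13.symm, d4,
        d10.symm, d14, d5]
    · rcases key with ⟨rfl, rfl, rfl, rfl⟩ | ⟨rfl, rfl, rfl, rfl⟩ | ⟨rfl, rfl, rfl, rfl⟩ |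
        ⟨rfl, rfl, rfl, rfl⟩ | ⟨rfl, rfl, rfl, rfl⟩ | ⟨rfl, rfl, rfl, rfl⟩ | ⟨rfl, rfl, rfl, rfl⟩ |
        ⟨rfl, rfl, rfl, rfl⟩ | ⟨rfl, rfl, rfl, rfl⟩ | ⟨rfl, rfl, rfl, rfl⟩ | ⟨rfl, rfl, rfl, rfl⟩ |
        ⟨rfl, rfl, rfl, rfl⟩ | ⟨rfl, rfl, rfl, rfl⟩ | ⟨rfl, rfl, rfl, rfl⟩ | ⟨rfl, rfl, rfl, rfl⟩
      exacts [d1.symm, d8, d9, dAB.symm, d11.symm, d12.symm, d2, d6, d7, d3.symm, d13, d4.symm,
        d10, d14.symm, d5.symm]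

/-- A closed curve with four points `z1, z2, z3, z4` on it; `x` is joined to `z1` and `z3`, `y` to
`z2` and `z4`; then `x` and `y` are not joined. -/
theorem sep33 {x y z1 z2 z3 z4 : ℝ × ℝ} {A12 A23 A34 A41 X1 X3 Y2 Y4 D : Set (ℝ × ℝ)}
    (j12 : JoinedIn A12 z1 z2) (j23 : JoinedIn A23 z2 z3) (j34 : JoinedIn A34 z3 z4)
    (j41 : JoinedIn A41 z4 z1) (x1 : JoinedIn X1 x z1) (x3 : JoinedIn X3 x z3)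
    (y2 : JoinedIn Y2 y z2) (y4 : JoinedIn Y4 y z4) (jD : JoinedIn D x y)
    (d1 : Disjoint A12 A34) (d2 : Disjoint A23 A41)
    (e1 : Disjoint X1 A23) (e2 : Disjoint X1 A34) (e3 : Disjoint X3 A12) (e4 : Disjoint X3 A41)
    (f1 : Disjoint Y2 A34) (f2 : Disjoint Y2 A41) (f3 : Disjoint Y4 A12) (f4 : Disjoint Y4 A23)
    (g1 : Disjoint X1 Y2) (g2 : Disjoint X1 Y4) (g3 : Disjoint X3 Y2) (g4 : Disjoint X3 Y4)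
    (h1 : Disjoint D A12) (h2 : Disjoint D A23) (h3 : Disjoint D A34) (h4 : Disjoint D A41) :
    False := by
  refine k33R ![z1, z2, z3, z4, x, y]
    ![![∅, A12, ∅, A41, X1, ∅], ![∅, ∅, A23, ∅, ∅, Y2], ![∅, ∅, ∅, A34, X3, ∅],
      ![∅, ∅, ∅, ∅, ∅, Y4], ![∅, ∅, ∅, ∅, ∅, D], ![∅, ∅, ∅, ∅, ∅, ∅]] ?_ ?_
  · intro a b hab
    unfold E33 at hab
    simp only [List.mem_cons, Prod.mk.injEq, List.not_mem_nil, or_false] at hab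
    rcases hab with ⟨rfl, rfl⟩ | ⟨rfl, rfl⟩ | ⟨rfl, rfl⟩ | ⟨rfl, rfl⟩ | ⟨rfl, rfl⟩ | ⟨rfl, rfl⟩ |
      ⟨rfl, rfl⟩ | ⟨rfl, rfl⟩ | ⟨rfl, rfl⟩
    · exact j12
    · exact j23
    · exact j34
    · exact j41.symm
    · exact x1.symm
    · exact x3.symm
    · exact y2.symm
    · exact y4.symm
    · exact jD
  · intro a b c d hab hcd n1 n2 n3 n4
    have key : (a, b, c, d) ∈ [((0 : Fin 6), (1 : Fin 6), (2 : Fin 6), (3 : Fin 6)),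
      (1, 2, 0, 3), (0, 4, 1, 2), (0, 4, 2, 3), (2, 4, 0, 1), (2, 4, 0, 3), (1, 5, 2, 3),
      (1, 5, 0, 3), (3, 5, 0, 1), (3, 5, 1, 2), (0, 4, 1, 5), (0, 4, 3, 5), (2, 4, 1, 5),
      (2, 4, 3, 5), (4, 5, 0, 1), (4, 5, 1, 2), (4, 5, 2, 3), (4, 5, 0, 3)] ∨ (c, d, a, b) ∈
      [((0 : Fin 6), (1 : Fin 6), (2 : Fin 6), (3 : Fin 6)),
      (1, 2, 0, 3), (0, 4, 1, 2), (0, 4, 2, 3), (2, 4, 0, 1), (2, 4, 0, 3), (1, 5, 2, 3),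
      (1, 5, 0, 3), (3, 5, 0, 1), (3, 5, 1, 2), (0, 4, 1, 5), (0, 4, 3, 5), (2, 4, 1, 5),
      (2, 4, 3, 5), (4, 5, 0, 1), (4, 5, 1, 2), (4, 5, 2, 3), (4, 5, 0, 3)] := by
      revert a b c d; decide
    simp only [List.mem_cons, Prod.mk.injEq, List.not_mem_nil, or_false] at key
    rcases key with key | key
    · rcases key with ⟨rfl, rfl, rfl, rfl⟩ | ⟨rfl, rfl, rfl, rfl⟩ | ⟨rfl, rfl, rfl, rfl⟩ |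
        ⟨rfl, rfl, rfl, rfl⟩ | ⟨rfl, rfl, rfl, rfl⟩ | ⟨rfl, rfl, rfl, rfl⟩ | ⟨rfl, rfl, rfl, rfl⟩ |
        ⟨rfl, rfl, rfl, rfl⟩ | ⟨rfl, rfl, rfl, rfl⟩ | ⟨rfl, rfl, rfl, rfl⟩ | ⟨rfl, rfl, rfl, rfl⟩ |
        ⟨rfl, rfl, rfl, rfl⟩ | ⟨rfl, rfl, rfl, rfl⟩ | ⟨rfl, rfl, rfl, rfl⟩ | ⟨rfl, rfl, rfl, rfl⟩ |
        ⟨rfl, rfl, rfl, rfl⟩ | ⟨rfl, rfl, rfl, rfl⟩ | ⟨rfl, rfl, rfl, rfl⟩
      exacts [d1, d2, e1, e2, e3, e4, f1, f2, f3, f4, g1, g2, g3, g4, h1, h2, h3, h4]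
    · rcases key with ⟨rfl, rfl, rfl, rfl⟩ | ⟨rfl, rfl, rfl, rfl⟩ | ⟨rfl, rfl, rfl, rfl⟩ |
        ⟨rfl, rfl, rfl, rfl⟩ | ⟨rfl, rfl, rfl, rfl⟩ | ⟨rfl, rfl, rfl, rfl⟩ | ⟨rfl, rfl, rfl, rfl⟩ |
        ⟨rfl, rfl, rfl, rfl⟩ | ⟨rfl, rfl, rfl, rfl⟩ | ⟨rfl, rfl, rfl, rfl⟩ | ⟨rfl, rfl, rfl, rfl⟩ |
        ⟨rfl, rfl, rfl, rfl⟩ | ⟨rfl, rfl, rfl, rfl⟩ | ⟨rfl, rfl, rfl, rfl⟩ | ⟨rfl, rfl, rfl, rfl⟩ |
        ⟨rfl, rfl, rfl, rfl⟩ | ⟨rfl, rfl, rfl, rfl⟩ | ⟨rfl, rfl, rfl, rfl⟩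
      exacts [d1.symm, d2.symm, e1.symm, e2.symm, e3.symm, e4.symm, f1.symm, f2.symm, f3.symm,
        f4.symm, g1.symm, g2.symm, g3.symm, g4.symm, h1.symm, h2.symm, h3.symm, h4.symm]

end Run7.h749.Top
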