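import Pool.Agent.Run7.h749.Adj
import Pool.Agent.Run7.h749.Top2

/-!
# Representations: joining points, disjointness, the rings
-/

namespace Run7.h749

open Arr Set

variable {A : Arr} {g : ℕ} {P Q : Vx → ℝ × ℝ}

/-- A representation of the graph. -/
structure RS (A : Arr) (g : ℕ) (P Q : Vx → ℝ × ℝ) : Prop where
  ok : A.Ok
  hg : 4 ≤ g
  h : ∀ u v, A.IsV g u → A.IsV g v → u ≠ v →
    ((segment ℝ (P u) (Q u) ∩ segment ℝ (P v) (Q v)).Nonempty ↔ A.Ed g u v ∨ A.Ed g v u)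

/-- The union of the segments of some vertices. -/
def UU (P Q : Vx → ℝ × ℝ) (W : Set Vx) : Set (ℝ × ℝ) := ⋃ v ∈ W, segment ℝ (P v) (Q v)

/-- Points of the segments of `u` and `v` are joined in the union of the segments of `W`. -/
def Jn (P Q : Vx → ℝ × ℝ) (W : Set Vx) (u v : Vx) : Prop :=
  ∀ x ∈ segment ℝ (P u) (Q u), ∀ y ∈ segment ℝ (P v) (Q v), JoinedIn (UU P Q W) x y

theorem mem_UU {W : Set Vx} {v : Vx} (hv : v ∈ W) {x : ℝ × ℝ}
    (hx : x ∈ segment ℝ (P v) (Q v)) : x ∈ UU P Q W := mem_biUnion hv hx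

theorem sub_UU {W : Set Vx} {v : Vx} (hv : v ∈ W) : segment ℝ (P v) (Q v) ⊆ UU P Q W :=
  fun _ hx => mem_UU hv hx

theorem UU_mono {W W' : Set Vx} (h : W ⊆ W') : UU P Q W ⊆ UU P Q W' :=
  biUnion_subset_biUnion_left h

theorem UU_union (W W' : Set Vx) : UU P Q (W ∪ W') = UU P Q W ∪ UU P Q W' := by
  unfold UU; rw [biUnion_union]

theorem joined_seg {K : Set (ℝ × ℝ)} {p q x y : ℝ × ℝ} (h : segment ℝ p q ⊆ K)
    (hx : x ∈ segment ℝ p q) (hy : y ∈ segment ℝ p q) : JoinedIn K x y :=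
  JoinedIn.of_segment_subset (((convex_segment p q).segment_subset hx hy).trans h)

theorem Jn.refl {W : Set Vx} {u : Vx} (h : u ∈ W) : Jn P Q W u u :=
  fun _ hx _ hy => joined_seg (sub_UU h) hx hy

theorem Jn.symm {W : Set Vx} {u v : Vx} (h : Jn P Q W u v) : Jn P Q W v u :=
  fun x hx y hy => (h y hy x hx).symm

theorem Jn.trans {W : Set Vx} {u v w : Vx} (h : Jn P Q W u v) (h' : Jn P Q W v w) :
    Jn P Q W u w := fun x hx y hy =>
  (h x hx _ (left_mem_segment ℝ _ _)).trans (h' _ (left_mem_segment ℝ _ _) y hy)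

theorem Jn.mono {W W' : Set Vx} {u v : Vx} (hW : W ⊆ W') (h : Jn P Q W u v) : Jn P Q W' u v :=
  fun x hx y hy => (h x hx y hy).mono (UU_mono hW)

namespace RS

theorem mt (hR : RS A g P Q) {u v : Vx} (hu : A.IsV g u) (hv : A.IsV g v) (h : A.Aj g u v) :
    ∃ z, z ∈ segment ℝ (P u) (Q u) ∧ z ∈ segment ℝ (P v) (Q v) := by
  by_cases he : u = v
  · subst he
    exact ⟨P u, left_mem_segment ℝ _ _, left_mem_segment ℝ _ _⟩
  · exact (hR.h u v hu hv he).2 h

theorem dj (hR : RS A g P Q) {u v : Vx} (hu : A.IsV g u) (hv : A.IsV g v) (he : u ≠ v)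
    (h : ¬ A.Aj g u v) : Disjoint (segment ℝ (P u) (Q u)) (segment ℝ (P v) (Q v)) := by
  rw [Set.disjoint_iff_inter_eq_empty, ← Set.not_nonempty_iff_eq_empty]
  exact fun hn => h ((hR.h u v hu hv he).1 hn)

theorem dj' (hR : RS A g P Q) {u v : Vx} (hu : A.IsV g u) (hv : A.IsV g v) (he : u ≠ v)
    (h : ¬ A.Aj g u v) {z : ℝ × ℝ} (hz : z ∈ segment ℝ (P u) (Q u)) :
    z ∉ segment ℝ (P v) (Q v) := Set.disjoint_left.1 (hR.dj hu hv he h) hz

theorem dU (hR : RS A g P Q) {W W' : Set Vx} (h : ∀ u ∈ W, ∀ v ∈ W', A.IsV g u ∧ A.IsV g v ∧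
    u ≠ v ∧ ¬ A.Aj g u v) : Disjoint (UU P Q W) (UU P Q W') := by
  unfold UU
  rw [Set.disjoint_iUnion₂_left]
  intro u hu
  rw [Set.disjoint_iUnion₂_right]
  intro v hv
  obtain ⟨h1, h2, h3, h4⟩ := h u hu v hv
  exact hR.dj h1 h2 h3 h4

theorem step (hR : RS A g P Q) {W : Set Vx} {u v : Vx} (hu : u ∈ W) (hv : v ∈ W)
    (hu' : A.IsV g u) (hv' : A.IsV g v) (h : A.Aj g u v) : Jn P Q W u v := by
  obtain ⟨z, hz1, hz2⟩ := hR.mt hu' hv' h
  exact fun x hx y hy => (joined_seg (sub_UU hu) hx hz1).trans (joined_seg (sub_UU hv) hz2 hy)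

theorem path (hR : RS A g P Q) {W : Set Vx} (f : ℕ → Vx) {i j : ℕ} (hij : i ≤ j)
    (h : ∀ t, i ≤ t → t ≤ j → f t ∈ W ∧ A.IsV g (f t))
    (h' : ∀ t, i ≤ t → t < j → A.Aj g (f t) (f (t + 1))) : Jn P Q W (f i) (f j) := by
  induction j, hij using Nat.le_induction with
  | base => exact Jn.refl (h i le_rfl le_rfl).1
  | succ j hij ih =>
    refine (ih (fun t h1 h2 => h t h1 (by omega)) fun t h1 h2 => h' t h1 (by omega)).trans ?_
    exact hR.step (h j hij (by omega)).1 (h (j + 1) (by omega) le_rfl).1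
      (h j hij (by omega)).2 (h (j + 1) (by omega) le_rfl).2 (h' j hij (by omega))

/-- Strands. -/
theorem jst (hR : RS A g P Q) {W : Set Vx} {c : Bool} {a e i j : ℕ} (ha : a < A.m c) (he : e < 3)
    (hij : i ≤ j) (hj : j ≤ ix e (A.N g)) (hW : ∀ t, i ≤ t → t ≤ j → Vx.st c a e t ∈ W) :
    Jn P Q W (.st c a e i) (.st c a e j) :=
  hR.path (fun t => Vx.st c a e t) hij (fun t h1 h2 => ⟨hW t h1 h2, ha, he, by omega⟩)
    fun t h1 h2 => Or.inl (.str c a e t ha he (by omega))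

/-- Ties. -/
theorem jti (hR : RS A g P Q) {W : Set Vx} {c : Bool} {a e i d j : ℕ} (ha : a < A.m c)
    (he : e = 0 ∨ e = 2) (hi : i < A.N g) (hd : d < 2) (hj : j < g)
    (hW : ∀ t, t < g → Vx.ti c a e i d t ∈ W) :
    Jn P Q W (.ti c a e i d 0) (.ti c a e i d j) :=
  hR.path (fun t => Vx.ti c a e i d t) (Nat.zero_le _)
    (fun t h1 h2 => ⟨hW t (by omega), ha, he, hi, hd, by omega⟩)
    fun t h1 h2 => Or.inl (.tim c a e i d t ha he hi hd (by omega))

/-- Rings. -/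
theorem jrg (hR : RS A g P Q) {W : Set Vx} {b : Bool} {i j : ℕ} (hij : i ≤ j) (hj : j < A.M g)
    (hW : ∀ t, i ≤ t → t ≤ j → Vx.rg b t ∈ W) : Jn P Q W (.rg b i) (.rg b j) :=
  hR.path (fun t => Vx.rg b t) hij (fun t h1 h2 => ⟨hW t h1 h2, by show t < A.M g; omega⟩)
    fun t h1 h2 => Or.inl (by
      have := Ed.rng (A := A) (g := g) b t (by omega)
      rwa [Nat.mod_eq_of_lt (by omega)] at this)

/-- Spokes. -/
theorem jsp (hR : RS A g P Q) {W : Set Vx} {k : ℕ} (hk : k < 6 * A.nn)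
    (hW : ∀ t, t < g → Vx.sp k t ∈ W) : Jn P Q W (.sp k 0) (.sp k (g - 1)) :=
  hR.path (fun t => Vx.sp k t) (Nat.zero_le _)
    (fun t h1 h2 => ⟨hW t (by have := hR.hg; omega), hk, by have := hR.hg; omega⟩)
    fun t h1 h2 => Or.inl (.spm k t hk (by omega))

/-! ### The rings -/

/-- The part of the rings and spokes belonging to the end number `k`. -/
def Hk (A : Arr) (g k : ℕ) : Set Vx := {v | v = .rg false (g * k) ∨ v = .rg false (g * k + 1) ∨
  (∃ j, j < g ∧ v = .sp k j) ∨ ∃ j, j < A.M g ∧ v = .rg true j}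

theorem k_lt_M (_hR : RS A g P Q) {k : ℕ} (hk : k < 6 * A.nn) : g * k + g ≤ A.M g := by
  unfold Arr.M
  calc g * k + g = g * (k + 1) := by ring
    _ ≤ g * (6 * A.nn) := Nat.mul_le_mul_left _ hk
    _ = 6 * A.nn * g := by ring

theorem gk_lt {k k' : ℕ} (h : k < k') : g * k + g ≤ g * k' := by
  calc g * k + g = g * (k + 1) := by ring
    _ ≤ g * k' := Nat.mul_le_mul_left _ h

theorem jHk (hR : RS A g P Q) {k : ℕ} (hk : k < 6 * A.nn) :
    Jn P Q (Hk A g k) (.rg false (g * k)) (.rg true 0) := by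
  have hM := hR.k_lt_M hk
  have hg := hR.hg
  have m0 : Vx.rg false (g * k) ∈ Hk A g k := Or.inl rfl
  have m1 : Vx.rg false (g * k + 1) ∈ Hk A g k := Or.inr (Or.inl rfl)
  have m2 : ∀ t, t < g → Vx.sp k t ∈ Hk A g k := fun t ht => Or.inr (Or.inr (Or.inl ⟨t, ht, rfl⟩))
  have m3 : ∀ t, t < A.M g → Vx.rg true t ∈ Hk A g k :=
    fun t ht => Or.inr (Or.inr (Or.inr ⟨t, ht, rfl⟩))
  have e0 : A.Aj g (.rg false (g * k)) (.rg false (g * k + 1)) := by
    have := Ed.rng (A := A) (g := g) false (g * k) (by omega)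
    rw [Nat.mod_eq_of_lt (by omega)] at this
    exact Or.inl this
  have i0 : A.IsV g (.rg false (g * k)) := by show g * k < A.M g; omega
  have i1 : A.IsV g (.rg false (g * k + 1)) := by show g * k + 1 < A.M g; omega
  have i2 : A.IsV g (.rg true (g * k + 1)) := by show g * k + 1 < A.M g; omega
  have i3 : A.IsV g (.sp k 0) := ⟨hk, by omega⟩
  have i4 : A.IsV g (.sp k (g - 1)) := ⟨hk, by omega⟩
  refine (hR.step m0 m1 i0 i1 e0).trans ?_
  refine (hR.step m1 (m2 0 (by omega)) i1 i3 (Or.inr (.spi k hk))).trans ?_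
  refine (hR.jsp hk m2).trans ?_
  refine (hR.step (m2 _ (by omega)) (m3 _ (by omega)) i4 i2 (Or.inl (.spo k hk))).trans ?_
  exact (hR.jrg (Nat.zero_le _) (by omega) fun t _ h2 => m3 t (by omega)).symm

/-- Vertices which are adjacent to the inner ring at most at the ends number `k`, `k'`. -/
def Av (A : Arr) (g k k' : ℕ) (v : Vx) : Prop :=
  A.IsV g v ∧ match v with
  | .st c a e i => (i = 0 → A.kS (c, a) e = k ∨ A.kS (c, a) e = k') ∧
      (i = ix e (A.N g) → A.kE (c, a) e = k ∨ A.kE (c, a) e = k')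
  | .ti _ _ _ _ _ _ => True
  | _ => False

theorem Av.symm {k k' : ℕ} {v : Vx} (h : Av A g k k' v) : Av A g k' k v := by
  refine ⟨h.1, ?_⟩
  cases v with
  | st c a e i => exact ⟨fun h1 => (h.2.1 h1).symm, fun h1 => (h.2.2 h1).symm⟩
  | ti => trivial
  | rg => exact h.2
  | sp => exact h.2

theorem Av.dH (hR : RS A g P Q) {k k' l : ℕ} (hl : l < 6 * A.nn) {v : Vx} (h : Av A g k k' v)
    (h1 : l ≠ k) (h2 : l ≠ k') : ∀ u ∈ Hk A g l, A.IsV g u ∧ v ≠ u ∧ ¬ A.Aj g v u := by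
  have hM := hR.k_lt_M hl
  have hg := hR.hg
  have hgp : 0 < g := by omega
  rintro u (rfl | rfl | ⟨j, hj, rfl⟩ | ⟨j, hj, rfl⟩)
  · refine ⟨by show g * l < A.M g; omega, ?_⟩
    cases v with
    | st c a e i =>
      refine ⟨by simp, fun hA => ?_⟩
      obtain ⟨-, -, h3 | h3⟩ := aj_st_rg hA
      · have h4 : l = A.kS (c, a) e := Nat.eq_of_mul_eq_mul_left hgp h3.2
        rcases h.2.1 h3.1 with h5 | h5 <;> omega
      · have h4 : l = A.kE (c, a) e := Nat.eq_of_mul_eq_mul_left hgp h3.2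
        rcases h.2.2 h3.1 with h5 | h5 <;> omega
    | ti => exact ⟨by simp, not_aj_ti_rg⟩
    | rg => exact absurd h.2 (by simp)
    | sp => exact absurd h.2 (by simp)
  · refine ⟨by show g * l + 1 < A.M g; omega, ?_⟩
    cases v with
    | st c a e i =>
      refine ⟨by simp, fun hA => ?_⟩
      have key : ∀ x, g * l + 1 ≠ g * x := by
        intro x hx
        have h5 : (g * l + 1) % g = 1 := by
          rw [Nat.mul_add_mod, Nat.mod_eq_of_lt (by omega)]
        rw [hx, Nat.mul_mod_right] at h5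
        omega
      obtain ⟨-, -, h3 | h3⟩ := aj_st_rg hA
      · exact key _ h3.2
      · exact key _ h3.2
    | ti => exact ⟨by simp, not_aj_ti_rg⟩
    | rg => exact absurd h.2 (by simp)
    | sp => exact absurd h.2 (by simp)
  · refine ⟨⟨hl, hj⟩, ?_⟩
    cases v with
    | st c a e i => exact ⟨by simp, not_aj_st_sp⟩
    | ti => exact ⟨by simp, not_aj_ti_sp⟩
    | rg => exact absurd h.2 (by simp)
    | sp => exact absurd h.2 (by simp)
  · refine ⟨hj, ?_⟩
    cases v with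
    | st c a e i =>
      refine ⟨by simp, fun hA => ?_⟩
      have := (aj_st_rg hA).1
      simp at this
    | ti => exact ⟨by simp, not_aj_ti_rg⟩
    | rg => exact absurd h.2 (by simp)
    | sp => exact absurd h.2 (by simp)

theorem mod_succ {j M : ℕ} (h : j < M) :
    (j + 1) % M = j + 1 ∧ j + 1 < M ∨ (j + 1) % M = 0 ∧ j + 1 = M := by
  rcases Nat.lt_or_ge (j + 1) M with h1 | h1
  · exact Or.inl ⟨Nat.mod_eq_of_lt h1, h1⟩
  · have : j + 1 = M := by omega
    exact Or.inr ⟨by rw [this, Nat.mod_self], this⟩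

/-- Two vertices of the inner ring which are not neighbours. -/
theorem rg_far {i j : ℕ} (hj : j < A.M g) (h : i + 1 < j) (h' : 0 < i ∨ j + 1 < A.M g) :
    ¬ A.Aj g (.rg false i) (.rg false j) := by
  intro hA
  obtain ⟨-, h1 | h1⟩ := aj_rg_rg hA
  · rcases mod_succ (show i < A.M g by omega) with h2 | h2 <;> omega
  · rcases mod_succ hj with h2 | h2 <;> omega

/-- The inner ring between two ends and the spoke of another end. -/
theorem dHR (hR : RS A g P Q) {k : ℕ} (hk : k < 6 * A.nn) {W : Set Vx}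
    (hW : ∀ v ∈ W, ∃ j, v = .rg false j ∧ j < A.M g ∧ ¬ A.Aj g (.rg false j) (.rg false (g * k)) ∧
      ¬ A.Aj g (.rg false j) (.rg false (g * k + 1)) ∧ j ≠ g * k ∧ j ≠ g * k + 1) :
    Disjoint (UU P Q (Hk A g k)) (UU P Q W) := by
  have hM := hR.k_lt_M hk
  have hg := hR.hg
  refine hR.dU fun u hu v hv => ?_
  obtain ⟨j, rfl, hj, h1, h2, h3, h4⟩ := hW v hv
  rcases hu with rfl | rfl | ⟨i, hi, rfl⟩ | ⟨i, hi, rfl⟩
  · refine ⟨by show g * k < A.M g; omega, hj, ?_, fun h => h1 h.symm⟩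
    intro he
    simp only [Vx.rg.injEq, true_and] at he
    exact h3 he.symm
  · refine ⟨by show g * k + 1 < A.M g; omega, hj, ?_, fun h => h2 h.symm⟩
    intro he
    simp only [Vx.rg.injEq, true_and] at he
    exact h4 he.symm
  · refine ⟨⟨hk, hi⟩, hj, by simp, fun h => ?_⟩
    exact h4 (aj_rg_sp h.symm).1
  · refine ⟨hi, hj, by simp, fun h => ?_⟩
    have := (aj_rg_rg h).1
    simp at this

theorem env (hR : RS A g P Q) {k1 k2 k3 k4 : ℕ} (h12 : k1 < k2) (h23 : k2 < k3) (h34 : k3 < k4)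
    (h4 : k4 < 6 * A.nn) {r1 r2 r3 r4 : ℝ × ℝ}
    (hr1 : r1 ∈ segment ℝ (P (.rg false (g * k1))) (Q (.rg false (g * k1))))
    (hr2 : r2 ∈ segment ℝ (P (.rg false (g * k2))) (Q (.rg false (g * k2))))
    (hr3 : r3 ∈ segment ℝ (P (.rg false (g * k3))) (Q (.rg false (g * k3))))
    (hr4 : r4 ∈ segment ℝ (P (.rg false (g * k4))) (Q (.rg false (g * k4))))
    {S S' : Set (ℝ × ℝ)} {W W' : Set Vx} (hS : S ⊆ UU P Q W) (hS' : S' ⊆ UU P Q W')
    (hW : ∀ v ∈ W, Av A g k1 k3 v) (hW' : ∀ v ∈ W', Av A g k2 k4 v)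
    (j : JoinedIn S r1 r3) (j' : JoinedIn S' r2 r4) : (S ∩ S').Nonempty := by
  have hg := hR.hg
  have m1 := hR.k_lt_M (k := k1) (by omega)
  have m4 := hR.k_lt_M h4
  have g12 := gk_lt (g := g) h12
  have g23 := gk_lt (g := g) h23
  have g34 := gk_lt (g := g) h34
  obtain ⟨h, hh⟩ : ∃ h, h ∈ segment ℝ (P (.rg true 0)) (Q (.rg true 0)) :=
    ⟨_, left_mem_segment ℝ _ _⟩
  have hseg : ∀ i j, i ≤ j → j < A.M g →
      Jn P Q {v | ∃ t, i ≤ t ∧ t ≤ j ∧ v = .rg false t} (.rg false i) (.rg false j) :=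
    fun i j hij hj => hR.jrg hij hj fun t h1 h2 => ⟨t, h1, h2, rfl⟩
  -- the long way around
  have mW : ∀ t, (g * k4 ≤ t ∨ t ≤ g * k1) → t < A.M g → Vx.rg false t ∈
      {v | ∃ t, (g * k4 ≤ t ∨ t ≤ g * k1) ∧ t < A.M g ∧ v = Vx.rg false t} :=
    fun t h1 h2 => ⟨t, h1, h2, rfl⟩
  have hround : Jn P Q {v | ∃ t, (g * k4 ≤ t ∨ t ≤ g * k1) ∧ t < A.M g ∧ v = .rg false t}
      (.rg false (g * k4)) (.rg false (g * k1)) := by
    refine (hR.jrg (j := A.M g - 1) (by omega) (by omega)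
      fun t h1 h2 => mW t (Or.inl h1) (by omega)).trans ?_
    refine Jn.trans (v := .rg false 0) (hR.step (mW _ (Or.inl (by omega)) (by omega))
      (mW 0 (Or.inr (by omega)) (by omega)) (by show A.M g - 1 < A.M g; omega)
      (by show 0 < A.M g; omega) ?_) ?_
    · left
      have := Ed.rng (A := A) (g := g) false (A.M g - 1) (by omega)
      rwa [show A.M g - 1 + 1 = A.M g by omega, Nat.mod_self] at this
    · exact hR.jrg (by omega) (by omega) fun t h1 h2 => mW t (Or.inr h2) (by omega)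
  have dd : ∀ (l : ℕ) (hl : l < 6 * A.nn) (V : Set Vx) (ka kb : ℕ),
      (∀ v ∈ V, Av A g ka kb v) → l ≠ ka → l ≠ kb → Disjoint (UU P Q V) (UU P Q (Hk A g l)) := by
    intro l hl V ka kb hV n1 n2
    refine hR.dU fun u hu v hv => ?_
    have := (hV u hu).dH hR hl n1 n2 v hv
    exact ⟨(hV u hu).1, this.1, this.2.1, this.2.2⟩
  refine Top.cross4 (h := h) (hseg (g * k1) (g * k2) (by omega) (by omega) r1 hr1 r2 hr2)
    (hseg (g * k2) (g * k3) (by omega) (by omega) r2 hr2 r3 hr3)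
    (hseg (g * k3) (g * k4) (by omega) (by omega) r3 hr3 r4 hr4)
    (hround r4 hr4 r1 hr1) (hR.jHk (k := k1) (by omega) r1 hr1 h hh)
    (hR.jHk (k := k2) (by omega) r2 hr2 h hh)
    (hR.jHk (k := k3) (by omega) r3 hr3 h hh) (hR.jHk (k := k4) (by omega) r4 hr4 h hh) j j'
    ?_ ?_ ?_ ?_ ?_ ?_ ?_ ?_ ?_ ?_ ?_ ?_ ?_ ?_
  · -- R12, R34
    refine hR.dU ?_
    rintro u ⟨t, h1, h2, rfl⟩ v ⟨t', h1', h2', rfl⟩
    refine ⟨by show t < A.M g; omega, by show t' < A.M g; omega, ?_, ?_⟩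
    · simp only [ne_eq, Vx.rg.injEq, true_and]; omega
    · exact rg_far (by omega) (by omega) (Or.inr (by omega))
  · -- R23, R41
    refine hR.dU ?_
    rintro u ⟨t, h1, h2, rfl⟩ v ⟨t', h1', h2', rfl⟩
    refine ⟨by show t < A.M g; omega, h2', ?_, ?_⟩
    · simp only [ne_eq, Vx.rg.injEq, true_and]; omega
    · rcases h1' with h3 | h3
      · exact rg_far h2' (by omega) (Or.inl (by omega))
      · intro hA
        exact rg_far (g := g) (by omega) (by omega) (Or.inr (by omega)) hA.symm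
  · refine hR.dHR (by omega) ?_
    rintro v ⟨t, h1, h2, rfl⟩
    exact ⟨t, rfl, by omega, fun hA => rg_far (by omega) (by omega) (Or.inr (by omega)) hA.symm,
      fun hA => rg_far (by omega) (by omega) (Or.inr (by omega)) hA.symm, by omega, by omega⟩
  · refine hR.dHR (by omega) ?_
    rintro v ⟨t, h1, h2, rfl⟩
    exact ⟨t, rfl, by omega, fun hA => rg_far (by omega) (by omega) (Or.inr (by omega)) hA.symm,
      fun hA => rg_far (by omega) (by omega) (Or.inr (by omega)) hA.symm, by omega, by omega⟩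
  · refine hR.dHR (by omega) ?_
    rintro v ⟨t, h1, h2, rfl⟩
    exact ⟨t, rfl, by omega, fun hA => rg_far (by omega) (by omega) (Or.inr (by omega)) hA.symm,
      fun hA => rg_far (by omega) (by omega) (Or.inr (by omega)) hA.symm, by omega, by omega⟩
  · refine hR.dHR (by omega) ?_
    rintro v ⟨t, h1 | h1, h2, rfl⟩
    · exact ⟨t, rfl, by omega, fun hA => rg_far h2 (by omega) (Or.inl (by omega)) hA.symm,
        fun hA => rg_far h2 (by omega) (Or.inl (by omega)) hA.symm, by omega, by omega⟩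
    · exact ⟨t, rfl, by omega, fun hA => rg_far (by omega) (by omega) (Or.inr (by omega)) hA,
        fun hA => rg_far (by omega) (by omega) (Or.inr (by omega)) hA, by omega, by omega⟩
  · refine hR.dHR (by omega) ?_
    rintro v ⟨t, h1 | h1, h2, rfl⟩
    · exact ⟨t, rfl, by omega, fun hA => rg_far h2 (by omega) (Or.inl (by omega)) hA.symm,
        fun hA => rg_far h2 (by omega) (Or.inl (by omega)) hA.symm, by omega, by omega⟩
    · exact ⟨t, rfl, by omega, fun hA => rg_far (by omega) (by omega) (Or.inr (by omega)) hA,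
        fun hA => rg_far (by omega) (by omega) (Or.inr (by omega)) hA, by omega, by omega⟩
  · refine hR.dHR (by omega) ?_
    rintro v ⟨t, h1, h2, rfl⟩
    exact ⟨t, rfl, by omega, fun hA => rg_far (by omega) (by omega) (Or.inr (by omega)) hA,
      fun hA => rg_far (by omega) (by omega) (Or.inr (by omega)) hA, by omega, by omega⟩
  · refine hR.dHR h4 ?_
    rintro v ⟨t, h1, h2, rfl⟩
    exact ⟨t, rfl, by omega, fun hA => rg_far (by omega) (by omega) (Or.inr (by omega)) hA,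
      fun hA => rg_far (by omega) (by omega) (Or.inr (by omega)) hA, by omega, by omega⟩
  · refine hR.dHR h4 ?_
    rintro v ⟨t, h1, h2, rfl⟩
    exact ⟨t, rfl, by omega, fun hA => rg_far (by omega) (by omega) (Or.inr (by omega)) hA,
      fun hA => rg_far (by omega) (by omega) (Or.inr (by omega)) hA, by omega, by omega⟩
  · exact (dd k2 (by omega) W k1 k3 hW (by omega) (by omega)).mono_left hS
  · exact (dd k4 h4 W k1 k3 hW (by omega) (by omega)).mono_left hS
  · exact (dd k1 (by omega) W' k2 k4 hW' (by omega) (by omega)).mono_left hS'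
  · exact (dd k3 (by omega) W' k2 k4 hW' (by omega) (by omega)).mono_left hS'

end RS

end Run7.h749
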