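import Pool.Agent.Run7.h749.Quad4

/-!
# The separating line of a line
-/

namespace Run7.h749

open Arr Set

variable {A : Arr} {g : ℕ} {P Q : Vx → ℝ × ℝ} {a b : Ln} {s : Bool}

/-- A proper line is thick at the crossings with auxiliary lines. -/
theorem rk_lt (ha : A.Re a) (hb : ¬ A.Re b) (hb' : A.IsL b) : A.rk a < A.rk b := by
  obtain ⟨c, i⟩ := a
  obtain ⟨d, j⟩ := b
  have h1 := ha.2
  unfold Arr.IsL at hb'
  simp only at h1 hb'
  unfold Arr.rk
  rw [if_pos ha, if_neg hb]
  unfold Arr.nn
  cases c <;> cases d <;> simp <;> omega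

theorem zp_opp {a b : Ln} (hd : a.1 ≠ b.1) (hr : A.rk b < A.rk a) (r : ℕ) :
    A.zp g a b r = pos g (A.sl a b) r := by
  unfold Arr.zp rv
  rw [if_neg (by omega), if_neg (by simp [hd])]

namespace RS

/-- The zones of the auxiliary lines of the other class. -/
theorem gam_z (j : ℕ) : zL A a s (!a.1, j) = RR A a s false false ∧
    zH A a s (!a.1, j) = RR A a s false true := by
  unfold zL zH
  simp

theorem gam_FR (hR : RS A g P Q) (ha : A.Re a) (s : Bool) {j : ℕ} (hj : 0 < j)
    (hj' : j + 1 < A.m (!a.1)) (hj2 : ¬ A.Re (!a.1, j)) :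
    FR A g (RR A a s) (fun p h f => p = false ∧ h = (!s) ∧ f = ee (!s)) (!a.1, j) 0
      (A.zp g (!a.1, j) a (ee (!s))) := by
  have hI : In A a s (!a.1, j) := gam_In s hj hj'
  have hL : A.IsL a := by have := ha.2; unfold Arr.IsL; omega
  have hd : ((!a.1, j) : Ln).1 ≠ a.1 := by simp
  have hc : A.cr (!a.1, j) a = true := cr_of_ne hd
  have bd := hR.zp_bd hI.isL hL hc (ee_lt (!s))
  have hrk := rk_lt ha hj2 hI.isL
  have hg := hR.hg
  refine ⟨hI.isL, by omega, by rw [ix_e (Or.inl rfl)]; omega, hI.nR, ?_⟩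
  intro p h f hf hcr
  rw [ix_e (Or.inl rfl)]
  cases p
  · by_cases hh : h = !s
    · subst hh
      rw [RR_a]
      by_cases hfe : f = ee (!s)
      · exact Or.inl ⟨rfl, rfl, hfe⟩
      · right
        rw [zp_opp hd hrk, zp_opp hd hrk]
        unfold pos
        intro he
        have := Nat.eq_of_mul_eq_mul_left (by omega : 0 < g) he
        omega
    · right
      have hhs : h = s := by cases h <;> cases s <;> simp_all
      subst hhs
      -- different slots
      obtain ⟨r1, e1, f1⟩ := zp_eq (A := A) (g := g) (!a.1, j) a (ee (!h))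
      obtain ⟨r2, e2, f2⟩ := zp_eq (A := A) (g := g) (!a.1, j) (RR A a h false h) f
      have g1 := f1 (ee_lt _)
      have g2 := f2 hf
      rw [e1, e2]
      have hsl : A.sl (!a.1, j) a ≠ A.sl (!a.1, j) (RR A a h false h) := by
        have hz := (hI.cz hR.ok ha).2.2.2.2
        rw [(gam_z j).1, (gam_z j).2] at hz
        have hz' := RR_a (A := A) a h
        cases h
        · rw [show (!false) = true from rfl] at hz'
          rw [hz'] at hz
          omega
        · rw [show (!true) = false from rfl] at hz'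
          rw [hz'] at hz
          omega
      rcases lt_or_gt_of_ne hsl with h3 | h3
      · have := pos_lt (g := g) (r' := r2) h3 (show r1 ≤ 2 by omega)
        omega
      · have := pos_lt (g := g) (r' := r1) h3 (show r2 ≤ 2 by omega)
        omega
  · exfalso
    unfold RR at hcr
    rw [if_pos rfl, cr_s, x_false hR.ok (Or.inl hj2)] at hcr
    exact absurd hcr (by simp)

theorem regQI (hR : RS A g P Q) (ha : A.Re a) (s : Bool) :
    QI A g P Q (RR A a s) false (!s) (WI A g a s) (!a.1, 1) (!a.1, A.m (!a.1) - 2) := by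
  have hA := hR.ok
  have hg := hR.hg
  have h5 := hA.five (!a.1)
  have hL : A.IsL a := by have := ha.2; unfold Arr.IsL; omega
  have n0 : ¬ A.Re (!a.1, 1) := nre1 _
  have n1 : ¬ A.Re (!a.1, A.m (!a.1) - 2) := nreM _ (by omega)
  have n2 : ¬ A.Re (!a.1, 0) := nre0 _
  have n3 : ¬ A.Re (!a.1, A.m (!a.1) - 1) := nreM _ (by omega)
  have hd : ∀ j, ((!a.1, j) : Ln).1 ≠ a.1 := by intro j; simp
  have hd' : ∀ j, a.1 ≠ ((!a.1, j) : Ln).1 := by intro j; simp
  -- positions on `a`
  have zpa : ∀ j r, j < A.m (!a.1) → ¬ A.Re (!a.1, j) →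
      A.zp g a (!a.1, j) r = pos g (A.sd a.1 a.2 j) 0 := by
    intro j r hj hjn
    rw [RS.zp_thick (rk_lt ha hjn hj)]
    rw [show A.sl a (!a.1, j) = A.sd a.1 a.2 j from sl_o A a.1 a.2 j]
  have adjn : ∀ j, 0 < j → j + 1 < A.m (!a.1) → ¬ A.Re (!a.1, j) →
      ∃ w ∈ WI A g a s, A.Aj g w (.st (!a.1) j 0 (A.zp g (!a.1, j) a (ee (!s)))) := by
    intro j hj hj' hjn
    have hI : In A a s (!a.1, j) := gam_In s hj hj'
    have bd := hR.zp_bd hI.isL hL (cr_of_ne (hd j)) (ee_lt (!s))
    have hz := (hI.cz hR.ok ha).2.2.2.2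
    have hrk := rk_lt ha hjn hI.isL
    have ez := zp_opp (A := A) (g := g) (hd j) hrk
    rw [(gam_z j).1, (gam_z j).2] at hz
    have hra := RR_a (A := A) a s
    cases s
    · refine ⟨.st (!a.1) j 0 (A.zp g (!a.1, j) a (ee (!false)) - 1), ?_, ?_⟩
      · refine ⟨(!a.1, j), 0, _, rfl, hI, by omega, ?_, ?_⟩
        · rw [(gam_z j).1, ix_e (Or.inl rfl), ez]
          rw [show (!false) = true from rfl] at hra
          rw [hra] at hz
          have := fin_lt (g := g) (r := ee (!false)) hz
          omega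
        · rw [(gam_z j).2, ix_e (Or.inl rfl), ez]
          rw [show (!false) = true from rfl] at hra
          rw [hra]
          show pos g _ 0 - 1 < pos g _ 0
          have := le_pos (g := g) (A.sl (!a.1, j) a) 0
          omega
      · left
        have := Ed.str (A := A) (g := g) (!a.1) j 0 (A.zp g (!a.1, j) a (ee (!false)) - 1)
          hI.isL (by omega) (by rw [ix_e (Or.inl rfl)]; omega)
        rwa [show A.zp g (!a.1, j) a (ee (!false)) - 1 + 1 = A.zp g (!a.1, j) a (ee (!false)) by
          omega] at this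
    · refine ⟨.st (!a.1) j 0 (A.zp g (!a.1, j) a (ee (!true)) + 1), ?_, ?_⟩
      · refine ⟨(!a.1, j), 0, _, rfl, hI, by omega, ?_, ?_⟩
        · rw [(gam_z j).1, ix_e (Or.inl rfl), ez]
          rw [show (!true) = false from rfl] at hra
          rw [hra]
          have := fin_le (A := A) (g := g) (!a.1, j) a
          show _ < pos g _ 2 + 1
          omega
        · rw [(gam_z j).2, ix_e (Or.inl rfl), ez]
          rw [show (!true) = false from rfl] at hra
          rw [hra] at hz
          have := pos_lt (g := g) (r' := 0) hz (show 2 ≤ 2 by omega)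
          show pos g _ 2 + 1 < pos g _ 0
          omega
      · right
        exact Ed.str (A := A) (g := g) (!a.1) j 0 (A.zp g (!a.1, j) a (ee (!true)))
          hI.isL (by omega) (by rw [ix_e (Or.inl rfl)]; omega)
  have o1 := hA.lo0 a.1 a.2 1 hL (by omega) (by omega)
  have o2 := hA.lo1 a.1 a.2 (A.m (!a.1) - 2) hL (by omega) (by omega)
  have o3 := hA.hi0 a.1 a.2 (A.m (!a.1) - 2) hL (by omega)
  refine ⟨fun w hw => WI_FR hA ha hg hw, fun u hu v hv => hR.WI_con ha hu hv, ?_, ?_, ?_, ?_, ?_,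
    ?_, ?_, ?_, ?_⟩
  · rw [RR_a]; exact hR.gam_FR ha s (by omega) (by omega) n0
  · rw [RR_a]; exact hR.gam_FR ha s (by omega) (by omega) n1
  · rw [RR_a]; exact cr_of_ne (hd' _)
  · rw [RR_a]; exact cr_of_ne (hd' _)
  · rw [RR_a]; exact adjn _ (by omega) (by omega) n0
  · rw [RR_a]; exact adjn _ (by omega) (by omega) n1
  · show A.zp g (RR A a s false (!s)) (RR A a s (!false) false) 2 < _
    rw [RR_a, zpa _ _ (by omega) n0]
    have e1 : RR A a s (!false) false = (!a.1, 0) := by simp [RR]
    rw [e1, zpa _ _ (by omega) n2]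
    have := pos_lt (g := g) (r' := 0) o1 (show 0 ≤ 2 by omega)
    omega
  · rw [RR_a, zpa _ _ (by omega) n0, zpa _ _ (by omega) n1]
    have := pos_lt (g := g) (r' := 0) o2 (show 0 ≤ 2 by omega)
    omega
  · show _ < A.zp g (RR A a s false (!s)) (RR A a s (!false) true) 0
    rw [RR_a, zpa _ _ (by omega) n1]
    have e1 : RR A a s (!false) true = (!a.1, A.m (!a.1) - 1) := by simp [RR]
    rw [e1, zpa _ _ (by omega) n3]
    have := pos_lt (g := g) (r' := 0) o3 (show 0 ≤ 2 by omega)
    omega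

/-- The region on the side `s` of the line `a`. -/
theorem regA (hR : RS A g P Q) (ha : A.Re a) (s : Bool) :
    ∃ U, Top.Rg (QQ A g P Q (RR A a s)) (UU P Q (WI A g a s)) (UU P Q (WO A g (RR A a s))) U :=
  hR.reg (QHa hR.ok ha s) (hR.regQI ha s)

end RS

end Run7.h749
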