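import Pool.Agent.Run7.h749.Sep

/-!
# The two regions of a line are separated
-/

namespace Run7.h749

open Arr Set

variable {A : Arr} {g : ℕ} {P Q : Vx → ℝ × ℝ} {a b : Ln} {s : Bool}

namespace RS

/-- The boundary of a quadrilateral is connected. -/
theorem QQ_pre (hR : RS A g P Q) {R : Bool → Bool → Ln} (hQ : QH A R) :
    IsPreconnected (QQ A g P Q R) := by
  have arm : ∀ p h s t x y, (am R p h).lo A g ≤ s ∧ s ≤ (am R p h).hi A g →
      (am R p h).lo A g ≤ t ∧ t ≤ (am R p h).hi A g → x ∈ (am R p h).sd A g P Q s →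
      y ∈ (am R p h).sd A g P Q t → JoinedIn (QQ A g P Q R) x y :=
    fun p h s t x y hs ht hx hy => hR.SS_joined hQ le_rfl le_rfl (fun _ _ _ => trivial) hs ht hx hy
  have cps : ∀ p h h', cp A g P Q R p h h' ∈ (am R p h).sd A g P Q (cI A g R p h h') :=
    fun p h h' => hR.cp_sd hQ p h h'
  have cib : ∀ p h h', _ := fun p h h' => hR.cI_bd hQ p h h'
  have key : ∀ z ∈ QQ A g P Q R, JoinedIn (QQ A g P Q R) z (cp A g P Q R false false false) := by
    rintro z ⟨p, h, t, -, hb, hz⟩
    cases p
    · refine (arm _ _ _ _ _ _ hb (cib false h false) hz (cps false h false)).trans ?_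
      have e1 := hR.cp_comm hQ false h false
      rw [e1]
      refine (arm true false _ _ _ _ (cib true false h) (cib true false false)
        (cps true false h) (cps true false false)).trans ?_
      have e2 := hR.cp_comm hQ true false false
      rw [e2]
      exact arm false false _ _ _ _ (cib false false false) (cib false false false)
        (cps false false false) (cps false false false)
    · refine (arm _ _ _ _ _ _ hb (cib true h false) hz (cps true h false)).trans ?_
      have e1 := hR.cp_comm hQ true h false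
      rw [e1]
      exact arm false false _ _ _ _ (cib false false h) (cib false false false)
        (cps false false h) (cps false false false)
  have : IsPathConnected (QQ A g P Q R) := by
    refine ⟨cp A g P Q R false false false, ?_, fun {y} hy => (key y hy).symm⟩
    exact ⟨false, false, _, trivial, cib false false false, cps false false false⟩
  exact this.isConnected.isPreconnected

/-- Facts on the sides belonging to the auxiliary lines of the other class. -/
theorem side_t (hR : RS A g P Q) (ha : A.Re a) (h : Bool) :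
    ∃ j, j < A.m (!a.1) ∧ ¬ A.Re (!a.1, j) ∧ (∀ s, RR A a s true h = (!a.1, j)) ∧
    (∀ r, A.zp g (!a.1, j) a r = pos g (A.sd (!a.1) j a.2) r) ∧
    (am (RR A a false) true h).hi A g = pos g (A.sd (!a.1) j a.2) 0 ∧
    (am (RR A a true) true h).lo A g = pos g (A.sd (!a.1) j a.2) 2 ∧
    (∀ f < 3, A.zp g (!a.1, j) (a.1, 0) f + g ≤ pos g (A.sd (!a.1) j a.2) 0) ∧
    (∀ f < 3, pos g (A.sd (!a.1) j a.2) 2 + g ≤ A.zp g (!a.1, j) (a.1, A.m a.1 - 1) f) := by
  have hA := hR.ok
  have h5 := hA.five (!a.1)
  have h5' := hA.five a.1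
  obtain ⟨a1, a2⟩ := ha
  obtain ⟨j, hj, hjn, hjR⟩ : ∃ j, j < A.m (!a.1) ∧ ¬ A.Re (!a.1, j) ∧
      ∀ s, RR A a s true h = (!a.1, j) := by
    cases h
    · exact ⟨0, by omega, nre0 _, fun s => by simp [RR]⟩
    · exact ⟨A.m (!a.1) - 1, by omega, nreM _ (by omega), fun s => by simp [RR]⟩
  have hrk := rk_lt (A := A) (a := a) (b := (!a.1, j)) ⟨a1, a2⟩ hjn hj
  have hd : ((!a.1, j) : Ln).1 ≠ a.1 := by simp
  have hz : ∀ r, A.zp g (!a.1, j) a r = pos g (A.sd (!a.1) j a.2) r := by
    intro r
    rw [zp_opp hd hrk, show A.sl (!a.1, j) a = A.sd (!a.1) j a.2 from sl_o' A a.1 j a.2]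
  refine ⟨j, hj, hjn, hjR, hz, ?_, ?_, ?_, ?_⟩
  · show A.zp g (RR A a false true h) (RR A a false (!true) true) 0 = _
    have := RR_a (A := A) a false
    rw [hjR, show RR A a false (!true) true = a from this, hz]
  · show A.zp g (RR A a true true h) (RR A a true (!true) false) 2 = _
    have := RR_a (A := A) a true
    rw [hjR, show RR A a true (!true) false = a from this, hz]
  · intro f hf
    obtain ⟨r, e1, f1⟩ := zp_eq (A := A) (g := g) (!a.1, j) (a.1, 0) f
    rw [e1, sl_o']
    exact pos_lt (hA.lo0 (!a.1) j a.2 hj (by omega) (by rw [Bool.not_not]; omega))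
      (by have := f1 hf; omega)
  · intro f hf
    obtain ⟨r, e1, f1⟩ := zp_eq (A := A) (g := g) (!a.1, j) (a.1, A.m a.1 - 1) f
    rw [e1, sl_o']
    refine pos_lt ?_ le_rfl
    have := hA.hi0 (!a.1) j a.2 hj (by rw [Bool.not_not]; omega)
    rwa [Bool.not_not] at this

/-- The sides of the two quadrilaterals are far from each other. -/
theorem nadj_QQ (hR : RS A g P Q) (ha : A.Re a) {p h p' h' : Bool} {t t' : ℕ}
    (ht : (am (RR A a false) p h).lo A g ≤ t ∧ t ≤ (am (RR A a false) p h).hi A g)
    (ht' : (am (RR A a true) p' h').lo A g ≤ t' ∧ t' ≤ (am (RR A a true) p' h').hi A g) :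
    (am (RR A a false) p h).vx t ≠ (am (RR A a true) p' h').vx t' ∧
    ¬ A.Aj g ((am (RR A a false) p h).vx t) ((am (RR A a true) p' h').vx t') := by
  have hA := hR.ok
  have hg := hR.hg
  have ha' := ha
  obtain ⟨a1, a2⟩ := ha'
  have h5' := hA.five a.1
  have h5 := hA.five (!a.1)
  set l := RR A a false p h with hl
  set l' := RR A a true p' h' with hl'
  have ev : (am (RR A a false) p h).vx t = .st l.1 l.2 (ee h) t := rfl
  have ev' : (am (RR A a true) p' h').vx t' = .st l'.1 l'.2 (ee h') t' := rfl
  rw [ev, ev']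
  by_cases hll : l = l'
  · -- the same line
    have key : ¬ (ee h = ee h' ∧ (t = t' ∨ t' = t + 1 ∨ t = t' + 1)) := by
      rintro ⟨h1, h2⟩
      cases p <;> cases p'
      · -- both of the class of `a`
        have e1 : RR A a false false false = (a.1, 0) := by simp [RR]
        have e2 : RR A a false false true = a := by simp [RR]
        have e3 : RR A a true false false = a := by simp [RR]
        have e4 : RR A a true false true = (a.1, A.m a.1 - 1) := by simp [RR]
        have n1 : ((a.1, 0) : Ln) ≠ a := fun hh => by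
          have := congrArg Prod.snd hh; simp only at this; omega
        have n2 : ((a.1, 0) : Ln) ≠ (a.1, A.m a.1 - 1) := fun hh => by
          have := congrArg Prod.snd hh; simp only at this; omega
        have n3 : a ≠ ((a.1, A.m a.1 - 1) : Ln) := fun hh => by
          have := congrArg Prod.snd hh; simp only at this; omega
        rw [hl, hl'] at hll
        cases h <;> cases h'
        · rw [e1, e3] at hll; exact n1 hll
        · rw [e1, e4] at hll; exact n2 hll
        · simp [ee] at h1
        · rw [e2, e4] at hll; exact n3 hll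
      · have := congrArg Prod.fst hll
        rw [hl, hl'] at this
        unfold RR at this
        cases h <;> cases h' <;> simp at this
      · have := congrArg Prod.fst hll
        rw [hl, hl'] at this
        unfold RR at this
        cases h <;> cases h' <;> simp at this
      · obtain ⟨j, hj, hjn, hjR, hz, hhi, hlo, -, -⟩ := hR.side_t ha h
        have hhh : h = h' := by
          cases h <;> cases h' <;> simp [ee] at h1 ⊢
        subst hhh
        rw [hhi] at ht
        rw [hlo] at ht'
        have := pos_succ (g := g) (A.sd (!a.1) j a.2) 1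
        have := pos_succ (g := g) (A.sd (!a.1) j a.2) 0
        simp only [Nat.reduceAdd] at *
        omega
    rw [← hll]
    refine ⟨?_, ?_⟩
    · intro he
      simp only [Vx.st.injEq, true_and] at he
      exact key ⟨he.1, Or.inl he.2⟩
    · intro hAA
      rcases aj_st_st hA hAA with h3 | h3
      · exact key ⟨h3.2.2.1, Or.inr h3.2.2.2⟩
      · exact h3.1 rfl
  · refine ⟨?_, ?_⟩
    · intro he
      simp only [Vx.st.injEq] at he
      exact hll (Prod.ext he.1 he.2.1)
    · intro hAA
      obtain ⟨h1, h2, h3, h4, h5⟩ := hR.aj_ne hll hAA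
      rw [ix_e (ee_or _)] at h4 h5
      cases p <;> cases p'
      · -- both of the class of `a`
        have cls : ∀ s h, (RR A a s false h).1 = a.1 := by
          intro s h; unfold RR; cases s <;> cases h <;> simp
        have e1 : RR A a false false false = (a.1, 0) := by simp [RR]
        have e2 : RR A a false false true = a := by simp [RR]
        have e3 : RR A a true false false = a := by simp [RR]
        have e4 : RR A a true false true = (a.1, A.m a.1 - 1) := by simp [RR]
        have hx : A.Re l ∧ A.Re l' := by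
          unfold Arr.cr at h3
          have c1 : l.1 = l'.1 := by rw [hl, hl', cls, cls]
          rw [if_pos c1] at h3
          have := hA.xre _ _ _ h3
          refine ⟨this.1, ?_⟩
          have h6 := this.2.1
          rw [c1] at h6
          exact h6
        rw [hl, hl'] at hx hll
        cases h <;> cases h'
        · rw [e1] at hx; exact nre0 _ hx.1
        · rw [e1] at hx; exact nre0 _ hx.1
        · rw [e2, e3] at hll; exact hll rfl
        · rw [e4] at hx; exact nreM _ (by omega) hx.2
      · -- `l'` is an auxiliary line of the other class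
        obtain ⟨j, hj, hjn, hjR, hz, hhi, hlo, hf1, hf2⟩ := hR.side_t ha h'
        rw [hlo] at ht'
        rw [hl', hjR] at h5
        have p1 := pos_succ (g := g) (A.sd (!a.1) j a.2) 1
        have p2 := pos_succ (g := g) (A.sd (!a.1) j a.2) 0
        simp only [Nat.reduceAdd] at p1 p2
        cases h
        · have e1 : l = (a.1, 0) := by rw [hl]; simp [RR]
          rw [e1] at h5
          have := hf1 (ee false) (ee_lt _)
          omega
        · have e1 : l = a := by rw [hl]; simp [RR]
          rw [e1, hz] at h5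
          have : t' = pos g (A.sd (!a.1) j a.2) 0 := h5
          omega
      · obtain ⟨j, hj, hjn, hjR, hz, hhi, hlo, hf1, hf2⟩ := hR.side_t ha h
        rw [hhi] at ht
        rw [hl, hjR] at h4
        have p1 := pos_succ (g := g) (A.sd (!a.1) j a.2) 1
        have p2 := pos_succ (g := g) (A.sd (!a.1) j a.2) 0
        simp only [Nat.reduceAdd] at p1 p2
        cases h'
        · have e1 : l' = a := by rw [hl']; simp [RR]
          rw [e1, hz] at h4
          have : t = pos g (A.sd (!a.1) j a.2) 2 := h4
          omega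
        · have e1 : l' = (a.1, A.m a.1 - 1) := by rw [hl']; simp [RR]
          rw [e1] at h4
          have := hf2 (ee true) (ee_lt _)
          omega
      · -- both auxiliary of the other class
        obtain ⟨j, hj, hjn, hjR, -⟩ := hR.side_t ha h
        obtain ⟨j', hj', hjn', hjR', -⟩ := hR.side_t ha h'
        rw [hl, hl', hjR, hjR', cr_s, x_false hA (Or.inl hjn)] at h3
        exact absurd h3 (by simp)

/-- **The two regions of a line are disjoint.** -/
theorem disj (hR : RS A g P Q) (ha : A.Re a) {U U' : Set (ℝ × ℝ)}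
    (hU : Top.Rg (QQ A g P Q (RR A a true)) (UU P Q (WI A g a true))
      (UU P Q (WO A g (RR A a true))) U)
    (hU' : Top.Rg (QQ A g P Q (RR A a false)) (UU P Q (WI A g a false))
      (UU P Q (WO A g (RR A a false))) U') : Disjoint U U' := by
  have hA := hR.ok
  have hg := hR.hg
  have h5' := hA.five a.1
  have h5 := hA.five (!a.1)
  have a1 := ha.1
  have a2 := ha.2
  have hL : A.IsL a := by unfold Arr.IsL; omega
  have hQ' := QHa hA ha false
  have hQ := QHa hA ha true
  have e2 : RR A a false false true = a := by simp [RR]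
  have e3 : RR A a true false false = a := by simp [RR]
  have okM := hQ'.ok false true
  have b1 := hR.lo_lt_hi okM
  have b2 := hR.lo_pos okM
  have b3 := hR.hi_le okM
  set t0 := (am (RR A a false) false true).lo A g + 1 with ht0
  have ix1 : ix 1 (A.N g) = 4 * A.N g := by unfold ix; rw [if_pos rfl]
  let W : Set Vx := {v | v = .st a.1 a.2 0 t0 ∨ (∃ k, k < g ∧ v = .ti a.1 a.2 0 (t0 - 1) 0 k) ∨
    ∃ t, t ≤ 4 * A.N g ∧ v = .st a.1 a.2 1 t}
  have vx0 : (am (RR A a false) false true).vx t0 = .st a.1 a.2 0 t0 := by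
    unfold Am.vx am
    simp only
    rw [e2]
    rfl
  have V0 : A.IsV g (.st a.1 a.2 0 t0) := ⟨hL, by omega, by rw [ix_e (Or.inl rfl)]; omega⟩
  have VT : ∀ k, k < g → A.IsV g (.ti a.1 a.2 0 (t0 - 1) 0 k) := fun k hk =>
    ⟨hL, Or.inl rfl, by omega, by omega, hk⟩
  have VS : ∀ t, t ≤ 4 * A.N g → A.IsV g (.st a.1 a.2 1 t) := fun t ht =>
    ⟨hL, by omega, by rw [ix1]; exact ht⟩
  have hWc : ∀ w ∈ W, Jn P Q W w (.st a.1 a.2 1 0) := by
    have sp : ∀ t, t ≤ 4 * A.N g → Jn P Q W (.st a.1 a.2 1 t) (.st a.1 a.2 1 0) := fun t ht =>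
      (hR.jst hL (by omega) (Nat.zero_le t) (by rw [ix1]; exact ht)
        fun r _ hr => Or.inr (Or.inr ⟨r, by omega, rfl⟩)).symm
    have ti : ∀ k, k < g → Jn P Q W (.ti a.1 a.2 0 (t0 - 1) 0 k) (.st a.1 a.2 1 0) := by
      intro k hk
      refine ((hR.jti hL (Or.inl rfl) (by omega) (by omega) hk
        fun r hr => Or.inr (Or.inl ⟨r, hr, rfl⟩)).symm).trans ?_
      refine (hR.step (Or.inr (Or.inl ⟨0, by omega, rfl⟩))
        (Or.inr (Or.inr ⟨4 * (t0 - 1) + 1 + 2 * 0, by omega, rfl⟩)) (VT 0 (by omega))
        (VS _ (by omega)) (Or.inl (.ti0 _ _ _ _ _ hL (Or.inl rfl) (by omega) (by omega)))).trans ?_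
      exact sp _ (by omega)
    rintro w (rfl | ⟨k, hk, rfl⟩ | ⟨t, ht, rfl⟩)
    · refine (hR.step (W := W) (Or.inl rfl) (Or.inr (Or.inl ⟨g - 1, by omega, rfl⟩)) V0
        (VT _ (by omega)) (Or.inr ?_)).trans (ti _ (by omega))
      have := Ed.ti1 (A := A) (g := g) a.1 a.2 0 (t0 - 1) 0 hL (Or.inl rfl) (by omega) (by omega)
      rwa [show t0 - 1 + 1 - 0 = t0 by omega] at this
    · exact ti k hk
    · exact sp t ht
  have hWpre : IsPreconnected (UU P Q W) :=
    UU_pre fun u hu v hv => (hWc u hu).trans (hWc v hv).symm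
  -- the vertices `γ`
  set γ : Ln := (!a.1, 1) with hγ
  have hγn : ¬ A.Re γ := nre1 _
  have hγL : A.IsL γ := by show 1 < A.m (!a.1); omega
  have hγd : γ.1 ≠ a.1 := by simp [hγ]
  have hγz : ∀ r, A.zp g γ a r = pos g (A.sl γ a) r := zp_opp hγd (rk_lt ha hγn hγL)
  have hγI : In A a true γ := gam_In true (by omega) (by omega)
  have p1 := pos_succ (g := g) (A.sl γ a) 1
  have p0 := pos_succ (g := g) (A.sl γ a) 0
  simp only [Nat.reduceAdd] at p1 p0
  have hsl : A.sl γ a < A.S := hA.sl_lt hγL hL (cr_of_ne hγd)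
  have hN := pos_le (g := g) hsl (show 2 ≤ 2 by omega)
  let W' : Set Vx := {v | ∃ t, pos g (A.sl γ a) 1 ≤ t ∧ t ≤ pos g (A.sl γ a) 2 + 1 ∧
    v = .st γ.1 γ.2 0 t}
  have V' : ∀ t, t ≤ pos g (A.sl γ a) 2 + 1 → A.IsV g (.st γ.1 γ.2 0 t) := fun t ht =>
    ⟨hγL, by omega, by rw [ix_e (Or.inl rfl)]; omega⟩
  refine Top.separate hU hU' (C := QQ A g P Q (RR A a false) ∪ UU P Q W) (C' := UU P Q W')
    ?_ ?_ subset_union_left ?_ ?_ ?_ ?_ ?_
  · refine (hR.QQ_pre hQ').union ((am (RR A a false) false true).J A g P Q t0) ?_ ?_ hWpre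
    · exact ⟨false, true, t0, trivial, ⟨by omega, by omega⟩, left_mem_segment ℝ _ _⟩
    · refine mem_UU (v := .st a.1 a.2 0 t0) (Or.inl rfl) ?_
      have := hR.sd_seg okM (t := t0) (by omega) (by omega) (left_mem_segment ℝ _ _)
      rwa [vx0] at this
  · refine Disjoint.union_left ?_ ?_
    · rw [Set.disjoint_left]
      rintro z ⟨p, h, t, -, hb, hz⟩ ⟨p', h', t', -, hb', hz'⟩
      have ok1 := hQ'.ok p h
      have ok2 := hQ.ok p' h'
      have c1 := hR.hi_le ok1
      have c2 := hR.hi_le ok2
      have := hR.nadj_QQ ha hb hb'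
      exact hR.dj' (vx_V ok1 (t := t) (by omega)) (vx_V ok2 (t := t') (by omega)) this.1 this.2
        (hR.sd_seg ok1 hb.1 hb.2 hz) (hR.sd_seg ok2 hb'.1 hb'.2 hz')
    · rw [Set.disjoint_left]
      rintro z hz ⟨p', h', t', -, hb', hz'⟩
      have ok2 := hQ.ok p' h'
      have c2 := hR.hi_le ok2
      have hz2 := hR.sd_seg ok2 hb'.1 hb'.2 hz'
      have V2 : A.IsV g ((am (RR A a true) p' h').vx t') := vx_V ok2 (by omega)
      obtain ⟨w, hw, hzw⟩ := mem_iUnion₂.1 hz
      rcases hw with rfl | ⟨k, hk, rfl⟩ | ⟨t, ht, rfl⟩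
      · have := hR.nadj_QQ ha (p := false) (h := true) (t := t0) ⟨by omega, by omega⟩ hb'
        rw [vx0] at this
        exact hR.dj' V0 V2 this.1 this.2 hzw hz2
      · refine hR.dj' (VT k hk) V2 (by simp [Am.vx]) ?_ hzw hz2
        intro hAA
        have hAA' : A.Aj g (.st (RR A a true p' h').1 (RR A a true p' h').2 (ee h') t')
          (.ti a.1 a.2 0 (t0 - 1) 0 k) := hAA.symm
        obtain ⟨q1, q2, q3, q4, q5, q6⟩ := aj_st_ti hAA'
        have hl : RR A a true p' h' = a := Prod.ext q1 q2
        have hee : ee h' = 0 := by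
          rcases q6 with q6 | q6
          · have := ee_or h'; omega
          · exact q6.1
        have hh : h' = true := by
          cases h'
          · simp [ee] at hee
          · rfl
        subst hh
        unfold RR at hl
        cases p'
        · simp only [Bool.false_eq_true, if_false, if_true] at hl
          have := congrArg Prod.snd hl
          simp only at this
          omega
        · simp only [if_true] at hl
          have := congrArg Prod.fst hl
          simp at this
      · refine hR.WO_sd hQ (o := .st a.1 a.2 1 t) ?_ hb' hzw hz'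
        have := WO_st (A := A) (g := g) (R := RR A a true) (p := false) (h := false) ht
        rwa [e3] at this
  · refine ⟨P (.st a.1 a.2 1 0), Or.inr (mem_UU (Or.inr (Or.inr ⟨0, by omega, rfl⟩))
      (left_mem_segment ℝ _ _)), ?_⟩
    have := WO_st (A := A) (g := g) (R := RR A a true) (p := false) (h := false) (t := 0)
      (by omega)
    rw [e3] at this
    exact mem_UU this (left_mem_segment ℝ _ _)
  · refine UU_pre ?_
    have key : ∀ w ∈ W', Jn P Q W' (.st γ.1 γ.2 0 (pos g (A.sl γ a) 1)) w := by
      rintro w ⟨t, h1, h2, rfl⟩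
      exact hR.jst hγL (by omega) h1 (by rw [ix_e (Or.inl rfl)]; omega)
        fun r hr hr' => ⟨r, hr, by omega, rfl⟩
    exact fun u hu v hv => (key u hu).symm.trans (key v hv)
  · rw [Set.disjoint_left]
    rintro z hz ⟨p', h', t', -, hb', hz'⟩
    have ok2 := hQ'.ok p' h'
    have c2 := hR.hi_le ok2
    have hz2 := hR.sd_seg ok2 hb'.1 hb'.2 hz'
    have V2 : A.IsV g ((am (RR A a false) p' h').vx t') := vx_V ok2 (by omega)
    obtain ⟨w, hw, hzw⟩ := mem_iUnion₂.1 hz
    obtain ⟨t, h1, h2, rfl⟩ := hw
    have hne : γ ≠ RR A a false p' h' := by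
      have hγI' : In A a false γ := gam_In false (by omega) (by omega)
      exact hγI'.nR p' h'
    refine hR.dj' (V' t h2) V2 ?_ ?_ hzw hz2
    · intro he
      have he' : (Vx.st γ.1 γ.2 0 t) = .st (RR A a false p' h').1 (RR A a false p' h').2 (ee h') t' :=
        he
      simp only [Vx.st.injEq] at he'
      exact hne (Prod.ext he'.1 he'.2.1)
    · intro hAA
      have hAA' : A.Aj g (.st γ.1 γ.2 0 t)
        (.st (RR A a false p' h').1 (RR A a false p' h').2 (ee h') t') := hAA
      obtain ⟨q1, q2, q3, q4, q5⟩ := hR.aj_ne hne hAA'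
      rw [ix_e (Or.inl rfl)] at q4
      cases p'
      · cases h'
        · have e1 : RR A a false false false = (a.1, 0) := by simp [RR]
          rw [e1] at q4
          obtain ⟨r, z1, z2⟩ := zp_eq (A := A) (g := g) γ (a.1, 0) (ee false)
          have hlt : A.sl γ (a.1, 0) < A.sl γ a := by
            rw [hγ, sl_o', show A.sl (!a.1, 1) a = A.sd (!a.1) 1 a.2 from sl_o' A a.1 1 a.2]
            exact hA.lo0 (!a.1) 1 a.2 (by omega) (by omega) (by rw [Bool.not_not]; omega)
          have := pos_lt (g := g) (r' := 0) hlt (show r ≤ 2 by have := z2 (ee_lt _); omega)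
          omega
        · rw [e2, hγz] at q4
          have : t = pos g (A.sl γ a) 0 := q4
          omega
      · unfold RR at q3
        rw [if_pos rfl, hγ, cr_s, x_false hA (Or.inl hγn)] at q3
        exact absurd q3 (by simp)
  · have hm : Vx.st γ.1 γ.2 0 (pos g (A.sl γ a) 2 + 1) ∈ W' := ⟨_, by omega, le_rfl, rfl⟩
    refine ⟨P (.st γ.1 γ.2 0 (pos g (A.sl γ a) 2 + 1)), mem_UU hm
      (left_mem_segment ℝ _ _), mem_UU ?_ (left_mem_segment ℝ _ _)⟩
    refine ⟨γ, 0, _, rfl, hγI, by omega, ?_, ?_⟩
    · rw [hγ, (gam_z 1).1, ix_e (Or.inl rfl), e3]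
      have := fin_le (A := A) (g := g) (!a.1, 1) a
      omega
    · have hz := (hγI.cz hA ha).2.2.2.2
      rw [hγ, (gam_z 1).1, (gam_z 1).2, e3] at hz
      rw [hγ, (gam_z 1).2, ix_e (Or.inl rfl)]
      have := pos_lt (g := g) (r' := 0) hz (show 2 ≤ 2 by omega)
      omega
  · -- the spine
    have hcr := (hR.cross hL hγL (ne_of_ne (Ne.symm hγd)) (cr_of_ne (Ne.symm hγd)) (e := 1)
      (f := 0) (by omega) (by omega)).1
    refine ⟨pt P Q (cv A g a γ 1 0) (cv A g γ a 0 1), ?_, ?_⟩
    · refine mem_UU (v := cv A g γ a 0 1) ?_ hcr.2.1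
      refine ⟨pos g (A.sl γ a) 1, le_rfl, by omega, ?_⟩
      unfold cv
      rw [ix_e (Or.inl rfl), hγz]
    · refine mem_UU (v := cv A g a γ 1 0) ?_ hcr.1
      have bd := hR.zp_bd hL hγL (cr_of_ne (Ne.symm hγd)) (r := 0) (by omega)
      have := WO_st (A := A) (g := g) (R := RR A a false) (p := false) (h := true)
        (t := ix 1 (A.zp g a γ 0)) (by unfold ix; rw [if_pos rfl]; omega)
      rw [e2] at this
      exact this

/-- The separating line. -/
theorem exf (hR : RS A g P Q) (ha : A.Re a) : ∃ (c : ℝ × ℝ × ℝ) (U : Bool → Set (ℝ × ℝ)),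
    ∀ s, Top.Rg (QQ A g P Q (RR A a s)) (UU P Q (WI A g a s)) (UU P Q (WO A g (RR A a s))) (U s) ∧
      ∀ z ∈ U s, 0 < sgn s * ev c z := by
  obtain ⟨U, hU⟩ := hR.regA ha true
  obtain ⟨U', hU'⟩ := hR.regA ha false
  obtain ⟨c, h1, h2⟩ := Top.exists_line hU.isOpen hU.convex hU'.isOpen hU'.convex
    (hR.disj ha hU hU')
  refine ⟨c, fun s => if s = true then U else U', fun s => ?_⟩
  cases s
  · refine ⟨by simpa using hU', fun z hz => ?_⟩
    have := h2 z (by simpa using hz)
    unfold sgn ev
    simp only [Bool.false_eq_true, if_false]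
    linarith
  · refine ⟨by simpa using hU, fun z hz => ?_⟩
    have := h1 z (by simpa using hz)
    unfold sgn ev
    simp only [if_true]
    linarith

end RS

end Run7.h749
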