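import Pool.Agent.Run7.h749.Red
import Pool.Agent.ER.GraphCode
import Pool.Agent.ER.Hard
import Pool.Agent.H612.OslpPoly
import Pool.Agent.K1H23.PC.T_BS

/-!
# The pieces of the proof that recognising segment intersection graphs of girth at least `k` is
`∃ℝ`-hard (problem MP_beb3fe_lc)

`ETR → Sat S → OSat (prog S)` is in the starting tree (`ERHard.of_sys`, `prog_iff`, `poly_prog`,
`wf_prog`). The arrangement of a program is `arrOf p` (Red.lean), the graph of an arrangement with
spacing `g` is `A.gr g` (Defs.lean). The pieces:

* `S_OK`   the combinatorial axioms hold for `arrOf p` (omega, case analysis).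
* `S_ALG`  straight lines with the signs of the arrangement `arrOf p` give a solution of `p`.
* `S_LIN`  a solution of `p` gives straight lines realising `arrOf p` in the unit square.
* `S_REP`  straight lines realising `A` give segments representing the graph `A.gr g`.
* `S_SND`  segments representing the graph give straight lines with the right signs (topology).
* `S_GIR`  the girth of the graph is at least `g`.
* `S_COD`  the graph can be written down in polynomial time.

## Paper proofs

### S_ALG (Geo (arrOf p) → OSat p)
Rows: class `false`, strip `t` has lower row `2+2t` and upper row `3+2t`. Columns: class `true`.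
Let `P = W (true,1) (2 * T p + 4)` (a point on the auxiliary column 1, above all lower rows, below
all upper rows, left of all proper columns). Let `L' = (true,2)`. Put `u(z) = 1 - f_{L'}(z)/f_{L'}(P)`
(`u(P) = 0`, `u = 1` on `L'`, `u > 1` to the right of it). For rows `r < r'` the points
`X r L'`, `X r' L'` have `f_r (X r' L') > 0`, `f_{r'} (X r L') < 0`. Hence there is a linear form `v`
with `v(P) = 0` such that (after scaling by positive factors) `f_r = v + α_r u + π_r`,
`π_r = f_r(P)`, `π_r > 0` for lower rows and `π_r < 0` for upper rows. For a point `z` with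
`u(z) > 0` put `x = -1/u(z)`, `Y = v(z)/u(z)` (the chart in which `P` is at infinity): then
`f_r(z) > 0 ↔ Y > -α_r + π_r x`, i.e. lower rows are increasing lines, upper rows decreasing lines;
every column `c` becomes `κ_c x + β_c Y + α_c`, `κ_c = -f_c(P) > 0`.
(a) Strips separate: if `z` is below both rows of a strip and `z'` is above both, then
`Y(z) < Y_c < Y(z')` where `Y_c` is the height of the crossing of the two rows (one row is
increasing, the other decreasing; `min ≤ Y_c ≤ max`).
(b) Comparison: let `S` be a proper column, `s₀ = X (upper row of strip t) S`. If `z` is right of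
`S` and below the upper row, and `z'` is left of `S` and above the upper row, then
`Y(z) < Y(s₀) < Y(z')` (use `κ_S > 0` and that the crossing of the upper row with `L'` is left of
`S` (or `S = L'`), so that the direction of `S` and of the row are in the right position).
Symmetrically for the lower row.
(c) The four columns `x = b_z Y + c_z` of a slab satisfy
`PH Y23 Y12 Y14 Y13 Y24 Y34 = 0` where `PH` is `Pool.Agent.K1H23.PC.BS.PH` (the differences `b_z - b_z'`
are nonzero, as the crossing of two of them is not on a third one).
(d) By (a) (dummy strips!) the six heights of a slab are ordered: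
`Y12 < Y14 < Y13, Y24 < Y23 < Y34` (multiplication), `Y14 < Y13, Y24 < Y23 < Y12, Y34` (addition).
(e) As in `Pool.Agent.K1H23.PC.BS.exact` (use `mono1`, `mono2`, `kap_neg`, `kap_pos`, `root`,
`PH_sub`) construct values `E a` (`a < G p`) by recursion with
`Y(X lowerrow_a S_a) < E a < Y(X upperrow_a S_a)`, `S_a = (true, 2 + 10 * (G p - 1 - a))` the column
to the left of the block of `a`, and `PH (E k) (E o) (E l) (E i) (E j) (E 0) = 0`: free values are
`Y(W (true, mc p - 2) (4 * sp p a + 6))`; the exact value of an operation is between `Y23` of the
lower and of the upper slab, which are in the strip of `k`, right of `S_k`.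
(f) `fun a => 1 / (E 0 - E a)` is a solution, as in `Pool.Agent.K1H23.PC.t_BS`.

### S_LIN (OSat p → Lines (arrOf p))
Chart `(x, Y)`, afterwards scaled to the unit square. `θ` of the value `a ≥ 1` is
`-1 / (v a - v 1 + 1)`, `θ = 0` for the value `0` (so `PH θ_k θ_o θ_l θ_i θ_j θ_0 = 0` for
operations), dummies in between (midpoints, and one above). Lower row of strip `t`:
`Y = θ_t - w_t + x`, upper row: `Y = θ_t + w_t - x`, `x ∈ [-X₀, X₁]`, `X₁ < w_min`
(e.g. `X₁ = 3/4 w_min`, last two columns at `w_min/4`, `w_min/2`). Outermost rows:
`Y = θ_0 - 2 + x` etc. (parallel). `w` of the value `a` is `η R^a` with `R` large (Lipschitz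
constant of `Y23` as a function of `Y12, Y14, Y13, Y24, Y34` near the exact values), `η` small;
dummies `η`. All slabs and separators are in a tiny window `|x| < w_min / 4`; the reference column
is at a small negative `x`, right of all crossings of rows. Columns are vertical, except those of
the slabs: `x = x_q + δ (b_z Y + c_z)` with `δ` small, where the `b_z`, `c_z` are chosen such that
the crossing heights are: `θ + 2 w` (above strip), `θ - 2 w` (below strip) for the values
`0, o, l, i, j` as prescribed by `hs`, and `Y23` is determined by `PH = 0`; it satisfies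
`|Y23 - θ_k| < w_k / 2`.

### S_REP (Lines A → Rep A g)
Coordinates of the line `a`: `(t, h)` = `(t, u + (v - u) t + h)` for class `false`, swapped for
class `true`. Process the lines in the order of `rk` (thick lines first). For every line `a` choose
`c_a : ℕ → ℝ` strictly increasing on `[0, N]` in `(0,1)`, where `c_a (zp a b r)` is the parameter of
the crossing of the centre line `a` with the strand `r` of `b` if `b` is thick (already
constructed), and with the centre line `b` if `a` is thick; `τ_0 = 0`, `τ_{N+1} = 1`,
`τ_i ∈ (c_{i-1}, c_i)`. Chains: the piece `i` of the chain `e` (sign `σ = ±1`) is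
`h = σ ε (1 + t² - (t - τ_i)(t - τ_{i+1}))` for `t ∈ [τ_i - λ_e, τ_{i+1} + λ_e]` (clipped to
`[0, 1]`), `λ_0 ≠ λ_2` tiny. The spine is `h = 0`, piece `4i` ends at `τ_{i+1} - 2λ`, `4i+1` ends at
`τ_{i+1} - λ/2`, `4i+2` at `τ_{i+1} + λ/2`, `4i+3` at `τ_{i+1} + 2λ`. Ties are vertical
(`t = τ_{i+1} ∓ λ_e`), from the spine to the tip, cut into `g` pieces. `ε_a` is chosen so small that
everything is close to the centre line (all relations to the segments constructed before and to the
centre lines of later lines are determined by the positions on the centre line). Finally the inner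
ring is the boundary of the unit square (the strands end exactly on it), cut at suitable points
(the corner points are cut points, `g` pieces for every end of a strand), the outer ring is its
image under the homothety with factor 3 about the centre, the spokes are radial.

### S_GIR
The vertices of a cycle of length `< g` form a set `W` in which every vertex has at least two
neighbours. If `W` contains a vertex of a tie or of a spoke, it contains all `g` vertices of it. A
vertex of `W` on a strand or ring which is not an end or a crossing has both path-neighbours in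
`W`, so `W` contains a path of at least `g - 1`, ... consecutive vertices between two junctions
(the junctions on a strand are at chain indices which are multiples of `g`, on the ring also).
-/

namespace Run7.h749

open Pool.Agent.NPC Pool.Agent.NPC.ER Pool.Agent.NPC.ER.Oslp

theorem Arr.Ed.ne {A : Arr} {g : ℕ} {u v : Vx} (hM : 2 ≤ A.M g) (h : A.Ed g u v) : u ≠ v := by
  cases h with
  | str c a e i h1 h2 h3 => simp
  | crs a b e f h1 h2 h3 h4 h5 h6 h7 =>
    intro he
    simp only [Vx.st.injEq] at he
    exact h3 (Prod.ext he.1 he.2.1)
  | ti0 => simp
  | tim => simp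
  | ti1 => simp
  | ends => simp
  | ende => simp
  | rng b j h =>
    intro he
    simp only [Vx.rg.injEq, true_and] at he
    have h1 : (j + 1) % A.M g = j := he.symm
    rcases Nat.lt_or_ge (j + 1) (A.M g) with h2 | h2
    · rw [Nat.mod_eq_of_lt h2] at h1; omega
    · have h3 : j + 1 = A.M g := by omega
      rw [h3, Nat.mod_self] at h1
      omega
  | spi => simp
  | spm => simp
  | spo => simp

/-- The graph of an arrangement. -/
def Arr.gr (A : Arr) (g : ℕ) : SimpleGraph {v : Vx // A.IsV g v} :=
  SimpleGraph.fromRel fun u v => A.Ed g u.1 v.1

/-- The graph is the intersection graph of a family of line segments. -/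
def IsSeg {V : Type} (G : SimpleGraph V) : Prop :=
  ∃ P Q : V → ℝ × ℝ, (∀ v, P v ≠ Q v) ∧
    ∀ u v, u ≠ v → (G.Adj u v ↔ (segment ℝ (P u) (Q u) ∩ segment ℝ (P v) (Q v)).Nonempty)

/-! ### The pieces -/

/-- The axioms hold. -/
def S_OK : Prop := ∀ p : List Ins, WF 2 p → (arrOf p).Ok

/-- Algebra. -/
def S_ALG : Prop := ∀ p : List Ins, WF 2 p → (arrOf p).Geo → OSat p

/-- Construction of the lines. -/
def S_LIN : Prop := ∀ p : List Ins, WF 2 p → OSat p → (arrOf p).Lines

/-- Construction of the segments. -/
def S_REP : Prop := ∀ (A : Arr) (g : ℕ), A.Ok → 4 ≤ g → A.Lines → A.Rep g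

/-- Soundness: topology. -/
def S_SND : Prop := ∀ (A : Arr) (g : ℕ), A.Ok → 4 ≤ g → A.Rep g → A.Geo

/-- Girth. -/
def S_GIR : Prop := ∀ (A : Arr) (g : ℕ), A.Ok → 4 ≤ g →
  ∀ (v : {v : Vx // A.IsV g v}) (w : (A.gr g).Walk v v), w.IsCycle → g ≤ w.length

/-- Polynomial time. -/
def S_COD : Prop := ∀ g : ℕ, 4 ≤ g → ∃ F : List Ins → GCode, Poly F ∧
  ∀ p, WF 2 p → (F p).WF ∧ Nonempty ((F p).graph ≃g (arrOf p).gr g)

end Run7.h749
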