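import Pool.Agent.Helper448.VanKampen

/-!
# Topological obstructions in the plane
-/

namespace Run7.h749.Top

open Pool.Agent.Helper448.VanKampen

/-- The edges of the complete bipartite graph with parts `{0, 2, 5}` and `{1, 3, 4}`. -/
def E33 (a b : Fin 6) : Prop :=
  (a, b) ∈ [((0 : Fin 6), (1 : Fin 6)), (1, 2), (2, 3), (0, 3), (0, 4), (2, 4), (1, 5), (3, 5),
    (4, 5)]

instance (a b : Fin 6) : Decidable (E33 a b) := by unfold E33; infer_instance

/-- Van Kampen obstruction for the complete bipartite graph `K₃,₃`. -/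
theorem k33_joined (p : Fin 6 → ℂ) (S : Fin 6 → Fin 6 → Set ℂ)
    (hS : ∀ a b, E33 a b → JoinedIn (S a b) (p a) (p b))
    (hdis : ∀ a b c d, E33 a b → E33 c d → a ≠ c → a ≠ d → b ≠ c → b ≠ d →
      Disjoint (S a b) (S c d)) : False := by
  classical
  let γ : Fin 6 → Fin 6 → ℝ → ℂ := fun a b =>
    if h : E33 a b then (hS a b h).somePath.extend else fun _ => 0
  have hγ : ∀ a b (h : E33 a b), γ a b = (hS a b h).somePath.extend := fun a b h => dif_pos h
  have hmem : ∀ a b, E33 a b → ∀ t, γ a b t ∈ S a b := by
    intro a b h t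
    rw [hγ a b h]
    have : (hS a b h).somePath.extend t ∈ Set.range (hS a b h).somePath.extend := ⟨t, rfl⟩
    rw [Path.extend_range] at this
    obtain ⟨s, hs⟩ := this
    rw [← hs]
    exact (hS a b h).somePath_mem s
  have hpmem : ∀ a b, E33 a b → p a ∈ S a b ∧ p b ∈ S a b := fun a b h =>
    ⟨(hS a b h).source_mem, (hS a b h).target_mem⟩
  have hd : ∀ a b c d, a < b → c < d → E33 a b → E33 c d → a ≠ c → a ≠ d → b ≠ c → b ≠ d →
      ∀ s t, γ a b s ≠ γ c d t := by
    intro a b c d _ _ hab hcd h1 h2 h3 h4 s t he
    exact Set.disjoint_left.mp (hdis a b c d hab hcd h1 h2 h3 h4) (hmem a b hab s)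
      (he ▸ hmem c d hcd t)
  have hex : ∀ a b c : Fin 6, E33 a b → c ≠ a → c ≠ b → ∃ x y : Fin 6, E33 x y ∧ (c = x ∨ c = y) ∧
      a ≠ x ∧ a ≠ y ∧ b ≠ x ∧ b ≠ y := by decide
  have hex2 : ∀ a c : Fin 6, a ≠ c → ∃ b b' : Fin 6, E33 b b' ∧ (a = b ∨ a = b') ∧ c ≠ b ∧
      c ≠ b' := by
    decide
  have hv : ∀ a b c : Fin 6, a < b → E33 a b → c ≠ a → c ≠ b → ∀ t, γ a b t ≠ p c := by
    intro a b c _ hab hca hcb t he
    obtain ⟨x, y, hxy, hc, h1, h2, h3, h4⟩ := hex a b c hab hca hcb
    have hpc : p c ∈ S x y := by
      rcases hc with rfl | rfl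
      · exact (hpmem _ _ hxy).1
      · exact (hpmem _ _ hxy).2
    exact Set.disjoint_left.mp (hdis a b x y hab hxy h1 h2 h3 h4) (hmem a b hab t) (he ▸ hpc)
  have hlt : ∀ a b : Fin 6, E33 a b → a < b := by decide
  have hp : Function.Injective p := by
    intro a c hac
    by_contra hne
    obtain ⟨b, b', hbb, ha, h1, h2⟩ := hex2 a c hne
    have h0 : γ b b' 0 = p b := by rw [hγ _ _ hbb]; simp
    have h1' : γ b b' 1 = p b' := by rw [hγ _ _ hbb]; simp
    rcases ha with rfl | rfl
    · exact hv _ _ c (hlt _ _ hbb) hbb h1 h2 0 (h0.trans hac)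
    · exact hv _ _ c (hlt _ _ hbb) hbb h1 h2 1 (h1'.trans hac)
  obtain ⟨m, hm⟩ := exists_labels p hp E33 γ
    (fun a b _ h => by rw [hγ a b h]; exact (hS a b h).somePath.continuous_extend)
    (fun a b _ h => by rw [hγ a b h]; simp) (fun a b _ h => by rw [hγ a b h]; simp) hv
  have h0 := hm 0 1 2 3 (by decide) (by decide) (by decide) (by decide) (by decide) (by decide) (by decide) (by decide) (hd _ _ _ _ (by decide) (by decide) (by decide) (by decide) (by decide) (by decide) (by decide) (by decide))
  rw [show beta ((0 : Fin 6)) 1 2 3 = 0 from by decide] at h0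
  have h1 := hm 0 1 2 4 (by decide) (by decide) (by decide) (by decide) (by decide) (by decide) (by decide) (by decide) (hd _ _ _ _ (by decide) (by decide) (by decide) (by decide) (by decide) (by decide) (by decide) (by decide))
  rw [show beta ((0 : Fin 6)) 1 2 4 = 0 from by decide] at h1
  have h2 := hm 0 1 3 5 (by decide) (by decide) (by decide) (by decide) (by decide) (by decide) (by decide) (by decide) (hd _ _ _ _ (by decide) (by decide) (by decide) (by decide) (by decide) (by decide) (by decide) (by decide))
  rw [show beta ((0 : Fin 6)) 1 3 5 = 0 from by decide] at h2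
  have h3 := hm 0 1 4 5 (by decide) (by decide) (by decide) (by decide) (by decide) (by decide) (by decide) (by decide) (hd _ _ _ _ (by decide) (by decide) (by decide) (by decide) (by decide) (by decide) (by decide) (by decide))
  rw [show beta ((0 : Fin 6)) 1 4 5 = 0 from by decide] at h3
  have h4 := hm 1 2 0 3 (by decide) (by decide) (by decide) (by decide) (by decide) (by decide) (by decide) (by decide) (hd _ _ _ _ (by decide) (by decide) (by decide) (by decide) (by decide) (by decide) (by decide) (by decide))
  rw [show beta ((1 : Fin 6)) 2 0 3 = 0 from by decide] at h4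
  have h5 := hm 1 2 0 4 (by decide) (by decide) (by decide) (by decide) (by decide) (by decide) (by decide) (by decide) (hd _ _ _ _ (by decide) (by decide) (by decide) (by decide) (by decide) (by decide) (by decide) (by decide))
  rw [show beta ((1 : Fin 6)) 2 0 4 = 0 from by decide] at h5
  have h6 := hm 1 2 3 5 (by decide) (by decide) (by decide) (by decide) (by decide) (by decide) (by decide) (by decide) (hd _ _ _ _ (by decide) (by decide) (by decide) (by decide) (by decide) (by decide) (by decide) (by decide))
  rw [show beta ((1 : Fin 6)) 2 3 5 = 0 from by decide] at h6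
  have h7 := hm 1 2 4 5 (by decide) (by decide) (by decide) (by decide) (by decide) (by decide) (by decide) (by decide) (hd _ _ _ _ (by decide) (by decide) (by decide) (by decide) (by decide) (by decide) (by decide) (by decide))
  rw [show beta ((1 : Fin 6)) 2 4 5 = 0 from by decide] at h7
  have h8 := hm 2 3 0 4 (by decide) (by decide) (by decide) (by decide) (by decide) (by decide) (by decide) (by decide) (hd _ _ _ _ (by decide) (by decide) (by decide) (by decide) (by decide) (by decide) (by decide) (by decide))
  rw [show beta ((2 : Fin 6)) 3 0 4 = 0 from by decide] at h8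
  have h9 := hm 2 3 1 5 (by decide) (by decide) (by decide) (by decide) (by decide) (by decide) (by decide) (by decide) (hd _ _ _ _ (by decide) (by decide) (by decide) (by decide) (by decide) (by decide) (by decide) (by decide))
  rw [show beta ((2 : Fin 6)) 3 1 5 = 0 from by decide] at h9
  have h10 := hm 2 3 4 5 (by decide) (by decide) (by decide) (by decide) (by decide) (by decide) (by decide) (by decide) (hd _ _ _ _ (by decide) (by decide) (by decide) (by decide) (by decide) (by decide) (by decide) (by decide))
  rw [show beta ((2 : Fin 6)) 3 4 5 = 0 from by decide] at h10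
  have h11 := hm 0 3 2 4 (by decide) (by decide) (by decide) (by decide) (by decide) (by decide) (by decide) (by decide) (hd _ _ _ _ (by decide) (by decide) (by decide) (by decide) (by decide) (by decide) (by decide) (by decide))
  rw [show beta ((0 : Fin 6)) 3 2 4 = 1 from by decide] at h11
  have h12 := hm 0 3 1 5 (by decide) (by decide) (by decide) (by decide) (by decide) (by decide) (by decide) (by decide) (hd _ _ _ _ (by decide) (by decide) (by decide) (by decide) (by decide) (by decide) (by decide) (by decide))
  rw [show beta ((0 : Fin 6)) 3 1 5 = 1 from by decide] at h12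
  have h13 := hm 0 3 4 5 (by decide) (by decide) (by decide) (by decide) (by decide) (by decide) (by decide) (by decide) (hd _ _ _ _ (by decide) (by decide) (by decide) (by decide) (by decide) (by decide) (by decide) (by decide))
  rw [show beta ((0 : Fin 6)) 3 4 5 = 0 from by decide] at h13
  have h14 := hm 0 4 1 5 (by decide) (by decide) (by decide) (by decide) (by decide) (by decide) (by decide) (by decide) (hd _ _ _ _ (by decide) (by decide) (by decide) (by decide) (by decide) (by decide) (by decide) (by decide))
  rw [show beta ((0 : Fin 6)) 4 1 5 = 1 from by decide] at h14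
  have h15 := hm 0 4 3 5 (by decide) (by decide) (by decide) (by decide) (by decide) (by decide) (by decide) (by decide) (hd _ _ _ _ (by decide) (by decide) (by decide) (by decide) (by decide) (by decide) (by decide) (by decide))
  rw [show beta ((0 : Fin 6)) 4 3 5 = 1 from by decide] at h15
  have h16 := hm 2 4 1 5 (by decide) (by decide) (by decide) (by decide) (by decide) (by decide) (by decide) (by decide) (hd _ _ _ _ (by decide) (by decide) (by decide) (by decide) (by decide) (by decide) (by decide) (by decide))
  rw [show beta ((2 : Fin 6)) 4 1 5 = 0 from by decide] at h16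
  have h17 := hm 2 4 3 5 (by decide) (by decide) (by decide) (by decide) (by decide) (by decide) (by decide) (by decide) (hd _ _ _ _ (by decide) (by decide) (by decide) (by decide) (by decide) (by decide) (by decide) (by decide))
  rw [show beta ((2 : Fin 6)) 4 3 5 = 1 from by decide] at h17
  have two : (2 : ZMod 2) = 0 := rfl
  have one : (1 : ZMod 2) = 0 := by
    linear_combination h0 + h1 + h2 + h3 + h4 + h5 + h6 + h7 + h8 + h9 + h10 + h11 + h12 + h13 + h14 + h15 + h16 + h17 + ((m 0 1 2 + m 0 1 3 + m 0 1 4 + m 0 1 5 + m 0 3 1 + m 0 3 2 + m 0 3 4 + m 0 3 5 + m 0 4 1 + m 0 4 2 + m 0 4 3 + m 0 4 5 + m 1 2 0 + m 1 2 3 + m 1 2 4 + m 1 2 5 + m 1 5 0 + m 1 5 2 + m 1 5 3 + m 1 5 4 + m 2 3 0 + m 2 3 1 + m 2 3 4 + m 2 3 5 + m 2 4 0 + m 2 4 1 + m 2 4 3 + m 2 4 5 + m 3 5 0 + m 3 5 1 + m 3 5 2 + m 3 5 4 + m 4 5 0 + m 4 5 1 + m 4 5 2 + m 4 5 3) - 2) * two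
  exact one_ne_zero one

/-- The version for `ℝ × ℝ`. -/
theorem k33R (p : Fin 6 → ℝ × ℝ) (S : Fin 6 → Fin 6 → Set (ℝ × ℝ))
    (hS : ∀ a b, E33 a b → JoinedIn (S a b) (p a) (p b))
    (hdis : ∀ a b c d, E33 a b → E33 c d → a ≠ c → a ≠ d → b ≠ c → b ≠ d →
      Disjoint (S a b) (S c d)) : False := by
  let g : ℝ × ℝ → ℂ := Complex.equivRealProdCLM.symm
  have hg : Continuous g := Complex.equivRealProdCLM.symm.continuous
  have hgi : Function.Injective g := Complex.equivRealProdCLM.symm.injective
  apply k33_joined (fun a => g (p a)) (fun a b => g '' (S a b))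
  · intro a b hab
    exact (hS a b hab).map hg
  · intro a b c d hab hcd h1 h2 h3 h4
    rw [Set.disjoint_image_iff hgi]
    exact hdis a b c d hab hcd h1 h2 h3 h4

theorem k5R (p : Fin 5 → ℝ × ℝ) (S : Fin 5 → Fin 5 → Set (ℝ × ℝ))
    (hS : ∀ a b, a < b → JoinedIn (S a b) (p a) (p b))
    (hdis : ∀ a b c d, a < b → c < d → a ≠ c → a ≠ d → b ≠ c → b ≠ d →
      Disjoint (S a b) (S c d)) : False := by
  let g : ℝ × ℝ → ℂ := Complex.equivRealProdCLM.symm
  have hg : Continuous g := Complex.equivRealProdCLM.symm.continuous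
  have hgi : Function.Injective g := Complex.equivRealProdCLM.symm.injective
  apply k5_joined (fun a => g (p a)) (fun a b => g '' (S a b))
  · intro a b hab
    exact (hS a b hab).map hg
  · intro a b c d hab hcd h1 h2 h3 h4
    rw [Set.disjoint_image_iff hgi]
    exact hdis a b c d hab hcd h1 h2 h3 h4

end Run7.h749.Top
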