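import Pool.Agent.Run7.h749.Rp

/-!
# Crossing walks
-/

namespace Run7.h749

open Arr Set

variable {A : Arr} {g : ℕ} {P Q : Vx → ℝ × ℝ}

/-- Points of a segment. -/
theorem seg_coord {p q x : ℝ × ℝ} (h : x ∈ segment ℝ p q) :
    ∃ t : ℝ, 0 ≤ t ∧ t ≤ 1 ∧ x = p + t • (q - p) := by
  rw [segment_eq_image'] at h
  obtain ⟨t, ht, rfl⟩ := h
  exact ⟨t, ht.1, ht.2, rfl⟩

/-- Uniqueness of the common point of two segments. -/
theorem seg_uniq {p q p' q' a b z t : ℝ × ℝ} (ha : a ∈ segment ℝ p q) (hb : b ∈ segment ℝ p q)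
    (ha' : a ∉ segment ℝ p' q') (hb' : b ∉ segment ℝ p' q') (hz : z ∈ segment ℝ a b)
    (hz' : z ∈ segment ℝ p' q') (ht : t ∈ segment ℝ p' q') (ht' : t ∉ segment ℝ p q) :
    ∀ w, w ∈ segment ℝ p q → w ∈ segment ℝ p' q' → w = z := by
  intro w hw hw'
  by_contra hne
  have hzs : z ∈ segment ℝ p q := (convex_segment p q).segment_subset ha hb hz
  obtain ⟨α, hα0, hα1, rfl⟩ := seg_coord ha
  obtain ⟨β, hβ0, hβ1, rfl⟩ := seg_coord hb
  obtain ⟨ζ, hζ0, hζ1, hζ⟩ := seg_coord hzs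
  obtain ⟨ω, hω0, hω1, hω⟩ := seg_coord hw
  obtain ⟨ζ', -, -, hζ'⟩ := seg_coord hz'
  obtain ⟨ω', -, -, hω'⟩ := seg_coord hw'
  obtain ⟨τ', -, -, hτ'⟩ := seg_coord ht
  obtain ⟨s, hs0, hs1, hs⟩ := seg_coord hz
  set D := q - p with hD
  set E := q' - p' with hE
  have hD0 : D ≠ 0 := by
    intro h0
    apply hne
    rw [hω, hζ, h0, smul_zero, smul_zero]
  -- `E` is a multiple of `D`
  have h1 : (ω - ζ) • D = (ω' - ζ') • E := by
    have e1 : w - z = (ω - ζ) • D := by rw [hω, hζ]; module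
    have e2 : w - z = (ω' - ζ') • E := by rw [hω', hζ']; module
    rw [← e1, e2]
  have h2 : ω - ζ ≠ 0 := by
    intro h0
    apply hne
    rw [hω, hζ, show ω = ζ by linarith]
  have h3 : ω' - ζ' ≠ 0 := by
    intro h0
    rw [h0, zero_smul] at h1
    rcases smul_eq_zero.1 h1 with h | h
    · exact h2 h
    · exact hD0 h
  have h4 : E = ((ω - ζ) / (ω' - ζ')) • D := by
    rw [div_eq_inv_mul, mul_smul, h1, smul_smul, inv_mul_cancel₀ h3, one_smul]
  -- `t` on the line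
  obtain ⟨τ, hτ⟩ : ∃ τ : ℝ, t = p + τ • D := by
    refine ⟨ζ + (τ' - ζ') * ((ω - ζ) / (ω' - ζ')), ?_⟩
    have : t = z + (τ' - ζ') • E := by rw [hτ', hζ']; module
    rw [this, h4, hζ]; module
  have hτn : τ < 0 ∨ 1 < τ := by
    by_contra hcon
    push Not at hcon
    apply ht'
    rw [segment_eq_image', hτ]
    exact ⟨τ, hcon, rfl⟩
  have hζs : ζ = α + s * (β - α) := by
    have : (ζ - (α + s * (β - α))) • D = 0 := by
      have e : z = p + (α + s * (β - α)) • D := by rw [hs]; module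
      have : p + ζ • D = p + (α + s * (β - α)) • D := by rw [← hζ, e]
      have e3 : (ζ - (α + s * (β - α))) • D =
        (p + ζ • D) - (p + (α + s * (β - α)) • D) := by module
      rw [e3, this, sub_self]
    rcases smul_eq_zero.1 this with h | h
    · linarith
    · exact absurd h hD0
  -- a point of the segment `p' q'` between `z` and `t`
  have hbet : ∀ γ : ℝ, (ζ ≤ γ ∧ γ ≤ τ) ∨ (τ ≤ γ ∧ γ ≤ ζ) → p + γ • D ∈ segment ℝ p' q' := by
    intro γ hγ
    apply (convex_segment p' q').segment_subset hz' ht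
    by_cases h0 : τ - ζ = 0
    · have : γ = ζ := by rcases hγ with h | h <;> linarith [h.1, h.2]
      rw [this, ← hζ]
      exact left_mem_segment ℝ _ _
    · rw [segment_eq_image']
      refine ⟨(γ - ζ) / (τ - ζ), ⟨?_, ?_⟩, ?_⟩
      · rcases hγ with h | h
        · exact div_nonneg (by linarith [h.1]) (by linarith [h.1, h.2])
        · exact div_nonneg_of_nonpos (by linarith [h.2]) (by linarith [h.1, h.2])
      · rcases hγ with h | h
        · rw [div_le_one (lt_of_le_of_ne (by linarith [h.1, h.2]) (Ne.symm h0))]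
          linarith [h.2]
        · rw [div_le_one_of_neg (lt_of_le_of_ne (by linarith [h.1, h.2]) h0)]
          linarith [h.1]
      · beta_reduce
        rw [hτ, hζ]
        have e : p + ζ • D + ((γ - ζ) / (τ - ζ)) • (p + τ • D - (p + ζ • D)) =
          p + (ζ + (γ - ζ) / (τ - ζ) * (τ - ζ)) • D := by module
        rw [e, div_mul_cancel₀ _ h0]
        congr 2
        ring
  have hsβ : (α ≤ ζ ∧ ζ ≤ β) ∨ (β ≤ ζ ∧ ζ ≤ α) := by
    rcases le_total α β with h | h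
    · left
      constructor <;> nlinarith
    · right
      constructor <;> nlinarith
  rcases hτn with h | h
  · rcases hsβ with h' | h'
    · exact ha' (hbet α (Or.inr ⟨by linarith, h'.1⟩))
    · exact hb' (hbet β (Or.inr ⟨by linarith, h'.1⟩))
  · rcases hsβ with h' | h'
    · exact hb' (hbet β (Or.inl ⟨h'.2, by linarith⟩))
    · exact ha' (hbet α (Or.inl ⟨h'.2, by linarith⟩))

/-- The point `a` can be joined to the end number `k` of the inner ring. -/
def Rc (P Q : Vx → ℝ × ℝ) (g : ℕ) (W : Set Vx) (k : ℕ) (a : ℝ × ℝ) : Prop :=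
  ∃ r ∈ segment ℝ (P (.rg false (g * k))) (Q (.rg false (g * k))),
    JoinedIn (UU P Q W ∪ {a}) r a

/-- Interleaving pairs. -/
def Itl (a a' b b' : ℕ) : Prop :=
  (a < b ∧ b < a' ∧ a' < b') ∨ (a < b' ∧ b' < a' ∧ a' < b) ∨
  (a' < b ∧ b < a ∧ a < b') ∨ (a' < b' ∧ b' < a ∧ a < b) ∨
  (b < a ∧ a < b' ∧ b' < a') ∨ (b < a' ∧ a' < b' ∧ b' < a) ∨
  (b' < a ∧ a < b ∧ b < a') ∨ (b' < a' ∧ a' < b ∧ b < a)

namespace RS

theorem envI (hR : RS A g P Q) {k k' l l' : ℕ} (h : Itl k k' l l') (hk : k < 6 * A.nn)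
    (hk' : k' < 6 * A.nn) (hl : l < 6 * A.nn) (hl' : l' < 6 * A.nn) {r r' s s' : ℝ × ℝ}
    (hr : r ∈ segment ℝ (P (.rg false (g * k))) (Q (.rg false (g * k))))
    (hr' : r' ∈ segment ℝ (P (.rg false (g * k'))) (Q (.rg false (g * k'))))
    (hs : s ∈ segment ℝ (P (.rg false (g * l))) (Q (.rg false (g * l))))
    (hs' : s' ∈ segment ℝ (P (.rg false (g * l'))) (Q (.rg false (g * l'))))
    {S S' : Set (ℝ × ℝ)} {W W' : Set Vx} (hS : S ⊆ UU P Q W) (hS' : S' ⊆ UU P Q W')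
    (hW : ∀ v ∈ W, Av A g k k' v) (hW' : ∀ v ∈ W', Av A g l l' v)
    (j : JoinedIn S r r') (j' : JoinedIn S' s s') : (S ∩ S').Nonempty := by
  have hWs : ∀ v ∈ W, Av A g k' k v := fun v hv => (hW v hv).symm
  have hWs' : ∀ v ∈ W', Av A g l' l v := fun v hv => (hW' v hv).symm
  rcases h with h | h | h | h | h | h | h | h <;> obtain ⟨h1, h2, h3⟩ := h
  · exact hR.env h1 h2 h3 hl' hr hs hr' hs' hS hS' hW hW' j j'
  · exact hR.env h1 h2 h3 hl hr hs' hr' hs hS hS' hW hWs' j j'.symm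
  · exact hR.env h1 h2 h3 hl' hr' hs hr hs' hS hS' hWs hW' j.symm j'
  · exact hR.env h1 h2 h3 hl hr' hs' hr hs hS hS' hWs hWs' j.symm j'.symm
  · rw [inter_comm]
    exact hR.env h1 h2 h3 hk' hs hr hs' hr' hS' hS hW' hW j' j
  · rw [inter_comm]
    exact hR.env h1 h2 h3 hk hs hr' hs' hr hS' hS hW' hWs j' j.symm
  · rw [inter_comm]
    exact hR.env h1 h2 h3 hk' hs' hr hs hr' hS' hS hWs' hW j'.symm j
  · rw [inter_comm]
    exact hR.env h1 h2 h3 hk hs' hr' hs hr hS' hS hWs' hWs j'.symm j.symm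

/-- Two walks with interleaving ends, which are adjacent only at `u`, `v`, cross there. -/
theorem xl (hR : RS A g P Q) {W W' : Set Vx} {u v : Vx} {a b a' b' : ℝ × ℝ} {k k' l l' : ℕ}
    (h : Itl k k' l l') (hk : k < 6 * A.nn)
    (hk' : k' < 6 * A.nn) (hl : l < 6 * A.nn) (hl' : l' < 6 * A.nn)
    (ha : a ∈ segment ℝ (P u) (Q u)) (hb : b ∈ segment ℝ (P u) (Q u))
    (ha' : a' ∈ segment ℝ (P v) (Q v)) (hb' : b' ∈ segment ℝ (P v) (Q v))
    (rA : Rc P Q g W k a) (rA' : Rc P Q g W k' b) (rB : Rc P Q g W' l a') (rB' : Rc P Q g W' l' b')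
    (hW : ∀ x ∈ W, Av A g k k' x) (hW' : ∀ x ∈ W', Av A g l l' x) (hu : Av A g k k' u)
    (hv : Av A g l l' v)
    (n1 : ∀ x ∈ W, ∀ y ∈ W', x ≠ y ∧ ¬ A.Aj g x y) (n2 : ∀ x ∈ W, x ≠ v ∧ ¬ A.Aj g x v)
    (n3 : ∀ y ∈ W', u ≠ y ∧ ¬ A.Aj g u y) :
    ∃ z, z ∈ segment ℝ a b ∧ z ∈ segment ℝ a' b' := by
  obtain ⟨r, hr, jr⟩ := rA
  obtain ⟨r', hr', jr'⟩ := rA'
  obtain ⟨s, hs, js⟩ := rB
  obtain ⟨s', hs', js'⟩ := rB'
  have hab : segment ℝ a b ⊆ segment ℝ (P u) (Q u) := (convex_segment _ _).segment_subset ha hb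
  have hab' : segment ℝ a' b' ⊆ segment ℝ (P v) (Q v) :=
    (convex_segment _ _).segment_subset ha' hb'
  have sub1 : ∀ {W : Set Vx} {a b c : ℝ × ℝ}, c ∈ segment ℝ a b →
      UU P Q W ∪ {c} ⊆ UU P Q W ∪ segment ℝ a b :=
    fun hc => union_subset_union_right _ (singleton_subset_iff.2 hc)
  have J : JoinedIn (UU P Q W ∪ segment ℝ a b) r r' :=
    ((jr.mono (sub1 (left_mem_segment ℝ a b))).trans
      (JoinedIn.of_segment_subset subset_union_right)).trans
      (jr'.mono (sub1 (right_mem_segment ℝ a b))).symm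
  have J' : JoinedIn (UU P Q W' ∪ segment ℝ a' b') s s' :=
    ((js.mono (sub1 (left_mem_segment ℝ a' b'))).trans
      (JoinedIn.of_segment_subset subset_union_right)).trans
      (js'.mono (sub1 (right_mem_segment ℝ a' b'))).symm
  have hS : UU P Q W ∪ segment ℝ a b ⊆ UU P Q (W ∪ {u}) := by
    rw [UU_union]
    exact union_subset_union_right _ (hab.trans (sub_UU (mem_singleton u)))
  have hS' : UU P Q W' ∪ segment ℝ a' b' ⊆ UU P Q (W' ∪ {v}) := by
    rw [UU_union]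
    exact union_subset_union_right _ (hab'.trans (sub_UU (mem_singleton v)))
  obtain ⟨z, hz, hz'⟩ := hR.envI h hk hk' hl hl' hr hr' hs hs' hS hS'
    (fun x hx => by
      rcases hx with hx | hx
      · exact hW x hx
      · rw [mem_singleton_iff.1 hx]; exact hu)
    (fun x hx => by
      rcases hx with hx | hx
      · exact hW' x hx
      · rw [mem_singleton_iff.1 hx]; exact hv) J J'
  have d1 : Disjoint (UU P Q W) (UU P Q W') := hR.dU fun x hx y hy =>
    ⟨(hW x hx).1, (hW' y hy).1, n1 x hx y hy⟩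
  rcases hz with hz | hz
  · rcases hz' with hz' | hz'
    · exact absurd hz' (Set.disjoint_left.1 d1 hz)
    · exfalso
      obtain ⟨x, hx, hzx⟩ := mem_iUnion₂.1 hz
      exact hR.dj' (hW x hx).1 hv.1 (n2 x hx).1 (n2 x hx).2 hzx (hab' hz')
  · rcases hz' with hz' | hz'
    · exfalso
      obtain ⟨y, hy, hzy⟩ := mem_iUnion₂.1 hz'
      exact hR.dj' hu.1 (hW' y hy).1 (n3 y hy).1 (n3 y hy).2 (hab hz) hzy
    · exact ⟨z, hz, hz'⟩

end RS

end Run7.h749
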